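import Pool.Agent.ChG.DCdim

/-!
# The dimensions of the spaces of cycles: alternating sums
-/

namespace Pool.Agent.ChG

open Matrix Pool.Agent.ChP Pool.Agent.ChS
open scoped Pointwise

variable {n : ℕ} {K : AffineTriangulation n} {F M : Type} [Field F] [AddCommGroup M] [Module F M]

theorem dc_alt (o : Lab K) (C : Coef K F M) (g β : ℕ → ℕ) {J : ℕ}
    (hA : ∀ i ≤ J, Module.Finite F (Asp C (i + 1)) ∧ Module.finrank F (Asp C (i + 1)) = g i)
    (hB : ∀ i ≤ n, Module.Finite F (Bsp C (n + 1 - i)) ∧ Module.finrank F (Bsp C (n + 1 - i)) = β i) :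
    ∀ j, j ≤ J → j + 1 ≤ n → (∀ i ≤ j, ColRange C i) →
      (Module.finrank F (ZG C j) : ℤ) = Module.finrank F (ZB o C (n + 1 - j)) +
        ∑ i ∈ Finset.range j, (-1) ^ (j - 1 - i) * ((g i : ℤ) - β i) := by
  intro j
  induction j with
  | zero =>
    intro _ hj hcol
    rw [Finset.range_zero, Finset.sum_empty, add_zero]
    have h := dc_zero o C (by omega) (hcol 0 le_rfl) (hA 0 (by omega)).1 (hB 0 (by omega)).1
    rw [h]
    rfl
  | succ j ih =>
    intro hJ hj hcol
    have h1 := ih (by omega) (by omega) (fun i hi => hcol i (by omega))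
    have e1 : n + 1 - (j + 1) = n - j := by omega
    have h2 := dc_succ o C (j := j) (by omega) (hcol (j + 1) le_rfl) (hA j (by omega)).1 (hA (j + 1) hJ).1
      (hB j (by omega)).1 (by
        have := (hB (j + 1) (by omega)).1
        rw [e1] at this
        exact this)
    rw [(hA j (by omega)).2, (hB j (by omega)).2] at h2
    rw [Finset.sum_range_succ, e1]
    have h3 : ∑ i ∈ Finset.range j, (-1 : ℤ) ^ (j + 1 - 1 - i) * ((g i : ℤ) - β i) =
        -∑ i ∈ Finset.range j, (-1 : ℤ) ^ (j - 1 - i) * ((g i : ℤ) - β i) := by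
      rw [← Finset.sum_neg_distrib]
      refine Finset.sum_congr rfl fun i hi => ?_
      rw [Finset.mem_range] at hi
      have e2 : j + 1 - 1 - i = (j - 1 - i) + 1 := by omega
      rw [e2, pow_succ]
      ring
    have e3 : j + 1 - 1 - j = 0 := by omega
    rw [h3, e3, pow_zero, one_mul]
    have h4 : (Module.finrank F (ZG C (j + 1)) : ℤ) + Module.finrank F (ZG C j) + β j =
        Module.finrank F (ZB o C (n - j)) + Module.finrank F (ZB o C (n + 1 - j)) + g j := by
      exact_mod_cast h2
    linarith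

end Pool.Agent.ChG
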