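import Pool.Agent.ChG.DSp
import Pool.Agent.ChS.Flags
import Pool.Agent.ChS.StarEuler
import Pool.Agent.ChS.ChamBasic

/-!
# The Dehn-Sommerville relation

See `ChS/DS.lean` for the case `n = 4`.  Let `F_k` be the number of the elements of `R` with `k` vertices,
`F_{k+1} = K.numSimplices k` (`numSimplices_eq`), `R` a set of representatives, `F_k = 0` for `k > n + 1`.  For `j ≥ 1`
`star_euler` and `flag_count` give `∑_{k ≤ n+1} (-1)^k k.choose j * F_k = (-1)^(n+1) F_j = -F_j`, and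
`∑_{1 ≤ k ≤ n+1} (-1)^k F_k = -χ`.  So `P = ∑_{1 ≤ k ≤ n+1} F_k X^k` satisfies `P(-1-X) = -χ - P(X)`, and
`odd_poly` for `g = P + χ/2` is the claim (the summand `i = 0` is `(-1)^m (2m).choose m * χ`).
-/

namespace Pool.Agent.ChG

open Matrix Pool.Agent.ChP Pool.Agent.ChS

private theorem DSg_star {n : ℕ} (K : AffineTriangulation n) {ρ : Finset K.V} (hρ : ρ ∈ K.faces) :
    ∑ k ∈ Finset.range (n + 2), (-1 : ℤ) ^ k *
      ({τ | τ ∈ K.faces ∧ ρ ⊆ τ ∧ τ.card = k}.ncard : ℤ) = (-1) ^ (n + 1) := by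
  classical
  have h := star_euler K hρ
  have hmaps : ∀ τ ∈ (K.star_finite hρ).toFinset, τ.card ∈ Finset.range (n + 2) := by
    intro τ hτ
    rw [Set.Finite.mem_toFinset] at hτ
    have := K.card_le hτ.1
    rw [Finset.mem_range]
    omega
  rw [← Finset.sum_fiberwise_of_maps_to hmaps] at h
  refine Eq.trans ?_ h
  refine Finset.sum_congr rfl fun k _ => ?_
  have hset : {τ | τ ∈ K.faces ∧ ρ ⊆ τ ∧ τ.card = k} =
      (((K.star_finite hρ).toFinset.filter fun τ => τ.card = k : Finset (Finset K.V)) :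
        Set (Finset K.V)) := by
    ext τ
    rw [Finset.mem_coe, Finset.mem_filter, Set.Finite.mem_toFinset]
    simp only [Set.mem_ofPred_eq, and_assoc]
  rw [hset, Set.ncard_coe_finset]
  rw [Finset.sum_congr rfl (g := fun _ => (-1 : ℤ) ^ k)]
  · rw [Finset.sum_const, nsmul_eq_mul, mul_comm]
  · intro τ hτ
    rw [Finset.mem_filter] at hτ
    rw [hτ.2]

/-- the Dehn-Sommerville relations -/
private theorem DSg_rel {n : ℕ} (K : AffineTriangulation n) {R : Finset (Finset K.V)}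
    (hR : K.Reps R) {j : ℕ} (hj : 0 < j) :
    ∑ k ∈ Finset.range (n + 2), (-1 : ℤ) ^ k * ((k.choose j : ℤ) *
      ((R.filter fun σ => σ.card = k).card : ℤ)) =
      (-1) ^ (n + 1) * ((R.filter fun σ => σ.card = j).card : ℤ) := by
  classical
  have h : ∑ ρ ∈ R.filter (fun ρ => ρ.card = j), ∑ k ∈ Finset.range (n + 2), (-1 : ℤ) ^ k *
      ({τ | τ ∈ K.faces ∧ ρ ⊆ τ ∧ τ.card = k}.ncard : ℤ) =
      (-1) ^ (n + 1) * ((R.filter fun σ => σ.card = j).card : ℤ) := by
    rw [Finset.sum_congr rfl (g := fun _ => (-1 : ℤ) ^ (n + 1)) (fun ρ hρ => ?_)]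
    · rw [Finset.sum_const, nsmul_eq_mul, mul_comm]
    · rw [Finset.mem_filter] at hρ
      exact DSg_star K (hR.1 ρ hρ.1)
  rw [Finset.sum_comm] at h
  rw [← h]
  refine Finset.sum_congr rfl fun k _ => ?_
  rw [← Finset.mul_sum]
  congr 1
  have h3 := flag_count hR hj k
  rw [← Nat.cast_mul, ← h3, Nat.cast_sum]

private theorem DSg_big {n : ℕ} (K : AffineTriangulation n) {R : Finset (Finset K.V)}
    (hR : K.Reps R) {j : ℕ} (hj : n + 1 < j) : (R.filter fun σ => σ.card = j).card = 0 := by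
  classical
  rw [Finset.card_eq_zero, Finset.filter_eq_empty_iff]
  intro σ hσ h
  have := K.card_le (hR.1 σ hσ)
  omega

open Polynomial in
theorem dehn_sommerville_gen {n m : ℕ} (hn : n = 2 * m) (K : AffineTriangulation n) :
    (K.numSimplices n : ℤ) = (-1) ^ m * (n.choose m : ℤ) * K.eulerChar +
      2 * ∑ j ∈ Finset.range m, (-1) ^ (m - 1 - j) * ((n - 1 - j).choose (m - 1 - j) : ℤ) *
        (K.numSimplices j : ℤ) := by
  classical
  obtain ⟨R, hR⟩ := K.exists_reps
  have hF : ∀ k, K.numSimplices k = (R.filter fun σ => σ.card = k + 1).card :=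
    fun k => numSimplices_eq hR k
  have hbig : ∀ k, n < k → K.numSimplices k = 0 := fun k hk => by
    rw [hF]
    exact DSg_big K hR (by omega)
  have hsign : (-1 : ℤ) ^ (n + 1) = -1 := by
    rw [hn, pow_succ, pow_mul]
    norm_num
  have hrel : ∀ j, ∑ k ∈ Finset.range (n + 1), (-1 : ℤ) ^ (k + 1) * (((k + 1).choose (j + 1) : ℤ) *
      (K.numSimplices k : ℤ)) = -(K.numSimplices j : ℤ) := by
    intro j
    have h := DSg_rel K hR (Nat.succ_pos j)
    rw [hsign, Finset.sum_range_succ'] at h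
    rw [hF j]
    have h2 : ((Nat.choose 0 (Nat.succ j) : ℕ) : ℤ) = 0 := by
      rw [Nat.choose_zero_succ]
      rfl
    rw [h2, zero_mul, mul_zero, add_zero] at h
    rw [neg_one_mul] at h
    refine Eq.trans (Finset.sum_congr rfl fun k _ => ?_) h
    rw [hF k]
  have hchi : ∑ k ∈ Finset.range (n + 1), (-1 : ℤ) ^ (k + 1) * (K.numSimplices k : ℤ) =
      -K.eulerChar := by
    have h : K.eulerChar = ∑ k ∈ Finset.range (n + 1), (-1 : ℤ) ^ k * (K.numSimplices k : ℤ) := rfl
    rw [h, ← Finset.sum_neg_distrib]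
    refine Finset.sum_congr rfl fun k _ => ?_
    ring
  have hrel' : ∀ j, ∑ k ∈ Finset.range (n + 1), (K.numSimplices k : ℚ) *
      ((-1 : ℚ) ^ (k + 1) * ((k + 1).choose (j + 1) : ℚ)) = -(K.numSimplices j : ℚ) := by
    intro j
    have h := congrArg (fun z : ℤ => (z : ℚ)) (hrel j)
    simp only [Int.cast_sum, Int.cast_mul, Int.cast_pow, Int.cast_neg, Int.cast_one,
      Int.cast_natCast] at h
    rw [← h]
    refine Finset.sum_congr rfl fun k _ => ?_
    ring
  have hchi' : ∑ k ∈ Finset.range (n + 1), (K.numSimplices k : ℚ) * (-1 : ℚ) ^ (k + 1) =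
      -(K.eulerChar : ℚ) := by
    have h := congrArg (fun z : ℤ => (z : ℚ)) hchi
    simp only [Int.cast_sum, Int.cast_mul, Int.cast_pow, Int.cast_neg, Int.cast_one,
      Int.cast_natCast] at h
    rw [← h]
    refine Finset.sum_congr rfl fun k _ => ?_
    ring
  set g : ℚ[X] := C ((K.eulerChar : ℚ) / 2) +
    ∑ k ∈ Finset.range (n + 1), C (K.numSimplices k : ℚ) * X ^ (k + 1) with hg
  have hg0 : g.coeff 0 = (K.eulerChar : ℚ) / 2 := by
    rw [hg, coeff_add, coeff_C_zero, finsetSum_coeff, Finset.sum_eq_zero, add_zero]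
    intro k _
    rw [coeff_C_mul, coeff_X_pow, if_neg (by omega), mul_zero]
  have hg1 : ∀ j, g.coeff (j + 1) = (K.numSimplices j : ℚ) := by
    intro j
    rw [hg, coeff_add, coeff_C_succ, zero_add, finsetSum_coeff]
    have h1 : ∀ k ∈ Finset.range (n + 1), (C (K.numSimplices k : ℚ) * X ^ (k + 1) : ℚ[X]).coeff
        (j + 1) = if k = j then (K.numSimplices k : ℚ) else 0 := by
      intro k _
      rw [coeff_C_mul, coeff_X_pow]
      by_cases h : k = j
      · rw [if_pos (by omega), if_pos h, mul_one]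
      · rw [if_neg (by omega), if_neg h, mul_zero]
    rw [Finset.sum_congr rfl h1, Finset.sum_ite_eq']
    by_cases h : j ∈ Finset.range (n + 1)
    · rw [if_pos h]
    · rw [if_neg h, hbig j (by rw [Finset.mem_range] at h; omega)]
      norm_num
  have hcomp : g.comp (-1 - X) = -g := by
    have h1 : g.comp (-1 - X) = C ((K.eulerChar : ℚ) / 2) +
        ∑ k ∈ Finset.range (n + 1), C ((K.numSimplices k : ℚ) * (-1) ^ (k + 1)) *
          (X + 1) ^ (k + 1) := by
      rw [hg, add_comp, C_comp, Polynomial.sum_comp]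
      congr 1
      refine Finset.sum_congr rfl fun k _ => ?_
      rw [mul_comp, C_comp, X_pow_comp, C_mul, C_pow, C_neg, C_1, mul_assoc, ← mul_pow]
      congr 2
      ring
    rw [h1]
    ext j
    rw [coeff_neg, coeff_add, finsetSum_coeff]
    have h2 : ∀ k ∈ Finset.range (n + 1), (C ((K.numSimplices k : ℚ) * (-1) ^ (k + 1)) *
          (X + 1) ^ (k + 1) : ℚ[X]).coeff j = (K.numSimplices k : ℚ) *
          ((-1) ^ (k + 1) * ((k + 1).choose j : ℚ)) := by
      intro k _
      rw [coeff_C_mul, coeff_X_add_one_pow, mul_assoc]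
    rw [Finset.sum_congr rfl h2]
    rcases j with _ | j
    · rw [coeff_C_zero, hg0]
      have h3 : ∑ k ∈ Finset.range (n + 1), (K.numSimplices k : ℚ) *
          ((-1) ^ (k + 1) * ((k + 1).choose 0 : ℚ)) = -(K.eulerChar : ℚ) := by
        rw [← hchi']
        refine Finset.sum_congr rfl fun k _ => ?_
        rw [Nat.choose_zero_right, Nat.cast_one, mul_one]
      rw [h3]
      ring
    · rw [coeff_C_succ, zero_add, hrel', hg1]
  have hdeg : g.natDegree ≤ 2 * m + 1 := by
    rw [natDegree_le_iff_coeff_eq_zero]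
    intro k hk
    obtain ⟨k', rfl⟩ : ∃ k', k = k' + 1 := ⟨k - 1, by omega⟩
    rw [hg1, hbig k' (by omega)]
    norm_num
  have hmain := odd_poly m g hdeg hcomp
  rw [hg1, ← hn, Finset.sum_range_succ', hg0] at hmain
  have h4 : ∑ i ∈ Finset.range m, (-1 : ℚ) ^ (m - (i + 1)) * ((n - (i + 1)).choose (m - (i + 1)) : ℚ) *
      g.coeff (i + 1) = ((∑ j ∈ Finset.range m, (-1) ^ (m - 1 - j) *
        ((n - 1 - j).choose (m - 1 - j) : ℤ) * (K.numSimplices j : ℤ) : ℤ) : ℚ) := by
    rw [Int.cast_sum]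
    refine Finset.sum_congr rfl fun i _ => ?_
    rw [hg1]
    have e1 : m - (i + 1) = m - 1 - i := by omega
    have e2 : n - (i + 1) = n - 1 - i := by omega
    rw [e1, e2]
    push_cast
    ring
  rw [h4, Nat.sub_zero, Nat.sub_zero] at hmain
  have h5 : ((K.numSimplices n : ℤ) : ℚ) = (((-1) ^ m * (n.choose m : ℤ) * K.eulerChar +
      2 * ∑ j ∈ Finset.range m, (-1) ^ (m - 1 - j) * ((n - 1 - j).choose (m - 1 - j) : ℤ) *
        (K.numSimplices j : ℤ) : ℤ) : ℚ) := by
    rw [Int.cast_natCast, hmain, Int.cast_add, Int.cast_mul, Int.cast_mul 2]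
    push_cast
    ring
  exact_mod_cast h5

end Pool.Agent.ChG
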