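import Pool.Agent.ChS.ChamBasic

/-!
# Closed affine manifolds of even dimension and mod p homology: definitions

`K : AffineTriangulation n` is a triangulated regular covering of a closed affine manifold, `Γ` its
group of deck transformations, `o : Lab K` an invariant labelling of the vertices.
-/

namespace Pool.Agent.ChG

open Matrix Pool.Agent.ChP Pool.Agent.ChS
open scoped Pointwise

/-! ### Signs -/

/-- The sign of the position of `v` with respect to `σ`: `(-1)` to the number of elements of `σ` with a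
smaller label than `v`. -/
def sg {U : Type} (lab : U → ℕ) (v : U) (σ : Finset U) : ℤ :=
  (-1) ^ (σ.filter fun u => lab u < lab v).card

/-! ### Chains on complete fans -/

section Fan

variable {U : Type} [DecidableEq U]

/-- the vertices which can be added to `ρ` -/
def fnb (cones : Finset (Finset U)) (ρ : Finset U) : Finset U :=
  (cones.biUnion id).filter fun v => v ∉ ρ ∧ insert v ρ ∈ cones

/-- the boundary of a chain of a fan, with coefficients in an abelian group -/
def fbd {A : Type} [AddCommGroup A] (cones : Finset (Finset U)) (lab : U → ℕ) (c : Finset U → A)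
    (ρ : Finset U) : A :=
  ∑ v ∈ fnb cones ρ, sg lab v ρ • c (insert v ρ)

end Fan

section Tri

variable {n : ℕ} (K : AffineTriangulation n)

/-- The vertices which can be added to `ρ` (a finite set if `ρ` is a simplex). -/
noncomputable def nb (ρ : Finset K.V) : Finset K.V :=
  open Classical in
  if h : {v : K.V | v ∉ ρ ∧ insert v ρ ∈ K.faces}.Finite then h.toFinset else ∅

variable {K}

/-- The boundary of a (possibly infinite) chain of simplices. -/
noncomputable def bd (o : Lab K) {A : Type} [AddCommGroup A] (c : Finset K.V → A)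
    (ρ : Finset K.V) : A :=
  ∑ v ∈ nb K ρ, sg o.lab v ρ • c (insert v ρ)

/-- The coboundary of a simplicial cochain. -/
def cob (o : Lab K) {A : Type} [AddCommGroup A] (c : Finset K.V → A) (τ : Finset K.V) : A :=
  ∑ v ∈ τ, sg o.lab v τ • c (τ.erase v)

variable (K)

/-- The orientation character of the group of deck transformations, with integral values. -/
noncomputable def chZ (γ : K.Γ) : ℤ := (SignType.sign (K.lin γ).det : ℤ)

/-- The twisting factor `|det|^(1/2)`. -/
noncomputable def kapG (γ : K.Γ) : ℝ := Real.sqrt |(K.lin γ).det|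

variable {K}

/-- The orientation sign of a chamber, with vertices ordered by the labelling. -/
noncomputable def orZ (o : Lab K) (σ : Finset K.V) : ℤ :=
  open Classical in
  if h : ∃ t : Fin (n + 1) → K.V, Cham o t ∧ Finset.univ.image t = σ then
    (SignType.sign (Matrix.det (Matrix.of fun a : Fin n =>
      K.dev (h.choose a.succ) - K.dev (h.choose 0))) : ℤ)
  else 0

/-- The families on the simplices with `t` vertices, with values in prescribed subspaces, which are
equivariant for the action `τ`. -/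
def Sp {F M : Type} [Field F] [AddCommGroup M] [Module F M] (τ : K.Γ → M →ₗ[F] M)
    (L : Finset K.V → Submodule F M) (t : ℕ) : Submodule F (Finset K.V → M) where
  carrier := {a | (∀ I, a I ∈ L I) ∧ (∀ I, ¬ (I ∈ K.faces ∧ I.card = t) → a I = 0) ∧
    ∀ (γ : K.Γ) (I : Finset K.V), a (γ • I) = τ γ (a I)}
  add_mem' := by
    rintro a b ⟨ha, ha', ha''⟩ ⟨hb, hb', hb''⟩
    refine ⟨fun I => (L I).add_mem (ha I) (hb I), fun I h => ?_, fun γ I => ?_⟩
    · rw [Pi.add_apply, ha' I h, hb' I h, add_zero]
    · rw [Pi.add_apply, Pi.add_apply, ha'', hb'', map_add]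
  zero_mem' := ⟨fun I => (L I).zero_mem, fun I _ => rfl, fun γ I => by
    rw [Pi.zero_apply, Pi.zero_apply, map_zero]⟩
  smul_mem' := by
    rintro c a ⟨ha, ha', ha''⟩
    refine ⟨fun I => (L I).smul_mem c (ha I), fun I h => ?_, fun γ I => ?_⟩
    · rw [Pi.smul_apply, ha' I h, smul_zero]
    · rw [Pi.smul_apply, Pi.smul_apply, ha'', map_smul]

end Tri

/-! ### Coefficient systems and the double complex -/

section Coefs

variable {n : ℕ} {K : AffineTriangulation n} {F M : Type} [Field F] [AddCommGroup M] [Module F M]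

/-- A coefficient system: for every simplex `I` a subspace `L I` of `M`, an action of the group of deck
transformations and anticommuting maps `D v I : L I → L (insert v I)`. -/
structure Coef (K : AffineTriangulation n) (F M : Type) [Field F] [AddCommGroup M]
    [Module F M] where
  /-- the action of the group of deck transformations -/
  act : K.Γ →* Module.End F M
  /-- the subspaces -/
  L : Finset K.V → Submodule F M
  /-- the differential -/
  D : K.V → Finset K.V → M →ₗ[F] M
  act_L : ∀ (γ : K.Γ) (I : Finset K.V), ∀ x ∈ L I, act γ x ∈ L (γ • I)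
  D_L : ∀ (v : K.V) (I : Finset K.V), v ∉ I → ∀ x ∈ L I, D v I x ∈ L (insert v I)
  D_act : ∀ (γ : K.Γ) (v : K.V) (I : Finset K.V) (x : M),
    act γ (D v I x) = D (γ • v) (γ • I) (act γ x)
  D_D : ∀ (σ : Finset K.V), σ ∈ K.faces → ∀ (u v : K.V) (I : Finset K.V), u ≠ v → u ∉ I → v ∉ I →
    insert u (insert v I) ⊆ σ → ∀ x ∈ L I,
    D u (insert v I) (D v I x) + D v (insert u I) (D u I x) = 0

/-- the differential at a fixed simplex -/
def dcol (C : Coef K F M) (a : Finset K.V → M) (I : Finset K.V) : M :=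
  ∑ v ∈ I, C.D v (I.erase v) (a (I.erase v))

/-- The double complex: families `c ρ I` on the pairs of simplices `I ⊆ ρ`, `ρ.card = t`,
`I.card = q` (`I` may be empty). -/
def Xsp (C : Coef K F M) (t q : ℕ) : Submodule F (Finset K.V → Finset K.V → M) where
  carrier := {c | (∀ ρ I, c ρ I ∈ C.L I) ∧
    (∀ ρ I, ¬ (ρ ∈ K.faces ∧ ρ.card = t ∧ I ⊆ ρ ∧ I.card = q) → c ρ I = 0) ∧
    ∀ (γ : K.Γ) (ρ I : Finset K.V), c (γ • ρ) (γ • I) = C.act γ (c ρ I)}
  add_mem' := by
    rintro a b ⟨ha, ha', ha''⟩ ⟨hb, hb', hb''⟩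
    refine ⟨fun ρ I => (C.L I).add_mem (ha ρ I) (hb ρ I), fun ρ I h => ?_, fun γ ρ I => ?_⟩
    · rw [Pi.add_apply, Pi.add_apply, ha' ρ I h, hb' ρ I h, add_zero]
    · simp only [Pi.add_apply]
      rw [ha'', hb'', map_add]
  zero_mem' := ⟨fun ρ I => (C.L I).zero_mem, fun ρ I _ => rfl, fun γ ρ I => by
    simp only [Pi.zero_apply]
    rw [map_zero]⟩
  smul_mem' := by
    rintro c a ⟨ha, ha', ha''⟩
    refine ⟨fun ρ I => (C.L I).smul_mem c (ha ρ I), fun ρ I h => ?_, fun γ ρ I => ?_⟩
    · rw [Pi.smul_apply, Pi.smul_apply, ha' ρ I h, smul_zero]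
    · simp only [Pi.smul_apply]
      rw [ha'', map_smul]

/-- the differential of the double complex which lowers the dimension of `ρ` -/
noncomputable def dl (o : Lab K) (c : Finset K.V → Finset K.V → M) (ρ I : Finset K.V) : M :=
  open Classical in
  if ρ ∈ K.faces ∧ I ⊆ ρ then bd o (fun ρ' => c ρ' I) ρ else 0

/-- the differential of the double complex which raises the dimension of `I` -/
noncomputable def dd (C : Coef K F M) (c : Finset K.V → Finset K.V → M) (ρ I : Finset K.V) : M :=
  open Classical in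
  if I ⊆ ρ then dcol C (c ρ) I else 0

/-- The families on the simplices with `q` vertices, twisted by the orientation character. -/
noncomputable def Asp (C : Coef K F M) (q : ℕ) : Submodule F (Finset K.V → M) :=
  Sp (fun γ => chZ K γ • C.act γ) C.L q

/-- The chains with `t` vertices with values in `L ∅`. -/
def Bsp (C : Coef K F M) (t : ℕ) : Submodule F (Finset K.V → M) :=
  Sp (fun γ => C.act γ) (fun _ => C.L ∅) t

/-- The locally exact families on the simplices with `j + 1` vertices. -/
noncomputable def ZG (C : Coef K F M) (j : ℕ) : Submodule F (Finset K.V → M) where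
  carrier := {a | a ∈ Asp C (j + 1) ∧ ∀ σ ∈ K.faces, σ.card = n + 1 →
    ∃ b : Finset K.V → M, (∀ J, b J ∈ C.L J) ∧ ∀ I ⊆ σ, I.card = j + 1 → dcol C b I = a I}
  add_mem' := by
    rintro a a' ⟨ha, ha'⟩ ⟨hb, hb'⟩
    refine ⟨(Asp C (j + 1)).add_mem ha hb, fun σ hσ hc => ?_⟩
    obtain ⟨b, h1, h2⟩ := ha' σ hσ hc
    obtain ⟨b', h1', h2'⟩ := hb' σ hσ hc
    refine ⟨b + b', fun J => (C.L J).add_mem (h1 J) (h1' J), fun I hI hIc => ?_⟩
    rw [Pi.add_apply, ← h2 I hI hIc, ← h2' I hI hIc]
    unfold dcol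
    rw [← Finset.sum_add_distrib]
    exact Finset.sum_congr rfl fun v _ => by rw [Pi.add_apply, map_add]
  zero_mem' := ⟨(Asp C (j + 1)).zero_mem, fun σ _ _ => ⟨0, fun J => (C.L J).zero_mem,
    fun I _ _ => by
      unfold dcol
      rw [Pi.zero_apply]
      exact Finset.sum_eq_zero fun v _ => by rw [Pi.zero_apply, map_zero]⟩⟩
  smul_mem' := by
    rintro c a ⟨ha, ha'⟩
    refine ⟨(Asp C (j + 1)).smul_mem c ha, fun σ hσ hc => ?_⟩
    obtain ⟨b, h1, h2⟩ := ha' σ hσ hc
    refine ⟨c • b, fun J => (C.L J).smul_mem c (h1 J), fun I hI hIc => ?_⟩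
    rw [Pi.smul_apply, ← h2 I hI hIc]
    unfold dcol
    rw [Finset.smul_sum]
    exact Finset.sum_congr rfl fun v _ => by rw [Pi.smul_apply, map_smul]

/-- The cycles with `t` vertices. -/
noncomputable def ZB (o : Lab K) (C : Coef K F M) (t : ℕ) : Submodule F (Finset K.V → M) where
  carrier := {b | b ∈ Bsp C t ∧ ∀ ρ ∈ K.faces, bd o b ρ = 0}
  add_mem' := by
    rintro a a' ⟨ha, ha'⟩ ⟨hb, hb'⟩
    refine ⟨(Bsp C t).add_mem ha hb, fun ρ hρ => ?_⟩
    have h1 := ha' ρ hρ
    have h2 := hb' ρ hρ
    unfold bd at h1 h2 ⊢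
    simp only [Pi.add_apply, smul_add]
    rw [Finset.sum_add_distrib, h1, h2, add_zero]
  zero_mem' := ⟨(Bsp C t).zero_mem, fun ρ _ => by
    unfold bd
    exact Finset.sum_eq_zero fun v _ => by rw [Pi.zero_apply, smul_zero]⟩
  smul_mem' := by
    rintro c a ⟨ha, ha'⟩
    refine ⟨(Bsp C t).smul_mem c ha, fun ρ hρ => ?_⟩
    have h1 := ha' ρ hρ
    unfold bd at h1 ⊢
    have h2 : ∀ v, sg o.lab v ρ • (c • a) (insert v ρ) = c • (sg o.lab v ρ • a (insert v ρ)) :=
      fun v => by rw [Pi.smul_apply, smul_comm]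
    simp only [h2]
    rw [← Finset.smul_sum, h1, smul_zero]

/-- Exactness of the columns: for every simplex `ρ` with `t` vertices a closed family on the subsets
of `ρ` with `q` elements is exact. -/
def ColEx (C : Coef K F M) (t q : ℕ) : Prop :=
  ∀ ρ ∈ K.faces, ρ.card = t → ∀ a : Finset K.V → M, (∀ I, a I ∈ C.L I) →
    (∀ I ⊆ ρ, I.card = q + 1 → dcol C a I = 0) →
    (q = 0 → a ∅ = 0) ∧
    (0 < q → ∃ b : Finset K.V → M, (∀ J, b J ∈ C.L J) ∧ ∀ I ⊆ ρ, I.card = q → dcol C b I = a I)

end Coefs

end Pool.Agent.ChG
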