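import Pool.Agent.ChG.LDefs
import Pool.Agent.ChS.Scal

/-!
# Behaviour of the quadratic cocycle under linear maps
-/

namespace Pool.Agent.ChG

open Matrix Pool.Agent.ChP Pool.Agent.ChS

theorem LLg_mulVec {n : ℕ} (m : ℕ) (c : ℝ) (C : Finset (Fin (n + 1)) → ℝ)
    (s : Fin (n + 1) → Fin n → ℝ) (g : Matrix (Fin n) (Fin n) ℝ) :
    LLg m (fun J => c * C J) (fun i => g *ᵥ s i) = c * g.det ^ m * LLg m C s := by
  unfold LLg
  rw [Finset.mul_sum]
  refine Finset.sum_congr rfl fun J hJ => ?_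
  rw [Finset.mem_powersetCard] at hJ
  simp_rw [tco_mulVec]
  rw [Finset.prod_mul_distrib, Finset.prod_const, hJ.2]
  ring

/-- the sign of the determinant comes out of the quadratic form -/
theorem BBg_mulVec {n m : ℕ} (hn : n = 2 * m) (C : Finset (Fin (n + 1)) → ℝ)
    (s : Fin (n + 1) → Fin n → ℝ) (g : Matrix (Fin n) (Fin n) ℝ) (hg : g.det ≠ 0) :
    BBg m (fun J => Real.sqrt |g.det| * C J) (fun i => g *ᵥ s i) =
      Real.sign g.det * BBg m C s := by
  unfold BBg
  rw [LLg_mulVec]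
  have h1 : ∏ i, tco (fun i => g *ᵥ s i) i = g.det ^ (2 * m + 1) * ∏ i, tco s i := by
    simp_rw [tco_mulVec]
    rw [Finset.prod_mul_distrib, Finset.prod_const, Finset.card_univ, Fintype.card_fin]
    have e : n + 1 = 2 * m + 1 := by omega
    congr 1
    exact congrArg _ e
  rw [h1]
  have h2 : Real.sqrt |g.det| ^ 2 = |g.det| := Real.sq_sqrt (abs_nonneg _)
  have h3 : (Real.sqrt |g.det| * g.det ^ m * LLg m C s) ^ 2 =
      |g.det| * g.det ^ (2 * m) * LLg m C s ^ 2 := by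
    calc (Real.sqrt |g.det| * g.det ^ m * LLg m C s) ^ 2 =
        Real.sqrt |g.det| ^ 2 * g.det ^ (2 * m) * LLg m C s ^ 2 := by ring
      _ = _ := by rw [h2]
  rw [h3]
  have h4 : |g.det| = Real.sign g.det * g.det := by
    rcases lt_or_gt_of_ne hg with h | h
    · rw [Real.sign_of_neg h, abs_of_neg h]; ring
    · rw [Real.sign_of_pos h, abs_of_pos h]; ring
  rw [h4]
  by_cases h5 : ∏ i, tco s i = 0
  · rw [h5]; simp
  · field_simp
    ring

end Pool.Agent.ChG
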