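import Pool.Agent.ChG.Lag
import Pool.Agent.ChG.LSc
import Pool.Agent.ChG.Defs
import Pool.Agent.ChS.WCham
import Pool.Agent.ChP.Prism

/-!
# The functions on the simplices with `m` vertices give an isotropic subspace

The same proof as `ChS/Isot.lean` (dimension 4, `m = 2`); the prism identity `Isot_prism` there is for all
dimensions but private: copy it.  Let `X = K.V × Bool`, `S (x, false) = s x`, `S (x, true) = s' x`,
`C' J = C (J.image Prod.fst)` if all elements of `J` have second component `false`, `C' J = 0` otherwise.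
For `y : Fin (n + 1) → X` let `F y = BBg m (fun J => C' (J.image y)) (S ∘ y)`; `F (γ • y) = chi lin γ * F y` by
`BBg_mulVec`.  The cocycle identity for the tuples `(t_0^false, ..., t_i^false, t_i^true, ..., t_n^true)`
follows from `BBg_cocycle` (with `C'' J = C' (J.image T)`) and `GenPos2`.  For `y = t^true` all `C' (J.image y)` vanish
for `J.card = m > 0`.
-/

namespace Pool.Agent.ChG

open Matrix Pool.Agent.ChP Pool.Agent.ChS
open scoped Pointwise

variable {n : ℕ} {K : AffineTriangulation n}

/-- The map `succAbove` on natural numbers. -/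
private def Isog_sA (j x : ℕ) : ℕ := if x < j then x else x + 1

private theorem Isog_sA_eq {n : ℕ} (j : Fin (n + 1)) (x : Fin n) :
    ((j.succAbove x : Fin (n + 1)) : ℕ) = Isog_sA j x := by
  unfold Isog_sA
  by_cases h : (x : ℕ) < j
  · rw [if_pos h, Fin.succAbove_of_castSucc_lt _ _ (by rw [Fin.lt_def]; exact h)]
    rfl
  · rw [if_neg h, Fin.succAbove_of_le_castSucc _ _ (by rw [Fin.le_def]; simpa using h)]
    rfl

/-- The tuple `t`, extended to natural numbers. -/
private def Isog_tN {n : ℕ} {X : Type*} (t : Fin (n + 1) → X) (k : ℕ) : X :=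
  if h : k < n + 1 then t ⟨k, h⟩ else t 0

private theorem Isog_tN_coe {n : ℕ} {X : Type*} (t : Fin (n + 1) → X) (k : Fin (n + 1)) :
    Isog_tN t k = t k := by
  unfold Isog_tN
  rw [dif_pos k.2]

private theorem Isog_tN_succAbove {n : ℕ} {X : Type*} (t : Fin (n + 1) → X) (j : Fin (n + 1))
    (x : ℕ) (hx : x < n) : t (j.succAbove ⟨x, hx⟩) = Isog_tN t (Isog_sA j x) := by
  rw [← Isog_tN_coe t, Isog_sA_eq]

/-- The tuple `(a t_0, ..., a t_i, b t_i, ..., b t_n)`. -/
private def Isog_T {n : ℕ} {X Y : Type*} (a b : X → Y) (t : Fin (n + 1) → X) (i : ℕ) (k : ℕ) :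
    Y :=
  if k ≤ i then a (Isog_tN t k) else b (Isog_tN t (k - 1))

private theorem Isog_phi {n : ℕ} {X Y : Type*} (c : (Fin (n + 1) → Y) → ℝ) (a b : X → Y)
    (t : Fin (n + 1) → X) (j : Fin (n + 1)) :
    prismPhi c a b (fun i => t (j.succAbove i)) = ∑ i : Fin n, (-1) ^ (i : ℕ) *
      c (fun k : Fin (n + 1) => if (k : ℕ) ≤ i then a (Isog_tN t (Isog_sA j k))
        else b (Isog_tN t (Isog_sA j (k - 1)))) := by
  unfold prismPhi
  refine Finset.sum_congr rfl fun i _ => ?_
  congr 2
  funext k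
  by_cases h : (k : ℕ) ≤ i
  · rw [dif_pos h, if_pos h]
    exact congrArg a (Isog_tN_succAbove t j k _)
  · rw [dif_neg h, if_neg h]
    exact congrArg b (Isog_tN_succAbove t j ((k : ℕ) - 1) _)

private theorem Isog_key {n : ℕ} {X Y : Type*} (c : (Fin (n + 1) → Y) → ℝ) (a b : X → Y)
    (t : Fin (n + 1) → X) (i : Fin (n + 1)) (q : Fin n) :
    (-1) ^ (i : ℕ) * ((-1) ^ ((i.castSucc.succAbove (i.succAbove q) : Fin (n + 2)) : ℕ) *
      c (fun k => Isog_T a b t i ((i.castSucc.succAbove (i.succAbove q)).succAbove k))) =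
    -((-1) ^ ((i.succAbove q : Fin (n + 1)) : ℕ) * ((-1) ^ ((q.predAbove i : Fin n) : ℕ) *
      c (fun k : Fin (n + 1) => if (k : ℕ) ≤ (q.predAbove i : Fin n) then
          a (Isog_tN t (Isog_sA (i.succAbove q : Fin (n + 1)) k))
        else b (Isog_tN t (Isog_sA (i.succAbove q : Fin (n + 1)) (k - 1)))))) := by
  by_cases h : (q : ℕ) < i
  · have e1 : ((i.succAbove q : Fin (n + 1)) : ℕ) = q := by
      rw [Isog_sA_eq, Isog_sA, if_pos h]
    have e2 : ((i.castSucc.succAbove (i.succAbove q) : Fin (n + 2)) : ℕ) = q := by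
      rw [Isog_sA_eq, e1, Isog_sA, Fin.val_castSucc, if_pos h]
    have e3 : ((q.predAbove i : Fin n) : ℕ) = (i : ℕ) - 1 := by
      rw [Fin.predAbove_of_castSucc_lt _ _ (by rw [Fin.lt_def]; exact h), Fin.val_pred]
    have e4 : (fun k : Fin (n + 1) => Isog_T a b t i
        (((i.castSucc.succAbove (i.succAbove q)).succAbove k : Fin (n + 2)) : ℕ)) =
        (fun k : Fin (n + 1) => if (k : ℕ) ≤ (q.predAbove i : Fin n) then
          a (Isog_tN t (Isog_sA (i.succAbove q : Fin (n + 1)) k))
        else b (Isog_tN t (Isog_sA (i.succAbove q : Fin (n + 1)) (k - 1)))) := by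
      funext k
      rw [Isog_sA_eq, e1, e2, e3]
      unfold Isog_T Isog_sA
      by_cases h1 : (k : ℕ) < q
      · rw [if_pos h1, if_pos (by omega), if_pos (by omega)]
      · rw [if_neg h1]
        by_cases h2 : (k : ℕ) + 1 ≤ i
        · rw [if_pos h2, if_pos (by omega)]
        · rw [if_neg h2, if_neg (by omega)]
          have h3 : ¬ ((k : ℕ) - 1 < q) := by omega
          rw [if_neg h3]
          congr 2
          omega
    rw [e4, e1, e2, e3]
    obtain ⟨m, hm⟩ : ∃ m, (i : ℕ) = m + 1 := ⟨(i : ℕ) - 1, by omega⟩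
    rw [hm, Nat.add_sub_cancel, pow_succ]
    ring
  · have e1 : ((i.succAbove q : Fin (n + 1)) : ℕ) = q + 1 := by
      rw [Isog_sA_eq, Isog_sA, if_neg h]
    have e2 : ((i.castSucc.succAbove (i.succAbove q) : Fin (n + 2)) : ℕ) = q + 2 := by
      rw [Isog_sA_eq, e1, Isog_sA, Fin.val_castSucc, if_neg (by omega)]
    have e3 : ((q.predAbove i : Fin n) : ℕ) = (i : ℕ) := by
      rw [Fin.predAbove_of_le_castSucc _ _ (by rw [Fin.le_def]; simpa using h)]
      rfl
    have e4 : (fun k : Fin (n + 1) => Isog_T a b t i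
        (((i.castSucc.succAbove (i.succAbove q)).succAbove k : Fin (n + 2)) : ℕ)) =
        (fun k : Fin (n + 1) => if (k : ℕ) ≤ (q.predAbove i : Fin n) then
          a (Isog_tN t (Isog_sA (i.succAbove q : Fin (n + 1)) k))
        else b (Isog_tN t (Isog_sA (i.succAbove q : Fin (n + 1)) (k - 1)))) := by
      funext k
      rw [Isog_sA_eq, e1, e2, e3]
      unfold Isog_T Isog_sA
      by_cases h1 : (k : ℕ) < q + 2
      · rw [if_pos h1]
        by_cases h2 : (k : ℕ) ≤ i
        · rw [if_pos h2, if_pos h2, if_pos (by omega)]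
        · rw [if_neg h2, if_neg h2, if_pos (by omega)]
      · rw [if_neg h1, if_neg (by omega), if_neg (by omega), if_neg (by omega)]
        congr 2
        omega
    rw [e4, e1, e2, e3, pow_succ, pow_succ]
    ring

/-- The prism identity, using the cocycle identity for the tuples
`(a t_0, ..., a t_i, b t_i, ..., b t_n)` only. -/
private theorem Isog_prism {n : ℕ} {X Y : Type*} (c : (Fin (n + 1) → Y) → ℝ)
    (a b : X → Y) (t : Fin (n + 1) → X)
    (hT : ∀ i : Fin (n + 1), ∑ j : Fin (n + 2), (-1) ^ (j : ℕ) *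
      c (fun k => Isog_T a b t i ((j.succAbove k : Fin (n + 2)) : ℕ)) = 0) :
    ∑ j : Fin (n + 1), (-1) ^ (j : ℕ) * prismPhi c a b (fun i => t (j.succAbove i)) =
      c (fun i => b (t i)) - c (fun i => a (t i)) := by
  -- the tuples `E_i = (a t_0, ..., a t_{i-1}, b t_i, ..., b t_n)`
  let E : ℕ → Fin (n + 1) → Y := fun i k => if (k : ℕ) < i then a (t k) else b (t k)
  have hE0 : E 0 = fun i => b (t i) := by
    funext k
    simp [E]
  have hE1 : E (n + 1) = fun i => a (t i) := by
    funext k
    simp [E, k.2]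
  have hsplit : ∀ i : Fin (n + 1), (-1 : ℝ) ^ (i : ℕ) * (∑ j : Fin (n + 2), (-1) ^ (j : ℕ) *
      c (fun k => Isog_T a b t i ((j.succAbove k : Fin (n + 2)) : ℕ))) =
      (c (E i) - c (E (i + 1))) + ∑ q : Fin n, (-1) ^ (i : ℕ) *
        ((-1) ^ ((i.castSucc.succAbove (i.succAbove q) : Fin (n + 2)) : ℕ) *
      c (fun k => Isog_T a b t i ((i.castSucc.succAbove (i.succAbove q)).succAbove k))) := by
    intro i
    rw [Fin.sum_univ_succAbove _ i.castSucc, Fin.sum_univ_succAbove _ i]
    have e0 : (i.castSucc.succAbove i : Fin (n + 2)) = i.succ := by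
      rw [Fin.succAbove_castSucc_self]
    have e1 : (fun k : Fin (n + 1) => Isog_T a b t i
        ((i.castSucc.succAbove k : Fin (n + 2)) : ℕ)) = E i := by
      funext k
      rw [Isog_sA_eq, Fin.val_castSucc]
      unfold Isog_T Isog_sA
      change _ = if (k : ℕ) < i then a (t k) else b (t k)
      by_cases h : (k : ℕ) < i
      · rw [if_pos h, if_pos h, if_pos (by omega), Isog_tN_coe]
      · rw [if_neg h, if_neg h, if_neg (by omega), Nat.add_sub_cancel, Isog_tN_coe]
    have e2 : (fun k : Fin (n + 1) => Isog_T a b t i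
        ((i.succ.succAbove k : Fin (n + 2)) : ℕ)) = E (i + 1) := by
      funext k
      rw [Isog_sA_eq, Fin.val_succ]
      unfold Isog_T Isog_sA
      change _ = if (k : ℕ) < (i : ℕ) + 1 then a (t k) else b (t k)
      by_cases h : (k : ℕ) < (i : ℕ) + 1
      · rw [if_pos h, if_pos h, if_pos (by omega), Isog_tN_coe]
      · rw [if_neg h, if_neg h, if_neg (by omega), Nat.add_sub_cancel, Isog_tN_coe]
    rw [e0, e1, e2, Fin.val_castSucc, Fin.val_succ, mul_add, mul_add, Finset.mul_sum, pow_succ]
    have hs : ((-1 : ℝ) ^ (i : ℕ)) * (-1) ^ (i : ℕ) = 1 := by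
      rw [← mul_pow]
      norm_num
    linear_combination (c (E i) - c (E (i + 1))) * hs
  have htel : ∑ i : Fin (n + 1), (c (E i) - c (E (i + 1))) = c (E 0) - c (E (n + 1)) := by
    rw [Fin.sum_univ_eq_sum_range (fun i => c (E i) - c (E (i + 1))) (n + 1),
      Finset.sum_range_sub']
  have hsum : ∑ i : Fin (n + 1), ((c (E i) - c (E (i + 1))) + ∑ q : Fin n, (-1) ^ (i : ℕ) *
        ((-1) ^ ((i.castSucc.succAbove (i.succAbove q) : Fin (n + 2)) : ℕ) *
      c (fun k => Isog_T a b t i ((i.castSucc.succAbove (i.succAbove q)).succAbove k)))) = 0 := by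
    rw [← Finset.sum_congr rfl fun i _ => hsplit i]
    refine Finset.sum_eq_zero fun i _ => ?_
    rw [hT i, mul_zero]
  rw [Finset.sum_add_distrib, htel, hE0, hE1] at hsum
  have hre : ∑ i : Fin (n + 1), ∑ q : Fin n, (-1) ^ (i : ℕ) *
        ((-1) ^ ((i.castSucc.succAbove (i.succAbove q) : Fin (n + 2)) : ℕ) *
      c (fun k => Isog_T a b t i ((i.castSucc.succAbove (i.succAbove q)).succAbove k))) =
      -∑ j : Fin (n + 1), (-1) ^ (j : ℕ) * prismPhi c a b (fun i => t (j.succAbove i)) := by
    simp_rw [Isog_phi, Finset.mul_sum, ← Finset.sum_neg_distrib]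
    rw [← Finset.sum_product', ← Finset.sum_product']
    refine Finset.sum_bij' (fun x _ => (x.1.succAbove x.2, x.2.predAbove x.1))
      (fun x _ => (x.1.succAbove x.2, x.2.predAbove x.1)) (fun x _ => by simp) (fun x _ => by simp)
      ?_ ?_ ?_
    · rintro ⟨i, q⟩ _
      simp only [Fin.succAbove_succAbove_predAbove, Fin.predAbove_predAbove_succAbove]
    · rintro ⟨i, q⟩ _
      simp only [Fin.succAbove_succAbove_predAbove, Fin.predAbove_predAbove_succAbove]
    · rintro ⟨i, q⟩ _
      exact Isog_key c a b t i q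
  rw [hre] at hsum
  linarith

private theorem Isog_det_ne {n : ℕ} {Γ : Type*} [Group Γ]
    (ρ : Γ →* Matrix (Fin n) (Fin n) ℝ) (γ : Γ) : (ρ γ).det ≠ 0 := by
  have h : (ρ γ).det * (ρ γ⁻¹).det = 1 := by
    rw [← Matrix.det_mul, ← map_mul, mul_inv_cancel, map_one, Matrix.det_one]
  exact left_ne_zero_of_mul_eq_one h


/-- the vector field on the doubled vertex set -/
private def Isog_S (s s' : K.V → Fin n → ℝ) (x : K.V × Bool) : Fin n → ℝ :=
  if x.2 then s' x.1 else s x.1

open Classical in
/-- the function on the doubled simplices -/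
private noncomputable def Isog_C (C : Finset K.V → ℝ) (J : Finset (K.V × Bool)) : ℝ :=
  if ∃ x ∈ J, x.2 = true then 0 else C (J.image Prod.fst)

/-- the quadratic cocycle on the doubled vertex set -/
private noncomputable def Isog_F (m : ℕ) (s s' : K.V → Fin n → ℝ) (C : Finset K.V → ℝ)
    (y : Fin (n + 1) → K.V × Bool) : ℝ :=
  BBg m (fun J => Isog_C C (J.image y)) (fun i => Isog_S s s' (y i))

private theorem Isog_F_smul {m : ℕ} (hn : n = 2 * m) (s s' : K.V → Fin n → ℝ) (hs : Equi K s)
    (hs' : Equi K s') (C : Finset K.V → ℝ)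
    (hC : ∀ (γ : K.Γ) (I : Finset K.V), C (γ • I) = kapG K γ * C I)
    (γ : K.Γ) (y : Fin (n + 1) → K.V × Bool) :
    Isog_F m s s' C (fun i => (γ • (y i).1, (y i).2)) = chi K.lin γ * Isog_F m s s' C y := by
  unfold Isog_F chi
  rw [← BBg_mulVec hn _ _ _ (Isog_det_ne K.lin γ)]
  congr 1
  · funext J
    unfold Isog_C
    by_cases h : ∃ x ∈ J.image y, x.2 = true
    · have h' : ∃ x ∈ J.image (fun i => (γ • (y i).1, (y i).2)), x.2 = true := by
        obtain ⟨x, hx, hx2⟩ := h
        obtain ⟨i, hi, rfl⟩ := Finset.mem_image.1 hx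
        exact ⟨_, Finset.mem_image_of_mem _ hi, hx2⟩
      rw [if_pos h, if_pos h', mul_zero]
    · have h' : ¬ ∃ x ∈ J.image (fun i => (γ • (y i).1, (y i).2)), x.2 = true := by
        rintro ⟨x, hx, hx2⟩
        obtain ⟨i, hi, rfl⟩ := Finset.mem_image.1 hx
        exact h ⟨_, Finset.mem_image_of_mem _ hi, hx2⟩
      rw [if_neg h, if_neg h']
      have e : (J.image (fun i => (γ • (y i).1, (y i).2))).image Prod.fst =
          γ • (J.image y).image Prod.fst := by
        rw [Finset.image_image, Finset.image_image, Finset.smul_finset_def, Finset.image_image]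
        rfl
      rw [e]
      exact hC γ _
  · funext i
    unfold Isog_S
    simp only
    split_ifs
    · exact hs' γ _
    · exact hs γ _

private theorem Isog_cocycle {m : ℕ} (hn : n = 2 * m) {o : Lab K} {s s' : K.V → Fin n → ℝ}
    (hg : GenPos2 o s s') (C : Finset K.V → ℝ) {t : Fin (n + 1) → K.V} (ht : Cham o t)
    (i : Fin (n + 1)) :
    ∑ j : Fin (n + 2), (-1) ^ (j : ℕ) *
      Isog_F m s s' C (fun k => Isog_T (fun v => (v, false)) (fun v => (v, true)) t i
        ((j.succAbove k : Fin (n + 2)) : ℕ)) = 0 := by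
  unfold Isog_F
  have h0 := BBg_cocycle hn (fun J : Finset (Fin (n + 2)) => Isog_C C
    (J.image fun k : Fin (n + 2) =>
      Isog_T (fun v => (v, false)) (fun v => (v, true)) t i (k : ℕ)))
    (fun k => Isog_S s s' (Isog_T (fun v => (v, false)) (fun v => (v, true)) t i (k : ℕ))) ?_
  · rw [← h0]
    refine Finset.sum_congr rfl fun j _ => ?_
    congr 2
    funext J
    rw [Finset.map_eq_image, Finset.image_image]
    rfl
  intro e
  -- the embedding of the vertices of the prism simplex in `Fin (n + 1) × Bool`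
  let f : Fin (n + 2) → Fin (n + 1) × Bool := fun k =>
    if h : (k : ℕ) ≤ i then (⟨k, by omega⟩, false) else (⟨k - 1, by omega⟩, true)
  have hf : Function.Injective f := by
    intro k l hkl
    by_cases hk : (k : ℕ) ≤ i <;> by_cases hl : (l : ℕ) ≤ i
    · simp only [f, dif_pos hk, dif_pos hl, Prod.mk.injEq, Fin.mk.injEq, and_true] at hkl
      exact Fin.ext hkl
    · simp [f, dif_pos hk, dif_neg hl] at hkl
    · simp [f, dif_neg hk, dif_pos hl] at hkl
    · simp only [f, dif_neg hk, dif_neg hl, Prod.mk.injEq, Fin.mk.injEq, and_true] at hkl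
      exact Fin.ext (by omega)
  have h := hg t ht ⟨fun a => f (e a), hf.comp e.injective⟩
  have e1 : (Matrix.of fun a b : Fin n => Isog_S s s' (Isog_T (fun v => (v, false))
      (fun v => (v, true)) t i ((e a : Fin (n + 2)) : ℕ)) b) =
      (Matrix.of fun a b : Fin n => (if (f (e a)).2 then s' (t (f (e a)).1)
        else s (t (f (e a)).1)) b) := by
    ext a b
    simp only [Matrix.of_apply]
    unfold Isog_S Isog_T
    by_cases hk : ((e a : Fin (n + 2)) : ℕ) ≤ i
    · have h2 : f (e a) = (⟨(e a : Fin (n + 2)), by omega⟩, false) := by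
        simp only [f, dif_pos hk]
      rw [if_pos hk, h2]
      simp only
      rw [← Isog_tN_coe t]
    · have h2 : f (e a) = (⟨(e a : Fin (n + 2)) - 1, by omega⟩, true) := by
        simp only [f, dif_neg hk]
      rw [if_neg hk, h2]
      simp only
      rw [← Isog_tN_coe t]
  rw [e1]
  exact h

theorem isotropic_gen {m : ℕ} (hn : n = 2 * m) (hm : 0 < m) (o : Lab K)
    {R : Finset (Finset K.V)} (hR : K.Reps R) (s s' : K.V → Fin n → ℝ) (hs : Equi K s)
    (hs' : Equi K s') (hg : GenPos2 o s s') (C : Finset K.V → ℝ)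
    (hC : ∀ (γ : K.Γ) (I : Finset K.V), C (γ • I) = kapG K γ * C I) :
    ∑ t ∈ chamReps o R, orr K t * BBg m (fun J => C (J.image t)) (fun i => s (t i)) = 0 := by
  have hφ : ∀ (γ : K.Γ) (y : Fin n → K.V),
      prismPhi (Isog_F m s s' C) (fun v => (v, false)) (fun v => (v, true)) (fun i => γ • y i) =
      chi K.lin γ *
        prismPhi (Isog_F m s s' C) (fun v => (v, false)) (fun v => (v, true)) y := by
    intro γ y
    unfold prismPhi
    rw [Finset.mul_sum]
    refine Finset.sum_congr rfl fun i _ => ?_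
    have e := Isog_F_smul hn s s' hs hs' C hC γ (fun k : Fin (n + 1) =>
      if h : (k : ℕ) ≤ i then (y ⟨k, lt_of_le_of_lt h i.2⟩, false)
      else (y ⟨k - 1, by omega⟩, true))
    have e2 : (fun k : Fin (n + 1) =>
        (γ • ((if h : (k : ℕ) ≤ i then (y ⟨k, lt_of_le_of_lt h i.2⟩, false)
          else (y ⟨k - 1, by omega⟩, true)) : K.V × Bool).1,
        ((if h : (k : ℕ) ≤ i then (y ⟨k, lt_of_le_of_lt h i.2⟩, false)
          else (y ⟨k - 1, by omega⟩, true)) : K.V × Bool).2)) = (fun k : Fin (n + 1) =>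
        if h : (k : ℕ) ≤ i then (γ • y ⟨k, lt_of_le_of_lt h i.2⟩, false)
        else (γ • y ⟨k - 1, by omega⟩, true)) := by
      funext k
      by_cases hk : (k : ℕ) ≤ i
      · simp only [dif_pos hk]
      · simp only [dif_neg hk]
    rw [e2] at e
    rw [e]
    ring
  have key := wcycle_cham (by omega) o hR _ hφ
  have h1 : ∀ k : {t // t ∈ chamReps o R},
      ∑ j : Fin (n + 1), (-1) ^ (j : ℕ) * prismPhi (Isog_F m s s' C) (fun v => (v, false))
        (fun v => (v, true)) (fun i => (k : Fin (n + 1) → K.V) (j.succAbove i)) =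
      -BBg m (fun J => C (J.image (k : Fin (n + 1) → K.V)))
        (fun i => s ((k : Fin (n + 1) → K.V) i)) := by
    intro k
    have ht := (mem_chamReps.1 k.2).1
    rw [Isog_prism (Isog_F m s s' C) (fun v => (v, false)) (fun v => (v, true))
      (k : Fin (n + 1) → K.V) (Isog_cocycle hn hg C ht)]
    have e1 : Isog_F m s s' C (fun i => ((k : Fin (n + 1) → K.V) i, true)) = 0 := by
      unfold Isog_F BBg LLg
      rw [Finset.sum_eq_zero]
      · simp
      · intro J hJ
        have hJc : 0 < J.card := by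
          rw [(Finset.mem_powersetCard.1 hJ).2]
          exact hm
        obtain ⟨j, hj⟩ := Finset.card_pos.1 hJc
        have hz : Isog_C C (J.image fun i => ((k : Fin (n + 1) → K.V) i, true)) = 0 := by
          unfold Isog_C
          rw [if_pos]
          exact ⟨_, Finset.mem_image_of_mem _ hj, rfl⟩
        simp only [hz, mul_zero]
    have e2 : Isog_F m s s' C (fun i => ((k : Fin (n + 1) → K.V) i, false)) =
        BBg m (fun J => C (J.image (k : Fin (n + 1) → K.V)))
        (fun i => s ((k : Fin (n + 1) → K.V) i)) := by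
      unfold Isog_F
      congr 1
      funext J
      unfold Isog_C
      rw [if_neg, Finset.image_image]
      · rfl
      · rintro ⟨x, hx, hx2⟩
        obtain ⟨i, hi, rfl⟩ := Finset.mem_image.1 hx
        exact absurd hx2 (by simp)
    rw [e1, e2, zero_sub]
  simp_rw [h1] at key
  rw [← Finset.sum_coe_sort (chamReps o R)
    (fun t => orr K t * BBg m (fun J => C (J.image t)) (fun i => s (t i)))]
  rw [← neg_eq_zero, ← Finset.sum_neg_distrib]
  rw [← key]
  refine Finset.sum_congr rfl fun t _ => ?_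
  rw [mul_neg]

end Pool.Agent.ChG
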