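import Pool.Agent.ChG.WTop
import Pool.Agent.ChG.Isog
import Pool.Agent.ChS.ChiSign
import Pool.Agent.ChS.GenSec
import Pool.Agent.ChS.IsoDim

/-!
# The signature inequality
-/

namespace Pool.Agent.ChG

open Matrix Pool.Agent.ChP Pool.Agent.ChS
open scoped Pointwise

variable {n : ℕ} {K : AffineTriangulation n}

/-- the map from the families on the simplices to functions on chambers -/
noncomputable def Phig (o : Lab K) (R : Finset (Finset K.V)) (k : ℕ) (s : K.V → Fin n → ℝ)
    (hs : Equi K s) :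
    Asp (WC (k + 1) s hs) (k + 1) →ₗ[ℝ] ({t // t ∈ chamReps o R} → ℝ) where
  toFun a t := LLg (k + 1) (fun J => scal (a.1 (J.image t.1))) (fun i => s (t.1 i))
  map_add' a b := by
    funext t
    rw [Pi.add_apply, ← LLg_add]
    congr 1
    funext J
    exact map_add scal _ _
  map_smul' c a := by
    funext t
    rw [Pi.smul_apply, smul_eq_mul, RingHom.id_apply, ← LLg_smul]
    congr 1
    funext J
    exact map_smul scal c _

private theorem Ineq_sign_mul (a b : ℝ) : Real.sign (a * b) = Real.sign a * Real.sign b := by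
  rcases lt_trichotomy a 0 with h | h | h <;> rcases lt_trichotomy b 0 with h' | h' | h'
  · rw [Real.sign_of_neg h, Real.sign_of_neg h', Real.sign_of_pos (mul_pos_of_neg_of_neg h h')]
    norm_num
  · rw [h']; simp
  · rw [Real.sign_of_neg h, Real.sign_of_pos h', Real.sign_of_neg (mul_neg_of_neg_of_pos h h')]
    norm_num
  · rw [h]; simp
  · rw [h]; simp
  · rw [h]; simp
  · rw [Real.sign_of_pos h, Real.sign_of_neg h', Real.sign_of_neg (mul_neg_of_pos_of_neg h h')]
    norm_num
  · rw [h']; simp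
  · rw [Real.sign_of_pos h, Real.sign_of_pos h', Real.sign_of_pos (mul_pos h h')]
    norm_num

private theorem Ineq_sign_prod {ι : Type*} (S : Finset ι) (f : ι → ℝ) :
    Real.sign (∏ i ∈ S, f i) = ∏ i ∈ S, Real.sign (f i) := by
  classical
  induction S using Finset.induction_on with
  | empty => simp
  | insert a S ha ih => rw [Finset.prod_insert ha, Finset.prod_insert ha, Ineq_sign_mul, ih]

theorem ineq_gen {m : ℕ} (hn : n = 2 * m) (hm : 0 < m) (o : Lab K) :
    ∃ (s : K.V → Fin n → ℝ) (hs : Equi K s), GenPos o s ∧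
      2 ^ n * |K.eulerChar| + 2 * (K.numSimplices (m - 1) : ℤ) ≤
        K.numSimplices n + 2 * (Module.finrank ℝ (ZG (WC m s hs) (m - 1)) : ℤ) := by
  classical
  obtain ⟨k, rfl⟩ : ∃ k, m = k + 1 := ⟨m - 1, by omega⟩
  have hk : k + 1 - 1 = k := rfl
  rw [hk]
  obtain ⟨R, hR⟩ := K.exists_reps
  obtain ⟨s, s', hs, hs', hg2⟩ := exists_genPos2 o
  have hg := genPos_left hg2
  have heven : Even n := ⟨k + 1, by omega⟩
  have hn0 : 0 < n := by omega
  refine ⟨s, hs, hg, ?_⟩
  have hsgp := sum_sgp_cham hn0 heven o hR s hs hg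
  have hprod : ∀ t : {t // t ∈ chamReps o R}, ∏ i, tco (fun i => s (t.1 i)) i ≠ 0 := by
    intro t
    rw [Finset.prod_ne_zero_iff]
    intro i _
    exact hg t.1 (mem_chamReps.1 t.2).1 i
  have horr : ∀ t : {t // t ∈ chamReps o R}, orr K t.1 ≠ 0 := fun t =>
    orr_ne_zero (mem_chamReps.1 t.2).1
  obtain ⟨w, hw⟩ : ∃ w : {t // t ∈ chamReps o R} → ℝ,
      w = fun t => orr K t.1 / ∏ i, tco (fun i => s (t.1 i)) i := ⟨_, rfl⟩
  have hw0 : ∀ t, w t ≠ 0 := by
    intro t
    rw [hw]
    exact div_ne_zero (horr t) (hprod t)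
  -- the signs
  have hsign : ∀ t, Real.sign (w t) = orr K t.1 * sgp (fun i => s (t.1 i)) := by
    intro t
    have e1 : Real.sign (orr K t.1) = orr K t.1 := by
      unfold orr
      rcases lt_trichotomy (Matrix.det (Matrix.of fun a : Fin n =>
        K.dev (t.1 a.succ) - K.dev (t.1 0))) 0 with h | h | h
      · rw [Real.sign_of_neg h, Real.sign_of_neg (by norm_num)]
      · rw [h, Real.sign_zero, Real.sign_zero]
      · rw [Real.sign_of_pos h, Real.sign_of_pos (by norm_num)]
    rw [hw]
    show Real.sign (orr K t.1 / ∏ i, tco (fun i => s (t.1 i)) i) = _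
    rw [div_eq_mul_inv, Ineq_sign_mul, Real.sign_inv, e1, Ineq_sign_prod]
    rfl
  have hsum : ∑ t, Real.sign (w t) = 2 ^ n * (K.eulerChar : ℝ) := by
    simp_rw [hsign]
    rw [Finset.sum_coe_sort (chamReps o R) (fun t => orr K t * sgp (fun i => s (t i))), hsgp]
  -- isotropy
  have hiso : ∀ x ∈ LinearMap.range (Phig o R k s hs), ∑ t, w t * x t ^ 2 = 0 := by
    rintro _ ⟨a, rfl⟩
    have hC : ∀ (γ : K.Γ) (I : Finset K.V), scal (a.1 (γ • I)) = kapG K γ * scal (a.1 I) := by
      intro γ I
      have h := a.2.2.2 γ I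
      rw [h]
      exact scal_actW γ (a.1 I)
    have h2 := isotropic_gen hn hm o hR s s' hs hs' hg2 (fun I => scal (a.1 I)) hC
    rw [← h2, ← Finset.sum_coe_sort (chamReps o R)
      (fun t => orr K t * BBg (k + 1) (fun J => scal (a.1 (J.image t))) (fun i => s (t i)))]
    refine Finset.sum_congr rfl fun t _ => ?_
    rw [hw]
    show orr K t.1 / _ * LLg (k + 1) (fun J => scal (a.1 (J.image t.1)))
      (fun i => s (t.1 i)) ^ 2 = _
    unfold BBg
    ring
  have hdim := isotropic_finrank w hw0 (LinearMap.range (Phig o R k s hs)) hiso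
  rw [hsum, Fintype.card_coe, card_chamReps o hR, abs_mul,
    abs_of_pos (by positivity : (0:ℝ) < 2 ^ n)] at hdim
  -- rank-nullity
  obtain ⟨hE1, hE2⟩ := wc_asp o hs hg (m := k + 1) (t := k) le_rfl (by omega)
  have hrn := LinearMap.finrank_range_add_finrank_ker (Phig o R k s hs)
  rw [hE2, Nat.sub_self, Nat.choose_zero_right, mul_one] at hrn
  have hker : Module.finrank ℝ (LinearMap.ker (Phig o R k s hs)) =
      Module.finrank ℝ (ZG (WC (k + 1) s hs) k) := by
    have hmap : (LinearMap.ker (Phig o R k s hs)).map (Asp (WC (k + 1) s hs) (k + 1)).subtype =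
        ZG (WC (k + 1) s hs) k := by
      ext a
      rw [zg_iff o hs hg (by omega)]
      constructor
      · rintro ⟨b, hb, rfl⟩
        refine ⟨b.2, fun t ht => ?_⟩
        obtain ⟨γ, t', ht', rfl⟩ := exists_chamRep o hR ht
        have h3 : LLg (k + 1) (fun J => scal (b.1 (J.image t'))) (fun i => s (t' i)) = 0 := by
          have h4 : Phig o R k s hs b = 0 := hb
          exact congrFun h4 ⟨t', ht'⟩
        have h5 := LLg_translate hs b.2 γ t'
        rw [h3, mul_zero] at h5
        exact h5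
      · rintro ⟨ha, ha'⟩
        refine ⟨⟨a, ha⟩, ?_, rfl⟩
        show Phig o R k s hs ⟨a, ha⟩ = 0
        funext t
        exact ha' t.1 (mem_chamReps.1 t.2).1
    rw [← hmap]
    exact (Submodule.finrank_map_subtype_eq (Asp (WC (k + 1) s hs) (k + 1)) _).symm
  rw [hker] at hrn
  have hdim' : 2 * (Module.finrank ℝ (LinearMap.range (Phig o R k s hs)) : ℤ) +
      2 ^ n * |K.eulerChar| ≤ (K.numSimplices n : ℤ) := by
    have h6 : ((2 * (Module.finrank ℝ (LinearMap.range (Phig o R k s hs)) : ℤ) +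
        2 ^ n * |K.eulerChar| : ℤ) : ℝ) ≤ ((K.numSimplices n : ℤ) : ℝ) := by
      push_cast
      exact hdim
    exact_mod_cast h6
  have hrn' : (Module.finrank ℝ (LinearMap.range (Phig o R k s hs)) : ℤ) +
      Module.finrank ℝ (ZG (WC (k + 1) s hs) k) = K.numSimplices k := by exact_mod_cast hrn
  linarith

end Pool.Agent.ChG
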