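import Pool.Agent.ChG.Tran
import Pool.Agent.ChG.DCalt
import Pool.Agent.ChG.DSg
import Pool.Agent.ChG.Ineq

/-!
# The middle Betti number
-/

namespace Pool.Agent.ChG

open Matrix Pool.Agent.ChP Pool.Agent.ChS
open scoped Pointwise

variable {n : ℕ} {K : AffineTriangulation n}

/-- The coboundary map on the cochains on the simplices with `t` vertices. -/
noncomputable def dC (o : Lab K) (F : Type) [Field F] (t : ℕ) :
    (Finset K.V → F) →ₗ[F] (Finset K.V → F) where
  toFun a τ := open Classical in if τ ∈ K.faces ∧ τ.card = t + 1 then cob o a τ else 0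
  map_add' a b := by
    funext τ
    simp only [Pi.add_apply]
    split_ifs
    · unfold cob
      simp only [Pi.add_apply, smul_add]
      rw [Finset.sum_add_distrib]
    · rw [add_zero]
  map_smul' c a := by
    funext τ
    simp only [Pi.smul_apply, RingHom.id_apply]
    split_ifs
    · unfold cob
      rw [Finset.smul_sum]
      exact Finset.sum_congr rfl fun v _ => by rw [Pi.smul_apply, smul_comm]
    · rw [smul_zero]

/-- The coboundaries on the simplices with `t + 1` vertices. -/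
noncomputable def BC (o : Lab K) (F : Type) [Field F] (t : ℕ) : Submodule F (Finset K.V → F) :=
  (CoC K F t).map (dC o F t)

theorem bc_finrank (o : Lab K) (F : Type) [Field F] (t : ℕ) :
    Module.finrank F (BC o F (t + 1)) + Module.finrank F (ZC o F (t + 1)) = K.numSimplices t := by
  classical
  obtain ⟨h1, h2⟩ := coc_finrank (K := K) F t
  have h3 := LinearMap.finrank_range_add_finrank_ker ((dC o F (t + 1)).domRestrict (CoC K F (t + 1)))
  rw [h2] at h3
  have h4 : LinearMap.range ((dC o F (t + 1)).domRestrict (CoC K F (t + 1))) = BC o F (t + 1) := by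
    unfold BC
    exact LinearMap.range_domRestrict _ _
  have h5 : (LinearMap.ker ((dC o F (t + 1)).domRestrict (CoC K F (t + 1)))).map
      (CoC K F (t + 1)).subtype = ZC o F (t + 1) := by
    ext a
    constructor
    · rintro ⟨b, hb, rfl⟩
      refine ⟨b.2, fun τ hτ hc => ?_⟩
      have h6 : dC o F (t + 1) b.1 = 0 := hb
      have h7 := congrFun h6 τ
      change (if τ ∈ K.faces ∧ τ.card = t + 1 + 1 then cob o b.1 τ else 0) = 0 at h7
      rw [if_pos ⟨hτ, hc⟩] at h7
      exact h7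
    · rintro ⟨ha, ha'⟩
      refine ⟨⟨a, ha⟩, ?_, rfl⟩
      show dC o F (t + 1) a = 0
      funext τ
      change (if τ ∈ K.faces ∧ τ.card = t + 1 + 1 then cob o a τ else 0) = 0
      split_ifs with h
      · exact ha' τ h.1 h.2
      · rfl
  have h6 := Submodule.finrank_map_subtype_eq (CoC K F (t + 1))
    (LinearMap.ker ((dC o F (t + 1)).domRestrict (CoC K F (t + 1))))
  rw [h5] at h6
  rw [h4, ← h6] at h3
  exact h3

/-- The Euler characteristic in terms of the numbers of simplices. -/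
theorem chi_formula {k : ℕ} (hn : n = 2 * (k + 1)) :
    (-1 : ℤ) ^ (k + 1) * K.eulerChar = K.numSimplices (k + 1) - K.numSimplices k -
      K.numSimplices (k + 2) + ∑ i ∈ Finset.range k, (-1 : ℤ) ^ (k + 1 - i) *
        ((K.numSimplices i : ℤ) + K.numSimplices (n - i)) := by
  have hchi : K.eulerChar = ∑ j ∈ Finset.range (n + 1), (-1 : ℤ) ^ j * (K.numSimplices j : ℤ) :=
    rfl
  have e2 : n + 1 = k + (3 + k) := by omega
  rw [hchi, e2, Finset.sum_range_add, Finset.sum_range_add]
  have h5 : ∑ x ∈ Finset.range k, (-1 : ℤ) ^ (k + (3 + x)) * (K.numSimplices (k + (3 + x)) : ℤ) =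
      ∑ i ∈ Finset.range k, (-1 : ℤ) ^ i * (K.numSimplices (n - i) : ℤ) := by
    rw [← Finset.sum_range_reflect]
    refine Finset.sum_congr rfl fun i hi => ?_
    rw [Finset.mem_range] at hi
    have e3 : k + (3 + (k - 1 - i)) = n - i := by omega
    rw [e3]
    congr 1
    have e4 : n - i + 2 * i = i + 2 * (k + 1) := by omega
    have e5 : (-1 : ℤ) ^ (n - i + 2 * i) = (-1) ^ (i + 2 * (k + 1)) := by rw [e4]
    rw [pow_add, pow_add, pow_mul, pow_mul] at e5
    simpa using e5
  rw [h5]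
  simp only [Finset.sum_range_succ, Finset.sum_range_zero, zero_add]
  have hs : ((-1 : ℤ) ^ (k + 1)) * (-1) ^ (k + 1) = 1 := by
    rw [← mul_pow]
    norm_num
  have h6 : ∀ i ∈ Finset.range k, (-1 : ℤ) ^ (k + 1 - i) = (-1) ^ (k + 1) * (-1) ^ i := by
    intro i hi
    rw [Finset.mem_range] at hi
    obtain ⟨a, ha⟩ : ∃ a, k + 1 = a + i := ⟨k + 1 - i, by omega⟩
    have e6 : k + 1 - i = a := by omega
    have e7 : ((-1 : ℤ) ^ i) * (-1) ^ i = 1 := by
      rw [← mul_pow]
      norm_num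
    rw [e6, ha, pow_add]
    linear_combination (-(-1 : ℤ) ^ a) * e7
  have h7 : ∑ i ∈ Finset.range k, (-1 : ℤ) ^ (k + 1 - i) *
      ((K.numSimplices i : ℤ) + K.numSimplices (n - i)) =
      (-1) ^ (k + 1) * (∑ i ∈ Finset.range k, (-1 : ℤ) ^ i * (K.numSimplices i : ℤ) +
        ∑ i ∈ Finset.range k, (-1 : ℤ) ^ i * (K.numSimplices (n - i) : ℤ)) := by
    rw [← Finset.sum_add_distrib, Finset.mul_sum]
    refine Finset.sum_congr rfl fun i hi => ?_
    rw [h6 i hi]
    ring
  rw [h7]
  have e8 : k + (0 + 1) = k + 1 := by omega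
  have e9 : k + (0 + 1 + 1) = k + 2 := by omega
  simp only [add_zero, pow_add, pow_one] at hs ⊢
  have hs' : ((-1 : ℤ) ^ k) * (-1) ^ k = 1 := by
    rw [← mul_pow]
    norm_num
  linear_combination (-(K.numSimplices k : ℤ) + (K.numSimplices (k + 1) : ℤ) -
    (K.numSimplices (k + 2) : ℤ)) * hs'

/-- The middle Betti number, by Poincaré duality. -/
theorem betti_formula (hor : ∀ γ : K.Γ, chZ K γ = 1) (o : Lab K) (F : Type) [Field F] {m : ℕ}
    (hn : n = 2 * m) (hm : 0 < m) :
    (Module.finrank F (ZC o F (m + 1)) : ℤ) - Module.finrank F (BC o F m) =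
      (-1) ^ m * K.eulerChar + 2 * ((Module.finrank F (ZB o (PC F o) (m + 2)) : ℤ) -
        ∑ i ∈ Finset.range (m - 1), (-1) ^ (m - i) * (K.numSimplices (n - i) : ℤ)) := by
  obtain ⟨k, rfl⟩ : ∃ k, m = k + 1 := ⟨m - 1, by omega⟩
  simp only [Nat.add_sub_cancel]
  have h1 := dc_alt o (PC F o) (fun i => K.numSimplices i) (fun i => K.numSimplices (n - i))
    (J := k) (fun i _ => pc_asp F o i) (fun i hi => by
      have h := pc_bsp F o (n - i)
      have e : n - i + 1 = n + 1 - i := by omega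
      rw [e] at h
      exact h) k le_rfl (by omega) (fun i hi => pc_colRange F o (by omega))
  rw [zg_eq F o hor (by omega)] at h1
  have e1 : n + 1 - k = k + 1 + 2 := by omega
  rw [e1] at h1
  have h2 : (Module.finrank F (BC o F (k + 1)) : ℤ) + Module.finrank F (ZC o F (k + 1)) =
      K.numSimplices k := by exact_mod_cast bc_finrank o F k
  have h3 : (Module.finrank F (ZB o (PC F o) (k + 1 + 2)) : ℤ) + K.numSimplices (k + 1) =
      K.numSimplices (k + 1 + 1) + Module.finrank F (ZC o F (k + 1 + 1)) := by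
    exact_mod_cast tran F o (k + 1)
  have h4 := chi_formula (K := K) (k := k) hn
  have h8 : ∑ i ∈ Finset.range k, (-1 : ℤ) ^ (k - 1 - i) *
      ((K.numSimplices i : ℤ) - (K.numSimplices (n - i) : ℕ)) =
      ∑ i ∈ Finset.range k, (-1 : ℤ) ^ (k + 1 - i) *
      ((K.numSimplices i : ℤ) - K.numSimplices (n - i)) := by
    refine Finset.sum_congr rfl fun i hi => ?_
    rw [Finset.mem_range] at hi
    have e6 : k + 1 - i = (k - 1 - i) + 2 := by omega
    rw [e6, pow_add]
    norm_num
  rw [h8] at h1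
  have h9 : ∑ i ∈ Finset.range k, (-1 : ℤ) ^ (k + 1 - i) *
      ((K.numSimplices i : ℤ) - K.numSimplices (n - i)) +
      2 * ∑ i ∈ Finset.range k, (-1 : ℤ) ^ (k + 1 - i) * (K.numSimplices (n - i) : ℤ) =
      ∑ i ∈ Finset.range k, (-1 : ℤ) ^ (k + 1 - i) *
        ((K.numSimplices i : ℤ) + K.numSimplices (n - i)) := by
    rw [Finset.mul_sum, ← Finset.sum_add_distrib]
    refine Finset.sum_congr rfl fun i _ => ?_
    ring
  have e10 : k + 1 + 1 = k + 2 := by omega
  rw [e10] at h3 ⊢
  linarith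

/-- The signature inequality in terms of cycles with twisted coefficients. -/
theorem core_ineq (o : Lab K) {m : ℕ} (hn : n = 2 * m) (hm : 0 < m) :
    ∃ (s : K.V → Fin n → ℝ) (hs : Equi K s),
      2 ^ n * |K.eulerChar| ≤ (n.choose m : ℤ) * ((-1) ^ m * K.eulerChar) +
        2 * ((Module.finrank ℝ (ZB o (WC m s hs) (m + 2)) : ℤ) - (n.choose m : ℤ) *
          ∑ i ∈ Finset.range (m - 1), (-1) ^ (m - i) * (K.numSimplices (n - i) : ℤ)) := by
  obtain ⟨s, hs, hg, h1⟩ := ineq_gen hn hm o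
  refine ⟨s, hs, ?_⟩
  have h3 := dehn_sommerville_gen hn K
  obtain ⟨k, rfl⟩ : ∃ k, m = k + 1 := ⟨m - 1, by omega⟩
  simp only [Nat.add_sub_cancel] at h1 h3 ⊢
  have h4 := dc_alt o (WC (k + 1) s hs)
    (fun i => K.numSimplices i * (n - (i + 1)).choose (k + 1 - (i + 1)))
    (fun i => K.numSimplices (n - i) * n.choose (k + 1)) (J := k)
    (fun i hi => wc_asp o hs hg (by omega) (by omega)) (fun i hi => by
      have h := wc_bsp hs (k + 1) (n - i)
      have e : n - i + 1 = n + 1 - i := by omega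
      rw [e] at h
      exact h) k le_rfl (by omega) (fun i hi => wcol o hs hg (by omega) (by omega))
  have e1 : n + 1 - k = k + 1 + 2 := by omega
  rw [e1] at h4
  rw [Finset.sum_range_succ] at h3
  simp only [Nat.sub_self, pow_zero, one_mul, Nat.choose_zero_right, Nat.cast_one] at h3
  have h5 : ∑ i ∈ Finset.range k, (-1 : ℤ) ^ (k - 1 - i) *
      (((K.numSimplices i * (n - (i + 1)).choose (k + 1 - (i + 1)) : ℕ) : ℤ) -
        ((K.numSimplices (n - i) * n.choose (k + 1) : ℕ) : ℤ)) =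
      -∑ i ∈ Finset.range k, (-1 : ℤ) ^ (k - i) * ((n - 1 - i).choose (k - i) : ℤ) *
        (K.numSimplices i : ℤ) - (n.choose (k + 1) : ℤ) * ∑ i ∈ Finset.range k,
        (-1 : ℤ) ^ (k + 1 - i) * (K.numSimplices (n - i) : ℤ) := by
    rw [Finset.mul_sum, ← Finset.sum_neg_distrib, ← Finset.sum_sub_distrib]
    refine Finset.sum_congr rfl fun i hi => ?_
    rw [Finset.mem_range] at hi
    obtain ⟨a, ha⟩ : ∃ a, a = k - 1 - i := ⟨_, rfl⟩
    have f1 : k - i = a + 1 := by omega
    have f2 : k + 1 - i = a + 2 := by omega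
    have f3 : n - (i + 1) = n - 1 - i := by omega
    have f4 : k + 1 - (i + 1) = a + 1 := by omega
    rw [← ha, f1, f2, f3, f4, pow_add, pow_add]
    push_cast
    ring
  rw [h5] at h4
  change _ ≤ (K.numSimplices n : ℤ) +
    2 * (Module.finrank ℝ (ZG (WC (k + 1) s hs) k) : ℤ) at h1
  rw [h4] at h1
  rw [h3] at h1
  linarith

theorem main_ineq (hor : ∀ γ : K.Γ, chZ K γ = 1) (o : Lab K) (F : Type) [Field F] {m : ℕ}
    (hn : n = 2 * m) (hm : 0 < m) :
    ∃ (s : K.V → Fin n → ℝ) (hs : Equi K s),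
      2 ^ n * |K.eulerChar| + 2 * ((n.choose m : ℤ) *
          (Module.finrank F (ZB o (PC F o) (m + 2)) : ℤ)) ≤
        (n.choose m : ℤ) * ((Module.finrank F (ZC o F (m + 1)) : ℤ) - Module.finrank F (BC o F m)) +
          2 * (Module.finrank ℝ (ZB o (WC m s hs) (m + 2)) : ℤ) := by
  obtain ⟨s, hs, h1⟩ := core_ineq o hn hm
  refine ⟨s, hs, ?_⟩
  rw [betti_formula hor o F hn hm]
  linarith

end Pool.Agent.ChG
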