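import Pool.Agent.ChG.EEv

/-!
# The pairing between forms of middle degree

`euler_id`: induction on `k`; a form of degree `k + 1` is a sum of products `wdg ξ ω`, `ω` of degree `k`, and
`con_wdg` gives `∑ i, wdg e_i (con e_i (wdg ξ ω)) = wdg ξ ω - ∑ i, wdg e_i (wdg ξ (con e_i ω))
= wdg ξ ω + wdg ξ (∑ i, wdg e_i (con e_i ω))` (products of two covectors anticommute).
`exists_wdg_ne`: if `wdg ξ ω = 0` for all `ξ` then `0 = con e_i (wdg e_i ω) = ω - wdg e_i (con e_i ω)`;
the sum over `i` gives `0 = n ω - k ω`.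
`exists_pair`: `B ω η = ev n n (ω * η) e`, `e` the standard basis.  `B (mapE g ω) (mapE g η) =
ev n n (ω * η) (gᵀ e) = det g * B ω η`, as an alternating form of degree `n` on `ℝ^n` is a multiple of the
determinant (`AlternatingMap.eq_smul_basis_det`, `Basis.det`, ...).  If `ω ≠ 0` has degree `m` then by
`exists_wdg_ne` (`n - m = m` times) there is a product `η = ξ_1 ⋯ ξ_m` with `η * ω ≠ 0`, of degree `n`; so
`ev n n (η * ω) ≠ 0` by `ev_inj`, and it does not vanish on the standard basis.  This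
shows nondegeneracy in the second variable; `ω * η = ± η * ω` for forms of degree `m` (each covector anticommutes
past), or start with multiplication on the right, or use that the dimensions are equal.
-/

namespace Pool.Agent.ChG

open Matrix

variable {n : ℕ}

/-- induction on forms of degree `k + 1` -/
private theorem EPair_ind {k : ℕ} {P : EE n → Prop} {ω : EE n} (hω : ω ∈ Lam n (k + 1))
    (h1 : ∀ (ξ : Fin n → ℝ), ∀ η ∈ Lam n k, P (ExteriorAlgebra.ι ℝ ξ * η))
    (h2 : ∀ a b, P a → P b → P (a + b)) : P ω := by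
  have h3 : ω ∈ (LinearMap.range (ExteriorAlgebra.ι ℝ : (Fin n → ℝ) →ₗ[ℝ] EE n)) *
      (LinearMap.range (ExteriorAlgebra.ι ℝ : (Fin n → ℝ) →ₗ[ℝ] EE n)) ^ k := by
    rw [← pow_succ']
    exact hω
  refine Submodule.mul_induction_on h3 ?_ h2
  rintro _ ⟨ξ, rfl⟩ η hη
  exact h1 ξ η hη

private theorem EPair_mul {j k : ℕ} {η ω : EE n} (hη : η ∈ Lam n j) (hω : ω ∈ Lam n k) :
    η * ω ∈ Lam n (j + k) := by
  have h3 : η * ω ∈ (LinearMap.range (ExteriorAlgebra.ι ℝ : (Fin n → ℝ) →ₗ[ℝ] EE n)) ^ j *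
      (LinearMap.range (ExteriorAlgebra.ι ℝ : (Fin n → ℝ) →ₗ[ℝ] EE n)) ^ k :=
    Submodule.mul_mem_mul hη hω
  rw [← pow_add] at h3
  exact h3

private theorem EPair_swap (ξ ζ : Fin n → ℝ) (ω : EE n) :
    ExteriorAlgebra.ι ℝ ξ * (ExteriorAlgebra.ι ℝ ζ * ω) =
      -(ExteriorAlgebra.ι ℝ ζ * (ExteriorAlgebra.ι ℝ ξ * ω)) := by
  have h := ExteriorAlgebra.ι_add_mul_swap (R := ℝ) ξ ζ
  rw [← mul_assoc, ← mul_assoc, ← neg_mul, eq_neg_of_add_eq_zero_left h]

private theorem EPair_wdg (ξ : Fin n → ℝ) (ω : EE n) :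
    wdg ξ ω = ExteriorAlgebra.ι ℝ ξ * ω := rfl

private theorem EPair_single (ξ : Fin n → ℝ) (i : Fin n) :
    ∑ j, ξ j * (Pi.single i (1 : ℝ) : Fin n → ℝ) j = ξ i := by
  simp [Pi.single_apply]

private theorem EPair_expand (ξ : Fin n → ℝ) (ω : EE n) :
    ∑ i : Fin n, ξ i • wdg (Pi.single i (1 : ℝ)) ω = wdg ξ ω := by
  have h1 : ξ = ∑ i, ξ i • (Pi.single i (1 : ℝ) : Fin n → ℝ) := by
    funext j
    simp [Finset.sum_apply, Pi.single_apply]
  conv_rhs => rw [h1]
  simp only [EPair_wdg, map_sum, map_smul, Finset.sum_mul, smul_mul_assoc]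

theorem euler_id {k : ℕ} {ω : EE n} (hω : ω ∈ Lam n k) :
    ∑ i : Fin n, wdg (Pi.single i 1) (con (Pi.single i 1) ω) = (k : ℝ) • ω := by
  induction k generalizing ω with
  | zero =>
    rw [Nat.cast_zero, zero_smul]
    refine Finset.sum_eq_zero fun i _ => ?_
    rw [con_lam_zero _ hω, map_zero]
  | succ k ih =>
    refine EPair_ind (P := fun ω => ∑ i : Fin n, wdg (Pi.single i 1) (con (Pi.single i 1) ω) =
      ((k + 1 : ℕ) : ℝ) • ω) hω ?_ ?_
    · intro ξ η hη
      rw [← EPair_wdg]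
      have h1 : ∀ i : Fin n, wdg (Pi.single i (1 : ℝ)) (con (Pi.single i 1) (wdg ξ η)) =
          ξ i • wdg (Pi.single i (1 : ℝ)) η +
            wdg ξ (wdg (Pi.single i (1 : ℝ)) (con (Pi.single i 1) η)) := by
        intro i
        rw [con_wdg, EPair_single, map_sub, map_smul]
        have h2 : wdg (Pi.single i (1 : ℝ)) (wdg ξ (con (Pi.single i 1) η)) =
            -wdg ξ (wdg (Pi.single i (1 : ℝ)) (con (Pi.single i 1) η)) := EPair_swap _ _ _
        rw [h2, sub_neg_eq_add]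
      simp only [h1, Finset.sum_add_distrib]
      rw [EPair_expand, ← map_sum, ih hη, map_smul, Nat.cast_add, Nat.cast_one, add_smul,
        one_smul, add_comm]
    · intro a b ha hb
      simp only [map_add, Finset.sum_add_distrib, smul_add] at ha hb ⊢
      rw [ha, hb]

theorem exists_wdg_ne {k : ℕ} (hk : k < n) {ω : EE n} (hω : ω ∈ Lam n k) (h : ω ≠ 0) :
    ∃ ξ : Fin n → ℝ, wdg ξ ω ≠ 0 := by
  by_contra hne
  push Not at hne
  have h1 : ∀ i : Fin n, wdg (Pi.single i (1 : ℝ)) (con (Pi.single i 1) ω) = ω := by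
    intro i
    have h2 := con_wdg (Pi.single i (1 : ℝ)) (Pi.single i (1 : ℝ)) ω
    rw [hne, map_zero, EPair_single, Pi.single_eq_same, one_smul] at h2
    exact (sub_eq_zero.1 h2.symm).symm
  have h2 := euler_id hω
  simp only [h1, Finset.sum_const, Finset.card_univ, Fintype.card_fin] at h2
  rw [← Nat.cast_smul_eq_nsmul ℝ, ← sub_eq_zero, ← sub_smul] at h2
  rcases smul_eq_zero.1 h2 with h3 | h3
  · have h4 : (k : ℝ) < n := by exact_mod_cast hk
    linarith
  · exact h h3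

/-- products with forms of complementary degree -/
private theorem EPair_exists {k : ℕ} {ω : EE n} (hω : ω ∈ Lam n k) (h : ω ≠ 0) (j : ℕ)
    (hj : j + k ≤ n) : ∃ η ∈ Lam n j, η * ω ≠ 0 := by
  induction j with
  | zero =>
    refine ⟨1, ?_, ?_⟩
    · have := alg_lam (n := n) 1
      rwa [map_one] at this
    · rwa [one_mul]
  | succ j ih =>
    obtain ⟨η, hη, hne⟩ := ih (by omega)
    obtain ⟨ξ, hξ⟩ := exists_wdg_ne (k := j + k) (by omega) (EPair_mul hη hω) hne
    refine ⟨wdg ξ η, wdg_lam ξ hη, ?_⟩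
    rw [EPair_wdg, mul_assoc]
    exact hξ

private theorem EPair_commA {k : ℕ} {ω : EE n} (hω : ω ∈ Lam n k) (ξ : Fin n → ℝ) :
    ExteriorAlgebra.ι ℝ ξ * ω = ((-1 : ℝ) ^ k) • (ω * ExteriorAlgebra.ι ℝ ξ) := by
  induction k generalizing ω with
  | zero =>
    rw [pow_zero, one_smul, lam_zero hω]
    exact (Algebra.commutes _ _).symm
  | succ k ih =>
    refine EPair_ind (P := fun ω => ExteriorAlgebra.ι ℝ ξ * ω =
      ((-1 : ℝ) ^ (k + 1)) • (ω * ExteriorAlgebra.ι ℝ ξ)) hω ?_ ?_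
    · intro ζ η hη
      rw [EPair_swap, ih hη, mul_smul_comm, pow_succ, mul_neg, mul_one, neg_smul, mul_assoc]
    · intro a b ha hb
      rw [mul_add, add_mul, smul_add, ha, hb]

private theorem EPair_commB {j k : ℕ} {η ω : EE n} (hη : η ∈ Lam n j) (hω : ω ∈ Lam n k) :
    η * ω = ((-1 : ℝ) ^ (j * k)) • (ω * η) := by
  induction j generalizing η with
  | zero =>
    rw [zero_mul, pow_zero, one_smul, lam_zero hη]
    exact Algebra.commutes _ _
  | succ j ih =>
    refine EPair_ind (P := fun η => η * ω = ((-1 : ℝ) ^ ((j + 1) * k)) • (ω * η)) hη ?_ ?_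
    · intro ζ η hη
      rw [mul_assoc, ih hη, mul_smul_comm, ← mul_assoc, EPair_commA hω, smul_mul_assoc, smul_smul,
        ← pow_add, mul_assoc]
      congr 2
      ring
    · intro a b ha hb
      rw [mul_add, add_mul, smul_add, ha, hb]

/-- the value on the standard basis -/
private noncomputable def EPair_top (n : ℕ) : EE n →ₗ[ℝ] ℝ where
  toFun ω := ev n n ω (fun i => Pi.single i 1)
  map_add' := by
    intro a b
    rw [map_add, AlternatingMap.add_apply]
  map_smul' := by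
    intro c a
    rw [map_smul, AlternatingMap.smul_apply, RingHom.id_apply]

private theorem EPair_det (f : (Fin n → ℝ) [⋀^Fin n]→ₗ[ℝ] ℝ) (x : Fin n → Fin n → ℝ) :
    f x = f (fun i => Pi.single i 1) * (Matrix.of x).det := by
  have h1 := AlternatingMap.eq_smul_basis_det (Pi.basisFun ℝ (Fin n)) f
  have h2 : f x = f (fun i => Pi.basisFun ℝ (Fin n) i) * (Pi.basisFun ℝ (Fin n)).det x := by
    conv_lhs => rw [h1]
    rw [AlternatingMap.smul_apply, smul_eq_mul]
  rw [h2, Pi.basisFun_det]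
  congr 1
  congr 1
  funext i
  rw [Pi.basisFun_apply]

private theorem EPair_top_ne {θ : EE n} (hθ : θ ∈ Lam n n) (h : θ ≠ 0) : EPair_top n θ ≠ 0 := by
  intro h0
  apply h
  apply ev_inj hθ
  ext x
  rw [EPair_det, AlternatingMap.zero_apply]
  have h1 : ev n n θ (fun i => Pi.single i 1) = 0 := h0
  rw [h1, zero_mul]

private theorem EPair_top_map (g : Matrix (Fin n) (Fin n) ℝ) (θ : EE n) :
    EPair_top n (mapE g θ) = g.det * EPair_top n θ := by
  show ev n n (mapE g θ) (fun i => Pi.single i 1) = g.det * ev n n θ (fun i => Pi.single i 1)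
  rw [ev_mapE, EPair_det, mul_comm]
  congr 1
  congr 1
  ext i j
  rw [Matrix.of_apply, Matrix.mulVec_single_one]
  rfl

theorem exists_pair {m : ℕ} (hn : n = 2 * m) :
    ∃ B : EE n →ₗ[ℝ] EE n →ₗ[ℝ] ℝ,
      (∀ (g : Matrix (Fin n) (Fin n) ℝ), ∀ ω ∈ Lam n m, ∀ η ∈ Lam n m,
        B (mapE g ω) (mapE g η) = g.det * B ω η) ∧
      (∀ ω ∈ Lam n m, (∀ η ∈ Lam n m, B ω η = 0) → ω = 0) ∧
      ∀ η ∈ Lam n m, (∀ ω ∈ Lam n m, B ω η = 0) → η = 0 := by
  have hmm : m + m = n := by omega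
  have hB : ∀ ω η, ((LinearMap.mul ℝ (EE n)).compr₂ (EPair_top n)) ω η = EPair_top n (ω * η) :=
    fun ω η => rfl
  refine ⟨(LinearMap.mul ℝ (EE n)).compr₂ (EPair_top n), ?_, ?_, ?_⟩
  · intro g ω _ η _
    rw [hB, hB, ← map_mul, EPair_top_map]
  · intro ω hω h
    by_contra hne
    obtain ⟨η, hη, hη'⟩ := EPair_exists hω hne m (by omega)
    have h1 : ω * η ≠ 0 := by
      intro h0
      apply hη'
      rw [EPair_commB hη hω, h0, smul_zero]
    have h2 : ω * η ∈ Lam n n := by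
      have := EPair_mul hω hη
      rwa [hmm] at this
    exact EPair_top_ne h2 h1 (h η hη)
  · intro η hη h
    by_contra hne
    obtain ⟨ω, hω, hω'⟩ := EPair_exists hη hne m (by omega)
    have h2 : ω * η ∈ Lam n n := by
      have := EPair_mul hω hη
      rwa [hmm] at this
    exact EPair_top_ne h2 hω' (h ω hω)

end Pool.Agent.ChG
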