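import Pool.Agent.ChG.TranW
import Pool.Agent.ChG.Betti
import Pool.Agent.ChG.EPair

/-!
# The twisted Betti number in the middle dimension
-/

namespace Pool.Agent.ChG

open Matrix Pool.Agent.ChP Pool.Agent.ChS
open scoped Pointwise

variable {n : ℕ} {K : AffineTriangulation n}

section

variable {F M : Type} [Field F] [AddCommGroup M] [Module F M] (act : K.Γ →* Module.End F M)
  (L₀ : Submodule F M) (hL : ∀ (γ : K.Γ), ∀ x ∈ L₀, act γ x ∈ L₀) (o : Lab K)

/-- The coboundaries on the simplices with `t + 1` vertices. -/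
noncomputable def BCc (t : ℕ) : Submodule F (Finset K.V → M) :=
  (Asp (CC act L₀ hL o) t).map (LinearMap.pi fun τ =>
    open Classical in
    if τ ∈ K.faces ∧ τ.card = t + 1 then
      ∑ v ∈ τ, sg o.lab v τ • (LinearMap.proj (τ.erase v) : (Finset K.V → M) →ₗ[F] M)
    else 0)

theorem bcc_finrank (hf : Module.Finite F L₀) (t : ℕ) :
    Module.finrank F (BCc act L₀ hL o (t + 1)) + Module.finrank F (ZCc act L₀ hL o (t + 1)) =
      K.numSimplices t * Module.finrank F L₀ := by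
  classical
  obtain ⟨h1, h2⟩ := cc_asp act L₀ hL o hf t
  obtain ⟨D, hD⟩ : ∃ D : (Finset K.V → M) →ₗ[F] (Finset K.V → M), D = LinearMap.pi fun τ =>
    open Classical in
    if τ ∈ K.faces ∧ τ.card = t + 1 + 1 then
      ∑ v ∈ τ, sg o.lab v τ • (LinearMap.proj (τ.erase v) : (Finset K.V → M) →ₗ[F] M)
    else 0 := ⟨_, rfl⟩
  have hDa : ∀ a τ, D a τ = if τ ∈ K.faces ∧ τ.card = t + 1 + 1 then cob o a τ else 0 := by
    intro a τ
    rw [hD, LinearMap.pi_apply]
    split_ifs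
    · rw [LinearMap.sum_apply]
      rfl
    · rfl
  have h3 := LinearMap.finrank_range_add_finrank_ker
    (D.domRestrict (Asp (CC act L₀ hL o) (t + 1)))
  rw [h2] at h3
  have h4 : LinearMap.range (D.domRestrict (Asp (CC act L₀ hL o) (t + 1))) =
      BCc act L₀ hL o (t + 1) := by
    unfold BCc
    rw [← hD]
    exact LinearMap.range_domRestrict _ _
  have h5 : (LinearMap.ker (D.domRestrict (Asp (CC act L₀ hL o) (t + 1)))).map
      (Asp (CC act L₀ hL o) (t + 1)).subtype = ZCc act L₀ hL o (t + 1) := by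
    ext a
    constructor
    · rintro ⟨b, hb, rfl⟩
      refine ⟨b.2, fun τ hτ hc => ?_⟩
      have h6 : D b.1 = 0 := hb
      have h7 := congrFun h6 τ
      rw [hDa, if_pos ⟨hτ, hc⟩] at h7
      exact h7
    · rintro ⟨ha, ha'⟩
      refine ⟨⟨a, ha⟩, ?_, rfl⟩
      show D a = 0
      funext τ
      rw [hDa]
      split_ifs with h
      · exact ha' τ h.1 h.2
      · rfl
  have h6 := Submodule.finrank_map_subtype_eq (Asp (CC act L₀ hL o) (t + 1))
    (LinearMap.ker (D.domRestrict (Asp (CC act L₀ hL o) (t + 1))))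
  rw [h5] at h6
  rw [h4, ← h6] at h3
  exact h3

end

theorem zb_eq (o : Lab K) {s : K.V → Fin n → ℝ} (hs : Equi K s) (m t : ℕ) :
    ZB o (WC m s hs) t = ZB o (CC (actW K) (Lam n m) (fun γ _ h => actW_lam γ h) o) t := by
  have h0 : LW m s ∅ = Lam n m := by
    ext ω
    rw [mem_LW]
    constructor
    · rintro (⟨-, h, -⟩ | ⟨h, -⟩)
      · exact h
      · exact absurd h (Nat.not_lt_zero _)
    · intro h
      exact Or.inl ⟨Nat.zero_le _, h, fun v hv => absurd hv (Finset.notMem_empty v)⟩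
  have h1 : Bsp (WC m s hs) t = Bsp (CC (actW K) (Lam n m) (fun γ _ h => actW_lam γ h) o) t := by
    show Sp (fun γ => actW K γ) (fun _ => LW m s ∅) t = Sp (fun γ => actW K γ) (fun _ => Lam n m) t
    rw [h0]
  ext b
  constructor
  · rintro ⟨hb, hb'⟩
    exact ⟨h1 ▸ hb, hb'⟩
  · rintro ⟨hb, hb'⟩
    exact ⟨h1.symm ▸ hb, hb'⟩

theorem exists_pairW (K : AffineTriangulation n) {m : ℕ} (hn : n = 2 * m) :
    ∃ B : EE n →ₗ[ℝ] EE n →ₗ[ℝ] ℝ,
      (∀ (γ : K.Γ), ∀ x ∈ Lam n m, ∀ y ∈ Lam n m,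
        B (chZ K γ • actW K γ x) (actW K γ y) = B x y) ∧
      (∀ x ∈ Lam n m, (∀ y ∈ Lam n m, B x y = 0) → x = 0) ∧
      ∀ y ∈ Lam n m, (∀ x ∈ Lam n m, B x y = 0) → y = 0 := by
  obtain ⟨B, h1, h2, h3⟩ := exists_pair hn
  refine ⟨B, fun γ x hx y hy => ?_, h2, h3⟩
  have hd : (K.lin γ).det ≠ 0 := by
    have h : (K.lin γ).det * (K.lin γ⁻¹).det = 1 := by
      rw [← Matrix.det_mul, ← map_mul, mul_inv_cancel, map_one, Matrix.det_one]
    exact left_ne_zero_of_mul_eq_one h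
  have hk : kapG K γ * kapG K γ = |(K.lin γ).det| := Real.mul_self_sqrt (abs_nonneg _)
  have hc : ((chZ K γ : ℤ) : ℝ) * (chZ K γ : ℝ) = 1 := by exact_mod_cast chZ_mul_self γ
  have hs : ((chZ K γ : ℤ) : ℝ) * (K.lin γ).det = |(K.lin γ).det| := by
    unfold chZ
    rcases lt_or_gt_of_ne hd with h | h
    · rw [sign_neg h, abs_of_neg h]
      simp
    · rw [sign_pos h, abs_of_pos h]
      simp
  have hgd : (((K.lin γ)⁻¹)ᵀ).det = ((K.lin γ).det)⁻¹ := by
    rw [Matrix.det_transpose, Matrix.det_nonsing_inv, Ring.inverse_eq_inv']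
  have e1 : chZ K γ • actW K γ x = kapG K γ • mapE ((K.lin γ)⁻¹)ᵀ x := by
    rw [actW_apply, ← Int.cast_smul_eq_zsmul ℝ, smul_smul]
    congr 1
    linear_combination kapG K γ * hc
  rw [e1, actW_apply, map_smul, map_smul, LinearMap.smul_apply, h1 _ x hx y hy, hgd,
    smul_eq_mul, smul_eq_mul]
  have e2 : ((chZ K γ : ℤ) : ℝ) * ((K.lin γ).det)⁻¹ * |(K.lin γ).det| = 1 := by
    rw [← hs]
    field_simp
    linear_combination hc
  linear_combination ((chZ K γ : ℤ) : ℝ) * ((K.lin γ).det)⁻¹ * B x y * hk + B x y * e2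

/-- The formula for the twisted Betti number in the middle dimension. -/
theorem bettiW_formula (o : Lab K) {m : ℕ} (hn : n = 2 * m) (hm : 0 < m) :
    (Module.finrank ℝ (ZCc (actW K) (Lam n m) (fun γ _ h => actW_lam γ h) o (m + 1)) : ℤ) -
        Module.finrank ℝ (BCc (actW K) (Lam n m) (fun γ _ h => actW_lam γ h) o m) =
      (n.choose m : ℤ) * ((-1) ^ m * K.eulerChar) +
        2 * ((Module.finrank ℝ (ZB o (CC (actW K) (Lam n m) (fun γ _ h => actW_lam γ h) o)
          (m + 2)) : ℤ) - (n.choose m : ℤ) *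
        ∑ i ∈ Finset.range (m - 1), (-1) ^ (m - i) * (K.numSimplices (n - i) : ℤ)) := by
  have hfin : Module.Finite ℝ (Lam n m) := lam_finite m
  have hr : Module.finrank ℝ (Lam n m) = n.choose m := lam_finrank m
  obtain ⟨k, rfl⟩ : ∃ k, m = k + 1 := ⟨m - 1, by omega⟩
  simp only [Nat.add_sub_cancel]
  obtain ⟨B, hB, hB1, hB2⟩ := exists_pairW K hn
  obtain ⟨r, hr'⟩ : ∃ r, r = n.choose (k + 1) := ⟨_, rfl⟩
  rw [← hr'] at hr ⊢
  have h1 := dc_alt o (CC (actW K) (Lam n (k + 1)) (fun γ _ h => actW_lam γ h) o)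
    (fun i => K.numSimplices i * r) (fun i => K.numSimplices (n - i) * r)
    (J := k) (fun i _ => by
      have h := cc_asp (actW K) (Lam n (k + 1)) (fun γ _ h => actW_lam γ h) o hfin i
      rw [hr] at h
      exact h) (fun i hi => by
      have h := cc_bsp (actW K) (Lam n (k + 1)) (fun γ _ h => actW_lam γ h) o hfin (n - i)
      have e : n - i + 1 = n + 1 - i := by omega
      rw [e, hr] at h
      exact h) k le_rfl (by omega) (fun i hi => cc_colRange _ _ _ o (by omega))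
  rw [zg_cc _ _ _ o (by omega)] at h1
  have e1 : n + 1 - k = k + 1 + 2 := by omega
  rw [e1] at h1
  have h2 : (Module.finrank ℝ (BCc (actW K) (Lam n (k + 1)) (fun γ _ h => actW_lam γ h) o
      (k + 1)) : ℤ) + Module.finrank ℝ (ZCc (actW K) (Lam n (k + 1))
        (fun γ _ h => actW_lam γ h) o (k + 1)) = K.numSimplices k * r := by
    rw [← hr]
    exact_mod_cast bcc_finrank (actW K) (Lam n (k + 1)) (fun γ _ h => actW_lam γ h) o hfin k
  have h3 : (Module.finrank ℝ (ZB o (CC (actW K) (Lam n (k + 1))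
      (fun γ _ h => actW_lam γ h) o) (k + 1 + 2)) : ℤ) + K.numSimplices (k + 1) * r =
      K.numSimplices (k + 1 + 1) * r + Module.finrank ℝ (ZCc (actW K) (Lam n (k + 1))
        (fun γ _ h => actW_lam γ h) o (k + 1 + 1)) := by
    rw [← hr]
    exact_mod_cast tranW (actW K) (Lam n (k + 1)) (fun γ _ h => actW_lam γ h) o hfin B hB hB1 hB2
      (k + 1)
  have h4 := chi_formula (K := K) (k := k) hn
  have h8 : ∑ i ∈ Finset.range k, (-1 : ℤ) ^ (k - 1 - i) *
      (((K.numSimplices i * r : ℕ) : ℤ) - ((K.numSimplices (n - i) * r : ℕ) : ℤ)) =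
      r * ∑ i ∈ Finset.range k, (-1 : ℤ) ^ (k + 1 - i) *
      ((K.numSimplices i : ℤ) - K.numSimplices (n - i)) := by
    rw [Finset.mul_sum]
    refine Finset.sum_congr rfl fun i hi => ?_
    rw [Finset.mem_range] at hi
    have e6 : k + 1 - i = (k - 1 - i) + 2 := by omega
    rw [e6, pow_add]
    push_cast
    ring
  rw [h8] at h1
  have h9 : ∑ i ∈ Finset.range k, (-1 : ℤ) ^ (k + 1 - i) *
      ((K.numSimplices i : ℤ) - K.numSimplices (n - i)) +
      2 * ∑ i ∈ Finset.range k, (-1 : ℤ) ^ (k + 1 - i) * (K.numSimplices (n - i) : ℤ) =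
      ∑ i ∈ Finset.range k, (-1 : ℤ) ^ (k + 1 - i) *
        ((K.numSimplices i : ℤ) + K.numSimplices (n - i)) := by
    rw [Finset.mul_sum, ← Finset.sum_add_distrib]
    refine Finset.sum_congr rfl fun i _ => ?_
    ring
  have e10 : k + 1 + 1 = k + 2 := by omega
  rw [e10] at h3 ⊢
  linear_combination h1 - h2 - h3 - (r : ℤ) * h4 + (r : ℤ) * h9

theorem main_twisted (o : Lab K) {m : ℕ} (hn : n = 2 * m) (hm : 0 < m) :
    2 ^ n * |K.eulerChar| ≤
      (Module.finrank ℝ (ZCc (actW K) (Lam n m) (fun γ _ h => actW_lam γ h) o (m + 1)) : ℤ) -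
        Module.finrank ℝ (BCc (actW K) (Lam n m) (fun γ _ h => actW_lam γ h) o m) := by
  obtain ⟨s, hs, h1⟩ := core_ineq o hn hm
  rw [bettiW_formula o hn hm, ← zb_eq o hs m (m + 2)]
  exact h1

end Pool.Agent.ChG
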