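import Pool.Agent.ChG.PCoef

/-!
# Constant coefficients in a representation

The same as `PCoef.lean` (there for trivial coefficients in a field) for a representation.
`CC act L₀ hL o` is the coefficient system with the action `act`, the constant subspace `L₀` and
`D v I = sg v I`.  `ZCc` is the space of the cocycles with values in `L₀`, twisted by the
orientation character.

`cc_col`: choose `v₀ ∈ ρ`; for `q = 0` closedness at `{v₀}` gives `a ∅ = 0`; for `q > 0` take
`b J = sg v₀ J • a (insert v₀ J)` for `v₀ ∉ J`, `J ⊆ ρ`, and `b J = 0` otherwise; for `v₀ ∉ I` use closedness at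
`insert v₀ I`.
-/

namespace Pool.Agent.ChG

open Matrix Pool.Agent.ChP Pool.Agent.ChS
open scoped Pointwise

variable {n : ℕ} {K : AffineTriangulation n} {F M : Type} [Field F] [AddCommGroup M] [Module F M]

/-- constant coefficients -/
noncomputable def CC (act : K.Γ →* Module.End F M) (L₀ : Submodule F M)
    (hL : ∀ (γ : K.Γ), ∀ x ∈ L₀, act γ x ∈ L₀) (o : Lab K) : Coef K F M where
  act := act
  L := fun _ => L₀
  D := fun v I => (sg o.lab v I) • (LinearMap.id : M →ₗ[F] M)
  act_L := fun γ _ x hx => hL γ x hx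
  D_L := fun v I _ x hx => by
    rw [LinearMap.smul_apply, LinearMap.id_apply]
    exact L₀.smul_of_tower_mem _ hx
  D_act := fun γ v I x => by
    rw [sg_smul, LinearMap.smul_apply, LinearMap.smul_apply, LinearMap.id_apply,
      LinearMap.id_apply, map_zsmul]
  D_D := fun σ hσ u v I huv hu hv hsub x _ => by
    have hl : o.lab u ≠ o.lab v := fun h => huv (o.inj σ hσ
      (hsub (Finset.mem_insert_self _ _))
      (hsub (Finset.mem_insert_of_mem (Finset.mem_insert_self _ _))) h)
    have h := sg_swap o.lab hl hu hv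
    simp only [LinearMap.smul_apply, LinearMap.id_apply, smul_smul]
    rw [← add_smul, h, neg_add_cancel, zero_smul]

variable (act : K.Γ →* Module.End F M) (L₀ : Submodule F M)
  (hL : ∀ (γ : K.Γ), ∀ x ∈ L₀, act γ x ∈ L₀) (o : Lab K)

/-- The cocycles on the simplices with `t` vertices with values in `L₀`, twisted by the orientation
character. -/
noncomputable def ZCc (t : ℕ) : Submodule F (Finset K.V → M) where
  carrier := {a | a ∈ Asp (CC act L₀ hL o) t ∧ ∀ τ ∈ K.faces, τ.card = t + 1 → cob o a τ = 0}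
  add_mem' := by
    rintro a b ⟨ha, ha'⟩ ⟨hb, hb'⟩
    refine ⟨(Asp (CC act L₀ hL o) t).add_mem ha hb, fun τ hτ hc => ?_⟩
    have h1 := ha' τ hτ hc
    have h2 := hb' τ hτ hc
    unfold cob at h1 h2 ⊢
    simp only [Pi.add_apply, smul_add]
    rw [Finset.sum_add_distrib, h1, h2, add_zero]
  zero_mem' := ⟨(Asp (CC act L₀ hL o) t).zero_mem, fun τ _ _ => by
    unfold cob
    exact Finset.sum_eq_zero fun v _ => by rw [Pi.zero_apply, smul_zero]⟩
  smul_mem' := by
    rintro c a ⟨ha, ha'⟩
    refine ⟨(Asp (CC act L₀ hL o) t).smul_mem c ha, fun τ hτ hc => ?_⟩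
    have h1 := ha' τ hτ hc
    unfold cob at h1 ⊢
    have h2 : ∀ v, sg o.lab v τ • (c • a) (τ.erase v) = c • (sg o.lab v τ • a (τ.erase v)) :=
      fun v => by rw [Pi.smul_apply, smul_comm]
    simp only [h2]
    rw [← Finset.smul_sum, h1, smul_zero]

theorem dcol_cc (a : Finset K.V → M) (I : Finset K.V) :
    dcol (CC act L₀ hL o) a I = cob o a I := by
  unfold dcol cob
  refine Finset.sum_congr rfl fun v _ => ?_
  show ((sg o.lab v (I.erase v)) • (LinearMap.id : M →ₗ[F] M)) (a (I.erase v)) = _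
  rw [sg_erase_self]
  rfl

private theorem CCoef_sg_smul {A : Type} [AddCommGroup A] (v : K.V) (σ : Finset K.V) (x : A)
    (h : sg o.lab v σ • x = 0) : x = 0 := by
  have h1 : sg o.lab v σ • (sg o.lab v σ • x) = x := by
    rw [smul_smul, sg_mul_self, one_smul]
  rw [← h1, h, smul_zero]

private theorem CCoef_sign {A B C D : ℤ} (hA : A * A = 1)
    (hD : D * D = 1) (h : A * B = -(C * D)) : B * D = -(A * C) := by
  have h1 : A * (A * B) * D = A * (-(C * D)) * D := by rw [h]
  have h2 : A * (A * B) * D = (A * A) * (B * D) := by ring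
  have h3 : A * (-(C * D)) * D = -((A * C) * (D * D)) := by ring
  rw [h2, h3, hA, hD, one_mul, mul_one] at h1
  exact h1

private theorem CCoef_lab {ρ : Finset K.V} (hρ : ρ ∈ K.faces) {u v : K.V} (hu : u ∈ ρ)
    (hv : v ∈ ρ) (h : u ≠ v) : o.lab u ≠ o.lab v :=
  fun h' => h (o.inj ρ hρ (Finset.mem_coe.2 hu) (Finset.mem_coe.2 hv) h')

private theorem CCoef_swap {ρ : Finset K.V} (hρ : ρ ∈ K.faces) {I : Finset K.V} (hI : I ⊆ ρ)
    {v₀ v : K.V} (h0 : v₀ ∈ ρ) (h0I : v₀ ∉ I) (hv : v ∈ I) :
    sg o.lab v I * sg o.lab v₀ (I.erase v) = -(sg o.lab v₀ I * sg o.lab v (insert v₀ I)) := by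
  have hne : v₀ ≠ v := fun h => h0I (h ▸ hv)
  have h1 := sg_swap o.lab (σ := I.erase v) (CCoef_lab o hρ h0 (hI hv) hne)
    (fun h => h0I (Finset.mem_of_mem_erase h)) (Finset.notMem_erase v I)
  rw [Finset.insert_erase hv, sg_erase_self] at h1
  have h2 : sg o.lab v (insert v₀ (I.erase v)) = sg o.lab v (insert v₀ I) := by
    rw [← sg_insert_self o.lab v (insert v₀ (I.erase v)), Finset.insert_comm,
      Finset.insert_erase hv]
  rw [h2] at h1
  exact CCoef_sign (sg_mul_self _ _ _) (sg_mul_self _ _ _) h1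

theorem cc_col {t q : ℕ} (ht : 0 < t) : ColEx (CC act L₀ hL o) t q := by
  classical
  intro ρ hρ hc a haL hclosed
  obtain ⟨v₀, hv₀⟩ : ρ.Nonempty := Finset.card_pos.1 (by omega)
  constructor
  · intro hq
    subst hq
    have h := hclosed {v₀} (Finset.singleton_subset_iff.2 hv₀) (Finset.card_singleton _)
    rw [dcol_cc] at h
    unfold cob at h
    rw [Finset.sum_singleton, Finset.erase_singleton] at h
    exact CCoef_sg_smul o _ _ _ h
  · intro hq
    refine ⟨fun J => if v₀ ∈ J then 0 else sg o.lab v₀ J • a (insert v₀ J),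
      fun J => ?_, fun I hI hIc => ?_⟩
    · show (if v₀ ∈ J then 0 else sg o.lab v₀ J • a (insert v₀ J)) ∈ L₀
      split_ifs
      · exact L₀.zero_mem
      · exact zsmul_mem (haL _) _
    rw [dcol_cc]
    unfold cob
    by_cases h0 : v₀ ∈ I
    · rw [Finset.sum_eq_single_of_mem v₀ h0]
      · beta_reduce
        rw [if_neg (Finset.notMem_erase v₀ I), Finset.insert_erase h0, smul_smul, sg_erase_self,
          sg_mul_self, one_smul]
      · intro v _ hne
        beta_reduce
        rw [if_pos (Finset.mem_erase.2 ⟨fun h => hne h.symm, h0⟩), smul_zero]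
    · have h := hclosed (insert v₀ I) (Finset.insert_subset hv₀ hI)
        (by rw [Finset.card_insert_of_notMem h0, hIc])
      rw [dcol_cc] at h
      unfold cob at h
      rw [Finset.sum_insert h0, Finset.erase_insert h0, sg_insert_self] at h
      have h1 : sg o.lab v₀ I • (sg o.lab v₀ I • a I + ∑ v ∈ I, sg o.lab v (insert v₀ I) •
          a ((insert v₀ I).erase v)) = 0 := by rw [h, smul_zero]
      rw [smul_add, smul_smul, sg_mul_self, one_smul, Finset.smul_sum] at h1
      rw [eq_neg_of_add_eq_zero_left h1, ← Finset.sum_neg_distrib]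
      refine Finset.sum_congr rfl fun v hv => ?_
      have hne : v ≠ v₀ := fun h' => h0 (h' ▸ hv)
      beta_reduce
      rw [if_neg (fun h' => h0 (Finset.mem_of_mem_erase h')), smul_smul,
        CCoef_swap o hρ hI hv₀ h0 hv, Finset.erase_insert_of_ne hne.symm, neg_smul, smul_smul]

theorem cc_colRange {j : ℕ} (hj : j + 1 ≤ n) : ColRange (CC act L₀ hL o) j :=
  fun p q hpq _ => cc_col act L₀ hL o (by omega)

theorem cc_asp (hf : Module.Finite F L₀) (t : ℕ) :
    Module.Finite F (Asp (CC act L₀ hL o) (t + 1)) ∧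
    Module.finrank F (Asp (CC act L₀ hL o) (t + 1)) = K.numSimplices t * Module.finrank F L₀ :=
  asp_finrank (CC act L₀ hL o) (t := t) (Module.finrank F L₀) (fun _ _ _ => hf)
    (fun _ _ _ => rfl)

theorem cc_bsp (hf : Module.Finite F L₀) (t : ℕ) :
    Module.Finite F (Bsp (CC act L₀ hL o) (t + 1)) ∧
    Module.finrank F (Bsp (CC act L₀ hL o) (t + 1)) = K.numSimplices t * Module.finrank F L₀ :=
  bsp_finrank (CC act L₀ hL o) t hf

private theorem CCoef_cob_cob {σ : Finset K.V} (hσ : σ ∈ K.faces) (b : Finset K.V → M)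
    {τ : Finset K.V} (hτ : τ ⊆ σ) :
    ∑ v ∈ τ, sg o.lab v τ • cob o b (τ.erase v) = 0 := by
  classical
  unfold cob
  simp only [Finset.smul_sum, smul_smul]
  rw [Finset.sum_sigma']
  refine Finset.sum_involution (fun x _ => ⟨x.2, x.1⟩) ?_ ?_ ?_ ?_
  · rintro ⟨v, u⟩ hx
    rw [Finset.mem_sigma, Finset.mem_erase] at hx
    obtain ⟨hv, huv, hu⟩ := hx
    simp only at hv huv hu ⊢
    have h1 : (τ.erase v).erase u = (τ.erase u).erase v := Finset.erase_right_comm
    have h2 := sg_swap o.lab (σ := (τ.erase v).erase u)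
      (CCoef_lab o hσ (hτ hu) (hτ hv) huv) (Finset.notMem_erase u _)
      (fun h => Finset.notMem_erase v τ (Finset.mem_of_mem_erase h))
    have h3 : insert v ((τ.erase v).erase u) = τ.erase u := by
      rw [h1, Finset.insert_erase (Finset.mem_erase.2 ⟨huv.symm, hv⟩)]
    have h4 : insert u ((τ.erase v).erase u) = τ.erase v :=
      Finset.insert_erase (Finset.mem_erase.2 ⟨huv, hu⟩)
    rw [h3, h4] at h2
    have h5 : sg o.lab u (τ.erase u) = sg o.lab u τ := sg_erase_self _ _ _
    have h6 : sg o.lab v (τ.erase v) = sg o.lab v τ := sg_erase_self _ _ _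
    have h7 : sg o.lab v ((τ.erase v).erase u) = sg o.lab v (τ.erase u) := by
      rw [h1, sg_erase_self]
    have h8 : sg o.lab u ((τ.erase v).erase u) = sg o.lab u (τ.erase v) := sg_erase_self _ _ _
    rw [h5, h6, h7, h8] at h2
    rw [← h1, ← add_smul, h2, add_neg_cancel, zero_smul]
  · rintro ⟨v, u⟩ hx _ he
    rw [Finset.mem_sigma, Finset.mem_erase] at hx
    have h1 : u = v := congrArg Sigma.fst he
    exact hx.2.1 h1
  · rintro ⟨v, u⟩ hx
    rw [Finset.mem_sigma, Finset.mem_erase] at hx ⊢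
    exact ⟨hx.2.2, hx.2.1.symm, hx.1⟩
  · rintro ⟨v, u⟩ _
    rfl

theorem zg_cc {j : ℕ} (hj : j + 1 ≤ n) :
    ZG (CC act L₀ hL o) j = ZCc act L₀ hL o (j + 1) := by
  classical
  ext a
  constructor
  · rintro ⟨ha, hloc⟩
    refine ⟨ha, fun τ hτ hτc => ?_⟩
    obtain ⟨σ, hσ, hτσ, hσc⟩ := K.exists_top hτ
    obtain ⟨b, -, hb⟩ := hloc σ hσ hσc
    rw [← CCoef_cob_cob o hσ b hτσ]
    unfold cob
    refine Finset.sum_congr rfl fun v hv => ?_
    have h1 := hb (τ.erase v) ((Finset.erase_subset v τ).trans hτσ)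
      (by rw [Finset.card_erase_of_mem hv, hτc]; rfl)
    rw [dcol_cc] at h1
    unfold cob at h1
    rw [h1]
  · rintro ⟨ha, hcl⟩
    refine ⟨ha, fun σ hσ hσc => ?_⟩
    have h := cc_col act L₀ hL o (t := n + 1) (q := j + 1) (Nat.succ_pos n) σ hσ hσc a
      (fun I => ha.1 I) (fun I hI hIc => by
        rw [dcol_cc]
        have hIne : I.Nonempty := Finset.card_pos.1 (by omega)
        exact hcl I (K.down_closed σ hσ I hI hIne) hIc)
    exact h.2 (Nat.succ_pos j)

end Pool.Agent.ChG
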