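import Pool.Agent.ChG.CmpDefs

/-!
# The linear system of the cycles: basic facts

`fcT_free`: `K.free`.  `fcT_finite`: `K.exists_reps` or `K.cocompact`.
`bdE_sum`: sums over the support are sums over any larger finite set; `Finsupp.sum` is additive in the
coefficients (see `cyc_sum` in `ChB/EdgeSys.lean`); the `insert v ρ` for `v ∈ nb K ρ` are different.
`bdE_norm`: the sum of the absolute values of the coefficients is at most the number of elements of
`nb K ρ`, which is invariant (`nb_smul`), so it is bounded by cocompactness.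
-/

namespace Pool.Agent.ChG

open Matrix Pool.Agent.ChP Pool.Agent.ChS Pool.Agent.ELS
open scoped Pointwise

variable {n : ℕ} {K : AffineTriangulation n}

theorem fcT_free {t : ℕ} (g : K.Γ) (σ : FcT K t) (h : g • σ = σ) : g = 1 := by
  refine K.free g σ.1 σ.2.1 ?_
  rw [← fcT_smul_val, h]

theorem fcT_finite (K : AffineTriangulation n) (t : ℕ) :
    Finite (MulAction.orbitRel.Quotient K.Γ (FcT K t)) := by
  classical
  obtain ⟨F, hF⟩ := K.cocompact
  have hfin : Finite {x : FcT K t // x.1 ∈ F} := by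
    refine Finite.of_injective (fun x : {x : FcT K t // x.1 ∈ F} => (⟨x.1.1, x.2⟩ : {τ // τ ∈ F})) ?_
    intro x y h
    exact Subtype.ext (Subtype.ext (congrArg (fun z : {τ // τ ∈ F} => z.1) h))
  refine Finite.of_surjective (fun x : {x : FcT K t // x.1 ∈ F} =>
    (Quotient.mk'' x.1 : MulAction.orbitRel.Quotient K.Γ (FcT K t))) ?_
  intro q
  obtain ⟨σ, rfl⟩ := Quotient.exists_rep q
  obtain ⟨γ, hγ⟩ := hF σ.1 σ.2.1
  refine ⟨⟨γ • σ, hγ⟩, ?_⟩
  exact Quotient.sound ⟨γ, rfl⟩

private theorem CmpA_sum_add {X : Type*} (f g : X →₀ ℤ) :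
    ∑ x ∈ (f + g).support, |(f + g) x| ≤ ∑ x ∈ f.support, |f x| + ∑ x ∈ g.support, |g x| := by
  classical
  have h1 : ∑ x ∈ (f + g).support, |(f + g) x| ≤
      ∑ x ∈ f.support ∪ g.support, |(f + g) x| :=
    Finset.sum_le_sum_of_subset_of_nonneg Finsupp.support_add fun x _ _ => abs_nonneg _
  have h2 : ∑ x ∈ f.support ∪ g.support, |(f + g) x| ≤
      ∑ x ∈ f.support ∪ g.support, (|f x| + |g x|) :=
    Finset.sum_le_sum fun x _ => by rw [Finsupp.add_apply]; exact abs_add_le _ _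
  have h3 : ∑ x ∈ f.support ∪ g.support, |f x| = ∑ x ∈ f.support, |f x| :=
    (Finset.sum_subset Finset.subset_union_left fun x _ hx => by
      rw [Finsupp.notMem_support_iff.1 hx, abs_zero]).symm
  have h4 : ∑ x ∈ f.support ∪ g.support, |g x| = ∑ x ∈ g.support, |g x| :=
    (Finset.sum_subset Finset.subset_union_right fun x _ hx => by
      rw [Finsupp.notMem_support_iff.1 hx, abs_zero]).symm
  rw [Finset.sum_add_distrib, h3, h4] at h2
  exact h1.trans h2

private theorem CmpA_sum_sum {X Y : Type*} (s : Finset Y) (f : Y → X →₀ ℤ)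
    (h : ∀ y ∈ s, ∑ x ∈ (f y).support, |f y x| ≤ 1) :
    ∑ x ∈ (∑ y ∈ s, f y).support, |(∑ y ∈ s, f y) x| ≤ (s.card : ℤ) := by
  classical
  induction s using Finset.induction_on with
  | empty => simp
  | insert a s ha ih =>
    rw [Finset.sum_insert ha, Finset.card_insert_of_notMem ha]
    have h1 := CmpA_sum_add (f a) (∑ y ∈ s, f y)
    have h2 := ih fun y hy => h y (Finset.mem_insert_of_mem hy)
    have h3 := h a (Finset.mem_insert_self a s)
    refine h1.trans ?_
    have h4 : ((s.card + 1 : ℕ) : ℤ) = 1 + (s.card : ℤ) := by push_cast; ring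
    rw [h4]
    exact add_le_add h3 h2

private theorem CmpA_single {X : Type*} (x : X) (a : ℤ) :
    ∑ y ∈ (Finsupp.single x a).support, |Finsupp.single x a y| ≤ |a| := by
  refine (Finset.sum_le_sum_of_subset_of_nonneg Finsupp.support_single_subset
    fun x _ _ => abs_nonneg _).trans ?_
  rw [Finset.sum_singleton, Finsupp.single_eq_same]

private theorem CmpA_abs_sg {U : Type} (lab : U → ℕ) (v : U) (σ : Finset U) : |sg lab v σ| = 1 := by
  unfold sg
  rw [abs_pow, abs_neg, abs_one, one_pow]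

theorem bdE_norm (o : Lab K) (t : ℕ) :
    ∃ B : ℕ, ∀ ρ : FcT K t, ∑ x ∈ (bdE o t ρ).support, |bdE o t ρ x| ≤ (B : ℤ) := by
  classical
  obtain ⟨F, hF⟩ := K.cocompact
  refine ⟨∑ τ ∈ F, (nb K τ).card, fun ρ => ?_⟩
  obtain ⟨γ, hγ⟩ := hF ρ.1 ρ.2.1
  have h1 : ∑ x ∈ (bdE o t ρ).support, |bdE o t ρ x| ≤ ((nb K ρ.1).card : ℤ) := by
    unfold bdE
    refine CmpA_sum_sum _ _ fun v _ => ?_
    split_ifs with h
    · exact (CmpA_single _ _).trans (CmpA_abs_sg _ _ _).le
    · simp
  have h2 : (nb K ρ.1).card = (nb K (γ • ρ.1)).card := by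
    rw [nb_smul γ ρ.2.1, Finset.card_smul_finset]
  have h3 : (nb K (γ • ρ.1)).card ≤ ∑ τ ∈ F, (nb K τ).card :=
    Finset.single_le_sum (f := fun τ => (nb K τ).card) (fun _ _ => Nat.zero_le _) hγ
  refine h1.trans ?_
  rw [h2]
  exact_mod_cast h3

theorem bdE_sum (o : Lab K) {R M : Type*} [CommRing R] [AddCommGroup M] [Module R M] (t : ℕ)
    (ρ : FcT K t) (f : FcT K (t + 1) → M) (c : Finset K.V → M) (hc : ∀ σ : FcT K (t + 1), c σ.1 = f σ) :
    ∑ x ∈ (bdE o t ρ).support, ((bdE o t ρ x : ℤ) : R) • f x =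
      ∑ v ∈ nb K ρ.1, sg o.lab v ρ.1 • c (insert v ρ.1) := by
  classical
  let Φ : (FcT K (t + 1) →₀ ℤ) →+ M :=
    Finsupp.liftAddHom fun x => (zmultiplesHom M (f x))
  have hΦ : ∀ g : FcT K (t + 1) →₀ ℤ, ∑ x ∈ g.support, ((g x : ℤ) : R) • f x = Φ g := by
    intro g
    have h : Φ g = g.sum fun x a => a • f x := rfl
    rw [h]
    unfold Finsupp.sum
    exact Finset.sum_congr rfl fun x _ => Int.cast_smul_eq_zsmul R _ _
  rw [hΦ]
  unfold bdE
  rw [map_sum]
  refine Finset.sum_congr rfl fun v hv => ?_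
  rw [mem_nb ρ.2.1] at hv
  rw [dif_pos hv]
  have h : ∀ (x : FcT K (t + 1)) (a : ℤ), Φ (Finsupp.single x a) = a • f x := by
    intro x a
    show Finsupp.liftAddHom (fun x => (zmultiplesHom M (f x))) (Finsupp.single x a) = a • f x
    rw [Finsupp.liftAddHom_apply_single]
    rfl
  refine (h _ _).trans (congrArg (fun z => sg o.lab v ρ.1 • z) ?_)
  exact (hc _).symm

end Pool.Agent.ChG
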