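import Pool.Agent.ChG.CmpA

/-!
# The spaces of cycles as spaces of solutions

For `b ∈ ZB` the function `f σ = e (b σ)` (resp. `f σ = b σ`) on `FcT K (t+1)` is in `ESol` (resp. `TSol`)
by `bdE_sum`, and conversely a solution `f` is extended by `0`: `b σ = (e.symm (f ⟨σ, _⟩)).1` if `σ ∈ K.faces`,
`σ.card = t + 1`.  This gives a linear equivalence (`LinearEquiv.finrank_eq`).  The notions
`nb`, `bd`, `sg`, `actW` for `K.restrict H`, `o.restrict H` coincide with those for `K`, `o` by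
definition (`rfl`), and `LW m s ∅ = Lam n m` (`mem_LW`).
The elements of `ZB` vanish outside the simplices with `t + 1` vertices; for `ρ ∈ K.faces` with
`ρ.card ≠ t` the boundary vanishes automatically; `t ≥ 1` is not needed: `∅ ∉ K.faces`.
-/

namespace Pool.Agent.ChG

open Matrix Pool.Agent.ChP Pool.Agent.ChS Pool.Agent.ELS
open scoped Pointwise

variable {n : ℕ} {K : AffineTriangulation n}

private theorem cmpB_nb {ρ : Finset K.V} {v : K.V} (hv : v ∈ nb K ρ) : v ∉ ρ ∧ insert v ρ ∈ K.faces := by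
  classical
  unfold nb at hv
  split_ifs at hv with h
  · exact (h.mem_toFinset).1 hv
  · exact absurd hv (Finset.notMem_empty v)

private theorem cmpB_bd {F M : Type} [Field F] [AddCommGroup M] [Module F M] (o : Lab K)
    (H : Subgroup K.Γ) [hH : H.FiniteIndex] (b : Finset K.V → M) (ρ : Finset K.V) :
    bd (K := K.restrict H) (o.restrict H) b ρ = ∑ v ∈ nb K ρ, sg o.lab v ρ • b (insert v ρ) := rfl

private theorem cmpB_gen {F M M' : Type} [Field F] [AddCommGroup M] [Module F M] [AddCommGroup M']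
    [Module F M'] (o : Lab K) (H : Subgroup K.Γ) [hH : H.FiniteIndex]
    (C : Coef (K.restrict H) F M) (e : C.L ∅ ≃ₗ[F] M') (α : H → M' → M')
    (hα : ∀ (h : H) (ω : C.L ∅) (hm : C.act h ω.1 ∈ C.L ∅), e ⟨C.act h ω.1, hm⟩ = α h (e ω))
    (t : ℕ) (E : Submodule F (FcT K (t + 1) → M'))
    (hE : ∀ f, f ∈ E ↔ (∀ (h : H) (x : FcT K (t + 1)), f ((h : K.Γ) • x) = α h (f x)) ∧
      ∀ y : FcT K t, ∑ x ∈ (bdE o t y).support, ((bdE o t y x : ℤ) : F) • f x = 0) :
    Module.finrank F (ZB (o.restrict H) C (t + 1)) = Module.finrank F E := by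
  classical
  have hact : ∀ (h : H) (ω : C.L ∅), C.act h ω.1 ∈ C.L ∅ := by
    intro h ω
    have h1 := C.act_L h ∅ ω.1 ω.2
    rwa [Finset.smul_finset_empty] at h1
  have hL : ∀ (b : ZB (o.restrict H) C (t + 1)) (I : Finset K.V), b.1 I ∈ C.L ∅ :=
    fun b I => b.2.1.1 I
  have hzero : ∀ (b : ZB (o.restrict H) C (t + 1)) (I : Finset K.V),
      ¬ (I ∈ K.faces ∧ I.card = t + 1) → b.1 I = 0 := fun b I => b.2.1.2.1 I
  have hequi : ∀ (b : ZB (o.restrict H) C (t + 1)) (h : H) (I : Finset K.V),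
      b.1 ((h : K.Γ) • I) = C.act h (b.1 I) := fun b h I => b.2.1.2.2 h I
  have hbd : ∀ (b : ZB (o.restrict H) C (t + 1)), ∀ ρ ∈ K.faces,
      ∑ v ∈ nb K ρ, sg o.lab v ρ • b.1 (insert v ρ) = 0 := fun b ρ hρ => b.2.2 ρ hρ
  have hmem : ∀ b : ZB (o.restrict H) C (t + 1),
      (fun σ : FcT K (t + 1) => e ⟨b.1 σ.1, hL b σ.1⟩) ∈ E := by
    intro b
    rw [hE]
    refine ⟨fun h x => ?_, fun y => ?_⟩
    · rw [← hα h ⟨b.1 x.1, hL b x.1⟩ (hact h _)]
      congr 1
      apply Subtype.ext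
      exact hequi b h x.1
    · have h1 := bdE_sum o (R := F) t y (fun σ : FcT K (t + 1) => (⟨b.1 σ.1, hL b σ.1⟩ : C.L ∅))
        (fun I => (⟨b.1 I, hL b I⟩ : C.L ∅)) (fun _ => rfl)
      have h2 : ∑ v ∈ nb K y.1, sg o.lab v y.1 • (⟨b.1 (insert v y.1), hL b (insert v y.1)⟩ : C.L ∅)
          = 0 := by
        apply Subtype.ext
        rw [Submodule.coe_sum]
        exact hbd b y.1 y.2.1
      have h3 := congrArg e (h1.trans h2)
      rw [map_sum, map_zero] at h3
      rw [← h3]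
      exact Finset.sum_congr rfl fun x _ => (map_smul e _ _).symm
  let Φ : ZB (o.restrict H) C (t + 1) →ₗ[F] E :=
    { toFun := fun b => ⟨fun σ => e ⟨b.1 σ.1, hL b σ.1⟩, hmem b⟩
      map_add' := fun a b => by
        apply Subtype.ext
        funext σ
        exact map_add e ⟨a.1 σ.1, hL a σ.1⟩ ⟨b.1 σ.1, hL b σ.1⟩
      map_smul' := fun c b => by
        apply Subtype.ext
        funext σ
        exact map_smul e c ⟨b.1 σ.1, hL b σ.1⟩ }
  have hinj : Function.Injective Φ := by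
    intro a b hab
    apply Subtype.ext
    funext I
    by_cases hI : I ∈ K.faces ∧ I.card = t + 1
    · have h1 : e ⟨a.1 I, hL a I⟩ = e ⟨b.1 I, hL b I⟩ :=
        congrFun (congrArg Subtype.val hab) (⟨I, hI⟩ : FcT K (t + 1))
      exact congrArg Subtype.val (e.injective h1)
    · rw [hzero a I hI, hzero b I hI]
  have hsurj : Function.Surjective Φ := by
    rintro ⟨f, hf⟩
    obtain ⟨hf1, hf2⟩ := (hE f).1 hf
    let c : Finset K.V → C.L ∅ := fun I =>
      if h : I ∈ K.faces ∧ I.card = t + 1 then e.symm (f ⟨I, h⟩) else 0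
    have hc : ∀ σ : FcT K (t + 1), c σ.1 = e.symm (f σ) := fun σ => dif_pos σ.2
    have hc0 : ∀ I : Finset K.V, ¬ (I ∈ K.faces ∧ I.card = t + 1) → c I = 0 := fun I hI =>
      dif_neg hI
    have hsm : ∀ (h : K.Γ) (I : Finset K.V), h • I ∈ K.faces ∧ (h • I).card = t + 1 →
        I ∈ K.faces ∧ I.card = t + 1 := by
      rintro h I ⟨h1, h2⟩
      rw [Finset.card_smul_finset] at h2
      have h3 := K.smul_mem h⁻¹ _ h1
      rw [inv_smul_smul] at h3
      exact ⟨h3, h2⟩
    have hb : (fun I => (c I).1) ∈ ZB (o.restrict H) C (t + 1) := by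
      refine ⟨⟨fun I => (c I).2, fun I hI => ?_, fun (h : H) (I : Finset K.V) => ?_⟩,
        fun (ρ : Finset K.V) hρ => ?_⟩
      · show (c I).1 = 0
        rw [hc0 I hI]
        rfl
      · show (c ((h : K.Γ) • I)).1 = C.act h (c I).1
        by_cases hI : I ∈ K.faces ∧ I.card = t + 1
        · obtain ⟨x, hx⟩ : ∃ x : FcT K (t + 1), x = ⟨I, hI⟩ := ⟨_, rfl⟩
          have h1 := hc ((h : K.Γ) • x)
          have h2 := hc x
          rw [hx] at h2
          have h3 : c ((h : K.Γ) • I) = e.symm (α h (f ⟨I, hI⟩)) := by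
            subst hx
            rw [← hf1]
            exact h1
          have h4 : c I = e.symm (f ⟨I, hI⟩) := h2
          rw [h3, h4]
          have h5 := hα h (e.symm (f ⟨I, hI⟩)) (hact h _)
          rw [LinearEquiv.apply_symm_apply] at h5
          rw [← h5, LinearEquiv.symm_apply_apply]
        · have hI' : ¬ ((h : K.Γ) • I ∈ K.faces ∧ ((h : K.Γ) • I).card = t + 1) :=
            fun h1 => hI (hsm _ _ h1)
          rw [hc0 I hI, hc0 _ hI']
          exact (map_zero _).symm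
      · rw [cmpB_bd (F := F)]
        by_cases hcard : ρ.card = t
        · have h1 := bdE_sum o (R := F) t ⟨ρ, hρ, hcard⟩ (fun σ : FcT K (t + 1) => c σ.1) c
            (fun _ => rfl)
          have h2 : ∑ x ∈ (bdE o t ⟨ρ, hρ, hcard⟩).support,
              ((bdE o t ⟨ρ, hρ, hcard⟩ x : ℤ) : F) • c x.1 = 0 := by
            apply e.injective
            rw [map_sum, map_zero, ← hf2 ⟨ρ, hρ, hcard⟩]
            refine Finset.sum_congr rfl fun x _ => ?_
            rw [map_smul, hc x, LinearEquiv.apply_symm_apply]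
          have h3 := congrArg Subtype.val (h1.symm.trans h2)
          rw [Submodule.coe_sum] at h3
          exact h3
        · refine Finset.sum_eq_zero fun v hv => ?_
          obtain ⟨hv1, hv2⟩ := cmpB_nb hv
          have hn : ¬ (insert v ρ ∈ K.faces ∧ (insert v ρ).card = t + 1) := by
            rintro ⟨-, h1⟩
            rw [Finset.card_insert_of_notMem hv1] at h1
            exact hcard (Nat.succ_injective h1)
          rw [hc0 (insert v ρ) hn]
          exact smul_zero _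
    refine ⟨⟨_, hb⟩, ?_⟩
    apply Subtype.ext
    funext σ
    show e ⟨(c σ.1).1, _⟩ = f σ
    have h1 : (⟨(c σ.1).1, (c σ.1).2⟩ : C.L ∅) = e.symm (f σ) := hc σ
    rw [h1, LinearEquiv.apply_symm_apply]
  exact (LinearEquiv.ofBijective Φ ⟨hinj, hsurj⟩).finrank_eq

theorem esol_zb (o : Lab K) (H : Subgroup K.Γ) [hH : H.FiniteIndex] {m : ℕ}
    {s : K.V → Fin n → ℝ} (hs : Equi (K.restrict H) s)
    (e : Lam n m ≃ₗ[ℝ] (Fin (n.choose m) → ℝ))
    (ρ : K.Γ →* Matrix (Fin (n.choose m)) (Fin (n.choose m)) ℝ)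
    (hρ : ∀ (γ : K.Γ) (ω : Lam n m), e ⟨actW K γ ω.1, actW_lam γ ω.2⟩ = ρ γ *ᵥ e ω) (t : ℕ) :
    Module.finrank ℝ (ZB (o.restrict H) (WC (K := K.restrict H) m s hs) (t + 1)) =
      Module.finrank ℝ (ESol ℝ (bdE o t) (fun g => ρ g) H) := by
  have hLW : LW m s (∅ : Finset K.V) = Lam n m := by
    ext ω
    rw [mem_LW]
    constructor
    · rintro (⟨-, h, -⟩ | ⟨h, -⟩)
      · rwa [Finset.card_empty, Nat.sub_zero] at h
      · exact absurd h (Nat.not_lt_zero m)
    · intro h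
      refine Or.inl ⟨Nat.zero_le m, ?_, fun v hv => absurd hv (Finset.notMem_empty v)⟩
      rwa [Finset.card_empty, Nat.sub_zero]
  refine cmpB_gen o H (WC (K := K.restrict H) m s hs)
    ((LinearEquiv.ofEq _ _ hLW).trans e) (fun h x => ρ (h : K.Γ) *ᵥ x) ?_ t _ ?_
  · intro h ω hm
    exact hρ (h : K.Γ) (LinearEquiv.ofEq _ _ hLW ω)
  · intro f
    constructor
    · rintro ⟨h1, h2⟩
      exact ⟨fun h x => h1 h h.2 x, h2⟩
    · rintro ⟨h1, h2⟩
      exact ⟨fun h hh x => h1 ⟨h, hh⟩ x, h2⟩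

theorem tsol_zb (F : Type) [Field F] (o : Lab K) (H : Subgroup K.Γ) [hH : H.FiniteIndex] (t : ℕ) :
    Module.finrank F (ZB (o.restrict H) (PC F (o.restrict H)) (t + 1)) =
      Module.finrank F (TSol F (bdE o t) H) := by
  refine cmpB_gen o H (PC F (o.restrict H)) (Submodule.topEquiv) (fun _ x => x) ?_ t _ ?_
  · intro h ω hm
    rfl
  · intro f
    constructor
    · rintro ⟨h1, h2⟩
      exact ⟨fun h x => h1 h h.2 x, h2⟩
    · rintro ⟨h1, h2⟩
      exact ⟨fun h hh x => h1 ⟨h, hh⟩ x, h2⟩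

end Pool.Agent.ChG
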