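import Pool.Agent.ChG.XEq

/-!
# Linked cycles: definitions

`bA b` is the element of the double complex in the column `I = ∅` given by `b`; `Link j z b` is the
relation between `z ∈ ZG C j` and `b ∈ ZB o C (n + 1 - j)` given by a staircase in the double complex.
-/

namespace Pool.Agent.ChG

open Matrix Pool.Agent.ChP Pool.Agent.ChS
open scoped Pointwise

variable {n : ℕ} {K : AffineTriangulation n} {F M : Type} [Field F] [AddCommGroup M] [Module F M]

/-- the element of the double complex in the column `I = ∅` given by `b` -/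
noncomputable def bA (b : Finset K.V → M) (ρ I : Finset K.V) : M :=
  open Classical in
  if I = ∅ then b ρ else 0

/-- the boundary map, extended by zero -/
noncomputable def bdB (o : Lab K) (b : Finset K.V → M) (ρ : Finset K.V) : M :=
  open Classical in
  if ρ ∈ K.faces then bd o b ρ else 0

theorem bA_mem (C : Coef K F M) {t : ℕ} {b : Finset K.V → M} (hb : b ∈ Bsp C t) :
    bA b ∈ Xsp C t 0 := by
  classical
  refine ⟨fun ρ I => ?_, fun ρ I h => ?_, fun γ ρ I => ?_⟩
  · unfold bA
    split_ifs with hI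
    · subst hI
      exact hb.1 ρ
    · exact (C.L I).zero_mem
  · unfold bA
    split_ifs with hI
    · subst hI
      refine hb.2.1 ρ fun h' => h ⟨h'.1, h'.2, Finset.empty_subset _, Finset.card_empty⟩
    · rfl
  · unfold bA
    by_cases hI : I = ∅
    · subst hI
      rw [Finset.smul_finset_empty, if_pos rfl, if_pos rfl]
      exact hb.2.2 γ ρ
    · have hI' : ¬ γ • I = ∅ := by
        rw [Finset.smul_finset_eq_empty]
        exact hI
      rw [if_neg hI, if_neg hI', map_zero]

theorem of_mem_zero (C : Coef K F M) {t : ℕ} {c : Finset K.V → Finset K.V → M}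
    (hc : c ∈ Xsp C t 0) : ∃ b ∈ Bsp C t, c = bA b := by
  classical
  refine ⟨fun ρ => c ρ ∅, ⟨fun ρ => hc.1 ρ ∅, fun ρ h => ?_, fun γ ρ => ?_⟩, ?_⟩
  · exact hc.2.1 ρ ∅ fun h' => h ⟨h'.1, h'.2.1⟩
  · have h := hc.2.2 γ ρ ∅
    rw [Finset.smul_finset_empty] at h
    exact h
  · funext ρ I
    unfold bA
    split_ifs with hI
    · rw [hI]
    · exact hc.2.1 ρ I fun h' => hI (Finset.card_eq_zero.1 h'.2.2.2)

theorem bA_inj {b b' : Finset K.V → M} (h : bA b = bA b') : b = b' := by
  funext ρ
  have h1 := congrFun (congrFun h ρ) ∅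
  unfold bA at h1
  rw [if_pos rfl, if_pos rfl] at h1
  exact h1

theorem dl_bA (o : Lab K) (b : Finset K.V → M) : dl o (bA b) = bA (bdB o b) := by
  classical
  funext ρ I
  by_cases hI : I = ∅
  · subst hI
    have h1 : (fun ρ' => bA b ρ' ∅) = b := by
      funext ρ'
      unfold bA
      rw [if_pos rfl]
    unfold dl
    rw [h1]
    unfold bA bdB
    simp only [Finset.empty_subset, and_true, if_true]
  · have h1 : (fun ρ' => bA b ρ' I) = fun _ => (0 : M) := by
      funext ρ'
      unfold bA
      rw [if_neg hI]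
    unfold dl
    rw [h1]
    unfold bA
    rw [if_neg hI]
    split_ifs
    · unfold bd
      exact Finset.sum_eq_zero fun v _ => smul_zero _
    · rfl

theorem bdB_mem (o : Lab K) (C : Coef K F M) {t : ℕ} {b : Finset K.V → M}
    (hb : b ∈ Bsp C (t + 1)) : bdB o b ∈ Bsp C t := by
  obtain ⟨b', hb', h⟩ := of_mem_zero C (dl_mem o C (bA_mem C hb))
  rw [dl_bA] at h
  rw [bA_inj h]
  exact hb'

theorem mem_ZB (o : Lab K) (C : Coef K F M) {t : ℕ} {b : Finset K.V → M} :
    b ∈ ZB o C t ↔ b ∈ Bsp C t ∧ bdB o b = 0 := by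
  classical
  constructor
  · rintro ⟨h1, h2⟩
    refine ⟨h1, ?_⟩
    funext ρ
    unfold bdB
    split_ifs with h
    · exact h2 ρ h
    · rfl
  · rintro ⟨h1, h2⟩
    refine ⟨h1, fun ρ hρ => ?_⟩
    have h3 := congrFun h2 ρ
    unfold bdB at h3
    rw [if_pos hρ] at h3
    exact h3

/-- The relation given by a staircase `y 0, ..., y j` in the double complex. -/
def Link (o : Lab K) (C : Coef K F M) (j : ℕ) (z b : Finset K.V → M) : Prop :=
  ∃ y : ℕ → Finset K.V → Finset K.V → M, (∀ i ≤ j, y i ∈ Xsp C (n + 1 - i) (j - i)) ∧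
    dd C (y 0) = orA o z ∧ (∀ i < j, dd C (y (i + 1)) = dl o (y i)) ∧ y j = bA b

/-- the columns are exact in the range needed for cycles of degree `j` -/
def ColRange (C : Coef K F M) (j : ℕ) : Prop :=
  ∀ p q : ℕ, p + q ≤ j + 1 → ¬ (p = 0 ∧ q = j + 1) → ColEx C (n + 1 - p) q

end Pool.Agent.ChG
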