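import Pool.Agent.ChG.WRep
import Pool.Agent.ChG.PCoef
import Pool.Agent.ELS.Defs
import Pool.Agent.ChS.Final

/-!
# The cycles as solutions of an integral linear system

`FcT K t` is the type of the simplices with `t` vertices, `bdE o t ρ` is the equation `∂ c (ρ) = 0`.
-/

namespace Pool.Agent.ChG

open Matrix Pool.Agent.ChP Pool.Agent.ChS Pool.Agent.ELS
open scoped Pointwise

variable {n : ℕ} (K : AffineTriangulation n)

/-- The simplices with `t` vertices, as a type. -/
def FcT (t : ℕ) : Type := {σ : Finset K.V // σ ∈ K.faces ∧ σ.card = t}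

instance (t : ℕ) : MulAction K.Γ (FcT K t) where
  smul g σ := ⟨g • σ.1, K.smul_mem g _ σ.2.1, by rw [Finset.card_smul_finset]; exact σ.2.2⟩
  one_smul σ := Subtype.ext (one_smul _ _)
  mul_smul a b σ := Subtype.ext (mul_smul _ _ _)

theorem fcT_smul_val {t : ℕ} (g : K.Γ) (σ : FcT K t) : (g • σ).1 = g • σ.1 := rfl

variable {K}

/-- The equations of the cycles. -/
noncomputable def bdE (o : Lab K) (t : ℕ) (ρ : FcT K t) : FcT K (t + 1) →₀ ℤ :=
  open Classical in
  ∑ v ∈ nb K ρ.1, if h : v ∉ ρ.1 ∧ insert v ρ.1 ∈ K.faces then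
    Finsupp.single ⟨insert v ρ.1, h.2, by rw [Finset.card_insert_of_notMem h.1, ρ.2.2]⟩
      (sg o.lab v ρ.1) else 0

end Pool.Agent.ChG
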