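import Pool.Agent.ELS.Lift
import Pool.Agent.ELS.Restr
import Pool.Agent.ELS.RepEx
import Pool.Agent.ELS.Coord

/-!
# The comparison theorem modulo a prime

The dimension of the space of solutions of an integral linear system in a representation of `Γ` of
dimension `d`, equivariant under a deep subgroup `H` of finite index, is at most `d` times the dimension
of the space of invariant solutions modulo a suitable prime.
-/

namespace Pool.Agent.ChG

open Matrix Pool.Agent.ELS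

theorem comparison_p {Γ X Y : Type} [Group Γ] (hΓ : Group.FG Γ) [MulAction Γ X]
    (hfree : ∀ (g : Γ) (x : X), g • x = x → g = 1)
    (hfin : Finite (MulAction.orbitRel.Quotient Γ X)) (a : Y → X →₀ ℤ) (B : ℕ)
    (hB : ∀ y, ∑ x ∈ (a y).support, |a y x| ≤ (B : ℤ)) (d : ℕ)
    (ρ : Γ →* Matrix (Fin d) (Fin d) ℝ) :
    ∃ (p : ℕ) (_ : Fact p.Prime) (Γ₀ : Subgroup Γ), Γ₀.FiniteIndex ∧
      ∀ H : Subgroup Γ, H ≤ Γ₀ → H.FiniteIndex →
        Module.finrank ℝ (ESol ℝ a (fun g => ρ g) H) ≤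
          d * Module.finrank (ZMod p) (TSol (ZMod p) a H) := by
  obtain ⟨B', hB'⟩ : ∃ B', B' = B + 1 := ⟨_, rfl⟩
  have hBB : ∀ y, ∑ x ∈ (a y).support, |a y x| ≤ (B' : ℤ) := fun y => by
    have := hB y
    rw [hB']
    push_cast
    omega
  obtain ⟨T, hT⟩ := exists_lift hΓ ρ
  obtain ⟨A, K, _, _, _, π, p, hp, D, b, Λ, hTA, hD, hΛ⟩ := exists_padic T
  obtain ⟨ρA, hρA⟩ := hT A hTA
  obtain ⟨Γ₀, hΓ₀, hcongr⟩ := exists_congr p 1 D Λ ρA
  refine ⟨p, hp, Γ₀, hΓ₀, fun H hH hHi => ?_⟩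
  obtain ⟨R⟩ := exists_rep hfree hfin H hHi
  have hp2 : 2 ≤ p := hp.out.two_le
  have hne : NeZero (p ^ 1) := ⟨by positivity⟩
  have hne' : NeZero p := ⟨by positivity⟩
  obtain ⟨κ, hκ⟩ : ∃ κ, κ = Module.finrank ℝ (ESol ℝ a (fun g => ρ g) H) := ⟨_, rfl⟩
  obtain ⟨hfinT, -⟩ := tsol_card a B' (by omega) hBB R (p ^ 1)
  obtain ⟨hfinT', -⟩ := tsol_card a B' (by omega) hBB R p
  have h1 := esol_finrank a A ρA R
  have hfun : (fun g => (ρA g).map A.subtype) = fun g => ρ g := by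
    funext g
    exact hρA g
  rw [hfun, ← hκ] at h1
  have h2 := restr π p b Λ hΛ (rowsA a ρA R)
  have h3 := red_pow p (bigRows p Λ (rowsA a ρA R)) 1
  rw [powSol_card] at h3
  have h4 := powSol_le p 1 D a Λ ρA R (fun h hh => hcongr h (hH hh))
  have key : ∀ q, q = p → Nat.card (TSol (ZMod q) a H) = Nat.card (TSol (ZMod p) a H) := by
    rintro q rfl
    rfl
  rw [key _ (pow_one p)] at h4
  have hcard : Nat.card (TSol (ZMod p) a H) =
      p ^ Module.finrank (ZMod p) (TSol (ZMod p) a H) := by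
    rw [Module.natCard_eq_pow_finrank (K := ZMod p), Nat.card_zmod]
  rw [hcard, ← pow_mul] at h4
  have h5 : p ^ (D * κ) ≤ p ^ (Module.finrank (ZMod p) (TSol (ZMod p) a H) * (d * D)) := by
    refine le_trans (Nat.pow_le_pow_right (by omega) ?_) (h3.trans h4)
    rw [one_mul]
    exact (Nat.mul_le_mul_left D h1).trans h2
  have h6 := (Nat.pow_le_pow_iff_right (by omega)).1 h5
  rw [← hκ]
  have h7 : D * κ ≤ D * (d * Module.finrank (ZMod p) (TSol (ZMod p) a H)) := by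
    calc D * κ ≤ _ := h6
      _ = _ := by ring
  exact Nat.le_of_mul_le_mul_left h7 hD

end Pool.Agent.ChG
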