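import Pool.Agent.ChG.DCDefs

/-!
# Linked cycles exist

`link_left`: `y 0` by `loc_ex`.  Given `y i` (`i < j`) with `dd (y i) = dl (y (i-1))` (resp. `orA z` for
`i = 0`), `dd (dl (y i)) = dl (dd (y i)) = dl (dl ..) = 0` (resp. `orA_dl`), so `y (i+1)` exists by `col_ex`
(`ColEx C (n - i) (j - i)`, here `n + 1 - (i + 1) = n - i`, `q + 1 = j - i`).  `y j = bA b` (`of_mem_zero`);
`dd (dl (y j)) = 0`, so `dl (y j) = 0` by `col_ex_zero` (`ColEx C (n - j) 0`); `dl_bA`.

`link_right`: `y j = bA b`.  Given `y i` with `i > 0`, `dl (dd (y i)) = dd (dl (y i)) = 0` (for `i = j`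
because `dl (bA b) = 0`, for `i < j` because `dl (y i) = dd (y (i+1))`, `dd_dd`); `row_ex` gives `y (i-1)`
with `dl (y (i-1)) = dd (y i)` (`dd (y i) ∈ Xsp C (n + 1 - i) (j - i + 1)`, `n + 1 - i ≤ n`).  Finally
`dl (dd (y 0)) = 0` and `row_top` gives `z ∈ Asp C (j+1)` with `dd (y 0) = orA z`; `z ∈ ZG`: for a
chamber `σ` take `b = orZ o σ • y 0 σ` (`orZ` is `± 1`).
-/

namespace Pool.Agent.ChG

open Matrix Pool.Agent.ChP Pool.Agent.ChS
open scoped Pointwise

variable {n : ℕ} {K : AffineTriangulation n} {F M : Type} [Field F] [AddCommGroup M] [Module F M]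

private theorem dca_bA_zero : bA (0 : Finset K.V → M) = 0 := by
  funext ρ I
  unfold bA
  split_ifs <;> rfl

private theorem dca_dd_zero (C : Coef K F M) : dd C (0 : Finset K.V → Finset K.V → M) = 0 := by
  have h := dd_sub C (0 : Finset K.V → Finset K.V → M) 0
  rw [sub_self, sub_self] at h
  exact h

private theorem dca_dl_zero (o : Lab K) : dl o (0 : Finset K.V → Finset K.V → M) = 0 := by
  have h := dl_sub o (0 : Finset K.V → Finset K.V → M) 0
  rw [sub_self, sub_self] at h
  exact h

/-- the staircase from the left -/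
private theorem dca_left (o : Lab K) (C : Coef K F M) {j : ℕ} (hj : j + 1 ≤ n)
    (hcol : ColRange C j) {z : Finset K.V → M} (hz : z ∈ ZG C j) (m : ℕ) (hm : m ≤ j) :
    ∃ y : ℕ → Finset K.V → Finset K.V → M, (∀ i ≤ m, y i ∈ Xsp C (n + 1 - i) (j - i)) ∧
      dd C (y 0) = orA o z ∧ (∀ i < m, dd C (y (i + 1)) = dl o (y i)) := by
  induction m with
  | zero =>
    obtain ⟨e, he, hd⟩ := loc_ex o C hz
    refine ⟨fun _ => e, ?_, hd, ?_⟩
    · intro i hi
      have hi0 : i = 0 := by omega
      rw [hi0]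
      exact he
    · intro i hi
      omega
  | succ m ih =>
    obtain ⟨y, h1, h2, h3⟩ := ih (by omega)
    have ht : n + 1 - m = (n - m) + 1 := by omega
    have hq : j - m = (j - (m + 1)) + 1 := by omega
    have hy : y m ∈ Xsp C ((n - m) + 1) (j - m) := by
      have := h1 m le_rfl
      rwa [ht] at this
    have hdl : dl o (y m) ∈ Xsp C (n - m) ((j - (m + 1)) + 1) := by
      have := dl_mem o C hy
      rwa [hq] at this
    have h0 : dd C (dl o (y m)) = 0 := by
      rw [← dl_dd o C hy]
      rcases Nat.eq_zero_or_pos m with hm0 | hm0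
      · rw [hm0, h2]
        exact orA_dl o C hz.1
      · obtain ⟨m', rfl⟩ : ∃ m', m = m' + 1 := ⟨m - 1, by omega⟩
        rw [h3 m' (by omega)]
        exact dl_dl o _
    have hc : ColEx C (n - m) ((j - (m + 1)) + 1) := by
      have := hcol (m + 1) (j - m) (by omega) (by omega)
      have e1 : n + 1 - (m + 1) = n - m := by omega
      rwa [e1, hq] at this
    obtain ⟨e, he, hd⟩ := col_ex C hc hdl h0
    refine ⟨Function.update y (m + 1) e, ?_, ?_, ?_⟩
    · intro i hi
      rcases Nat.lt_or_ge i (m + 1) with h | h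
      · rw [Function.update_of_ne (by omega)]
        exact h1 i (by omega)
      · have hi1 : i = m + 1 := by omega
        rw [hi1, Function.update_self]
        have e1 : n + 1 - (m + 1) = n - m := by omega
        rw [e1]
        exact he
    · rw [Function.update_of_ne (by omega)]
      exact h2
    · intro i hi
      rcases Nat.lt_or_ge i m with h | h
      · rw [Function.update_of_ne (by omega), Function.update_of_ne (by omega)]
        exact h3 i h
      · have hi1 : i = m := by omega
        rw [hi1, Function.update_self, Function.update_of_ne (by omega)]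
        exact hd

theorem link_left (o : Lab K) (C : Coef K F M) {j : ℕ} (hj : j + 1 ≤ n) (hcol : ColRange C j)
    {z : Finset K.V → M} (hz : z ∈ ZG C j) :
    ∃ b ∈ ZB o C (n + 1 - j), Link o C j z b := by
  obtain ⟨y, h1, h2, h3⟩ := dca_left o C hj hcol hz j le_rfl
  have hyj : y j ∈ Xsp C (n + 1 - j) 0 := by
    have := h1 j le_rfl
    rwa [Nat.sub_self] at this
  obtain ⟨b, hb, hyb⟩ := of_mem_zero C hyj
  have hyj' : y j ∈ Xsp C ((n - j) + 1) 0 := by
    have e1 : n + 1 - j = (n - j) + 1 := by omega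
    rwa [e1] at hyj
  have h0 : dd C (dl o (y j)) = 0 := by
    rw [← dl_dd o C hyj']
    rcases Nat.eq_zero_or_pos j with hj0 | hj0
    · have e2 : y j = y 0 := by rw [hj0]
      rw [e2, h2]
      exact orA_dl o C hz.1
    · obtain ⟨j', rfl⟩ : ∃ j', j = j' + 1 := ⟨j - 1, by omega⟩
      rw [h3 j' (by omega)]
      exact dl_dl o _
  have hc : ColEx C (n - j) 0 := by
    have := hcol (j + 1) 0 (by omega) (by omega)
    have e1 : n + 1 - (j + 1) = n - j := by omega
    rwa [e1] at this
  have hdl : dl o (y j) = 0 := col_ex_zero C hc (dl_mem o C hyj') h0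
  have hbd : bdB o b = 0 := by
    apply bA_inj
    rw [← dl_bA, ← hyb, hdl, dca_bA_zero]
  refine ⟨b, (mem_ZB o C).2 ⟨hb, hbd⟩, y, h1, h2, h3, hyb⟩

/-- the staircase from the right -/
private theorem dca_right (o : Lab K) (C : Coef K F M) {j : ℕ} (hj : j + 1 ≤ n)
    {b : Finset K.V → M} (hb : b ∈ Bsp C (n + 1 - j)) (hbd : bdB o b = 0) (m : ℕ) (hm : m ≤ j) :
    ∃ y : ℕ → Finset K.V → Finset K.V → M,
      (∀ i ≤ j, j - m ≤ i → y i ∈ Xsp C (n + 1 - i) (j - i)) ∧
      (∀ i < j, j - m ≤ i → dd C (y (i + 1)) = dl o (y i)) ∧ y j = bA b := by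
  induction m with
  | zero =>
    refine ⟨fun _ => bA b, ?_, ?_, rfl⟩
    · intro i hi hi'
      have hij : i = j := by omega
      rw [hij, Nat.sub_self]
      exact bA_mem C hb
    · intro i hi hi'
      omega
  | succ m ih =>
    obtain ⟨y, h1, h2, h3⟩ := ih (by omega)
    obtain ⟨i, hi⟩ : ∃ i, j - m = i + 1 := ⟨j - m - 1, by omega⟩
    have hyi : y (i + 1) ∈ Xsp C (n - i) (j - (i + 1)) := by
      have := h1 (i + 1) (by omega) (by omega)
      have e1 : n + 1 - (i + 1) = n - i := by omega
      rwa [e1] at this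
    have hyi' : y (i + 1) ∈ Xsp C ((n - (i + 1)) + 1) (j - (i + 1)) := by
      have e1 : n - i = (n - (i + 1)) + 1 := by omega
      rwa [e1] at hyi
    have hdl : dd C (dl o (y (i + 1))) = 0 := by
      rcases Nat.lt_or_ge (i + 1) j with h | h
      · rw [← h2 (i + 1) h (by omega)]
        exact dd_dd C (h1 (i + 1 + 1) (by omega) (by omega))
      · have hij : i + 1 = j := by omega
        rw [hij, h3, dl_bA, hbd, dca_bA_zero, dca_dd_zero]
    have h0 : dl o (dd C (y (i + 1))) = 0 := by
      rw [dl_dd o C hyi']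
      exact hdl
    have hdd : dd C (y (i + 1)) ∈ Xsp C (n - i) (j - (i + 1) + 1) := dd_mem C hyi
    obtain ⟨e, he, hd⟩ := row_ex o C (by omega) (by omega) hdd h0
    refine ⟨Function.update y i e, ?_, ?_, ?_⟩
    · intro i' hi1 hi2
      rcases Nat.lt_or_ge i i' with h | h
      · rw [Function.update_of_ne (by omega)]
        exact h1 i' hi1 (by omega)
      · have hii : i' = i := by omega
        rw [hii, Function.update_self]
        have e1 : n + 1 - i = n - i + 1 := by omega
        have e2 : j - i = j - (i + 1) + 1 := by omega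
        rw [e1, e2]
        exact he
    · intro i' hi1 hi2
      rcases Nat.lt_or_ge i i' with h | h
      · rw [Function.update_of_ne (by omega), Function.update_of_ne (by omega)]
        exact h2 i' hi1 (by omega)
      · have hii : i' = i := by omega
        rw [hii, Function.update_self, Function.update_of_ne (by omega)]
        exact hd.symm
    · rw [Function.update_of_ne (by omega)]
      exact h3

theorem link_right (o : Lab K) (C : Coef K F M) {j : ℕ} (hj : j + 1 ≤ n)
    {b : Finset K.V → M} (hb : b ∈ ZB o C (n + 1 - j)) :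
    ∃ z ∈ ZG C j, Link o C j z b := by
  obtain ⟨hb1, hb2⟩ := (mem_ZB o C).1 hb
  obtain ⟨y, h1, h2, h3⟩ := dca_right o C hj hb1 hb2 j le_rfl
  have hy0 : y 0 ∈ Xsp C (n + 1) j := by
    have := h1 0 (by omega) (by omega)
    simpa using this
  have h0 : dl o (dd C (y 0)) = 0 := by
    rw [dl_dd o C hy0]
    rcases Nat.eq_zero_or_pos j with hj0 | hj0
    · have e : y 0 = bA b := by rw [← h3, hj0]
      rw [e, dl_bA, hb2, dca_bA_zero, dca_dd_zero]
    · rw [← h2 0 hj0 (by omega)]
      exact dd_dd C (h1 1 (by omega) (by omega))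
  obtain ⟨z, hz, hzy⟩ := row_top o C (by omega) (dd_mem C hy0) h0
  refine ⟨z, ⟨hz, ?_⟩, y, fun i hi => h1 i hi (by omega), hzy,
    fun i hi => h2 i hi (by omega), h3⟩
  intro σ hσ hc
  refine ⟨fun J => orZ o σ • y 0 σ J, ?_, ?_⟩
  · intro J
    exact (C.L J).toAddSubgroup.zsmul_mem (hy0.1 σ J) _
  · intro I hI hIc
    have e1 : dcol C (fun J => orZ o σ • y 0 σ J) I = orZ o σ • dcol C (y 0 σ) I := by
      unfold dcol
      rw [Finset.smul_sum]
      exact Finset.sum_congr rfl fun v _ => by rw [map_zsmul]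
    have e2 : dcol C (y 0 σ) I = orZ o σ • z I := by
      have e3 := congrFun (congrFun hzy σ) I
      unfold dd orA at e3
      rw [if_pos hI, if_pos ⟨hσ, hc, hI⟩] at e3
      exact e3
    rw [e1, e2, smul_smul, orZ_mul_self o hσ hc, one_smul]

end Pool.Agent.ChG
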