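import Pool.Agent.ChG.DCDefs

/-!
# Linked cycles: boundaries correspond

`link_bd_left`: let `z = dA C j a`, `a ∈ Asp C j`, `j ≥ 1`.  `dd (y 0 - orA a) = 0` (`dd_orA`), so
`y 0 = orA a + dd (g 0)`, `g 0 ∈ Xsp C (n+1) (j-1)` (`col_ex`, `ColEx C (n+1) j`).  Then
`dd (y 1) = dl (y 0) = dl (dd (g 0)) = dd (dl (g 0))` (`orA_dl`), so `y 1 = dl (g 0) + dd (g 1)`,
`g 1 ∈ Xsp C n (j-2)`, and so on; `y i = dl (g (i-1)) + dd (g i)`, `g i ∈ Xsp C (n+1-i) (j-1-i)`, for `i < j`, and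
`dd (y j - dl (g (j-1))) = 0`, so `y j = dl (g (j-1))` by `col_ex_zero`; `g (j-1) = bA e`, `e ∈ Bsp C (n+2-j)`.

`link_bd_right`: let `b = bdB o e`, `e ∈ Bsp C (n+2-j)`, `j ≥ 1`.  `y j = dl (bA e)`; put `g (j-1) = bA e`.  For
`i = j - 1, ..., 1`: `dl (y i - dd (g i)) = 0`, so `y i = dd (g i) + dl (g (i-1))`,
`g (i-1) ∈ Xsp C (n+2-i) (j-i)` (`row_ex`; `y i ∈ Xsp C (n+1-i) (j-i)`, `j - i > 0`, `n+1-i ≤ n`).  Then
`dl (y 0 - dd (g 0)) = 0`, so `y 0 = dd (g 0) + orA a` with `a ∈ Asp C j` (`row_top`), and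
`orA z = dd (y 0) = dd (orA a) = orA (dA a)`, so `z = dA a` (`orA_inj` for `z - dA a`).

`link_zero` (`j = 0`): if `b = 0` then `y 0 = 0`, `orA z = 0`; if `z = 0` then `dd (y 0) = 0`, `y 0 = 0`.
-/

namespace Pool.Agent.ChG

open Matrix Pool.Agent.ChP Pool.Agent.ChS
open scoped Pointwise

variable {n : ℕ} {K : AffineTriangulation n} {F M : Type} [Field F] [AddCommGroup M] [Module F M]

private theorem dcb_bA_zero : bA (0 : Finset K.V → M) = 0 := by
  funext ρ I
  unfold bA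
  split_ifs <;> rfl

private theorem dcb_dd_zero (C : Coef K F M) : dd C (0 : Finset K.V → Finset K.V → M) = 0 := by
  have h := dd_sub C (0 : Finset K.V → Finset K.V → M) 0
  rw [sub_self, sub_self] at h
  exact h

private theorem dcb_orA_sub (o : Lab K) (a a' : Finset K.V → M) :
    orA o (a - a') = orA o a - orA o a' := by
  funext σ I
  rw [Pi.sub_apply, Pi.sub_apply]
  unfold orA
  split_ifs
  · rw [Pi.sub_apply, smul_sub]
  · rw [sub_zero]

private theorem dcb_orA_zero (o : Lab K) : orA o (0 : Finset K.V → M) = 0 := by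
  have h := dcb_orA_sub o (0 : Finset K.V → M) 0
  rw [sub_self, sub_self] at h
  exact h

/-- the staircase of primitives from the left -/
private theorem dcb_left (o : Lab K) (C : Coef K F M) {j : ℕ} (hj : j + 1 + 1 ≤ n)
    (hcol : ColRange C (j + 1)) {a : Finset K.V → M} (ha : a ∈ Asp C (j + 1))
    {y : ℕ → Finset K.V → Finset K.V → M}
    (h1 : ∀ i ≤ j + 1, y i ∈ Xsp C (n + 1 - i) (j + 1 - i))
    (h2 : dd C (y 0) = orA o (dA C (j + 1) a))
    (h3 : ∀ i < j + 1, dd C (y (i + 1)) = dl o (y i)) (i : ℕ) (hi : i ≤ j) :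
    ∃ g ∈ Xsp C (n + 1 - i) (j - i), dl o (dd C g) = dl o (y i) := by
  induction i with
  | zero =>
    have hy0 : y 0 ∈ Xsp C (n + 1) (j + 1) := by
      have := h1 0 (Nat.zero_le _)
      simpa using this
    have hw : y 0 - orA o a ∈ Xsp C (n + 1) (j + 1) := (Xsp C (n + 1) (j + 1)).sub_mem hy0
      (orA_mem o C ha)
    have hw0 : dd C (y 0 - orA o a) = 0 := by
      rw [dd_sub, h2, dd_orA o C ha, sub_self]
    have hc : ColEx C (n + 1) (j + 1) := by
      have := hcol 0 (j + 1) (by omega) (by omega)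
      simpa using this
    obtain ⟨g, hg, hd⟩ := col_ex C hc hw hw0
    refine ⟨g, by simpa using hg, ?_⟩
    rw [hd, dl_sub, orA_dl o C ha, sub_zero]
  | succ i ih =>
    obtain ⟨g, hg, hd⟩ := ih (by omega)
    have e1 : n + 1 - i = (n - i) + 1 := by omega
    have e2 : n + 1 - (i + 1) = n - i := by omega
    have e3 : j + 1 - (i + 1) = (j - (i + 1)) + 1 := by omega
    have e4 : j - i = (j - (i + 1)) + 1 := by omega
    have hg' : g ∈ Xsp C ((n - i) + 1) ((j - (i + 1)) + 1) := by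
      rwa [e1, e4] at hg
    have hy : y (i + 1) ∈ Xsp C (n - i) ((j - (i + 1)) + 1) := by
      have := h1 (i + 1) (by omega)
      rwa [e2, e3] at this
    have hw : y (i + 1) - dl o g ∈ Xsp C (n - i) ((j - (i + 1)) + 1) :=
      (Xsp C (n - i) ((j - (i + 1)) + 1)).sub_mem hy (dl_mem o C hg')
    have hw0 : dd C (y (i + 1) - dl o g) = 0 := by
      rw [dd_sub, h3 i (by omega), ← dl_dd o C hg', hd, sub_self]
    have hc : ColEx C (n - i) ((j - (i + 1)) + 1) := by
      have := hcol (i + 1) ((j - (i + 1)) + 1) (by omega) (by omega)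
      rwa [e2] at this
    obtain ⟨g', hg1, hd1⟩ := col_ex C hc hw hw0
    refine ⟨g', by rw [e2]; exact hg1, ?_⟩
    rw [hd1, dl_sub, dl_dl, sub_zero]

/-- the staircase of primitives from the right -/
private theorem dcb_right (o : Lab K) (C : Coef K F M) {j : ℕ} (hj : j + 1 + 1 ≤ n)
    {e : Finset K.V → M} (he : e ∈ Bsp C (n + 1 - j))
    {y : ℕ → Finset K.V → Finset K.V → M}
    (h1 : ∀ i ≤ j + 1, y i ∈ Xsp C (n + 1 - i) (j + 1 - i))
    (h3 : ∀ i < j + 1, dd C (y (i + 1)) = dl o (y i)) (h4 : y (j + 1) = bA (bdB o e))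
    (m i : ℕ) (hi : i + m = j) :
    ∃ g ∈ Xsp C (n + 1 - i) (j - i), dd C (y (i + 1)) = dd C (dl o g) := by
  induction m generalizing i with
  | zero =>
    have hij : i = j := by omega
    rw [hij]
    refine ⟨bA e, ?_, ?_⟩
    · rw [Nat.sub_self]
      exact bA_mem C he
    · rw [h4, dl_bA]
  | succ m ih =>
    obtain ⟨g', hg', hd⟩ := ih (i + 1) (by omega)
    have e2 : n + 1 - (i + 1) = n - i := by omega
    have e2' : n + 1 - (i + 1) = (n - (i + 1)) + 1 := by omega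
    have e3 : j + 1 - (i + 1) = j - i := by omega
    have e4 : j - (i + 1) + 1 = j - i := by omega
    have hg1 : g' ∈ Xsp C ((n - (i + 1)) + 1) (j - (i + 1)) := by
      rwa [e2'] at hg'
    have hy : y (i + 1) ∈ Xsp C (n - i) (j - i) := by
      have := h1 (i + 1) (by omega)
      rwa [e2, e3] at this
    have hdg : dd C g' ∈ Xsp C (n - i) (j - i) := by
      have := dd_mem C hg'
      rwa [e2, e4] at this
    have hw : y (i + 1) - dd C g' ∈ Xsp C (n - i) (j - i) :=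
      (Xsp C (n - i) (j - i)).sub_mem hy hdg
    have hw0 : dl o (y (i + 1) - dd C g') = 0 := by
      rw [dl_sub, ← h3 (i + 1) (by omega), hd, dl_dd o C hg1, sub_self]
    obtain ⟨g, hg, hdl⟩ := row_ex o C (by omega) (by omega) hw hw0
    have e5 : n - i + 1 = n + 1 - i := by omega
    refine ⟨g, by rw [← e5]; exact hg, ?_⟩
    rw [hdl, dd_sub, dd_dd C hg', sub_zero]

theorem link_bd_left (o : Lab K) (C : Coef K F M) {j : ℕ} (hj : j + 1 + 1 ≤ n)
    (hcol : ColRange C (j + 1)) {z b : Finset K.V → M} (h : Link o C (j + 1) z b)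
    {a : Finset K.V → M} (ha : a ∈ Asp C (j + 1)) (hz : z = dA C (j + 1) a) :
    ∃ e ∈ Bsp C (n + 1 - j), b = bdB o e := by
  obtain ⟨y, h1, h2, h3, h4⟩ := h
  rw [hz] at h2
  obtain ⟨g, hg, hd⟩ := dcb_left o C hj hcol ha h1 h2 h3 j le_rfl
  rw [Nat.sub_self] at hg
  obtain ⟨e, he, hge⟩ := of_mem_zero C hg
  have e1 : n + 1 - j = (n - j) + 1 := by omega
  have e2 : n + 1 - (j + 1) = n - j := by omega
  have hg' : g ∈ Xsp C ((n - j) + 1) 0 := by rwa [e1] at hg
  have hy : y (j + 1) ∈ Xsp C (n - j) 0 := by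
    have := h1 (j + 1) le_rfl
    rwa [e2, Nat.sub_self] at this
  have hc : ColEx C (n - j) 0 := by
    have := hcol (j + 1) 0 (by omega) (by omega)
    rwa [e2] at this
  have hw : y (j + 1) - dl o g = 0 := by
    refine col_ex_zero C hc ((Xsp C (n - j) 0).sub_mem hy (dl_mem o C hg')) ?_
    rw [dd_sub, h3 j (by omega), ← dl_dd o C hg', hd, sub_self]
  refine ⟨e, he, ?_⟩
  apply bA_inj
  rw [← dl_bA, ← hge, ← h4]
  exact sub_eq_zero.1 hw

theorem link_bd_right (o : Lab K) (C : Coef K F M) {j : ℕ} (hj : j + 1 + 1 ≤ n)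
    {z b : Finset K.V → M} (h : Link o C (j + 1) z b) (hz : z ∈ Asp C (j + 2))
    {e : Finset K.V → M} (he : e ∈ Bsp C (n + 1 - j)) (hb : b = bdB o e) :
    ∃ a ∈ Asp C (j + 1), z = dA C (j + 1) a := by
  obtain ⟨y, h1, h2, h3, h4⟩ := h
  rw [hb] at h4
  obtain ⟨g, hg, hd⟩ := dcb_right o C hj he h1 h3 h4 j 0 (by omega)
  have hg' : g ∈ Xsp C (n + 1) j := by simpa using hg
  have hy : y 0 ∈ Xsp C (n + 1) (j + 1) := by
    have := h1 0 (Nat.zero_le _)
    simpa using this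
  have hw : y 0 - dd C g ∈ Xsp C (n + 1) (j + 1) :=
    (Xsp C (n + 1) (j + 1)).sub_mem hy (dd_mem C hg')
  have hw0 : dl o (y 0 - dd C g) = 0 := by
    rw [dl_sub, ← h3 0 (by omega), hd, dl_dd o C hg', sub_self]
  obtain ⟨a, ha, hya⟩ := row_top o C (by omega) hw hw0
  refine ⟨a, ha, ?_⟩
  have h5 : orA o z = orA o (dA C (j + 1) a) := by
    rw [← h2, ← dd_orA o C ha, ← hya, dd_sub, dd_dd C hg', sub_zero]
  have h6 : z - dA C (j + 1) a = 0 := by
    refine orA_inj o C ((Asp C (j + 2)).sub_mem hz (dA_mem C ha)) ?_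
    rw [dcb_orA_sub, h5, sub_self]
  exact sub_eq_zero.1 h6

theorem link_zero_left (o : Lab K) (C : Coef K F M) (hcol : ColRange C 0)
    {b : Finset K.V → M} (h : Link o C 0 0 b) : b = 0 := by
  obtain ⟨y, h1, h2, -, h4⟩ := h
  have hy : y 0 ∈ Xsp C (n + 1) 0 := by
    have := h1 0 le_rfl
    simpa using this
  have hc : ColEx C (n + 1) 0 := by
    have := hcol 0 0 (by omega) (by omega)
    simpa using this
  have h5 : y 0 = 0 := by
    refine col_ex_zero C hc hy ?_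
    rw [h2, dcb_orA_zero]
  apply bA_inj
  rw [dcb_bA_zero, ← h4, h5]

theorem link_zero_right (o : Lab K) (C : Coef K F M) {z : Finset K.V → M} (h : Link o C 0 z 0)
    (hz : z ∈ Asp C 1) : z = 0 := by
  obtain ⟨y, -, h2, -, h4⟩ := h
  refine orA_inj o C hz ?_
  rw [← h2, h4, dcb_bA_zero, dcb_dd_zero]

end Pool.Agent.ChG
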