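import Pool.Agent.ChG.DCa
import Pool.Agent.ChG.DCb

/-!
# The dimensions of the spaces of cycles

`Link` is closed under addition and multiplication by scalars (add the staircases).
Abstract lemma: let `Z`, `Z'` be finite dimensional, `P ≤ Z`, `P' ≤ Z'`, `R ≤ Z × Z'` a subspace such that
every `z ∈ Z` and every `z' ∈ Z'` occurs in `R` and `z ∈ P ↔ z' ∈ P'` for `(z, z') ∈ R`.  Then
`R → Z / P` and `R → Z' / P'` are surjective with the same kernel, so
`dim Z - dim P = dim Z' - dim P'`.

`dc_zero`: `P = P' = 0` (`link_zero_left`, `link_zero_right`).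
`dc_succ`: `P = dA (Asp C (j+1))`, `P' = bdB (Bsp C (n+1-j))`, contained in `ZG C (j+1)` (a global
exact family is locally exact; it lies in `Asp C (j+2)` by `dA_mem`) and `ZB o C (n-j)` (`dl_dl`).
`dim P = dim Asp C (j+1) - dim ZG C j`: for `a ∈ Asp C (j+1)`, `dA a = 0` iff `a ∈ ZG C j` (local exactness
implies closedness by `D_D`, and conversely by `ColEx C (n+1) (j+1)`, which is in `ColRange C (j+1)`).
`dim P' = dim Bsp C (n+1-j) - dim ZB o C (n+1-j)` (`mem_ZB`).
-/

namespace Pool.Agent.ChG

open Matrix Pool.Agent.ChP Pool.Agent.ChS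
open scoped Pointwise

variable {n : ℕ} {K : AffineTriangulation n} {F M : Type} [Field F] [AddCommGroup M] [Module F M]

/-- the abstract lemma on relations -/
private theorem dcdim_abs {X X' : Type} [AddCommGroup X] [Module F X] [AddCommGroup X']
    [Module F X'] (Z P : Submodule F X) (Z' P' : Submodule F X') (hP : P ≤ Z) (hP' : P' ≤ Z')
    (hZf : Module.Finite F Z) (hZf' : Module.Finite F Z') (R : X → X' → Prop)
    (hadd : ∀ z b z' b', R z b → R z' b' → R (z + z') (b + b'))
    (hsmul : ∀ (c : F) z b, R z b → R (c • z) (c • b))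
    (h1 : ∀ z ∈ Z, ∃ b ∈ Z', R z b) (h2 : ∀ b ∈ Z', ∃ z ∈ Z, R z b)
    (h3 : ∀ z ∈ Z, ∀ b ∈ Z', R z b → (z ∈ P ↔ b ∈ P')) :
    Module.finrank F Z + Module.finrank F P' = Module.finrank F Z' + Module.finrank F P := by
  let S : Submodule F (Z × Z') :=
    { carrier := {p | R p.1 p.2}
      add_mem' := by
        intro p q hp hq
        exact hadd _ _ _ _ hp hq
      zero_mem' := by
        obtain ⟨b, -, hb⟩ := h1 0 Z.zero_mem
        have h := hsmul 0 _ _ hb
        rw [zero_smul, zero_smul] at h
        exact h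
      smul_mem' := by
        intro c p hp
        exact hsmul c _ _ hp }
  have hSf : Module.Finite F S := inferInstance
  let Q : Submodule F Z := P.comap Z.subtype
  let Q' : Submodule F Z' := P'.comap Z'.subtype
  have eQ : Module.finrank F Q = Module.finrank F P :=
    (Submodule.comapSubtypeEquivOfLe hP).finrank_eq
  have eQ' : Module.finrank F Q' = Module.finrank F P' :=
    (Submodule.comapSubtypeEquivOfLe hP').finrank_eq
  let f : S →ₗ[F] Z ⧸ Q := Q.mkQ.comp ((LinearMap.fst F Z Z').comp S.subtype)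
  let f' : S →ₗ[F] Z' ⧸ Q' := Q'.mkQ.comp ((LinearMap.snd F Z Z').comp S.subtype)
  have hf : Function.Surjective f := by
    intro y
    obtain ⟨z, rfl⟩ := Submodule.mkQ_surjective Q y
    obtain ⟨b, hb, hR⟩ := h1 z z.2
    exact ⟨⟨(z, ⟨b, hb⟩), hR⟩, rfl⟩
  have hf' : Function.Surjective f' := by
    intro y
    obtain ⟨b, rfl⟩ := Submodule.mkQ_surjective Q' y
    obtain ⟨z, hz, hR⟩ := h2 b b.2
    exact ⟨⟨(⟨z, hz⟩, b), hR⟩, rfl⟩
  have hk : LinearMap.ker f = LinearMap.ker f' := by
    ext p
    have e1 : p ∈ LinearMap.ker f ↔ (p.1.1 : X) ∈ P := by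
      rw [LinearMap.mem_ker]
      change Q.mkQ p.1.1 = 0 ↔ _
      rw [Submodule.mkQ_apply, Submodule.Quotient.mk_eq_zero]
      rfl
    have e2 : p ∈ LinearMap.ker f' ↔ (p.1.2 : X') ∈ P' := by
      rw [LinearMap.mem_ker]
      change Q'.mkQ p.1.2 = 0 ↔ _
      rw [Submodule.mkQ_apply, Submodule.Quotient.mk_eq_zero]
      rfl
    rw [e1, e2]
    exact h3 _ p.1.1.2 _ p.1.2.2 p.2
  have r1 := LinearMap.finrank_range_add_finrank_ker f
  have r2 := LinearMap.finrank_range_add_finrank_ker f'
  rw [LinearMap.range_eq_top.2 hf, finrank_top] at r1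
  rw [LinearMap.range_eq_top.2 hf', finrank_top, ← hk] at r2
  have q1 := Submodule.finrank_quotient_add_finrank Q
  have q2 := Submodule.finrank_quotient_add_finrank Q'
  omega

/-- rank and nullity for the restriction to a subspace -/
private theorem dcdim_rank {X X' : Type} [AddCommGroup X] [Module F X] [AddCommGroup X']
    [Module F X'] (f : X →ₗ[F] X') (A B : Submodule F X) (hA : Module.Finite F A) (hB : B ≤ A)
    (hk : ∀ a ∈ A, f a = 0 ↔ a ∈ B) :
    Module.finrank F (A.map f) + Module.finrank F B = Module.finrank F A := by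
  have r := LinearMap.finrank_range_add_finrank_ker (f.domRestrict A)
  rw [LinearMap.range_domRestrict] at r
  have e : LinearMap.ker (f.domRestrict A) = B.comap A.subtype := by
    ext a
    rw [LinearMap.mem_ker, LinearMap.domRestrict_apply, Submodule.mem_comap]
    exact hk a a.2
  rw [e, (Submodule.comapSubtypeEquivOfLe hB).finrank_eq] at r
  exact r

private theorem dcdim_orA_add (o : Lab K) (a a' : Finset K.V → M) :
    orA o (a + a') = orA o a + orA o a' := by
  funext σ I
  rw [Pi.add_apply, Pi.add_apply]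
  unfold orA
  split_ifs
  · rw [Pi.add_apply, smul_add]
  · rw [add_zero]

private theorem dcdim_orA_smul (o : Lab K) (r : F) (a : Finset K.V → M) :
    orA o (r • a) = r • orA o a := by
  funext σ I
  rw [Pi.smul_apply, Pi.smul_apply]
  unfold orA
  split_ifs
  · rw [Pi.smul_apply, smul_comm]
  · rw [smul_zero]

private theorem dcdim_bA_add (b b' : Finset K.V → M) : bA (b + b') = bA b + bA b' := by
  funext σ I
  rw [Pi.add_apply, Pi.add_apply]
  unfold bA
  split_ifs
  · rw [Pi.add_apply]
  · rw [add_zero]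

private theorem dcdim_bA_smul (r : F) (b : Finset K.V → M) : bA (r • b) = r • bA b := by
  funext σ I
  rw [Pi.smul_apply, Pi.smul_apply]
  unfold bA
  split_ifs
  · rw [Pi.smul_apply]
  · rw [smul_zero]

private theorem dcdim_bA_zero : bA (0 : Finset K.V → M) = 0 := by
  funext ρ I
  unfold bA
  split_ifs <;> rfl

private theorem dcdim_link_add (o : Lab K) (C : Coef K F M) {j : ℕ} {z b z' b' : Finset K.V → M}
    (h : Link o C j z b) (h' : Link o C j z' b') : Link o C j (z + z') (b + b') := by
  obtain ⟨y, h1, h2, h3, h4⟩ := h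
  obtain ⟨y', h1', h2', h3', h4'⟩ := h'
  refine ⟨fun i => y i + y' i, fun i hi => (Xsp C _ _).add_mem (h1 i hi) (h1' i hi), ?_,
    fun i hi => ?_, ?_⟩
  · rw [dd_add, h2, h2', dcdim_orA_add]
  · rw [dd_add, dl_add, h3 i hi, h3' i hi]
  · change y j + y' j = bA (b + b')
    rw [h4, h4', dcdim_bA_add]

private theorem dcdim_link_smul (o : Lab K) (C : Coef K F M) {j : ℕ} (r : F)
    {z b : Finset K.V → M} (h : Link o C j z b) : Link o C j (r • z) (r • b) := by
  obtain ⟨y, h1, h2, h3, h4⟩ := h
  refine ⟨fun i => r • y i, fun i hi => (Xsp C _ _).smul_mem r (h1 i hi), ?_,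
    fun i hi => ?_, ?_⟩
  · rw [dd_smul, h2, dcdim_orA_smul]
  · rw [dd_smul, dl_smul, h3 i hi]
  · change r • y j = bA (r • b)
    rw [h4, dcdim_bA_smul]

/-- `dA` as a linear map -/
private noncomputable def dcdimA (C : Coef K F M) (q : ℕ) :
    (Finset K.V → M) →ₗ[F] (Finset K.V → M) where
  toFun := dA C q
  map_add' := by
    intro a a'
    funext I
    rw [Pi.add_apply]
    unfold dA
    split_ifs
    · unfold dcol
      rw [← Finset.sum_add_distrib]
      exact Finset.sum_congr rfl fun v _ => by rw [Pi.add_apply, map_add]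
    · rw [add_zero]
  map_smul' := by
    intro r a
    funext I
    rw [RingHom.id_apply, Pi.smul_apply]
    unfold dA
    split_ifs
    · unfold dcol
      rw [Finset.smul_sum]
      exact Finset.sum_congr rfl fun v _ => by rw [Pi.smul_apply, map_smul]
    · rw [smul_zero]

/-- `bdB` as a linear map -/
private noncomputable def dcdimB (F : Type) [Field F] [Module F M] (o : Lab K) :
    (Finset K.V → M) →ₗ[F] (Finset K.V → M) where
  toFun := bdB o
  map_add' := by
    intro b b'
    apply bA_inj
    rw [dcdim_bA_add, ← dl_bA, ← dl_bA, ← dl_bA, dcdim_bA_add, dl_add]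
  map_smul' := by
    intro r b
    funext ρ
    rw [RingHom.id_apply, Pi.smul_apply]
    unfold bdB
    split_ifs
    · unfold bd
      rw [Finset.smul_sum]
      exact Finset.sum_congr rfl fun v _ => by rw [Pi.smul_apply, smul_comm]
    · rw [smul_zero]

theorem dc_zero (o : Lab K) (C : Coef K F M) (hn : 1 ≤ n) (hcol : ColRange C 0)
    (hA : Module.Finite F (Asp C 1)) (hB : Module.Finite F (Bsp C (n + 1))) :
    Module.finrank F (ZG C 0) = Module.finrank F (ZB o C (n + 1)) := by
  have hZ : ZG C 0 ≤ Asp C 1 := fun z hz => hz.1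
  have hZ' : ZB o C (n + 1) ≤ Bsp C (n + 1) := fun z hz => hz.1
  have hZf : Module.Finite F (ZG C 0) := Submodule.finiteDimensional_of_le hZ
  have hZf' : Module.Finite F (ZB o C (n + 1)) := Submodule.finiteDimensional_of_le hZ'
  have h := dcdim_abs (ZG C 0) ⊥ (ZB o C (n + 1)) ⊥ bot_le bot_le hZf hZf'
    (fun z b => Link o C 0 z b) (fun z b z' b' h1 h2 => dcdim_link_add o C h1 h2)
    (fun r z b h => dcdim_link_smul o C r h)
    (fun z hz => link_left o C hn hcol hz) (fun b hb => link_right o C hn hb) ?_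
  · rw [finrank_bot] at h
    exact h
  · intro z hz b hb hl
    rw [Submodule.mem_bot, Submodule.mem_bot]
    constructor
    · rintro rfl
      exact link_zero_left o C hcol hl
    · rintro rfl
      exact link_zero_right o C hl hz.1

theorem dc_succ (o : Lab K) (C : Coef K F M) {j : ℕ} (hj : j + 2 ≤ n) (hcol : ColRange C (j + 1))
    (hA1 : Module.Finite F (Asp C (j + 1))) (hA2 : Module.Finite F (Asp C (j + 2)))
    (hB1 : Module.Finite F (Bsp C (n + 1 - j))) (hB2 : Module.Finite F (Bsp C (n - j))) :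
    Module.finrank F (ZG C (j + 1)) + Module.finrank F (ZG C j) +
        Module.finrank F (Bsp C (n + 1 - j)) =
      Module.finrank F (ZB o C (n - j)) + Module.finrank F (ZB o C (n + 1 - j)) +
        Module.finrank F (Asp C (j + 1)) := by
  have e1 : n + 1 - (j + 1) = n - j := by omega
  have e2 : n + 1 - j = (n - j) + 1 := by omega
  have hZ : ZG C (j + 1) ≤ Asp C (j + 2) := fun z hz => hz.1
  have hZ' : ZB o C (n - j) ≤ Bsp C (n - j) := fun z hz => hz.1
  have hZf : Module.Finite F (ZG C (j + 1)) := Submodule.finiteDimensional_of_le hZ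
  have hZf' : Module.Finite F (ZB o C (n - j)) := Submodule.finiteDimensional_of_le hZ'
  have hc : ColEx C (n + 1) (j + 1) := by
    have := hcol 0 (j + 1) (by omega) (by omega)
    simpa using this
  -- the boundaries
  have hP : (Asp C (j + 1)).map (dcdimA C (j + 1)) ≤ ZG C (j + 1) := by
    rintro _ ⟨a, ha, rfl⟩
    refine ⟨dA_mem C ha, fun σ hσ hcard => ⟨a, ha.1, fun I hI hIc => ?_⟩⟩
    have hIf : I ∈ K.faces := by
      refine K.down_closed σ hσ I hI (Finset.card_pos.1 (by omega))
    change _ = dA C (j + 1) a I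
    unfold dA
    rw [if_pos ⟨hIf, hIc⟩]
  have hP' : (Bsp C (n + 1 - j)).map (dcdimB F o) ≤ ZB o C (n - j) := by
    rintro _ ⟨b, hb, rfl⟩
    change bdB o b ∈ _
    refine (mem_ZB o C).2 ⟨bdB_mem o C (by rwa [e2] at hb), ?_⟩
    apply bA_inj
    rw [← dl_bA, ← dl_bA, dl_dl, dcdim_bA_zero]
  have rA : Module.finrank F ((Asp C (j + 1)).map (dcdimA C (j + 1))) +
      Module.finrank F (ZG C j) = Module.finrank F (Asp C (j + 1)) := by
    refine dcdim_rank _ _ _ hA1 (fun z hz => hz.1) fun a ha => ?_
    change dA C (j + 1) a = 0 ↔ _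
    constructor
    · intro h0
      refine ⟨ha, fun σ hσ hcard => ?_⟩
      refine (hc σ hσ hcard a ha.1 fun I hI hIc => ?_).2 (Nat.succ_pos j)
      have hIf : I ∈ K.faces := by
        refine K.down_closed σ hσ I hI (Finset.card_pos.1 (by omega))
      have h1 := congrFun h0 I
      unfold dA at h1
      rw [if_pos ⟨hIf, hIc⟩] at h1
      exact h1
    · intro hz
      obtain ⟨e, he, hd⟩ := loc_ex o C hz
      refine orA_inj o C (dA_mem C ha) ?_
      rw [← dd_orA o C ha, ← hd, dd_dd C he]
  have rB : Module.finrank F ((Bsp C (n + 1 - j)).map (dcdimB F o)) +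
      Module.finrank F (ZB o C (n + 1 - j)) = Module.finrank F (Bsp C (n + 1 - j)) := by
    refine dcdim_rank _ _ _ hB1 (fun z hz => hz.1) fun b hb => ?_
    change bdB o b = 0 ↔ _
    rw [mem_ZB]
    exact ⟨fun h => ⟨hb, h⟩, fun h => h.2⟩
  have h := dcdim_abs (ZG C (j + 1)) ((Asp C (j + 1)).map (dcdimA C (j + 1))) (ZB o C (n - j))
    ((Bsp C (n + 1 - j)).map (dcdimB F o)) hP hP' hZf hZf'
    (fun z b => Link o C (j + 1) z b) (fun z b z' b' h1 h2 => dcdim_link_add o C h1 h2)
    (fun r z b h => dcdim_link_smul o C r h) ?_ ?_ ?_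
  · omega
  · intro z hz
    have := link_left o C (by omega) hcol hz
    rwa [e1] at this
  · intro b hb
    exact link_right o C (by omega) (by rwa [e1])
  · intro z hz b hb hl
    constructor
    · rintro ⟨a, ha, rfl⟩
      obtain ⟨e, he, hbe⟩ := link_bd_left o C (by omega) hcol hl ha rfl
      exact ⟨e, he, hbe.symm⟩
    · rintro ⟨e, he, rfl⟩
      obtain ⟨a, ha, hza⟩ := link_bd_right o C (by omega) hl hz.1 he rfl
      exact ⟨a, ha, hza.symm⟩

end Pool.Agent.ChG
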