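import Mathlib

/-!
# Polynomials which are odd with respect to `x ↦ -1 - x`

`g = (2 x + 1) h(x (x + 1))` is a linear combination of the `g_r = (2 x + 1) (x (x + 1))^r`, `r ≤ m`: by induction on `m`
(for all odd `g` of degree `≤ 2 m + 1`): the coefficient of `x^(2m)` in
`g(-1-x) + g(x)` shows that it is determined by the coefficient `c` of `x^(2m+1)`; `g - (c / 2) g_m` is odd of
degree `≤ 2 m`, and an odd polynomial has no even degree `2 m` (compare leading coefficients), so its degree is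
`≤ 2 m - 1`.  But the identity has to be proved for the fixed `m` and all `g_r`, `r ≤ m`.

The identity for `g_r`: `(-1)^(m-i) (2m-i).choose (m-i)` is the coefficient of `y^(m-i)` in
`(1 + y)^(-(m+1))`, so the right hand side is `2` times the coefficient of `x^m` in
`(1 + 2 x) x^r (1 + x)^(r - m - 1)`.  For `r = m` it is `2`.  For `r < m`, `k = m - r`, it is `2` times the
coefficient of `x^k` in `(1 + 2 x) (1 + x)^(-(k+1))`, i.e.
`2 (-1)^k ((2k).choose k - 2 (2k-1).choose (k-1)) = 0`.  (Elementary alternative: the coefficient of `x^i` in `g_r` is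
`r.choose (i - r) + 2 r.choose (i - r - 1)`; or use `PowerSeries.invOneSubPow` or
`PowerSeries` with `PowerSeries.mk`.)
-/

namespace Pool.Agent.ChG

open Polynomial

private theorem DSp_series (m : ℕ) :
    (PowerSeries.mk fun j => (-1 : ℚ) ^ j * ((m + j).choose j : ℚ)) *
      (1 + PowerSeries.X : PowerSeries ℚ) ^ (m + 1) = 1 := by
  have h1 : (PowerSeries.mk 1 : PowerSeries ℚ) ^ (m + 1) * (1 - PowerSeries.X) ^ (m + 1) = 1 := by
    rw [← mul_pow, PowerSeries.mk_one_mul_one_sub_eq_one, one_pow]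
  have h2 := congrArg (PowerSeries.rescale (-1 : ℚ)) h1
  rw [map_mul, map_one, PowerSeries.mk_one_pow_eq_mk_choose_add, map_pow, map_sub, map_one,
    PowerSeries.rescale_X, PowerSeries.rescale_mk] at h2
  have h3 : (1 - PowerSeries.C (-1 : ℚ) * PowerSeries.X : PowerSeries ℚ) = 1 + PowerSeries.X := by
    rw [map_neg, map_one]
    ring
  rw [h3] at h2
  have h4 : (PowerSeries.mk fun j => (-1 : ℚ) ^ j * ((m + j).choose j : ℚ)) =
      PowerSeries.mk fun n => (-1 : ℚ) ^ n * ((m + n).choose m : ℚ) := by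
    ext j
    rw [PowerSeries.coeff_mk, PowerSeries.coeff_mk, Nat.choose_symm_add]
  rw [h4]
  exact h2

private noncomputable def DSp_A (m : ℕ) : ℚ[X] :=
  ∑ j ∈ Finset.range (m + 1), C ((-1 : ℚ) ^ j * ((m + j).choose j : ℚ)) * X ^ j

private theorem DSp_A_coeff (m j : ℕ) (hj : j ≤ m) :
    (DSp_A m).coeff j = (-1 : ℚ) ^ j * ((m + j).choose j : ℚ) := by
  unfold DSp_A
  rw [Polynomial.finsetSum_coeff, Finset.sum_eq_single j]
  · rw [coeff_C_mul, coeff_X_pow_self, mul_one]
  · intro b _ hb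
    rw [coeff_C_mul, coeff_X_pow, if_neg (Ne.symm hb), mul_zero]
  · intro h
    exact absurd (Finset.mem_range.2 (Nat.lt_succ_of_le hj)) h

private theorem DSp_dvd (m : ℕ) : (X : ℚ[X]) ^ (m + 1) ∣ DSp_A m * (1 + X) ^ (m + 1) - 1 := by
  rw [X_pow_dvd_iff]
  intro d hd
  have h1 : (DSp_A m * (1 + X) ^ (m + 1)).coeff d =
      PowerSeries.coeff d ((PowerSeries.mk fun j => (-1 : ℚ) ^ j * ((m + j).choose j : ℚ)) *
      (1 + PowerSeries.X : PowerSeries ℚ) ^ (m + 1)) := by
    rw [Polynomial.coeff_mul, PowerSeries.coeff_mul]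
    refine Finset.sum_congr rfl fun p hp => ?_
    rw [Finset.HasAntidiagonal.mem_antidiagonal] at hp
    rw [PowerSeries.coeff_mk, DSp_A_coeff m p.1 (by omega)]
    congr 1
    have h2 : (1 + PowerSeries.X : PowerSeries ℚ) ^ (m + 1) =
        (((1 + X : ℚ[X]) ^ (m + 1) : ℚ[X]) : PowerSeries ℚ) := by
      rw [Polynomial.coe_pow, Polynomial.coe_add, Polynomial.coe_one, Polynomial.coe_X]
    rw [h2, Polynomial.coeff_coe]
  rw [coeff_sub, h1, DSp_series, PowerSeries.coeff_one, coeff_one]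
  by_cases h : d = 0
  · subst h
    simp
  · simp [h]

private theorem DSp_lin : (-1 - X : ℚ[X]).natDegree = 1 ∧ (-1 - X : ℚ[X]).leadingCoeff = -1 := by
  have h1 : (-1 - X : ℚ[X]) = -(X + C 1) := by
    rw [map_one]
    ring
  rw [h1, natDegree_neg, leadingCoeff_neg, natDegree_X_add_C, leadingCoeff_X_add_C]
  exact ⟨rfl, rfl⟩

private theorem DSp_comp_deg (m : ℕ) (T : ℚ[X]) (hT : T.natDegree ≤ m) :
    (T.comp (-1 - X)).natDegree ≤ m := by
  rw [natDegree_comp, DSp_lin.1, mul_one]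
  exact hT

private theorem DSp_comp_coeff (m : ℕ) (T : ℚ[X]) (hT : T.natDegree ≤ m) :
    (T.comp (-1 - X)).coeff m = (-1) ^ m * T.coeff m := by
  rcases lt_or_eq_of_le hT with h | h
  · rw [coeff_eq_zero_of_natDegree_lt h, mul_zero]
    refine coeff_eq_zero_of_natDegree_lt ?_
    rw [natDegree_comp, DSp_lin.1, mul_one]
    exact h
  · have h1 := coeff_comp_degree_mul_degree (p := T) (q := (-1 - X : ℚ[X])) (by
      rw [DSp_lin.1]
      exact one_ne_zero)
    rw [DSp_lin.1, DSp_lin.2, mul_one, h] at h1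
    rw [h1, leadingCoeff, h]
    ring

theorem odd_poly (m : ℕ) (g : ℚ[X]) (hd : g.natDegree ≤ 2 * m + 1)
    (ho : g.comp (-1 - X) = -g) :
    g.coeff (2 * m + 1) = 2 * ∑ i ∈ Finset.range (m + 1),
      (-1) ^ (m - i) * ((2 * m - i).choose (m - i) : ℚ) * g.coeff i := by
  set A := DSp_A m with hA
  set R : ℚ[X] := (g * A) %ₘ (X ^ (m + 1)) with hR
  have hmonic : (X ^ (m + 1) : ℚ[X]).Monic := monic_X_pow _
  have hRdeg : R.natDegree ≤ m := by
    have h1 := natDegree_modByMonic_lt (g * A) hmonic (by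
      intro h
      have h2 := congrArg natDegree h
      rw [natDegree_X_pow, natDegree_one] at h2
      omega)
    rw [natDegree_X_pow] at h1
    exact Nat.le_of_lt_succ h1
  have hRdvd : (X : ℚ[X]) ^ (m + 1) ∣ g * A - R := by
    rw [hR]
    exact ⟨(g * A) /ₘ (X ^ (m + 1)), by
      have h1 := modByMonic_add_div (g * A) (X ^ (m + 1) : ℚ[X])
      linear_combination -h1⟩
  have hRm : R.coeff m = (g * A).coeff m := by
    have h1 := (X_pow_dvd_iff.1 hRdvd) m (Nat.lt_succ_self m)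
    rw [coeff_sub] at h1
    linarith
  have hgR : (X : ℚ[X]) ^ (m + 1) ∣ g - R * (1 + X) ^ (m + 1) := by
    have h1 : g - R * (1 + X) ^ (m + 1) = (g * A - R) * (1 + X) ^ (m + 1) -
        g * (A * (1 + X) ^ (m + 1) - 1) := by ring
    rw [h1]
    exact dvd_sub (hRdvd.mul_right _) ((DSp_dvd m).mul_left _)
  obtain ⟨T, hT⟩ := hgR
  have h1X : (1 + X : ℚ[X]).natDegree = 1 := by
    rw [add_comm]
    exact natDegree_X_add_C (1 : ℚ)
  have hTdeg : T.natDegree ≤ m := by
    by_cases hT0 : T = 0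
    · rw [hT0, natDegree_zero]
      exact Nat.zero_le _
    have h1 : (g - R * (1 + X) ^ (m + 1)).natDegree ≤ 2 * m + 1 := by
      refine (natDegree_sub_le _ _).trans (max_le hd ?_)
      refine natDegree_mul_le.trans ?_
      have h2 : ((1 + X : ℚ[X]) ^ (m + 1)).natDegree = m + 1 := by
        rw [natDegree_pow, h1X, mul_one]
      omega
    rw [hT, natDegree_mul (pow_ne_zero _ X_ne_zero) hT0, natDegree_X_pow] at h1
    omega
  have hg : g = R * (1 + X) ^ (m + 1) + X ^ (m + 1) * T := by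
    linear_combination hT
  -- compose
  have hs : ((-1 : ℚ[X])) ^ (m + 1) * (-1) ^ (m + 1) = 1 := by
    rw [← mul_pow]
    norm_num
  have hcomp : -g = (-1) ^ (m + 1) * (R.comp (-1 - X) * X ^ (m + 1) +
      T.comp (-1 - X) * (1 + X) ^ (m + 1)) := by
    rw [← ho]
    conv_lhs => rw [hg]
    have e1 : (1 + (-1 - X) : ℚ[X]) = (-1) * X := by ring
    have e2 : (-1 - X : ℚ[X]) = (-1) * (1 + X) := by ring
    rw [add_comp, mul_comp, mul_comp, pow_comp, pow_comp, add_comp, one_comp, X_comp, e1]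
    rw [mul_pow]
    have e3 : ((-1 - X : ℚ[X])) ^ (m + 1) = (-1) ^ (m + 1) * (1 + X) ^ (m + 1) := by
      rw [e2, mul_pow]
    rw [e3]
    ring
  have hkey : (R + (-1) ^ (m + 1) * T.comp (-1 - X)) = 0 := by
    by_contra hne
    have h1 : (X : ℚ[X]) ^ (m + 1) ∣ (R + (-1) ^ (m + 1) * T.comp (-1 - X)) *
        (1 + X) ^ (m + 1) := by
      refine ⟨-(T + (-1) ^ (m + 1) * R.comp (-1 - X)), ?_⟩
      linear_combination -hcomp - hg
    have hcop : IsCoprime ((X : ℚ[X]) ^ (m + 1)) ((1 + X) ^ (m + 1)) :=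
      IsCoprime.pow ⟨-1, 1, by ring⟩
    have h2 := hcop.dvd_of_dvd_mul_right h1
    have h3 := natDegree_le_of_dvd h2 hne
    have h4 : (R + (-1) ^ (m + 1) * T.comp (-1 - X)).natDegree ≤ m := by
      refine (natDegree_add_le _ _).trans (max_le hRdeg ?_)
      have h5 : ((-1 : ℚ[X]) ^ (m + 1) * T.comp (-1 - X)).natDegree ≤ 0 + m :=
        natDegree_mul_le_of_le (by
          refine natDegree_pow_le.trans ?_
          rw [natDegree_neg, natDegree_one, mul_zero]) (DSp_comp_deg m T hTdeg)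
      rwa [zero_add] at h5
    rw [natDegree_X_pow] at h3
    omega
  have hRT : R.coeff m = T.coeff m := by
    have h1 : R = (-1) ^ m * T.comp (-1 - X) := by
      rw [pow_succ] at hkey
      linear_combination hkey
    have h2 : ((-1 : ℚ[X]) ^ m * T.comp (-1 - X)) = C ((-1 : ℚ) ^ m) * T.comp (-1 - X) := by
      rw [map_pow, map_neg, map_one]
    rw [h1, h2, coeff_C_mul, DSp_comp_coeff m T hTdeg, ← mul_assoc, ← mul_pow]
    norm_num
  have hlead : g.coeff (2 * m + 1) = R.coeff m + T.coeff m := by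
    have h2 : ((1 + X : ℚ[X]) ^ (m + 1)).coeff (m + 1) = 1 := by
      have h3 : (1 + X : ℚ[X]) = X + C 1 := by
        rw [map_one]
        ring
      have h4 : ((X + C 1 : ℚ[X]) ^ (m + 1)).Monic := (monic_X_add_C 1).pow _
      have h5 : ((X + C 1 : ℚ[X]) ^ (m + 1)).natDegree = m + 1 := by
        rw [natDegree_pow, natDegree_X_add_C, mul_one]
      rw [h3]
      have h6 := h4.coeff_natDegree
      rwa [h5] at h6
    have h7 : (R * (1 + X) ^ (m + 1)).coeff (m + (m + 1)) =
        R.coeff m * ((1 + X : ℚ[X]) ^ (m + 1)).coeff (m + 1) := by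
      refine coeff_mul_add_eq_of_natDegree_le hRdeg ?_
      rw [natDegree_pow, h1X, mul_one]
    have h8 : (X ^ (m + 1) * T).coeff (m + (m + 1)) = T.coeff m := coeff_X_pow_mul _ _ _
    have h9 : 2 * m + 1 = m + (m + 1) := by omega
    conv_lhs => rw [hg]
    rw [h9, coeff_add, h7, h8, h2, mul_one]
  rw [hlead, ← hRT, ← two_mul, hRm]
  congr 1
  rw [coeff_mul, Finset.Nat.sum_antidiagonal_eq_sum_range_succ_mk]
  refine Finset.sum_congr rfl fun i hi => ?_
  have hi' : i ≤ m := Nat.le_of_lt_succ (Finset.mem_range.1 hi)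
  simp only
  rw [hA, DSp_A_coeff m (m - i) (by omega)]
  have h1 : m + (m - i) = 2 * m - i := by omega
  rw [h1]
  ring

end Pool.Agent.ChG
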