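import Pool.Agent.ChG.EDefs

/-!
# Alternating forms: basic facts

`con_con`, `con_comm`: `CliffordAlgebra.contractLeft_contractLeft`, `contractLeft_comm`.
`con_wdg`: `contractLeft_ι_mul`.  `con_lam`: induction with `contractLeft_ι_mul` (a form of degree
`k + 1` is a sum of products `ι ξ * ω`, `ω` of degree `k`; see also `ExteriorAlgebra` grading and
`exteriorPower`).  `con_lam_zero`: `contractLeft_algebraMap`.
`mapE_con`: `con x (mapE g ω) = mapE g (con (gᵀ x) ω)`: induction on `ω` with `contractLeft_ι_mul`.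
`lam_zero`: `⋀^0` is the range of `algebraMap`.
-/

namespace Pool.Agent.ChG

open Matrix

variable {n : ℕ}

theorem con_con (x : Fin n → ℝ) (ω : EE n) : con x (con x ω) = 0 :=
  CliffordAlgebra.contractLeft_contractLeft (Q := (0 : QuadraticForm ℝ (Fin n → ℝ))) (vd x) ω

theorem con_comm (x y : Fin n → ℝ) (ω : EE n) : con x (con y ω) = -con y (con x ω) :=
  CliffordAlgebra.contractLeft_comm (Q := (0 : QuadraticForm ℝ (Fin n → ℝ))) (vd x) (vd y) ω

private theorem ebas_con_mul (x ξ : Fin n → ℝ) (ω : EE n) :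
    con x (ExteriorAlgebra.ι ℝ ξ * ω) = (∑ i, ξ i * x i) • ω - ExteriorAlgebra.ι ℝ ξ * con x ω :=
  CliffordAlgebra.contractLeft_ι_mul (Q := (0 : QuadraticForm ℝ (Fin n → ℝ))) (d := vd x) ξ ω

theorem con_wdg (x ξ : Fin n → ℝ) (ω : EE n) :
    con x (wdg ξ ω) = (∑ i, ξ i * x i) • ω - wdg ξ (con x ω) :=
  ebas_con_mul x ξ ω

private theorem ebas_con_alg (x : Fin n → ℝ) (r : ℝ) : con x (algebraMap ℝ (EE n) r) = 0 :=
  CliffordAlgebra.contractLeft_algebraMap (Q := (0 : QuadraticForm ℝ (Fin n → ℝ))) (vd x) r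

private theorem ebas_zero {ω : EE n} (h : ω ∈ Lam n 0) : ∃ r : ℝ, ω = algebraMap ℝ (EE n) r := by
  unfold Lam ExteriorAlgebra.exteriorPower at h
  rw [pow_zero] at h
  obtain ⟨r, hr⟩ := Submodule.mem_one.1 h
  exact ⟨r, hr.symm⟩

private theorem ebas_ind {k : ℕ} (P : EE n → Prop) {ω : EE n} (h : ω ∈ Lam n (k + 1))
    (hm : ∀ ξ : Fin n → ℝ, ∀ η ∈ Lam n k, P (ExteriorAlgebra.ι ℝ ξ * η))
    (ha : ∀ η ζ, P η → P ζ → P (η + ζ)) : P ω := by
  unfold Lam ExteriorAlgebra.exteriorPower at h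
  rw [pow_succ'] at h
  refine Submodule.mul_induction_on h ?_ ha
  rintro a ⟨ξ, rfl⟩ b hb
  exact hm ξ b hb

private theorem ebas_mul_lam {k : ℕ} (ξ : Fin n → ℝ) {ω : EE n} (h : ω ∈ Lam n k) :
    ExteriorAlgebra.ι ℝ ξ * ω ∈ Lam n (k + 1) := by
  unfold Lam ExteriorAlgebra.exteriorPower at h ⊢
  rw [pow_succ']
  exact Submodule.mul_mem_mul ⟨ξ, rfl⟩ h

theorem con_lam_zero (x : Fin n → ℝ) {ω : EE n} (h : ω ∈ Lam n 0) : con x ω = 0 := by
  obtain ⟨r, rfl⟩ := ebas_zero h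
  exact ebas_con_alg x r

theorem con_lam {k : ℕ} (x : Fin n → ℝ) {ω : EE n} (h : ω ∈ Lam n (k + 1)) :
    con x ω ∈ Lam n k := by
  induction k generalizing ω with
  | zero =>
    refine ebas_ind (fun ω => con x ω ∈ Lam n 0) h (fun ξ η hη => ?_) fun η ζ h1 h2 => ?_
    · rw [ebas_con_mul, con_lam_zero x hη, mul_zero, sub_zero]
      exact (Lam n 0).smul_mem _ hη
    · rw [map_add]
      exact (Lam n 0).add_mem h1 h2
  | succ k ih =>
    refine ebas_ind (fun ω => con x ω ∈ Lam n (k + 1)) h (fun ξ η hη => ?_) fun η ζ h1 h2 => ?_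
    · rw [ebas_con_mul]
      exact (Lam n (k + 1)).sub_mem ((Lam n (k + 1)).smul_mem _ hη) (ebas_mul_lam ξ (ih hη))
    · rw [map_add]
      exact (Lam n (k + 1)).add_mem h1 h2

theorem wdg_lam {k : ℕ} (ξ : Fin n → ℝ) {ω : EE n} (h : ω ∈ Lam n k) :
    wdg ξ ω ∈ Lam n (k + 1) :=
  ebas_mul_lam ξ h

private theorem ebas_vd_sum {U : Type} (s : Finset U) (c : U → ℝ) (x : U → Fin n → ℝ) :
    vd (∑ v ∈ s, c v • x v) = ∑ v ∈ s, c v • vd (x v) := by
  ext ξ
  simp only [vd, LinearMap.coe_comp, LinearMap.coe_mk, AddHom.coe_mk, Function.comp_apply,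
    Finset.sum_apply, Pi.smul_apply, smul_eq_mul, LinearMap.coe_sum, LinearMap.smul_apply]
  simp only [Finset.mul_sum]
  rw [Finset.sum_comm]
  refine Finset.sum_congr rfl fun v _ => Finset.sum_congr rfl fun i _ => ?_
  ring

/-- `x ↦ con x` is linear -/
theorem con_sum {U : Type} (s : Finset U) (c : U → ℝ) (x : U → Fin n → ℝ) (ω : EE n) :
    con (∑ v ∈ s, c v • x v) ω = ∑ v ∈ s, c v • con (x v) ω := by
  unfold con
  rw [ebas_vd_sum, map_sum, LinearMap.sum_apply]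
  refine Finset.sum_congr rfl fun v _ => ?_
  rw [map_smul, LinearMap.smul_apply]

theorem scal_alg (r : ℝ) : scal (algebraMap ℝ (EE n) r) = r :=
  ExteriorAlgebra.algebraMap_leftInverse (Fin n → ℝ) r

theorem lam_zero {ω : EE n} (h : ω ∈ Lam n 0) : ω = algebraMap ℝ (EE n) (scal ω) := by
  obtain ⟨r, rfl⟩ := ebas_zero h
  rw [scal_alg]

theorem alg_lam (r : ℝ) : algebraMap ℝ (EE n) r ∈ Lam n 0 := by
  unfold Lam ExteriorAlgebra.exteriorPower
  rw [pow_zero]
  exact Submodule.mem_one.2 ⟨r, rfl⟩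

theorem lam_finite (k : ℕ) : Module.Finite ℝ (Lam n k) := by
  unfold Lam
  infer_instance

theorem lam_finrank (k : ℕ) : Module.finrank ℝ (Lam n k) = n.choose k := by
  have h := exteriorPower.finrank_eq ℝ k (M := Fin n → ℝ)
  rw [Module.finrank_fin_fun] at h
  exact h

theorem mapE_one : mapE (1 : Matrix (Fin n) (Fin n) ℝ) = AlgHom.id ℝ (EE n) := by
  unfold mapE
  rw [Matrix.toLin'_one]
  exact ExteriorAlgebra.map_id

theorem mapE_mul (g h : Matrix (Fin n) (Fin n) ℝ) : mapE (g * h) = (mapE g).comp (mapE h) := by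
  unfold mapE
  rw [Matrix.toLin'_mul, ExteriorAlgebra.map_comp_map]

private theorem ebas_mapE_mul (g : Matrix (Fin n) (Fin n) ℝ) (ξ : Fin n → ℝ) (ω : EE n) :
    mapE g (ExteriorAlgebra.ι ℝ ξ * ω) = ExteriorAlgebra.ι ℝ (g.mulVec ξ) * mapE g ω := by
  rw [map_mul]
  congr 1
  exact ExteriorAlgebra.map_apply_ι (Matrix.toLin' g) ξ

theorem mapE_lam (g : Matrix (Fin n) (Fin n) ℝ) {k : ℕ} {ω : EE n} (h : ω ∈ Lam n k) :
    mapE g ω ∈ Lam n k := by
  induction k generalizing ω with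
  | zero =>
    obtain ⟨r, rfl⟩ := ebas_zero h
    rw [AlgHom.commutes]
    exact alg_lam r
  | succ k ih =>
    refine ebas_ind (fun ω => mapE g ω ∈ Lam n (k + 1)) h (fun ξ η hη => ?_) fun η ζ h1 h2 => ?_
    · rw [ebas_mapE_mul]
      exact ebas_mul_lam _ (ih hη)
    · rw [map_add]
      exact (Lam n (k + 1)).add_mem h1 h2

private theorem ebas_dot (g : Matrix (Fin n) (Fin n) ℝ) (x ξ : Fin n → ℝ) :
    ∑ i, (g.mulVec ξ) i * x i = ∑ i, ξ i * (gᵀ.mulVec x) i := by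
  simp only [Matrix.mulVec, dotProduct, Matrix.transpose_apply, Finset.mul_sum, Finset.sum_mul]
  rw [Finset.sum_comm]
  refine Finset.sum_congr rfl fun v _ => Finset.sum_congr rfl fun i _ => ?_
  ring

theorem mapE_con (g : Matrix (Fin n) (Fin n) ℝ) (x : Fin n → ℝ) (ω : EE n) :
    con x (mapE g ω) = mapE g (con (gᵀ.mulVec x) ω) := by
  have key : ∀ ω : CliffordAlgebra (0 : QuadraticForm ℝ (Fin n → ℝ)),
      con x (mapE g ω) = mapE g (con (gᵀ.mulVec x) ω) := by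
    intro ω
    induction ω using CliffordAlgebra.left_induction with
    | algebraMap r =>
      have h1 : mapE g (algebraMap ℝ (EE n) r) = algebraMap ℝ (EE n) r := AlgHom.commutes _ _
      have h2 := ebas_con_alg (gᵀ.mulVec x) r
      have h3 := ebas_con_alg x r
      calc con x (mapE g (algebraMap ℝ (EE n) r)) = 0 := by rw [h1, h3]
        _ = mapE g (con (gᵀ.mulVec x) (algebraMap ℝ (EE n) r)) := by rw [h2, map_zero]
    | add a b ha hb =>
      have e1 : mapE g (a + b) = mapE g a + mapE g b := map_add (mapE g) a b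
      have e2 : con (gᵀ.mulVec x) (a + b) = con (gᵀ.mulVec x) a + con (gᵀ.mulVec x) b :=
        map_add (con (gᵀ.mulVec x)) a b
      rw [e1, map_add, ha, hb, e2, map_add]
    | ι_mul a ξ ha =>
      have e1 : mapE g (ExteriorAlgebra.ι ℝ ξ * a) =
        ExteriorAlgebra.ι ℝ (g.mulVec ξ) * mapE g a := ebas_mapE_mul g ξ a
      calc con x (mapE g (ExteriorAlgebra.ι ℝ ξ * a)) =
          con x (ExteriorAlgebra.ι ℝ (g.mulVec ξ) * mapE g a) := by rw [e1]
        _ = (∑ i, (g.mulVec ξ) i * x i) • mapE g a -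
            ExteriorAlgebra.ι ℝ (g.mulVec ξ) * con x (mapE g a) := ebas_con_mul _ _ _
        _ = mapE g (con (gᵀ.mulVec x) (ExteriorAlgebra.ι ℝ ξ * a)) := by
          rw [ebas_con_mul, map_sub, map_smul, ebas_mapE_mul, ha, ebas_dot]
  exact key ω

theorem mem_LW {m : ℕ} {U : Type} {x : U → Fin n → ℝ} {I : Finset U} {ω : EE n} :
    ω ∈ LW m x I ↔ (I.card ≤ m ∧ ω ∈ Lam n (m - I.card) ∧ ∀ v ∈ I, con (x v) ω = 0) ∨
      (m < I.card ∧ ω = 0) := by
  unfold LW
  split_ifs with h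
  · rw [Submodule.mem_inf]
    simp only [Submodule.mem_iInf, LinearMap.mem_ker]
    constructor
    · rintro ⟨h1, h2⟩
      exact Or.inl ⟨h, h1, h2⟩
    · rintro (⟨-, h1, h2⟩ | ⟨h1, -⟩)
      · exact ⟨h1, h2⟩
      · omega
  · rw [Submodule.mem_bot]
    constructor
    · intro h1
      exact Or.inr ⟨by omega, h1⟩
    · rintro (⟨h1, -, -⟩ | ⟨-, h1⟩)
      · exact absurd h1 h
      · exact h1

end Pool.Agent.ChG
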