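import Mathlib

/-!
# Alternating forms on `ℝ^n`: definitions

The exterior algebra of the space `Fin n → ℝ` of covectors; `con x` is the contraction with the vector
`x`.  `LW m x I` is the space of the alternating forms of degree `m - I.card` which are killed by the
contractions with the vectors `x v`, `v ∈ I`.
-/

namespace Pool.Agent.ChG

/-- the alternating forms on `ℝ^n` -/
abbrev EE (n : ℕ) : Type := ExteriorAlgebra ℝ (Fin n → ℝ)

/-- the evaluation of covectors at a vector -/
def vd {n : ℕ} (x : Fin n → ℝ) : Module.Dual ℝ (Fin n → ℝ) where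
  toFun ξ := ∑ i, ξ i * x i
  map_add' := by
    intro ξ η
    simp only [Pi.add_apply, add_mul, Finset.sum_add_distrib]
  map_smul' := by
    intro c ξ
    simp only [Pi.smul_apply, smul_eq_mul, mul_assoc, RingHom.id_apply, Finset.mul_sum]

/-- the contraction with a vector -/
noncomputable def con {n : ℕ} (x : Fin n → ℝ) : EE n →ₗ[ℝ] EE n :=
  CliffordAlgebra.contractLeft (Q := (0 : QuadraticForm ℝ (Fin n → ℝ))) (vd x)

/-- the forms of degree `k` -/
noncomputable def Lam (n k : ℕ) : Submodule ℝ (EE n) := ⋀[ℝ]^k (Fin n → ℝ)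

/-- the forms of degree `m - I.card` killed by the vectors `x v`, `v ∈ I` -/
noncomputable def LW {n : ℕ} (m : ℕ) {U : Type} (x : U → Fin n → ℝ) (I : Finset U) :
    Submodule ℝ (EE n) :=
  if I.card ≤ m then Lam n (m - I.card) ⊓ ⨅ v ∈ I, LinearMap.ker (con (x v)) else ⊥

/-- the product with a covector -/
noncomputable def wdg {n : ℕ} (ξ : Fin n → ℝ) : EE n →ₗ[ℝ] EE n :=
  LinearMap.mulLeft ℝ (ExteriorAlgebra.ι ℝ ξ)

/-- the scalar part -/
noncomputable def scal {n : ℕ} : EE n →ₗ[ℝ] ℝ := ExteriorAlgebra.algebraMapInv.toLinearMap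

/-- The action of a matrix on forms (the matrix acts on the covectors). -/
noncomputable def mapE {n : ℕ} (g : Matrix (Fin n) (Fin n) ℝ) : EE n →ₐ[ℝ] EE n :=
  ExteriorAlgebra.map (Matrix.toLin' g)

end Pool.Agent.ChG
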