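import Pool.Agent.ChG.EBas

/-!
# The dimension of the spaces of killed forms

Let `N k I` be the space of the `ω ∈ Lam n k` killed by the `con (x v)`, `v ∈ I`, where the `x v`, `v ∈ I`, are
linearly independent.  For `I = insert w J`, `w ∉ J`, choose a covector `ξ` with `ξ (x w) = 1`,
`ξ (x v) = 0` for `v ∈ J`.  The map `con (x w) : N (k+1) J → N k I` is surjective (`wdg ξ`, `con_wdg`) with
kernel `N (k+1) I`, and `N 0 I = Lam n 0`.  So
`dim N (k+1) I = dim N (k+1) J - dim N k I`, and `dim N k I = (n - I.card).choose k` by induction on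
`I.card` and `k` (`Nat.choose_succ_succ`; `I.card ≤ n`).
-/

namespace Pool.Agent.ChG

variable {n : ℕ} {U : Type} [DecidableEq U]

/-- covectors dual to linearly independent vectors -/
theorem exists_dual_cov {x : U → Fin n → ℝ} {I : Finset U}
    (hx : LinearIndependent ℝ (fun v : I => x v)) {w : U} (hw : w ∈ I) :
    ∃ ξ : Fin n → ℝ, ∑ i, ξ i * x w i = 1 ∧ ∀ v ∈ I, v ≠ w → ∑ i, ξ i * x v i = 0 := by
  classical
  let b := Module.Basis.span hx
  obtain ⟨f, hf⟩ := LinearMap.exists_extend (b.coord ⟨w, hw⟩)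
  have key : ∀ v : I, f (x v) = b.coord ⟨w, hw⟩ (b v) := by
    intro v
    have h1 : (f ∘ₗ (Submodule.span ℝ (Set.range fun v : I => x v)).subtype) (b v) =
        b.coord ⟨w, hw⟩ (b v) := by rw [hf]
    rw [← h1, LinearMap.comp_apply, Submodule.subtype_apply]
    congr 1
    exact (congrArg Subtype.val (Module.Basis.span_apply hx v)).symm
  have hsum : ∀ y : Fin n → ℝ, ∑ i, f (Pi.single i 1) * y i = f y := by
    intro y
    have hy : y = ∑ i, y i • (Pi.single i (1 : ℝ) : Fin n → ℝ) := by
      ext j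
      rw [Finset.sum_apply, Finset.sum_eq_single j]
      · simp
      · intro i _ hij
        simp [Pi.single_eq_of_ne hij.symm]
      · intro h
        exact absurd (Finset.mem_univ j) h
    conv_rhs => rw [hy]
    rw [map_sum]
    refine Finset.sum_congr rfl fun i _ => ?_
    rw [map_smul, smul_eq_mul, mul_comm]
  refine ⟨fun i => f (Pi.single i 1), ?_, ?_⟩
  · rw [hsum, key ⟨w, hw⟩, Module.Basis.coord_apply, Module.Basis.repr_self,
      Finsupp.single_eq_same]
  · intro v hv hvw
    rw [hsum, key ⟨v, hv⟩, Module.Basis.coord_apply, Module.Basis.repr_self,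
      Finsupp.single_apply, if_neg]
    intro h
    exact hvw (congrArg Subtype.val h)

private theorem edim_mem {x : U → Fin n → ℝ} {I : Finset U} {k : ℕ} {ω : EE n} :
    ω ∈ (Lam n k ⊓ ⨅ v ∈ I, LinearMap.ker (con (x v)) : Submodule ℝ (EE n)) ↔
      ω ∈ Lam n k ∧ ∀ v ∈ I, con (x v) ω = 0 := by
  simp only [Submodule.mem_inf, Submodule.mem_iInf, LinearMap.mem_ker]

private theorem edim_fin (x : U → Fin n → ℝ) (I : Finset U) (k : ℕ) :
    Module.Finite ℝ (Lam n k ⊓ ⨅ v ∈ I, LinearMap.ker (con (x v)) : Submodule ℝ (EE n)) := by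
  have := lam_finite (n := n) k
  exact Submodule.finiteDimensional_of_le (inf_le_left :
    (Lam n k ⊓ ⨅ v ∈ I, LinearMap.ker (con (x v)) : Submodule ℝ (EE n)) ≤ Lam n k)

private theorem edim_step {x : U → Fin n → ℝ} {J : Finset U} {w : U} (hw : w ∉ J)
    (hx : LinearIndependent ℝ (fun v : (insert w J : Finset U) => x v)) (k : ℕ) :
    Module.finrank ℝ (Lam n (k + 1) ⊓ ⨅ v ∈ J, LinearMap.ker (con (x v)) : Submodule ℝ (EE n)) =
      Module.finrank ℝ (Lam n k ⊓ ⨅ v ∈ (insert w J : Finset U),
        LinearMap.ker (con (x v)) : Submodule ℝ (EE n)) +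
      Module.finrank ℝ (Lam n (k + 1) ⊓ ⨅ v ∈ (insert w J : Finset U),
        LinearMap.ker (con (x v)) : Submodule ℝ (EE n)) := by
  classical
  obtain ⟨ξ, hξ1, hξ0⟩ := exists_dual_cov hx (Finset.mem_insert_self w J)
  have := edim_fin x J (k + 1)
  let A : Submodule ℝ (EE n) := Lam n (k + 1) ⊓ ⨅ v ∈ J, LinearMap.ker (con (x v))
  let B : Submodule ℝ (EE n) := Lam n k ⊓ ⨅ v ∈ (insert w J : Finset U), LinearMap.ker (con (x v))
  let C : Submodule ℝ (EE n) :=
    Lam n (k + 1) ⊓ ⨅ v ∈ (insert w J : Finset U), LinearMap.ker (con (x v))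
  let T : A →ₗ[ℝ] EE n := (con (x w)).comp A.subtype
  have hrk := LinearMap.finrank_range_add_finrank_ker T
  have hrange : LinearMap.range T = B := by
    ext η
    rw [LinearMap.mem_range]
    constructor
    · rintro ⟨⟨ω, hω⟩, rfl⟩
      obtain ⟨h1, h2⟩ := edim_mem.1 hω
      refine edim_mem.2 ⟨con_lam _ h1, fun v hv => ?_⟩
      show con (x v) (con (x w) ω) = 0
      rcases Finset.mem_insert.1 hv with rfl | hv
      · exact con_con _ _
      · rw [con_comm, h2 v hv, map_zero, neg_zero]
    · intro hη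
      obtain ⟨h1, h2⟩ := edim_mem.1 hη
      refine ⟨⟨wdg ξ η, edim_mem.2 ⟨wdg_lam ξ h1, fun v hv => ?_⟩⟩, ?_⟩
      · have hvw : v ≠ w := fun h => hw (h ▸ hv)
        rw [con_wdg, hξ0 v (Finset.mem_insert_of_mem hv) hvw,
          h2 v (Finset.mem_insert_of_mem hv), map_zero, zero_smul, sub_zero]
      · show con (x w) (wdg ξ η) = η
        rw [con_wdg, hξ1, h2 w (Finset.mem_insert_self w J), map_zero, one_smul, sub_zero]
  have hker : Module.finrank ℝ (LinearMap.ker T) = Module.finrank ℝ C := by
    have hmap : (LinearMap.ker T).map A.subtype = C := by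
      ext ω
      rw [Submodule.mem_map]
      constructor
      · rintro ⟨⟨ω', hω'⟩, hk, rfl⟩
        obtain ⟨h1, h2⟩ := edim_mem.1 hω'
        refine edim_mem.2 ⟨h1, fun v hv => ?_⟩
        rcases Finset.mem_insert.1 hv with rfl | hv
        · exact hk
        · exact h2 v hv
      · intro hω
        obtain ⟨h1, h2⟩ := edim_mem.1 hω
        refine ⟨⟨ω, edim_mem.2 ⟨h1, fun v hv => h2 v (Finset.mem_insert_of_mem hv)⟩⟩, ?_, rfl⟩
        exact h2 w (Finset.mem_insert_self w J)
    rw [← hmap]
    exact (LinearEquiv.finrank_eq (Submodule.equivMapOfInjective A.subtype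
      A.injective_subtype (LinearMap.ker T)))
  rw [hrange, hker] at hrk
  exact hrk.symm

theorem killed_finrank {x : U → Fin n → ℝ} {I : Finset U}
    (hx : LinearIndependent ℝ (fun v : I => x v)) (k : ℕ) :
    Module.finrank ℝ (Lam n k ⊓ ⨅ v ∈ I, LinearMap.ker (con (x v)) : Submodule ℝ (EE n)) =
      (n - I.card).choose k := by
  classical
  induction I using Finset.induction_on generalizing k with
  | empty =>
    have h : (Lam n k ⊓ ⨅ v ∈ (∅ : Finset U), LinearMap.ker (con (x v)) : Submodule ℝ (EE n)) =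
        Lam n k := by
      ext ω
      rw [edim_mem]
      simp
    rw [h, lam_finrank, Finset.card_empty, Nat.sub_zero]
  | insert w J hw ih =>
    have hJ : LinearIndependent ℝ (fun v : J => x v) := by
      have h := hx.comp (fun v : J => (⟨v.1, Finset.mem_insert_of_mem v.2⟩ :
        (insert w J : Finset U))) (by
          intro a b hab
          exact Subtype.ext (congrArg (fun u : (insert w J : Finset U) => u.1) hab))
      exact h
    have hcard : (insert w J).card ≤ n := by
      have h := hx.fintype_card_le_finrank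
      rw [Module.finrank_fin_fun, Fintype.card_coe] at h
      exact h
    rw [Finset.card_insert_of_notMem hw] at hcard ⊢
    have ih' := fun k => ih hJ k
    induction k with
    | zero =>
      have h : (Lam n 0 ⊓ ⨅ v ∈ (insert w J : Finset U), LinearMap.ker (con (x v)) :
          Submodule ℝ (EE n)) = Lam n 0 := by
        ext ω
        rw [edim_mem]
        exact ⟨fun h => h.1, fun h => ⟨h, fun v _ => con_lam_zero _ h⟩⟩
      rw [h, lam_finrank, Nat.choose_zero_right, Nat.choose_zero_right]
    | succ k ihk =>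
      have hs := edim_step hw hx k
      rw [ih' (k + 1), ihk] at hs
      have hn : n - J.card = (n - (J.card + 1)) + 1 := by omega
      rw [hn, Nat.choose_succ_succ] at hs
      exact (Nat.add_left_cancel hs).symm

theorem lw_finite (m : ℕ) (x : U → Fin n → ℝ) (I : Finset U) : Module.Finite ℝ (LW m x I) := by
  by_cases h : I.card ≤ m
  · have h' : LW m x I = Lam n (m - I.card) ⊓ ⨅ v ∈ I, LinearMap.ker (con (x v)) := by
      unfold LW
      rw [if_pos h]
    rw [h']
    exact edim_fin x I _
  · have h' : LW m x I = ⊥ := by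
      unfold LW
      rw [if_neg h]
    rw [h']
    infer_instance

theorem lw_finrank {m : ℕ} {x : U → Fin n → ℝ} {I : Finset U}
    (hx : LinearIndependent ℝ (fun v : I => x v)) (hm : I.card ≤ m) :
    Module.finrank ℝ (LW m x I) = (n - I.card).choose (m - I.card) := by
  have h : LW m x I = Lam n (m - I.card) ⊓ ⨅ v ∈ I, LinearMap.ker (con (x v)) := by
    unfold LW
    rw [if_pos hm]
  rw [h, killed_finrank hx]

end Pool.Agent.ChG
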