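import Pool.Agent.ChG.EDim

/-!
# Elements of the exterior algebra as alternating maps

`exists_ev`: by recursion on `k`: `ev 0 ω` is the constant `scal ω`, and
`ev (k+1) ω x = ev k (con (x 0) ω) (fun i => x i.succ)`.  Linearity in each variable is clear by
induction.  It vanishes if two of the `x i` coincide: for two neighbouring ones by `con_con`
(and `con_comm`), in general by induction with `con_comm` (or `AlternatingMap.mk'`-like constructions; e.g. it is
enough to show `ev k ω (x ∘ swap i (i+1)) = -ev k ω x`, or that `ev` vanishes if `x i = x (i+1)`).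
`ev_mapE`: induction on `k` with `mapE_con`; for `k = 0` `ExteriorAlgebra.algebraMapInv` composed with
`ExteriorAlgebra.map` is `algebraMapInv` (`ExteriorAlgebra.hom_ext`).
`ev_inj`: induction on `k`: for `k = 0` `lam_zero`.  For `k + 1`: `con x ω` is in `Lam n k` and `ev k (con x ω) = 0`
for all `x`, so `con x ω = 0` for all `x`; then `ω = 0` by `killed_finrank` for the standard basis
(`(n - n).choose (k+1) = 0`).
`exists_evEquiv`: `ev k` is injective on `Lam n k`, both sides have dimension `n.choose k`
(`lam_finrank`; `exteriorPower.alternatingMapLinearEquiv`, the dual space has the same dimension).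
-/

namespace Pool.Agent.ChG

open Matrix

variable {n : ℕ}

private theorem eev_con_add (x y : Fin n → ℝ) : con (x + y) = con x + con y := by
  have h : vd (x + y) = vd x + vd y := by
    ext ξ
    simp only [vd, LinearMap.coe_comp, LinearMap.coe_single, Function.comp_apply,
      LinearMap.coe_mk, AddHom.coe_mk, Pi.add_apply, mul_add, Finset.sum_add_distrib,
      LinearMap.add_apply]
  unfold con
  rw [h, map_add]

private theorem eev_con_smul (c : ℝ) (x : Fin n → ℝ) : con (c • x) = c • con x := by
  have h : vd (c • x) = c • vd x := by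
    ext ξ
    simp only [vd, LinearMap.coe_comp, LinearMap.coe_single, Function.comp_apply,
      LinearMap.coe_mk, AddHom.coe_mk, Pi.smul_apply, smul_eq_mul, Finset.mul_sum,
      LinearMap.smul_apply]
    refine Finset.sum_congr rfl fun i _ => ?_
    ring
  unfold con
  rw [h, map_smul]

/-- the iterated contraction -/
private noncomputable def eev_f : ∀ k : ℕ, EE n → (Fin k → Fin n → ℝ) → ℝ
  | 0, ω, _ => scal ω
  | k + 1, ω, x => eev_f k (con (x 0) ω) (fun i => x i.succ)

private theorem eev_f_succ (k : ℕ) (ω : EE n) (x : Fin (k + 1) → Fin n → ℝ) :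
    eev_f (k + 1) ω x = eev_f k (con (x 0) ω) (fun i => x i.succ) := rfl

private theorem eev_f_add (k : ℕ) (ω η : EE n) (x : Fin k → Fin n → ℝ) :
    eev_f k (ω + η) x = eev_f k ω x + eev_f k η x := by
  induction k generalizing ω η with
  | zero => exact map_add scal ω η
  | succ k ih => rw [eev_f_succ, eev_f_succ, eev_f_succ, map_add, ih]

private theorem eev_f_smul (k : ℕ) (c : ℝ) (ω : EE n) (x : Fin k → Fin n → ℝ) :
    eev_f k (c • ω) x = c * eev_f k ω x := by
  induction k generalizing ω with
  | zero => exact map_smul scal c ω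
  | succ k ih => rw [eev_f_succ, eev_f_succ, map_smul, ih]

private theorem eev_f_zero (k : ℕ) (x : Fin k → Fin n → ℝ) : eev_f k (0 : EE n) x = 0 := by
  have h := eev_f_smul k 0 (0 : EE n) x
  rwa [zero_smul, zero_mul] at h

private theorem eev_f_neg (k : ℕ) (ω : EE n) (x : Fin k → Fin n → ℝ) :
    eev_f k (-ω) x = -eev_f k ω x := by
  have h := eev_f_smul k (-1) ω x
  rwa [neg_smul, one_smul, neg_one_mul] at h

private theorem eev_f_update_add (k : ℕ) (ω : EE n) (x : Fin k → Fin n → ℝ) (i : Fin k)
    (y z : Fin n → ℝ) : eev_f k ω (Function.update x i (y + z)) =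
      eev_f k ω (Function.update x i y) + eev_f k ω (Function.update x i z) := by
  induction k generalizing ω with
  | zero => exact i.elim0
  | succ k ih =>
    rw [eev_f_succ, eev_f_succ, eev_f_succ]
    rcases Fin.eq_zero_or_eq_succ i with rfl | ⟨j, rfl⟩
    · have h : ∀ w : Fin n → ℝ, (fun i : Fin k => Function.update x 0 w i.succ) =
          fun i : Fin k => x i.succ := by
        intro w
        funext i
        rw [Function.update_of_ne (Fin.succ_ne_zero i)]
      rw [h, h, h, Function.update_self, Function.update_self, Function.update_self, eev_con_add,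
        LinearMap.add_apply, eev_f_add]
    · have h : ∀ w : Fin n → ℝ, (fun i : Fin k => Function.update x j.succ w i.succ) =
          Function.update (fun i : Fin k => x i.succ) j w := by
        intro w
        funext i
        by_cases hij : i = j
        · subst hij
          rw [Function.update_self, Function.update_self]
        · rw [Function.update_of_ne hij, Function.update_of_ne]
          exact fun hc => hij (Fin.succ_injective _ hc)
      rw [h, h, h, Function.update_of_ne (Fin.succ_ne_zero j).symm,
        Function.update_of_ne (Fin.succ_ne_zero j).symm,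
        Function.update_of_ne (Fin.succ_ne_zero j).symm, ih]

private theorem eev_f_update_smul (k : ℕ) (ω : EE n) (x : Fin k → Fin n → ℝ) (i : Fin k)
    (c : ℝ) (y : Fin n → ℝ) : eev_f k ω (Function.update x i (c • y)) =
      c * eev_f k ω (Function.update x i y) := by
  induction k generalizing ω with
  | zero => exact i.elim0
  | succ k ih =>
    rw [eev_f_succ, eev_f_succ]
    rcases Fin.eq_zero_or_eq_succ i with rfl | ⟨j, rfl⟩
    · have h : ∀ w : Fin n → ℝ, (fun i : Fin k => Function.update x 0 w i.succ) =
          fun i : Fin k => x i.succ := by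
        intro w
        funext i
        rw [Function.update_of_ne (Fin.succ_ne_zero i)]
      rw [h, h, Function.update_self, Function.update_self, eev_con_smul,
        LinearMap.smul_apply, eev_f_smul]
    · have h : ∀ w : Fin n → ℝ, (fun i : Fin k => Function.update x j.succ w i.succ) =
          Function.update (fun i : Fin k => x i.succ) j w := by
        intro w
        funext i
        by_cases hij : i = j
        · subst hij
          rw [Function.update_self, Function.update_self]
        · rw [Function.update_of_ne hij, Function.update_of_ne]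
          exact fun hc => hij (Fin.succ_injective _ hc)
      rw [h, h, Function.update_of_ne (Fin.succ_ne_zero j).symm,
        Function.update_of_ne (Fin.succ_ne_zero j).symm, ih]

private theorem eev_f_con (k : ℕ) (ω : EE n) (x : Fin k → Fin n → ℝ) (j : Fin k) :
    eev_f k (con (x j) ω) x = 0 := by
  induction k generalizing ω with
  | zero => exact j.elim0
  | succ k ih =>
    rw [eev_f_succ]
    rcases Fin.eq_zero_or_eq_succ j with rfl | ⟨i, rfl⟩
    · rw [con_con, eev_f_zero]
    · rw [con_comm, eev_f_neg, ih (con (x 0) ω) (fun i => x i.succ) i, neg_zero]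

private theorem eev_f_eq (k : ℕ) (ω : EE n) (x : Fin k → Fin n → ℝ) (i j : Fin k)
    (h : x i = x j) (hij : i ≠ j) : eev_f k ω x = 0 := by
  induction k generalizing ω with
  | zero => exact i.elim0
  | succ k ih =>
    rw [eev_f_succ]
    rcases Fin.eq_zero_or_eq_succ i with rfl | ⟨i', rfl⟩
    · rcases Fin.eq_zero_or_eq_succ j with rfl | ⟨j', rfl⟩
      · exact absurd rfl hij
      · rw [h]
        exact eev_f_con k ω (fun i => x i.succ) j'
    · rcases Fin.eq_zero_or_eq_succ j with rfl | ⟨j', rfl⟩
      · rw [← h]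
        exact eev_f_con k ω (fun i => x i.succ) i'
      · exact ih (con (x 0) ω) (fun i => x i.succ) i' j' h (fun hc => hij (congrArg _ hc))

/-- the alternating map -/
private noncomputable def eev_alt (k : ℕ) (ω : EE n) : (Fin n → ℝ) [⋀^Fin k]→ₗ[ℝ] ℝ where
  toFun := eev_f k ω
  map_update_add' := by
    intro inst x i y z
    have h : inst = instDecidableEqFin k := Subsingleton.elim _ _
    subst h
    exact eev_f_update_add k ω x i y z
  map_update_smul' := by
    intro inst x i c y
    have h : inst = instDecidableEqFin k := Subsingleton.elim _ _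
    subst h
    exact eev_f_update_smul k ω x i c y
  map_eq_zero_of_eq' := by
    intro x i j h hij
    exact eev_f_eq k ω x i j h hij

theorem exists_ev (n : ℕ) : ∃ ev : ∀ k : ℕ, EE n →ₗ[ℝ] ((Fin n → ℝ) [⋀^Fin k]→ₗ[ℝ] ℝ),
    (∀ ω x, ev 0 ω x = scal ω) ∧
    ∀ k ω x, ev (k + 1) ω x = ev k (con (x 0) ω) (fun i => x i.succ) := by
  refine ⟨fun k =>
    { toFun := eev_alt k
      map_add' := by
        intro ω η
        ext x
        exact eev_f_add k ω η x
      map_smul' := by
        intro c ω
        ext x
        exact eev_f_smul k c ω x }, ?_, ?_⟩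
  · intro ω x
    rfl
  · intro k ω x
    rfl

/-- The alternating map given by an element of the exterior algebra. -/
noncomputable def ev (n k : ℕ) : EE n →ₗ[ℝ] ((Fin n → ℝ) [⋀^Fin k]→ₗ[ℝ] ℝ) :=
  (exists_ev n).choose k

theorem ev_zero (ω : EE n) (x : Fin 0 → Fin n → ℝ) : ev n 0 ω x = scal ω :=
  (exists_ev n).choose_spec.1 ω x

theorem ev_succ (k : ℕ) (ω : EE n) (x : Fin (k + 1) → Fin n → ℝ) :
    ev n (k + 1) ω x = ev n k (con (x 0) ω) (fun i => x i.succ) :=
  (exists_ev n).choose_spec.2 k ω x

private theorem eev_scal_mapE (g : Matrix (Fin n) (Fin n) ℝ) (ω : EE n) :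
    scal (mapE g ω) = scal ω := by
  have h : (ExteriorAlgebra.algebraMapInv (R := ℝ) (M := Fin n → ℝ)).comp (mapE g) =
      ExteriorAlgebra.algebraMapInv := by
    apply ExteriorAlgebra.hom_ext
    ext v
    simp [mapE, ExteriorAlgebra.algebraMapInv]
  exact congrArg (fun f : EE n →ₐ[ℝ] ℝ => f ω) h

theorem ev_mapE (k : ℕ) (g : Matrix (Fin n) (Fin n) ℝ) (ω : EE n) (x : Fin k → Fin n → ℝ) :
    ev n k (mapE g ω) x = ev n k ω (fun i => gᵀ *ᵥ x i) := by
  induction k generalizing ω with
  | zero => rw [ev_zero, ev_zero, eev_scal_mapE]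
  | succ k ih => rw [ev_succ, ev_succ, mapE_con, ih]

private theorem eev_std : LinearIndependent ℝ
    (fun v : (Finset.univ : Finset (Fin n)) => (Pi.single v.1 (1 : ℝ) : Fin n → ℝ)) := by
  have h := (Pi.basisFun ℝ (Fin n)).linearIndependent
  have h2 := h.comp (fun v : (Finset.univ : Finset (Fin n)) => v.1) Subtype.val_injective
  convert h2 using 2 with v
  simp [Pi.basisFun_apply]

theorem ev_inj {k : ℕ} {ω : EE n} (hω : ω ∈ Lam n k) (h : ev n k ω = 0) : ω = 0 := by
  classical
  induction k generalizing ω with
  | zero =>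
    have h0 : scal ω = 0 := by
      rw [← ev_zero ω (fun i => i.elim0), h]
      rfl
    rw [lam_zero hω, h0, map_zero]
  | succ k ih =>
    have hc : ∀ x : Fin n → ℝ, con x ω = 0 := by
      intro x
      apply ih (con_lam x hω)
      ext y
      have h1 := ev_succ k ω (Fin.cons x y)
      rw [h] at h1
      simp only [Fin.cons_zero, Fin.cons_succ] at h1
      rw [← h1]
      rfl
    have hf := killed_finrank (x := fun v : Fin n => (Pi.single v (1 : ℝ) : Fin n → ℝ))
      (eev_std (n := n)) (k + 1)
    rw [Finset.card_univ, Fintype.card_fin, Nat.sub_self, Nat.choose_zero_succ] at hf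
    have := lam_finite (n := n) (k + 1)
    have hfin : Module.Finite ℝ (Lam n (k + 1) ⊓ ⨅ v ∈ (Finset.univ : Finset (Fin n)),
        LinearMap.ker (con (Pi.single v (1 : ℝ))) : Submodule ℝ (EE n)) :=
      Submodule.finiteDimensional_of_le (inf_le_left)
    have hbot := (Submodule.finrank_eq_zero (R := ℝ)).1 hf
    have hmem : ω ∈ (Lam n (k + 1) ⊓ ⨅ v ∈ (Finset.univ : Finset (Fin n)),
        LinearMap.ker (con (Pi.single v (1 : ℝ))) : Submodule ℝ (EE n)) := by
      simp only [Submodule.mem_inf, Submodule.mem_iInf, LinearMap.mem_ker]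
      exact ⟨hω, fun v _ => hc _⟩
    rw [hbot] at hmem
    exact (Submodule.mem_bot ℝ).1 hmem

theorem exists_evEquiv (n k : ℕ) :
    ∃ e : Lam n k ≃ₗ[ℝ] ((Fin n → ℝ) [⋀^Fin k]→ₗ[ℝ] ℝ), ∀ ω, e ω = ev n k ω.1 := by
  have hfin := lam_finite (n := n) k
  have hfin' : Module.Finite ℝ (⋀[ℝ]^k (Fin n → ℝ)) := hfin
  let E := exteriorPower.alternatingMapLinearEquiv (R := ℝ) (M := Fin n → ℝ) (N := ℝ) (n := k)
  have hfinA : Module.Finite ℝ ((Fin n → ℝ) [⋀^Fin k]→ₗ[ℝ] ℝ) := Module.Finite.equiv E.symm
  have hdim : Module.finrank ℝ (Lam n k) =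
      Module.finrank ℝ ((Fin n → ℝ) [⋀^Fin k]→ₗ[ℝ] ℝ) := by
    rw [LinearEquiv.finrank_eq E]
    exact (Subspace.dual_finrank_eq (K := ℝ) (V := ⋀[ℝ]^k (Fin n → ℝ))).symm
  let f : Lam n k →ₗ[ℝ] ((Fin n → ℝ) [⋀^Fin k]→ₗ[ℝ] ℝ) := (ev n k).comp (Lam n k).subtype
  have hf : Function.Injective f := by
    rw [injective_iff_map_eq_zero]
    intro ω hω
    exact Subtype.ext (ev_inj ω.2 hω)
  refine ⟨LinearMap.linearEquivOfInjective f hf hdim, ?_⟩
  intro ω
  rw [LinearMap.linearEquivOfInjective_apply]
  rfl

end Pool.Agent.ChG
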