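import Pool.Agent.ChG.Defs
import Pool.Agent.ChS.FanBasic

/-!
# Homology of complete fans: definitions

`epsZ`, `foZ` are the integral versions of `eps`, `fo`.  `rm x i` removes the `i`-th entry of a
sequence.  `pairN a x z` is the intersection number of `x_0, ..., x_(a-1)` with
`z_0, ..., z_(d-a)`.  `Wset w k` is the set of the first `k` vertices of an ordered chamber `w`.
`en lab τ` enumerates `τ` by increasing labels.
-/

namespace Pool.Agent.ChG

open Matrix Pool.Agent.ChP Pool.Agent.ChS

/-- the elementary Euler cocycle with integral values -/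
noncomputable def epsZ {n : ℕ} (s : Fin (n + 1) → Fin n → ℝ) : ℤ :=
  open Classical in
  (if ∀ i, 0 < tco s i then 1 else 0) - (if ∀ i, tco s i < 0 then 1 else 0)

/-- the orientation of an ordered chamber with integral values -/
noncomputable def foZ {d : ℕ} {U : Type} (p : U → Fin d → ℝ) (w : Fin d → U) : ℤ :=
  (SignType.sign (Matrix.det (Matrix.of fun a => p (w a))) : ℤ)

/-- remove an entry of a sequence -/
def rm {X : Type} (x : ℕ → X) (i : ℕ) (j : ℕ) : X := if j < i then x j else x (j + 1)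

/-- the intersection number of `x_0, ..., x_(a-1)` and `z_0, ..., z_(d-a)` -/
noncomputable def pairN {d : ℕ} (a : ℕ) (x z : ℕ → Fin d → ℝ) : ℤ :=
  epsZ (fun i : Fin (d + 1) => if (i : ℕ) < a then x i else -z (i - a))

section

variable {d : ℕ} {U : Type} [DecidableEq U]

/-- the set of the first `k` vertices of an ordered chamber -/
def Wset (w : Fin d → U) (k : ℕ) : Finset U :=
  (Finset.univ.filter fun i : Fin d => (i : ℕ) < k).image w

theorem exists_en [Nonempty U] (lab : U → ℕ) (τ : Finset U) (h : Set.InjOn lab (τ : Set U)) :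
    ∃ e : ℕ → U, (∀ i < τ.card, e i ∈ τ) ∧ (∀ v ∈ τ, ∃ i < τ.card, e i = v) ∧
      ∀ i j, i < j → j < τ.card → lab (e i) < lab (e j) := by
  classical
  have hc : (τ.image lab).card = τ.card := Finset.card_image_of_injOn h
  have hmem : ∀ i : Fin τ.card, ∃ v ∈ τ, lab v = (τ.image lab).orderEmbOfFin hc i := by
    intro i
    have := Finset.orderEmbOfFin_mem (τ.image lab) hc i
    rw [Finset.mem_image] at this
    exact this
  choose t ht ht' using hmem
  refine ⟨fun i => if hi : i < τ.card then t ⟨i, hi⟩ else Classical.arbitrary U, ?_, ?_, ?_⟩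
  · intro i hi
    simp only [dif_pos hi]
    exact ht _
  · intro v hv
    have h1 : lab v ∈ Set.range ((τ.image lab).orderEmbOfFin hc) := by
      rw [Finset.range_orderEmbOfFin]
      exact Finset.mem_coe.2 (Finset.mem_image_of_mem lab hv)
    obtain ⟨i, hi⟩ := h1
    refine ⟨i, i.2, ?_⟩
    simp only [i.2, dif_pos]
    refine h (Finset.mem_coe.2 (ht _)) (Finset.mem_coe.2 hv) ?_
    rw [ht', ← hi]
  · intro i j hij hj
    simp only [dif_pos hj, dif_pos (hij.trans hj)]
    rw [ht', ht']
    exact ((τ.image lab).orderEmbOfFin hc).strictMono (by exact hij)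

/-- the enumeration of `τ` by increasing labels -/
noncomputable def en [Nonempty U] (lab : U → ℕ) (τ : Finset U) : ℕ → U :=
  open Classical in
  if h : Set.InjOn lab (τ : Set U) then (exists_en lab τ h).choose else fun _ => Classical.arbitrary U

theorem en_mem [Nonempty U] {lab : U → ℕ} {τ : Finset U} (h : Set.InjOn lab (τ : Set U)) {i : ℕ}
    (hi : i < τ.card) : en lab τ i ∈ τ := by
  unfold en
  rw [dif_pos h]
  exact (exists_en lab τ h).choose_spec.1 i hi

theorem en_surj [Nonempty U] {lab : U → ℕ} {τ : Finset U} (h : Set.InjOn lab (τ : Set U)) {v : U}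
    (hv : v ∈ τ) : ∃ i < τ.card, en lab τ i = v := by
  unfold en
  rw [dif_pos h]
  exact (exists_en lab τ h).choose_spec.2.1 v hv

theorem en_lt [Nonempty U] {lab : U → ℕ} {τ : Finset U} (h : Set.InjOn lab (τ : Set U)) {i j : ℕ}
    (hij : i < j) (hj : j < τ.card) : lab (en lab τ i) < lab (en lab τ j) := by
  unfold en
  rw [dif_pos h]
  exact (exists_en lab τ h).choose_spec.2.2 i j hij hj

/-- The orientation of a chamber with vertices ordered by the labels. -/
noncomputable def foS [Nonempty U] (lab : U → ℕ) (p : U → Fin d → ℝ) (σ : Finset U) : ℤ :=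
  foZ p (fun i : Fin d => en lab σ i)

/-- Good position of vectors `b τ`, `τ ∈ cones`, close to the barycentres, and of a vector `y`. -/
structure GoodPos (cones : Finset (Finset U)) (p : U → Fin d → ℝ) (b : Finset U → Fin d → ℝ)
    (y : Fin d → ℝ) : Prop where
  gen : ∀ w ∈ fts d cones, ∀ ρ ∈ cones, ∀ (α : ℝ) (β : ℕ → ℝ) (γ : U → ℝ) (S : Finset ℕ)
    (R : Finset U), S ⊆ Finset.Icc 1 d → R ⊆ ρ → S.card + R.card ≤ d →
    (α = 0 ∨ S.card + R.card < d) →
    α • y + ∑ k ∈ S, β k • b (Wset w k) + ∑ v ∈ R, γ v • p v = 0 →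
    α = 0 ∧ (∀ k ∈ S, β k = 0) ∧ ∀ v ∈ R, γ v = 0
  sep : ∀ w ∈ fts d cones, ∀ t, 1 ≤ t → t ≤ d → ∀ ρ ∈ cones, ρ.card = t → ρ ≠ Wset w t →
    ∃ l : (Fin d → ℝ) →ₗ[ℝ] ℝ, (∀ k, t ≤ k → k ≤ d → 0 < l (b (Wset w k))) ∧ ∀ v ∈ ρ, l (p v) < 0
  top : ∀ w ∈ fts d cones, b (Wset w d) ∈ ocone p w

/-- the ordered chambers beginning with the sequence `e` -/
noncomputable def ftsH (cones : Finset (Finset U)) (t : ℕ) (e : ℕ → U) : Finset (Fin d → U) :=
  (fts d cones).filter fun w => ∀ i : Fin d, (i : ℕ) < t → w i = e i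

/-- The intersection number of the dual cell of `τ` with `ρ` (`τ.card = ρ.card = t`). -/
noncomputable def Nn [Nonempty U] (cones : Finset (Finset U)) (p : U → Fin d → ℝ) (lab : U → ℕ)
    (b : Finset U → Fin d → ℝ) (t : ℕ) (τ ρ : Finset U) : ℤ :=
  ∑ w ∈ ftsH cones t (en lab τ), foZ p w *
    pairN (d + 1 - t) (fun i => b (Wset w (t + i))) (fun i => p (en lab ρ i))

/-- The intersection number of the cone over the dual cell of `τ` with `ρ` (`τ.card = t`,
`ρ.card + 1 = t`). -/
noncomputable def Ee [Nonempty U] (cones : Finset (Finset U)) (p : U → Fin d → ℝ) (lab : U → ℕ)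
    (b : Finset U → Fin d → ℝ) (y : Fin d → ℝ) (t : ℕ) (τ ρ : Finset U) : ℤ :=
  ∑ w ∈ ftsH cones t (en lab τ), foZ p w *
    pairN (d + 2 - t) (fun i => if i = 0 then y else b (Wset w (t + i - 1)))
      (fun i => p (en lab ρ i))

end

end Pool.Agent.ChG
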