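import Pool.Agent.ChG.FDefs

/-!
# Intersection numbers: basic facts

`epsZ_cast`, `foZ_cast`: compare the definitions (`Real.sign` and `SignType.sign`).
`epsZ_sep`: one has `∑ i, tco s i • s i = 0` (`EpsAlg_rel` in `ChP/EpsAlg.lean`, private there;
expand a determinant with a repeated column); if all `tco s i` have the same strict sign then
applying `l` gives a non-zero sum, a contradiction.
`pair_cocycle`: `eps_cocycle` for the `d + 2` vectors `x_0, ..., x_(a-1), -z_0, ..., -z_(d+1-a)`, cast to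
the integers; removing the entry `i < a` (resp. `a + j`) gives the vectors of `pairN (a - 1) (rm x i) z`
(resp. `pairN a x (rm z j)`).
`pairN_one`: `pairN 1` for `x = b` and the vertices of an ordered chamber `w`: multiply all vectors by
`-1` (this multiplies `tco` by `(-1)^d`, hence `epsZ` by `(-1)^d`) and use `eps_neg_cons`.
-/

namespace Pool.Agent.ChG

open Matrix Pool.Agent.ChP Pool.Agent.ChS

private theorem FEps_rel {n : ℕ} (s : Fin (n + 1) → Fin n → ℝ) : ∑ i, tco s i • s i = 0 := by
  funext c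
  rw [Finset.sum_apply, Pi.zero_apply]
  have h0 : Matrix.det (Matrix.of fun i : Fin (n + 1) =>
      (Fin.cons (s i c) (s i) : Fin (n + 1) → ℝ)) = 0 := by
    refine Matrix.det_zero_of_column_eq (i := 0) (j := c.succ) (Fin.succ_ne_zero c).symm ?_
    intro k
    rw [Matrix.of_apply, Matrix.of_apply, Fin.cons_zero, Fin.cons_succ]
  rw [Matrix.det_succ_column_zero] at h0
  rw [← h0]
  refine Finset.sum_congr rfl fun i _ => ?_
  have h1 : (Matrix.of fun i : Fin (n + 1) =>
      (Fin.cons (s i c) (s i) : Fin (n + 1) → ℝ)).submatrix i.succAbove Fin.succ =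
      Matrix.of fun a b : Fin n => s (i.succAbove a) b := by
    ext a b
    rw [Matrix.submatrix_apply, Matrix.of_apply, Matrix.of_apply, Fin.cons_succ]
  rw [h1, Matrix.of_apply, Fin.cons_zero, Pi.smul_apply, smul_eq_mul]
  unfold tco
  ring

private theorem FEps_tco_neg {n : ℕ} (s : Fin (n + 1) → Fin n → ℝ) (i : Fin (n + 1)) :
    tco (fun i => -s i) i = (-1) ^ n * tco s i := by
  unfold tco
  have h1 : (Matrix.of fun a b : Fin n => (-s (i.succAbove a)) b) =
      -(Matrix.of fun a b : Fin n => s (i.succAbove a) b) := by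
    ext a b
    rfl
  rw [h1, Matrix.det_neg, Fintype.card_fin]
  ring

private theorem FEps_epsZ_neg {n : ℕ} (s : Fin (n + 1) → Fin n → ℝ) :
    epsZ (fun i => -s i) = (-1) ^ n * epsZ s := by
  classical
  have h := FEps_tco_neg s
  rcases neg_one_pow_eq_or ℝ n with hn | hn
  · have hn' : ((-1 : ℤ)) ^ n = 1 := by
      have : ((((-1 : ℤ)) ^ n : ℤ) : ℝ) = ((1 : ℤ) : ℝ) := by
        push_cast
        exact hn
      exact_mod_cast this
    unfold epsZ
    rw [hn']
    simp only [h, hn, one_mul]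
  · have hn' : ((-1 : ℤ)) ^ n = -1 := by
      have : ((((-1 : ℤ)) ^ n : ℤ) : ℝ) = ((-1 : ℤ) : ℝ) := by
        push_cast
        exact hn
      exact_mod_cast this
    unfold epsZ
    rw [hn']
    simp only [h, hn, neg_mul, one_mul, Left.neg_pos_iff, Left.neg_neg_iff]
    ring

theorem epsZ_cast {n : ℕ} (s : Fin (n + 1) → Fin n → ℝ) : ((epsZ s : ℤ) : ℝ) = eps s := by
  classical
  unfold epsZ eps
  push_cast
  rfl

theorem foZ_cast {d : ℕ} {U : Type} (p : U → Fin d → ℝ) (w : Fin d → U) :
    ((foZ p w : ℤ) : ℝ) = fo p w := by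
  unfold foZ fo
  obtain ⟨x, hx⟩ : ∃ x, x = Matrix.det (Matrix.of fun a => p (w a)) := ⟨_, rfl⟩
  rw [← hx]
  rcases lt_trichotomy x 0 with h | h | h
  · rw [Real.sign_of_neg h, sign_neg h]
    simp
  · rw [h, Real.sign_zero, sign_zero]
    simp
  · rw [Real.sign_of_pos h, sign_pos h]
    simp

theorem epsZ_sep {n : ℕ} (s : Fin (n + 1) → Fin n → ℝ) (l : (Fin n → ℝ) →ₗ[ℝ] ℝ)
    (h : ∀ i, 0 < l (s i)) : epsZ s = 0 := by
  classical
  have h0 : ∑ i, tco s i * l (s i) = 0 := by
    have h1 := congrArg l (FEps_rel s)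
    rw [map_sum, map_zero] at h1
    rw [← h1]
    exact Finset.sum_congr rfl fun i _ => by rw [map_smul, smul_eq_mul]
  unfold epsZ
  rw [if_neg, if_neg, sub_zero]
  · intro h1
    have h2 : ∑ i, tco s i * l (s i) < 0 :=
      Finset.sum_neg (fun i _ => mul_neg_of_neg_of_pos (h1 i) (h i)) ⟨0, Finset.mem_univ _⟩
    exact absurd h0 h2.ne
  · intro h1
    have h2 : 0 < ∑ i, tco s i * l (s i) :=
      Finset.sum_pos (fun i _ => mul_pos (h1 i) (h i)) ⟨0, Finset.mem_univ _⟩
    exact absurd h0 h2.ne'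

theorem pairN_congr {d : ℕ} {a : ℕ} {x x' z z' : ℕ → Fin d → ℝ} (hx : ∀ i < a, x i = x' i)
    (hz : ∀ i, i + a < d + 1 → z i = z' i) : pairN a x z = pairN a x' z' := by
  unfold pairN
  congr 1
  funext i
  by_cases hi : (i : ℕ) < a
  · rw [if_pos hi, if_pos hi, hx i hi]
  · rw [if_neg hi, if_neg hi, hz (i - a)]
    have := i.2
    omega

/-- the combined sequence of `d + 2` vectors -/
def comb {d : ℕ} (a : ℕ) (x z : ℕ → Fin d → ℝ) (i : Fin (d + 2)) : Fin d → ℝ :=
  if (i : ℕ) < a then x i else -z (i - a)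

theorem pair_cocycle {d : ℕ} {a : ℕ} (ha : a ≤ d + 2) (x z : ℕ → Fin d → ℝ)
    (h : ∀ e : Fin d ↪o Fin (d + 2), Matrix.det (Matrix.of fun k b => comb a x z (e k) b) ≠ 0) :
    ∑ i ∈ Finset.range a, (-1 : ℤ) ^ i * pairN (a - 1) (rm x i) z +
      ∑ j ∈ Finset.range (d + 2 - a), (-1 : ℤ) ^ (a + j) * pairN a x (rm z j) = 0 := by
  have h1 := eps_cocycle (comb a x z) h
  obtain ⟨f, hf⟩ : ∃ f : ℕ → ℤ, f = fun j => (-1) ^ j *
      (if j < a then pairN (d := d) (a - 1) (rm x j) z else pairN a x (rm z (j - a))) := ⟨_, rfl⟩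
  have h2 : ∀ j : Fin (d + 2), ((f j : ℤ) : ℝ) =
      (-1) ^ (j : ℕ) * eps (fun i => comb a x z (j.succAbove i)) := by
    intro j
    rw [hf]
    by_cases hj : (j : ℕ) < a
    · simp only [if_pos hj]
      push_cast
      congr 1
      unfold pairN
      rw [epsZ_cast]
      congr 1
      funext i
      unfold comb rm
      by_cases hij : (i : ℕ) < j
      · have e1 : ((j.succAbove i : Fin (d + 2)) : ℕ) = i := by
          rw [Fin.succAbove_of_castSucc_lt j i (by rw [Fin.lt_def]; exact hij)]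
          rfl
        have e2 : (i : ℕ) < a := by omega
        have e3 : (i : ℕ) < a - 1 := by omega
        rw [e1, if_pos e2, if_pos e3, if_pos hij]
      · have e1 : ((j.succAbove i : Fin (d + 2)) : ℕ) = i + 1 := by
          rw [Fin.succAbove_of_le_castSucc j i (by rw [Fin.le_def]; exact not_lt.1 hij)]
          rfl
        rw [e1, if_neg hij]
        by_cases hia : (i : ℕ) + 1 < a
        · have e3 : (i : ℕ) < a - 1 := by omega
          rw [if_pos e3, if_pos hia]
        · have e3 : ¬ (i : ℕ) < a - 1 := by omega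
          rw [if_neg e3, if_neg hia]
          congr 2
          omega
    · simp only [if_neg hj]
      push_cast
      congr 1
      unfold pairN
      rw [epsZ_cast]
      congr 1
      funext i
      unfold comb rm
      by_cases hij : (i : ℕ) < j
      · have e1 : ((j.succAbove i : Fin (d + 2)) : ℕ) = i := by
          rw [Fin.succAbove_of_castSucc_lt j i (by rw [Fin.lt_def]; exact hij)]
          rfl
        rw [e1]
        by_cases hia : (i : ℕ) < a
        · rw [if_pos hia, if_pos hia]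
        · have e3 : (i : ℕ) - a < j - a := by omega
          rw [if_neg hia, if_neg hia, if_pos e3]
      · have e1 : ((j.succAbove i : Fin (d + 2)) : ℕ) = i + 1 := by
          rw [Fin.succAbove_of_le_castSucc j i (by rw [Fin.le_def]; exact not_lt.1 hij)]
          rfl
        have e2 : ¬ (i : ℕ) + 1 < a := by omega
        have e3 : ¬ (i : ℕ) < a := by omega
        have e4 : ¬ (i : ℕ) - a < j - a := by omega
        rw [e1, if_neg e2, if_neg e3, if_neg e4]
        congr 2
        omega
  have h3 : ∑ j ∈ Finset.range (d + 2), f j = 0 := by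
    have h4 : ((∑ j ∈ Finset.range (d + 2), f j : ℤ) : ℝ) = 0 := by
      rw [Finset.sum_range, ← h1]
      push_cast
      exact Finset.sum_congr rfl fun j _ => h2 j
    exact_mod_cast h4
  obtain ⟨m, hm⟩ := Nat.exists_eq_add_of_le ha
  rw [hm, Finset.sum_range_add] at h3
  rw [hm, Nat.add_sub_cancel_left, ← h3]
  congr 1
  · refine Finset.sum_congr rfl fun i hi => ?_
    rw [hf]
    simp only [if_pos (Finset.mem_range.1 hi)]
  · refine Finset.sum_congr rfl fun j _ => ?_
    rw [hf]
    simp only [if_neg (Nat.not_lt.2 (Nat.le_add_right a j)), Nat.add_sub_cancel_left]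

theorem pairN_one {d : ℕ} {U : Type} [DecidableEq U] {cones : Finset (Finset U)}
    {p : U → Fin d → ℝ} (h : IsFan cones p) {w : Fin d → U} (hw : w ∈ fts d cones)
    (b : Fin d → ℝ) (hb : b ∈ ocone p w) (z : ℕ → Fin d → ℝ) (hz : ∀ i : Fin d, z i = p (w i)) :
    pairN 1 (fun _ => b) z = (-1) ^ d * foZ p w := by
  classical
  have h1 : pairN (d := d) 1 (fun _ => b) z =
      epsZ (fun i => -(Fin.cons (-b) (fun i => p (w i)) : Fin (d + 1) → Fin d → ℝ) i) := by
    unfold pairN
    congr 1
    funext i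
    refine Fin.cases ?_ (fun j => ?_) i
    · rw [Fin.cons_zero, neg_neg]
      simp
    · rw [Fin.cons_succ, if_neg (by rw [Fin.val_succ]; omega), Fin.val_succ, Nat.add_sub_cancel,
        hz j]
  rw [h1, FEps_epsZ_neg]
  congr 1
  have h2 := eps_neg_cons h hw b
  rw [if_pos hb, ← epsZ_cast, ← foZ_cast] at h2
  exact_mod_cast h2

theorem foZ_mul_self {d : ℕ} {U : Type} [DecidableEq U] {cones : Finset (Finset U)}
    {p : U → Fin d → ℝ} (h : IsFan cones p) {w : Fin d → U} (hw : w ∈ fts d cones) :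
    foZ p w * foZ p w = 1 := by
  have h1 := fo_mul_self h hw
  rw [← foZ_cast] at h1
  exact_mod_cast h1

end Pool.Agent.ChG
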