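import Pool.Agent.ChG.FSep

/-!
# Vectors in good position exist

Let `β τ = ∑ v ∈ τ, p v` (`τ ∈ cones`).  For each of the finitely many triples `(w, t, ρ)` as in `fan_sep`
fix `l`; for `τ ∈ cones` let `O τ` be the open set of the `x` with `l x > 0` for all triples `(w, t, ρ)` and
`k` with `t ≤ k ≤ d`, `Wset w k = τ`, and `x ∈ ocone p w` for all `w ∈ fts d cones` with `Wset w d = τ`
(`isOpen_ocone`).  `β τ ∈ O τ`.  Enumerate the cones; choose the `b τ` one after the other and finally
`y`, each in its open set (for `y`: everything) and outside the span of any `T` with less than `d` elements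
among the `p v` and the vectors chosen before (`fan_avoid`, see `FanConn_gp` in `ChS/FanConn.lean`).
Property `gen`: take the relation with all coefficients in `S`, `R`; if `α ≠ 0` then `y` is in the span of
`S.card + R.card < d` vectors, so `α = 0`; if some `β k ≠ 0` take the one whose vector `b (Wset w k)` was
chosen last (the `Wset w k`, `1 ≤ k ≤ d`, are different cones): it is in the span of less than `d`
others; so all `β k = 0` and the `γ v = 0` by `IsFan.indep`.
-/

namespace Pool.Agent.ChG

open Matrix Pool.Agent.ChP Pool.Agent.ChS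

variable {d : ℕ} {U : Type} [DecidableEq U] {cones : Finset (Finset U)} {p : U → Fin d → ℝ}

omit [DecidableEq U] in
private theorem FGP_gp {d : ℕ} (A : Finset (Fin d → ℝ)) (O : Set (Fin d → ℝ)) (hO : IsOpen O)
    (hne : O.Nonempty) : ∃ x ∈ O, ∀ T : Finset (Fin d → ℝ), T ⊆ A → T.card < d →
      x ∉ Submodule.span ℝ (T : Set (Fin d → ℝ)) := by
  classical
  have hfin : Finite {T : Finset (Fin d → ℝ) // T ⊆ A ∧ T.card < d} := by
    refine Set.Finite.subset (A.powerset.finite_toSet) ?_
    rintro T ⟨hT, -⟩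
    exact Finset.mem_coe.2 (Finset.mem_powerset.2 hT)
  have hS : ∀ T : {T : Finset (Fin d → ℝ) // T ⊆ A ∧ T.card < d},
      Submodule.span ℝ ((T : Finset (Fin d → ℝ)) : Set (Fin d → ℝ)) ≠ ⊤ := by
    rintro ⟨T, hT, hT'⟩ h
    have h1 := finrank_span_finset_le_card (R := ℝ) T
    unfold Set.finrank at h1
    rw [h, finrank_top, Module.finrank_fin_fun] at h1
    omega
  obtain ⟨x, hx, hx'⟩ := fan_avoid
    (fun T : {T : Finset (Fin d → ℝ) // T ⊆ A ∧ T.card < d} =>
      Submodule.span ℝ ((T : Finset (Fin d → ℝ)) : Set (Fin d → ℝ))) hS O hO hne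
  exact ⟨x, hx, fun T hT hT' => hx' ⟨T, hT, hT'⟩⟩

private theorem FGP_choose (p : U → Fin d → ℝ) (V : Finset U) (O : Finset U → Set (Fin d → ℝ))
    (hO : ∀ τ, IsOpen (O τ)) (hne : ∀ τ, (O τ).Nonempty) (CC : Finset (Finset U)) :
    ∃ b : Finset U → Fin d → ℝ, (∀ τ ∈ CC, b τ ∈ O τ) ∧
      ∀ C ⊆ CC, ∀ R ⊆ V, C.card + R.card ≤ d → ∀ (β : Finset U → ℝ) (γ : U → ℝ),
        ∑ τ ∈ C, β τ • b τ + ∑ v ∈ R, γ v • p v = 0 → ∀ τ ∈ C, β τ = 0 := by
  classical
  induction CC using Finset.induction_on with
  | empty =>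
    refine ⟨fun _ => 0, fun τ hτ => absurd hτ (Finset.notMem_empty _), ?_⟩
    intro C hC R _ _ β γ _ τ hτ
    exact absurd (hC hτ) (Finset.notMem_empty _)
  | insert τ₀ CC hτ₀ ih =>
    obtain ⟨b, hb, hb'⟩ := ih
    obtain ⟨x, hx, hx'⟩ := FGP_gp (CC.image b ∪ V.image p) (O τ₀) (hO τ₀) (hne τ₀)
    have hbne : ∀ τ ∈ CC, Function.update b τ₀ x τ = b τ := by
      intro τ hτ
      rw [Function.update_of_ne]
      rintro rfl
      exact hτ₀ hτ
    refine ⟨Function.update b τ₀ x, ?_, ?_⟩
    · intro τ hτ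
      rcases Finset.mem_insert.1 hτ with rfl | hτ
      · rw [Function.update_self]
        exact hx
      · rw [hbne τ hτ]
        exact hb τ hτ
    · intro C hC R hR hcard β γ hrel
      by_cases h0 : τ₀ ∈ C
      · have hsub : C.erase τ₀ ⊆ CC := by
          intro τ hτ
          obtain ⟨h1, h2⟩ := Finset.mem_erase.1 hτ
          exact (Finset.mem_insert.1 (hC h2)).resolve_left h1
        have hsum : ∑ τ ∈ C.erase τ₀, β τ • Function.update b τ₀ x τ =
            ∑ τ ∈ C.erase τ₀, β τ • b τ :=
          Finset.sum_congr rfl fun τ hτ => by rw [hbne τ (hsub hτ)]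
        have hce := Finset.card_erase_add_one h0
        rw [← Finset.add_sum_erase C _ h0, Function.update_self, hsum] at hrel
        have hβ0 : β τ₀ = 0 := by
          by_contra hne0
          obtain ⟨T, hT⟩ : ∃ T, T = (C.erase τ₀).image b ∪ R.image p := ⟨_, rfl⟩
          refine hx' T ?_ ?_ ?_
          · rw [hT]
            exact Finset.union_subset_union (Finset.image_subset_image hsub)
              (Finset.image_subset_image hR)
          · have h1 : T.card ≤ (C.erase τ₀).card + R.card := by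
              rw [hT]
              exact (Finset.card_union_le _ _).trans
                (Nat.add_le_add Finset.card_image_le Finset.card_image_le)
            omega
          · rw [← Submodule.smul_mem_iff _ hne0]
            have h2 : β τ₀ • x = -(∑ τ ∈ C.erase τ₀, β τ • b τ + ∑ v ∈ R, γ v • p v) := by
              rw [add_assoc] at hrel
              exact eq_neg_of_add_eq_zero_left hrel
            rw [h2]
            refine Submodule.neg_mem _ (Submodule.add_mem _ ?_ ?_)
            · refine Submodule.sum_mem _ fun τ hτ => Submodule.smul_mem _ _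
                (Submodule.subset_span ?_)
              rw [hT, Finset.mem_coe, Finset.mem_union]
              exact Or.inl (Finset.mem_image_of_mem b hτ)
            · refine Submodule.sum_mem _ fun v hv => Submodule.smul_mem _ _
                (Submodule.subset_span ?_)
              rw [hT, Finset.mem_coe, Finset.mem_union]
              exact Or.inr (Finset.mem_image_of_mem p hv)
        rw [hβ0, zero_smul, zero_add] at hrel
        have h3 := hb' (C.erase τ₀) hsub R hR (by omega) β γ hrel
        intro τ hτ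
        by_cases h4 : τ = τ₀
        · rw [h4]
          exact hβ0
        · exact h3 τ (Finset.mem_erase.2 ⟨h4, hτ⟩)
      · have hsub : C ⊆ CC := by
          intro τ hτ
          refine (Finset.mem_insert.1 (hC hτ)).resolve_left ?_
          rintro rfl
          exact h0 hτ
        have hsum : ∑ τ ∈ C, β τ • Function.update b τ₀ x τ = ∑ τ ∈ C, β τ • b τ :=
          Finset.sum_congr rfl fun τ hτ => by rw [hbne τ (hsub hτ)]
        rw [hsum] at hrel
        exact hb' C hsub R hR hcard β γ hrel

private theorem FGP_card {w : Fin d → U} (hw : Function.Injective w) {k : ℕ} (hk : k ≤ d) :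
    (Wset w k).card = k := by
  unfold Wset
  rw [Finset.card_image_of_injective _ hw, Fin.card_filter_val_lt]
  exact min_eq_right hk

private theorem FGP_top (w : Fin d → U) : Wset w d = Finset.univ.image w := by
  unfold Wset
  congr 1
  ext i
  simp

private theorem FGP_mem (h : IsFan cones p) {w : Fin d → U} (hw : w ∈ fts d cones) (k : ℕ) :
    Wset w k ∈ cones := by
  refine h.down _ (mem_fts.1 hw).2 _ ?_
  exact Finset.image_subset_image (Finset.filter_subset _ _)

private theorem FGP_isOpen_imp {P : Prop} {O : Set (Fin d → ℝ)} (hO : P → IsOpen O) :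
    IsOpen {x : Fin d → ℝ | P → x ∈ O} := by
  by_cases hP : P
  · simp only [hP, forall_true_left]
    exact hO hP
  · simp only [hP, IsEmpty.forall_iff]
    exact isOpen_univ

theorem exists_goodPos (h : IsFan cones p) (hd : 0 < d) :
    ∃ (b : Finset U → Fin d → ℝ) (y : Fin d → ℝ), GoodPos cones p b y := by
  classical
  -- the separating functionals
  have hex : ∀ (w : Fin d → U) (t : ℕ) (ρ : Finset U), ∃ l : (Fin d → ℝ) →ₗ[ℝ] ℝ,
      w ∈ fts d cones → 1 ≤ t → t ≤ d → ρ ∈ cones → ρ.card = t → ρ ≠ Wset w t →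
      (∀ k, t ≤ k → k ≤ d → 0 < l (∑ v ∈ Wset w k, p v)) ∧ ∀ v ∈ ρ, l (p v) < 0 := by
    intro w t ρ
    by_cases hc : w ∈ fts d cones ∧ 1 ≤ t ∧ t ≤ d ∧ ρ ∈ cones ∧ ρ.card = t ∧ ρ ≠ Wset w t
    · obtain ⟨h1, h2, h3, h4, h5, h6⟩ := hc
      obtain ⟨l, hl⟩ := fan_sep h h1 h2 h3 h4 h5 h6
      exact ⟨l, fun _ _ _ _ _ _ => hl⟩
    · exact ⟨0, fun h1 h2 h3 h4 h5 h6 => absurd ⟨h1, h2, h3, h4, h5, h6⟩ hc⟩
  choose l hl using hex
  obtain ⟨O, hOdef⟩ : ∃ O : Finset U → Set (Fin d → ℝ), ∀ τ, O τ =
      (⋂ w ∈ fts d cones, ⋂ t ∈ Finset.Icc 1 d, ⋂ ρ ∈ cones, ⋂ k ∈ Finset.Icc t d,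
        {x | (ρ.card = t ∧ ρ ≠ Wset w t ∧ Wset w k = τ) → x ∈ {x | 0 < l w t ρ x}}) ∩
      ⋂ w ∈ fts d cones, {x | Wset w d = τ → x ∈ ocone p w} := ⟨_, fun _ => rfl⟩
  have hO : ∀ τ, IsOpen (O τ) := by
    intro τ
    rw [hOdef]
    refine IsOpen.inter ?_ ?_
    · refine isOpen_biInter_finset fun w _ => isOpen_biInter_finset fun t _ =>
        isOpen_biInter_finset fun ρ _ => isOpen_biInter_finset fun k _ =>
        FGP_isOpen_imp fun _ => ?_
      exact isOpen_lt continuous_const (l w t ρ).continuous_of_finiteDimensional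
    · exact isOpen_biInter_finset fun w hw => FGP_isOpen_imp fun _ => isOpen_ocone h hw
  have hbeta : ∀ τ, (∑ v ∈ τ, p v) ∈ O τ := by
    intro τ
    rw [hOdef]
    refine ⟨?_, ?_⟩
    · simp only [Set.mem_iInter]
      rintro w hw t ht ρ hρ k hk ⟨h1, h2, rfl⟩
      rw [Finset.mem_Icc] at ht hk
      exact (hl w t ρ hw ht.1 ht.2 hρ h1 h2).1 k hk.1 hk.2
    · simp only [Set.mem_iInter]
      rintro w hw rfl
      obtain ⟨hinj, -⟩ := mem_fts.1 hw
      refine ⟨fun _ => 1, fun _ => one_pos, ?_⟩
      rw [FGP_top, Finset.sum_image fun a _ b _ hab => hinj hab]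
      exact Finset.sum_congr rfl fun i _ => one_smul _ _
  obtain ⟨V, hV⟩ : ∃ V : Finset U, V = cones.biUnion id := ⟨_, rfl⟩
  have hVm : ∀ ρ ∈ cones, ρ ⊆ V := by
    intro ρ hρ v hv
    rw [hV, Finset.mem_biUnion]
    exact ⟨ρ, hρ, hv⟩
  obtain ⟨b, hb, hb'⟩ := FGP_choose p V O hO (fun τ => ⟨_, hbeta τ⟩) cones
  obtain ⟨y, -, hy⟩ := FGP_gp (cones.image b ∪ V.image p) Set.univ isOpen_univ
    Set.univ_nonempty
  have hbO : ∀ w ∈ fts d cones, ∀ k, b (Wset w k) ∈ O (Wset w k) := fun w hw k =>
    hb _ (FGP_mem h hw k)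
  refine ⟨b, y, ?_, ?_, ?_⟩
  · intro w hw ρ hρ α β γ S R hS hR hcard hα hrel
    obtain ⟨hinj, hcone⟩ := mem_fts.1 hw
    have hSd : ∀ k ∈ S, k ≤ d := fun k hk => (Finset.mem_Icc.1 (hS hk)).2
    have hα0 : α = 0 := by
      rcases hα with hα | hα
      · exact hα
      · by_contra hne0
        obtain ⟨T, hT⟩ : ∃ T, T = S.image (fun k => b (Wset w k)) ∪ R.image p := ⟨_, rfl⟩
        refine hy T ?_ ?_ ?_
        · rw [hT]
          refine Finset.union_subset_union ?_ (Finset.image_subset_image (hR.trans (hVm ρ hρ)))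
          intro z hz
          obtain ⟨k, -, rfl⟩ := Finset.mem_image.1 hz
          exact Finset.mem_image_of_mem b (FGP_mem h hw k)
        · have h1 : T.card ≤ S.card + R.card := by
            rw [hT]
            exact (Finset.card_union_le _ _).trans
              (Nat.add_le_add Finset.card_image_le Finset.card_image_le)
          omega
        · rw [← Submodule.smul_mem_iff _ hne0]
          have h2 : α • y = -(∑ k ∈ S, β k • b (Wset w k) + ∑ v ∈ R, γ v • p v) := by
            rw [add_assoc] at hrel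
            exact eq_neg_of_add_eq_zero_left hrel
          rw [h2]
          refine Submodule.neg_mem _ (Submodule.add_mem _ ?_ ?_)
          · refine Submodule.sum_mem _ fun k hk => Submodule.smul_mem _ _
              (Submodule.subset_span ?_)
            rw [hT, Finset.mem_coe, Finset.mem_union]
            exact Or.inl (Finset.mem_image.2 ⟨k, hk, rfl⟩)
          · refine Submodule.sum_mem _ fun v hv => Submodule.smul_mem _ _
              (Submodule.subset_span ?_)
            rw [hT, Finset.mem_coe, Finset.mem_union]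
            exact Or.inr (Finset.mem_image_of_mem p hv)
    rw [hα0, zero_smul, zero_add] at hrel
    have hWinj : ∀ k ∈ S, ∀ k' ∈ S, Wset w k = Wset w k' → k = k' := by
      intro k hk k' hk' heq
      have h1 := congrArg Finset.card heq
      rw [FGP_card hinj (hSd k hk), FGP_card hinj (hSd k' hk')] at h1
      exact h1
    have hsum : ∑ τ ∈ S.image (Wset w), β τ.card • b τ = ∑ k ∈ S, β k • b (Wset w k) := by
      rw [Finset.sum_image hWinj]
      exact Finset.sum_congr rfl fun k hk => by rw [FGP_card hinj (hSd k hk)]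
    have hβ := hb' (S.image (Wset w)) (by
      intro τ hτ
      obtain ⟨k, -, rfl⟩ := Finset.mem_image.1 hτ
      exact FGP_mem h hw k) R (hR.trans (hVm ρ hρ))
      ((Nat.add_le_add_right Finset.card_image_le _).trans hcard) (fun τ => β τ.card) γ (by
        rw [hsum]
        exact hrel)
    have hβ0 : ∀ k ∈ S, β k = 0 := by
      intro k hk
      have h1 := hβ (Wset w k) (Finset.mem_image_of_mem _ hk)
      simp only [FGP_card hinj (hSd k hk)] at h1
      exact h1
    refine ⟨hα0, hβ0, ?_⟩
    have h1 : ∑ k ∈ S, β k • b (Wset w k) = 0 :=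
      Finset.sum_eq_zero fun k hk => by rw [hβ0 k hk, zero_smul]
    rw [h1, zero_add] at hrel
    have hind := h.indep ρ hρ
    rw [Fintype.linearIndependent_iff] at hind
    have h2 : ∑ v : ρ, (if (v : U) ∈ R then γ v else 0) • p v = 0 := by
      rw [Finset.sum_coe_sort ρ (fun v => (if v ∈ R then γ v else 0) • p v)]
      rw [← hrel]
      symm
      refine Finset.sum_subset_zero_on_sdiff hR ?_ ?_
      · intro v hv
        rw [if_neg (Finset.mem_sdiff.1 hv).2, zero_smul]
      · intro v hv
        rw [if_pos hv]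
    intro v hv
    have h3 := hind _ h2 ⟨v, hR hv⟩
    simp only [hv, if_true] at h3
    exact h3
  · intro w hw t ht htd ρ hρ hc hne
    have h1 := hl w t ρ hw ht htd hρ hc hne
    refine ⟨l w t ρ, ?_, h1.2⟩
    intro k hk hkd
    have h2 := hbO w hw k
    rw [hOdef] at h2
    have h3 := h2.1
    simp only [Set.mem_iInter] at h3
    exact h3 w hw t (Finset.mem_Icc.2 ⟨ht, htd⟩) ρ hρ k (Finset.mem_Icc.2 ⟨hk, hkd⟩)
      ⟨hc, hne, rfl⟩
  · intro w hw
    have h2 := hbO w hw d
    rw [hOdef] at h2
    have h3 := h2.2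
    simp only [Set.mem_iInter] at h3
    exact h3 w hw rfl

end Pool.Agent.ChG
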