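import Pool.Agent.ChG.FVal
import Pool.Agent.ChG.FGP

/-!
# The homology of a complete simplicial fan

`fan_exact`, `r = 0`: choose `v₀` with `{v₀} ∈ cones` (`0 < d`) and put `e {v₀} = c ∅`, `e = 0`
otherwise.  `1 ≤ r < d`: put `e τ = (-1)^r * (-1)^(d (d - r + 1)) • ∑ ρ ∈ cones, ρ.card = r,
Ee (r+1) τ ρ • c ρ`.  Multiply `star_id` (`t = r`, `τ = λ`) by `c ρ` and sum over `ρ`: the last term is
(`ρ' = ρ.erase v`, `v ∈ fnb cones ρ'`, `sg lab v ρ = sg lab v ρ'`)
`± ∑ ρ' Ee r λ ρ' • fbd c ρ' = 0`; the first one is `(-1)^(d (d - r + 1)) • c λ` (`n_val`).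

`fan_top`: multiply `top_id` by `c ρ` and sum over the chambers `ρ`; the last sum vanishes, so
`∑ ρ pairN 1 (b τ) (p ∘ en ρ) • c ρ = (-1)^d * foS lab p τ • c τ` (`pairN_one`; for
`ρ ≠ τ` use `GoodPos.sep` and `epsZ_sep`) does not depend on `τ`.  `foS² = 1`.
-/

namespace Pool.Agent.ChG

open Matrix Pool.Agent.ChP Pool.Agent.ChS

variable {d : ℕ} {U : Type} [DecidableEq U] {cones : Finset (Finset U)} {p : U → Fin d → ℝ}

private theorem FExact_mem_fnb {ρ : Finset U} {v : U} :
    v ∈ fnb cones ρ ↔ v ∉ ρ ∧ insert v ρ ∈ cones := by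
  unfold fnb
  rw [Finset.mem_filter, Finset.mem_biUnion]
  constructor
  · exact fun h => h.2
  · exact fun h => ⟨⟨_, h.2, Finset.mem_insert_self v ρ⟩, h⟩

private theorem FExact_sg_erase (lab : U → ℕ) (v : U) (ρ : Finset U) :
    sg lab v (ρ.erase v) = sg lab v ρ := by
  unfold sg
  congr 2
  ext u
  rw [Finset.mem_filter, Finset.mem_filter, Finset.mem_erase]
  constructor
  · exact fun h => ⟨h.1.2, h.2⟩
  · rintro ⟨h1, h2⟩
    refine ⟨⟨?_, h1⟩, h2⟩
    rintro rfl
    exact lt_irrefl _ h2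

/-- the sum over pairs `v ∈ ρ` vanishes if `c` is a cycle -/
private theorem FExact_sum (h : IsFan cones p) (lab : U → ℕ) {A : Type} [AddCommGroup A]
    {r : ℕ} (c : Finset U → A) (hc : ∀ ρ ∈ cones, ρ.card + 1 = r → fbd cones lab c ρ = 0)
    (f : Finset U → ℤ) :
    ∑ ρ ∈ cones.filter (fun ρ => ρ.card = r), (∑ v ∈ ρ, sg lab v ρ * f (ρ.erase v)) • c ρ = 0 := by
  have h1 : ∑ ρ ∈ cones.filter (fun ρ => ρ.card = r),
      (∑ v ∈ ρ, sg lab v ρ * f (ρ.erase v)) • c ρ =
      ∑ ρ ∈ cones.filter (fun ρ => ρ.card + 1 = r), f ρ • fbd cones lab c ρ := by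
    have e1 : ∀ ρ : Finset U, (∑ v ∈ ρ, sg lab v ρ * f (ρ.erase v)) • c ρ =
        ∑ v ∈ ρ, (sg lab v ρ * f (ρ.erase v)) • c ρ := fun ρ => Finset.sum_smul
    have e2 : ∀ ρ : Finset U, f ρ • fbd cones lab c ρ =
        ∑ v ∈ fnb cones ρ, (sg lab v ρ * f ρ) • c (insert v ρ) := by
      intro ρ
      unfold fbd
      rw [Finset.smul_sum]
      refine Finset.sum_congr rfl fun v _ => ?_
      rw [smul_smul, mul_comm]
    simp only [e1, e2]
    rw [Finset.sum_sigma', Finset.sum_sigma']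
    refine Finset.sum_bij' (fun x _ => ⟨x.1.erase x.2, x.2⟩) (fun x _ => ⟨insert x.2 x.1, x.2⟩)
      ?_ ?_ ?_ ?_ ?_
    · rintro ⟨ρ, v⟩ hx
      rw [Finset.mem_sigma, Finset.mem_filter] at hx
      obtain ⟨⟨h1, h2⟩, h3⟩ := hx
      simp only at h1 h2 h3 ⊢
      rw [Finset.mem_sigma, Finset.mem_filter]
      refine ⟨⟨h.down ρ h1 _ (Finset.erase_subset v ρ), ?_⟩, ?_⟩
      · rw [Finset.card_erase_add_one h3, h2]
      · rw [FExact_mem_fnb]
        exact ⟨Finset.notMem_erase v ρ, by rw [Finset.insert_erase h3]; exact h1⟩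
    · rintro ⟨ρ, v⟩ hx
      rw [Finset.mem_sigma, Finset.mem_filter] at hx
      obtain ⟨⟨h1, h2⟩, h3⟩ := hx
      simp only at h1 h2 h3 ⊢
      rw [FExact_mem_fnb] at h3
      rw [Finset.mem_sigma, Finset.mem_filter]
      refine ⟨⟨h3.2, ?_⟩, Finset.mem_insert_self v ρ⟩
      rw [Finset.card_insert_of_notMem h3.1, h2]
    · rintro ⟨ρ, v⟩ hx
      rw [Finset.mem_sigma, Finset.mem_filter] at hx
      simp only [Finset.insert_erase hx.2]
    · rintro ⟨ρ, v⟩ hx
      rw [Finset.mem_sigma] at hx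
      have h3 := FExact_mem_fnb.1 hx.2
      simp only at h3
      simp only [Finset.erase_insert h3.1]
    · rintro ⟨ρ, v⟩ hx
      rw [Finset.mem_sigma] at hx
      simp only at hx ⊢
      rw [Finset.insert_erase hx.2, FExact_sg_erase]
  rw [h1]
  refine Finset.sum_eq_zero fun ρ hρ => ?_
  rw [Finset.mem_filter] at hρ
  rw [hc ρ hρ.1 hρ.2, smul_zero]

private theorem FExact_sq (m : ℕ) : ((-1 : ℤ) ^ m) * (-1) ^ m = 1 := by
  rw [← mul_pow, neg_one_mul, neg_neg, one_pow]

theorem fan_exact (h : IsFan cones p) (lab : U → ℕ)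
    (hlab : ∀ σ ∈ cones, Set.InjOn lab (σ : Set U)) {A : Type} [AddCommGroup A] {r : ℕ} (hr : r < d)
    (c : Finset U → A) (hc : ∀ ρ ∈ cones, ρ.card + 1 = r → fbd cones lab c ρ = 0) :
    ∃ e : Finset U → A, ∀ τ ∈ cones, τ.card = r → fbd cones lab e τ = c τ := by
  have hd : 0 < d := lt_of_le_of_lt (Nat.zero_le r) hr
  obtain ⟨σ₀, hσ₀, -, hσ₀c⟩ := h.pure ∅ (fan_empty_mem h)
  obtain ⟨v₀, hv₀⟩ : σ₀.Nonempty := by
    rw [← Finset.card_pos, hσ₀c]
    exact hd
  have hne : Nonempty U := ⟨v₀⟩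
  rcases Nat.eq_zero_or_pos r with rfl | hr0
  · refine ⟨fun τ => if τ = {v₀} then c ∅ else 0, fun τ _ hτc => ?_⟩
    have hτ0 : τ = ∅ := Finset.card_eq_zero.1 hτc
    subst hτ0
    unfold fbd
    have hmem : v₀ ∈ fnb cones (∅ : Finset U) := by
      rw [FExact_mem_fnb]
      exact ⟨Finset.notMem_empty _, h.down σ₀ hσ₀ _ (by
        intro u hu
        rw [Finset.mem_insert] at hu
        rcases hu with rfl | hu
        · exact hv₀
        · exact absurd hu (Finset.notMem_empty _))⟩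
    rw [Finset.sum_eq_single_of_mem v₀ hmem]
    · have h1 : sg lab v₀ (∅ : Finset U) = 1 := by
        unfold sg
        rw [Finset.filter_empty, Finset.card_empty, pow_zero]
      rw [h1, one_smul, insert_empty_eq]
      exact if_pos rfl
    · intro v _ hv
      rw [insert_empty_eq]
      have h2 : (fun τ : Finset U => if τ = {v₀} then c ∅ else 0) {v} = 0 :=
        if_neg fun hh => hv (Finset.singleton_injective hh)
      rw [h2, smul_zero]
  · obtain ⟨b, y, hg⟩ := exists_goodPos h hd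
    set D : ℕ := d * (d - r + 1) with hD
    refine ⟨fun τ => ((-1 : ℤ) ^ r * (-1) ^ D) • ∑ ρ ∈ cones.filter (fun ρ => ρ.card = r),
      Ee cones p lab b y (r + 1) τ ρ • c ρ, fun τ hτ hτc => ?_⟩
    have key : ∀ ρ ∈ cones.filter (fun ρ => ρ.card = r),
        ((if ρ = τ then ((-1) ^ D : ℤ) else 0) • c ρ -
          (∑ v ∈ fnb cones τ, (-1) ^ r * sg lab v τ * Ee cones p lab b y (r + 1) (insert v τ) ρ) •
            c ρ) +
          ((-1) ^ (d - r) : ℤ) •
            ((∑ v ∈ ρ, sg lab v ρ * Ee cones p lab b y r τ (ρ.erase v)) • c ρ) = 0 := by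
      intro ρ hρ
      rw [Finset.mem_filter] at hρ
      have h1 := star_id h lab hlab hg hr0 hr hτ hτc hρ.1 hρ.2
      rw [n_val h lab hlab hg hr0 hr.le hτ hτc hρ.1 hρ.2] at h1
      rw [← sub_smul, smul_smul, ← add_smul, h1, zero_smul]
    have hsum := Finset.sum_eq_zero key
    rw [Finset.sum_add_distrib, Finset.sum_sub_distrib, ← Finset.smul_sum,
      FExact_sum h lab c hc (fun ρ => Ee cones p lab b y r τ ρ), smul_zero, add_zero] at hsum
    have h2 : ∑ ρ ∈ cones.filter (fun ρ => ρ.card = r),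
        (if ρ = τ then ((-1) ^ D : ℤ) else 0) • c ρ = ((-1) ^ D : ℤ) • c τ := by
      rw [Finset.sum_eq_single_of_mem τ (by rw [Finset.mem_filter]; exact ⟨hτ, hτc⟩)]
      · rw [if_pos rfl]
      · intro ρ _ hρ
        rw [if_neg hρ, zero_smul]
    rw [h2] at hsum
    have h3 : ∑ ρ ∈ cones.filter (fun ρ => ρ.card = r),
        (∑ v ∈ fnb cones τ, (-1) ^ r * sg lab v τ * Ee cones p lab b y (r + 1) (insert v τ) ρ) •
          c ρ = ((-1) ^ D : ℤ) • fbd cones lab (fun τ => ((-1 : ℤ) ^ r * (-1) ^ D) •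
            ∑ ρ ∈ cones.filter (fun ρ => ρ.card = r),
              Ee cones p lab b y (r + 1) τ ρ • c ρ) τ := by
      unfold fbd
      rw [Finset.smul_sum]
      simp only [Finset.sum_smul]
      rw [Finset.sum_comm]
      refine Finset.sum_congr rfl fun v _ => ?_
      simp only [Finset.smul_sum, smul_smul]
      refine Finset.sum_congr rfl fun ρ _ => ?_
      congr 1
      have hs := FExact_sq D
      calc (-1) ^ r * sg lab v τ * Ee cones p lab b y (r + 1) (insert v τ) ρ
          = ((-1) ^ D * (-1) ^ D) *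
            ((-1) ^ r * sg lab v τ * Ee cones p lab b y (r + 1) (insert v τ) ρ) := by
            rw [hs, one_mul]
        _ = _ := by ring
    rw [h3, ← smul_sub] at hsum
    have h4 : ((-1) ^ D : ℤ) • ((-1) ^ D : ℤ) • (c τ - fbd cones lab
        (fun τ => ((-1 : ℤ) ^ r * (-1) ^ D) •
            ∑ ρ ∈ cones.filter (fun ρ => ρ.card = r),
              Ee cones p lab b y (r + 1) τ ρ • c ρ) τ) = 0 := by
      rw [hsum, smul_zero]
    rw [smul_smul, FExact_sq, one_smul, sub_eq_zero] at h4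
    exact h4.symm

private theorem FExact_fts [Nonempty U] (lab : U → ℕ) {τ : Finset U}
    (hτ : τ ∈ cones) (hinj : Set.InjOn lab (τ : Set U)) (hc : τ.card = d) :
    (fun i : Fin d => en lab τ i) ∈ fts d cones ∧
      Finset.univ.image (fun i : Fin d => en lab τ i) = τ := by
  have him : Finset.univ.image (fun i : Fin d => en lab τ i) = τ := by
    ext v
    rw [Finset.mem_image]
    constructor
    · rintro ⟨i, -, rfl⟩
      exact en_mem hinj (by rw [hc]; exact i.2)
    · intro hv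
      obtain ⟨i, hi, rfl⟩ := en_surj hinj hv
      exact ⟨⟨i, hc ▸ hi⟩, Finset.mem_univ _, rfl⟩
  refine ⟨mem_fts.2 ⟨?_, by rw [him]; exact hτ⟩, him⟩
  intro i j hij
  simp only at hij
  rcases lt_trichotomy (i : ℕ) j with hlt | heq | hlt
  · have := en_lt hinj hlt (by rw [hc]; exact j.2)
    rw [hij] at this
    exact absurd this (lt_irrefl _)
  · exact Fin.ext heq
  · have := en_lt hinj hlt (by rw [hc]; exact i.2)
    rw [hij] at this
    exact absurd this (lt_irrefl _)

private theorem FExact_Wset {w : Fin d → U} : Wset w d = Finset.univ.image w := by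
  unfold Wset
  rw [Finset.filter_true_of_mem]
  intro i _
  exact i.2

theorem fan_top [Nonempty U] (h : IsFan cones p) (lab : U → ℕ)
    (hlab : ∀ σ ∈ cones, Set.InjOn lab (σ : Set U)) {A : Type} [AddCommGroup A]
    (c : Finset U → A) (hc : ∀ ρ ∈ cones, ρ.card + 1 = d → fbd cones lab c ρ = 0) :
    ∃ a : A, ∀ σ ∈ cones, σ.card = d → c σ = foS lab p σ • a := by
  rcases Nat.eq_zero_or_pos d with hd | hd
  · subst hd
    refine ⟨c ∅, fun σ _ hσc => ?_⟩
    have hσ0 : σ = ∅ := Finset.card_eq_zero.1 hσc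
    subst hσ0
    have h1 : foS lab p (∅ : Finset U) = 1 := by
      unfold foS foZ
      rw [Matrix.det_isEmpty, sign_one]
      rfl
    rw [h1, one_smul]
  · obtain ⟨b, y, hg⟩ := exists_goodPos h hd
    refine ⟨((-1) ^ d : ℤ) • ∑ ρ ∈ cones.filter (fun ρ => ρ.card = d),
      pairN 1 (fun _ => y) (fun i => p (en lab ρ i)) • c ρ, fun τ hτ hτc => ?_⟩
    obtain ⟨hw, hwi⟩ := FExact_fts lab hτ (hlab τ hτ) hτc
    have key : ∀ ρ ∈ cones.filter (fun ρ => ρ.card = d),
        (pairN 1 (fun _ => b τ) (fun i => p (en lab ρ i)) • c ρ -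
          pairN 1 (fun _ => y) (fun i => p (en lab ρ i)) • c ρ) +
          (∑ v ∈ ρ, sg lab v ρ * pairN 2 (fun i => if i = 0 then y else b τ)
            (fun i => p (en lab (ρ.erase v) i))) • c ρ = 0 := by
      intro ρ hρ
      rw [Finset.mem_filter] at hρ
      have h1 := top_id h lab hlab hg hτ hτc hρ.1 hρ.2 hd
      rw [← sub_smul, ← add_smul, h1, zero_smul]
    have hsum := Finset.sum_eq_zero key
    rw [Finset.sum_add_distrib, Finset.sum_sub_distrib,
      FExact_sum h lab c hc (fun ρ => pairN 2 (fun i => if i = 0 then y else b τ)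
        (fun i => p (en lab ρ i))), add_zero] at hsum
    have h2 : ∑ ρ ∈ cones.filter (fun ρ => ρ.card = d),
        pairN 1 (fun _ => b τ) (fun i => p (en lab ρ i)) • c ρ =
          ((-1) ^ d * foS lab p τ) • c τ := by
      rw [Finset.sum_eq_single_of_mem τ (by rw [Finset.mem_filter]; exact ⟨hτ, hτc⟩)]
      · have hb : b τ ∈ ocone p (fun i : Fin d => en lab τ i) := by
          have := hg.top _ hw
          rw [FExact_Wset, hwi] at this
          exact this
        rw [pairN_one h hw (b τ) hb _ (fun i => rfl)]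
        rfl
      · intro ρ hρ hne
        rw [Finset.mem_filter] at hρ
        obtain ⟨l, hl1, hl2⟩ := hg.sep _ hw d hd le_rfl ρ hρ.1 hρ.2 (by
          rw [FExact_Wset, hwi]
          exact hne)
        have hl3 := hl1 d le_rfl le_rfl
        rw [FExact_Wset, hwi] at hl3
        have h3 : pairN 1 (fun _ => b τ) (fun i => p (en lab ρ i)) = 0 := by
          unfold pairN
          refine epsZ_sep _ l fun i => ?_
          split_ifs with hi
          · exact hl3
          · rw [map_neg, neg_pos]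
            refine hl2 _ (en_mem (hlab ρ hρ.1) ?_)
            rw [hρ.2]
            have := i.2
            omega
        rw [h3, zero_smul]
    rw [h2, sub_eq_zero] at hsum
    rw [← hsum, smul_smul, smul_smul]
    have h4 : foS lab p τ * ((-1) ^ d * ((-1) ^ d * foS lab p τ)) = 1 := by
      have h5 : foS lab p τ * foS lab p τ = 1 := foZ_mul_self h hw
      have h6 := FExact_sq d
      calc foS lab p τ * ((-1) ^ d * ((-1) ^ d * foS lab p τ))
          = (((-1) ^ d) * (-1) ^ d) * (foS lab p τ * foS lab p τ) := by ring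
        _ = 1 := by rw [h5, h6, one_mul]
    rw [mul_assoc, h4, one_smul]

end Pool.Agent.ChG
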