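import Pool.Agent.ChG.FEps

/-!
# Sums over flags

`flag_cancel`: for `t < k < d` the involution swapping `w (k-1)` and `w k` (`fts_swap`) preserves the
first `t` entries and all `Wset w j` with `j ≤ d`, `j ≠ k` and changes the sign of `foZ` (`foZ_cast`); for `k = d` use
the involution `exists_flip` for the last index `d - 1 ≥ t`.

`head_split`: group the ordered chambers by `v = w t` (`v ∈ fnb cones τ`, `card = t`).  If `w` begins
with `en lab τ, v` and `pos` is the number of the elements of `τ` with smaller label than `v` then moving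
`v` to the position `pos` (a cycle of length `t - pos + 1`, sign `(-1)^(t - pos)`) gives a bijection with
the ordered chambers beginning with `en lab (insert v τ)`, which preserves the `Wset w j`, `j ≥ t + 1`,
and multiplies `foZ` by `(-1)^(t - pos) = (-1)^t * sg lab v τ`.
-/

set_option linter.all false

namespace Pool.Agent.ChG

open Matrix Pool.Agent.ChP Pool.Agent.ChS

variable {d : ℕ} {U : Type} [DecidableEq U] {cones : Finset (Finset U)} {p : U → Fin d → ℝ}

/-! ### Enumerations -/

private theorem FFlag_en_inj [Nonempty U] {lab : U → ℕ} {τ : Finset U}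
    (hτ : Set.InjOn lab (τ : Set U)) {i j : ℕ} (hi : i < τ.card) (hj : j < τ.card)
    (h : en lab τ i = en lab τ j) : i = j := by
  rcases lt_trichotomy i j with h1 | h1 | h1
  · have := en_lt hτ h1 hj
    rw [h] at this
    exact absurd this (lt_irrefl _)
  · exact h1
  · have := en_lt hτ h1 hi
    rw [h] at this
    exact absurd this (lt_irrefl _)

private theorem FFlag_rank {lab : U → ℕ} {τ : Finset U}
    (e : ℕ → U) (h1 : ∀ i < τ.card, e i ∈ τ)
    (h2 : ∀ i j, i < j → j < τ.card → lab (e i) < lab (e j)) {i : ℕ} (hi : i < τ.card) :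
    (τ.filter fun u => lab u < lab (e i)).card = i := by
  have hinj : Set.InjOn e ((Finset.range τ.card : Finset ℕ) : Set ℕ) := by
    intro a ha b hb hab
    rw [Finset.coe_range, Set.mem_Iio] at ha hb
    rcases lt_trichotomy a b with h | h | h
    · have := h2 a b h hb
      rw [hab] at this
      exact absurd this (lt_irrefl _)
    · exact h
    · have := h2 b a h ha
      rw [hab] at this
      exact absurd this (lt_irrefl _)
  have him : (Finset.range τ.card).image e = τ := by
    apply Finset.eq_of_subset_of_card_le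
    · intro v hv
      obtain ⟨a, ha, rfl⟩ := Finset.mem_image.1 hv
      exact h1 a (Finset.mem_range.1 ha)
    · rw [Finset.card_image_of_injOn hinj, Finset.card_range]
  have hf : (τ.filter fun u => lab u < lab (e i)) = (Finset.range i).image e := by
    ext u
    rw [Finset.mem_filter, Finset.mem_image]
    constructor
    · rintro ⟨hu, hlt⟩
      rw [← him] at hu
      obtain ⟨a, ha, rfl⟩ := Finset.mem_image.1 hu
      rw [Finset.mem_range] at ha
      refine ⟨a, ?_, rfl⟩
      rw [Finset.mem_range]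
      rcases lt_trichotomy a i with h | h | h
      · exact h
      · rw [h] at hlt
        exact absurd hlt (lt_irrefl _)
      · exact absurd (hlt.trans (h2 i a h ha)) (lt_irrefl _)
    · rintro ⟨a, ha, rfl⟩
      rw [Finset.mem_range] at ha
      exact ⟨h1 a (ha.trans hi), h2 a i ha hi⟩
  rw [hf, Finset.card_image_of_injOn, Finset.card_range]
  refine hinj.mono ?_
  rw [Finset.coe_range, Finset.coe_range]
  exact Set.Iio_subset_Iio hi.le

omit [DecidableEq U] in
private theorem FFlag_rank_inj {lab : U → ℕ} {τ : Finset U} (hτ : Set.InjOn lab (τ : Set U))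
    {u v : U} (hu : u ∈ τ) (hv : v ∈ τ)
    (h : (τ.filter fun x => lab x < lab u).card = (τ.filter fun x => lab x < lab v).card) :
    u = v := by
  have key : ∀ a b : U, a ∈ τ → b ∈ τ → lab a < lab b →
      (τ.filter fun x => lab x < lab a).card < (τ.filter fun x => lab x < lab b).card := by
    intro a b ha hb hab
    apply Finset.card_lt_card
    rw [Finset.ssubset_iff_of_subset]
    · refine ⟨a, Finset.mem_filter.2 ⟨ha, hab⟩, ?_⟩
      rw [Finset.mem_filter]
      rintro ⟨-, h⟩
      exact lt_irrefl _ h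
    · intro x hx
      rw [Finset.mem_filter] at hx ⊢
      exact ⟨hx.1, hx.2.trans hab⟩
  rcases lt_trichotomy (lab u) (lab v) with h1 | h1 | h1
  · exact absurd h (key u v hu hv h1).ne
  · exact hτ hu hv h1
  · exact absurd h (key v u hv hu h1).ne'

private theorem FFlag_unique [Nonempty U] {lab : U → ℕ} {τ : Finset U}
    (hτ : Set.InjOn lab (τ : Set U)) (e : ℕ → U) (h1 : ∀ i < τ.card, e i ∈ τ)
    (h2 : ∀ i j, i < j → j < τ.card → lab (e i) < lab (e j)) {i : ℕ} (hi : i < τ.card) :
    en lab τ i = e i := by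
  refine FFlag_rank_inj hτ (en_mem hτ hi) (h1 i hi) ?_
  rw [FFlag_rank e h1 h2 hi, FFlag_rank (en lab τ) (fun i hi => en_mem hτ hi)
    (fun i j hij hj => en_lt hτ hij hj) hi]

/-! ### Signs -/

private theorem FFlag_foZ_neg {w w' : Fin d → U} (h : fo p w' = -fo p w) :
    foZ p w' = -foZ p w := by
  rw [← foZ_cast, ← foZ_cast] at h
  exact_mod_cast h

omit [DecidableEq U] in
private theorem FFlag_foZ_perm (σ : Equiv.Perm (Fin d)) (w : Fin d → U) :
    foZ p (fun j => w (σ j)) = (Equiv.Perm.sign σ : ℤ) * foZ p w := by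
  unfold foZ
  have h3 : (Matrix.of fun a => p (w (σ a))) = (Matrix.of fun a => p (w a)).submatrix σ id := by
    ext a b
    rfl
  rw [h3, Matrix.det_permute]
  rcases Int.units_eq_one_or (Equiv.Perm.sign σ) with h | h
  · rw [h]
    simp
  · rw [h]
    simp only [Units.val_neg, Units.val_one, Int.cast_neg, Int.cast_one, neg_mul, one_mul,
      Left.sign_neg, SignType.coe_neg]

private theorem FFlag_perm_mem {w : Fin d → U} (hw : w ∈ fts d cones) (σ : Equiv.Perm (Fin d)) :
    (fun j => w (σ j)) ∈ fts d cones := by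
  obtain ⟨h1, h2⟩ := mem_fts.1 hw
  refine mem_fts.2 ⟨h1.comp σ.injective, ?_⟩
  have h3 : Finset.univ.image (fun j => w (σ j)) = Finset.univ.image w := by
    ext v
    rw [Finset.mem_image, Finset.mem_image]
    constructor
    · rintro ⟨j, -, rfl⟩
      exact ⟨σ j, Finset.mem_univ _, rfl⟩
    · rintro ⟨j, -, rfl⟩
      exact ⟨σ.symm j, Finset.mem_univ _, by rw [Equiv.apply_symm_apply]⟩
  rw [h3]
  exact h2

private theorem FFlag_Wset_perm {w : Fin d → U} {k : ℕ} (σ : Equiv.Perm (Fin d))
    (hσ : ∀ i : Fin d, (i : ℕ) < k ↔ ((σ i : Fin d) : ℕ) < k) :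
    Wset (fun j => w (σ j)) k = Wset w k := by
  unfold Wset
  ext v
  rw [Finset.mem_image, Finset.mem_image]
  constructor
  · rintro ⟨i, hi, rfl⟩
    rw [Finset.mem_filter] at hi
    exact ⟨σ i, Finset.mem_filter.2 ⟨Finset.mem_univ _, (hσ i).1 hi.2⟩, rfl⟩
  · rintro ⟨i, hi, rfl⟩
    rw [Finset.mem_filter] at hi
    refine ⟨σ.symm i, Finset.mem_filter.2 ⟨Finset.mem_univ _, (hσ _).2 ?_⟩, ?_⟩
    · rw [Equiv.apply_symm_apply]
      exact hi.2
    · rw [Equiv.apply_symm_apply]

private theorem FFlag_Wset_congr {w w' : Fin d → U} {k : ℕ}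
    (h : ∀ i : Fin d, (i : ℕ) < k → w i = w' i) : Wset w k = Wset w' k := by
  unfold Wset
  apply Finset.image_congr
  intro i hi
  rw [Finset.mem_coe, Finset.mem_filter] at hi
  exact h i hi.2

theorem flag_cancel (h : IsFan cones p) {t k : ℕ} (htk : t < k) (hkd : k ≤ d) (e : ℕ → U)
    (ψ : (Fin d → U) → ℤ)
    (hψ : ∀ w ∈ fts d cones, ∀ w' ∈ fts d cones,
      (∀ j, j ≤ d → j ≠ k → Wset w j = Wset w' j) → ψ w = ψ w') :
    ∑ w ∈ ftsH cones t e, foZ p w * ψ w = 0 := by
  suffices hG : ∃ G : (Fin d → U) → (Fin d → U), ∀ w ∈ fts d cones, G w ∈ fts d cones ∧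
      G (G w) = w ∧ (∀ i : Fin d, (i : ℕ) < t → G w i = w i) ∧ foZ p (G w) = -foZ p w ∧
      ∀ j, j ≤ d → j ≠ k → Wset (G w) j = Wset w j by
    obtain ⟨G, hG⟩ := hG
    have hval : ∀ w ∈ fts d cones, foZ p w * ψ w + foZ p (G w) * ψ (G w) = 0 := by
      intro w hw
      obtain ⟨g1, g2, g3, g4, g5⟩ := hG w hw
      rw [g4, hψ _ g1 w hw g5]
      ring
    refine Finset.sum_involution (fun w _ => G w) ?_ ?_ ?_ ?_
    · intro w hw
      exact hval w (Finset.mem_filter.1 hw).1
    · intro w hw hne heq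
      have := hval w (Finset.mem_filter.1 hw).1
      rw [heq] at this
      omega
    · intro w hw
      obtain ⟨hw1, hw2⟩ := Finset.mem_filter.1 hw
      obtain ⟨g1, g2, g3, g4, g5⟩ := hG w hw1
      refine Finset.mem_filter.2 ⟨g1, fun i hi => ?_⟩
      rw [g3 i hi, hw2 i hi]
    · intro w hw
      exact (hG w (Finset.mem_filter.1 hw).1).2.1
  rcases Nat.lt_or_ge k d with hk | hk
  · let i0 : Fin d := ⟨k - 1, by omega⟩
    let i1 : Fin d := ⟨k, hk⟩
    have h01 : i0 ≠ i1 := by
      intro hh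
      have := congrArg Fin.val hh
      simp only [i0, i1] at this
      omega
    refine ⟨fun w => fun j => w (Equiv.swap i0 i1 j), fun w hw => ?_⟩
    obtain ⟨s1, s2⟩ := fts_swap (p := p) hw h01
    refine ⟨s1, ?_, ?_, FFlag_foZ_neg s2, ?_⟩
    · funext j
      show w (Equiv.swap i0 i1 (Equiv.swap i0 i1 j)) = w j
      rw [Equiv.swap_apply_self]
    · intro i hi
      show w (Equiv.swap i0 i1 i) = w i
      rw [Equiv.swap_apply_of_ne_of_ne]
      · intro hh
        rw [hh] at hi
        simp only [i0] at hi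
        omega
      · intro hh
        rw [hh] at hi
        simp only [i1] at hi
        omega
    · intro j hj hjk
      refine FFlag_Wset_perm _ fun i => ?_
      by_cases hi0 : i = i0
      · rw [hi0, Equiv.swap_apply_left]
        simp only [i0, i1]
        omega
      · by_cases hi1 : i = i1
        · rw [hi1, Equiv.swap_apply_right]
          simp only [i0, i1]
          omega
        · rw [Equiv.swap_apply_of_ne_of_ne hi0 hi1]
  · have hkd' : k = d := le_antisymm hkd hk
    obtain ⟨F, hF⟩ := exists_flip h (⟨d - 1, by omega⟩ : Fin d)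
    refine ⟨F, fun w hw => ?_⟩
    obtain ⟨f1, f2, f3, f4, f5, f6, f7⟩ := hF w hw
    refine ⟨f1, f2, ?_, FFlag_foZ_neg f5, ?_⟩
    · intro i hi
      refine f4 i ?_
      intro hh
      rw [hh] at hi
      simp only at hi
      omega
    · intro j hj hjk
      refine FFlag_Wset_congr fun i hi => f4 i ?_
      intro hh
      rw [hh] at hi
      simp only at hi
      omega

/-- the first `t` vertices of a chamber beginning with `en lab τ` -/
private theorem FFlag_wset_head [Nonempty U] (lab : U → ℕ) {t : ℕ} {τ : Finset U}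
    (hτ : Set.InjOn lab (τ : Set U)) (hc : τ.card = t) (htd : t ≤ d) {w : Fin d → U}
    (hw : w ∈ ftsH cones t (en lab τ)) : Wset w t = τ := by
  obtain ⟨-, hw2⟩ := Finset.mem_filter.1 hw
  unfold Wset
  ext v
  rw [Finset.mem_image]
  constructor
  · rintro ⟨i, hi, rfl⟩
    rw [Finset.mem_filter] at hi
    rw [hw2 i hi.2]
    exact en_mem hτ (by rw [hc]; exact hi.2)
  · intro hv
    obtain ⟨i, hi, rfl⟩ := en_surj hτ hv
    rw [hc] at hi
    refine ⟨⟨i, by omega⟩, Finset.mem_filter.2 ⟨Finset.mem_univ _, hi⟩, ?_⟩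
    exact hw2 ⟨i, by omega⟩ hi

/-- removing an element of `ρ` removes the corresponding entry of the enumeration -/
private theorem FFlag_en_erase [Nonempty U] (lab : U → ℕ) {ρ : Finset U}
    (hρ : Set.InjOn lab (ρ : Set U)) {j : ℕ} (hj : j < ρ.card) :
    (∀ i, i + 1 < ρ.card → en lab (ρ.erase (en lab ρ j)) i = rm (en lab ρ) j i) ∧
      sg lab (en lab ρ j) ρ = (-1) ^ j := by
  have hmem := en_mem hρ hj
  have hcard : (ρ.erase (en lab ρ j)).card = ρ.card - 1 := Finset.card_erase_of_mem hmem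
  have hinj : Set.InjOn lab ((ρ.erase (en lab ρ j) : Finset U) : Set U) := by
    refine hρ.mono ?_
    intro x hx
    exact Finset.mem_coe.2 (Finset.mem_of_mem_erase (Finset.mem_coe.1 hx))
  constructor
  · intro i hi
    refine FFlag_unique hinj _ ?_ ?_ (by rw [hcard]; omega)
    · intro a ha
      rw [hcard] at ha
      unfold rm
      split_ifs with haj
      · refine Finset.mem_erase.2 ⟨?_, en_mem hρ (by omega)⟩
        intro hh
        have h9 : a = j := FFlag_en_inj hρ (by omega) hj hh
        omega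
      · refine Finset.mem_erase.2 ⟨?_, en_mem hρ (by omega)⟩
        intro hh
        have h9 : a + 1 = j := FFlag_en_inj hρ (by omega) hj hh
        omega
    · intro a b hab hb
      rw [hcard] at hb
      unfold rm
      split_ifs with h1 h2 h2
      · exact en_lt hρ hab (by omega)
      · exact en_lt hρ (by omega) (by omega)
      · omega
      · exact en_lt hρ (by omega) (by omega)
  · unfold sg
    rw [FFlag_rank (en lab ρ) (fun i hi => en_mem hρ hi) (fun i j hij hj => en_lt hρ hij hj) hj]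

private theorem FFlag_sg_insert (lab : U → ℕ) (v : U) (τ : Finset U) :
    sg lab v (insert v τ) = sg lab v τ := by
  unfold sg
  congr 2
  ext u
  rw [Finset.mem_filter, Finset.mem_filter, Finset.mem_insert]
  constructor
  · rintro ⟨h1 | h1, h2⟩
    · rw [h1] at h2
      exact absurd h2 (lt_irrefl _)
    · exact ⟨h1, h2⟩
  · rintro ⟨h1, h2⟩
    exact ⟨Or.inr h1, h2⟩

private theorem FFlag_cyc_lt {j t i : Fin d} (hi : i < j) : Fin.cycleIcc j t i = i :=
  Fin.cycleIcc_of_lt hi

private theorem FFlag_cyc_gt {j t i : Fin d} (hi : t < i) : Fin.cycleIcc j t i = i :=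
  Fin.cycleIcc_of_gt hi

private theorem FFlag_cyc_mid {j t i : Fin d} (h1 : j ≤ i) (h2 : i < t) :
    ((Fin.cycleIcc j t i : Fin d) : ℕ) = i + 1 := by
  have : NeZero d := ⟨by have := i.2; omega⟩
  rw [Fin.cycleIcc_of_ge_of_lt h1 h2]
  have h3 : (i : ℕ) < t := h2
  rw [Fin.val_add_one_of_lt' (by have := t.2; omega)]

private theorem FFlag_cyc_last {j t : Fin d} (h1 : j ≤ t) : Fin.cycleIcc j t t = j := by
  have : NeZero d := ⟨by have := j.2; omega⟩
  exact Fin.cycleIcc_of_last h1

private theorem FFlag_cyc_bound {j t : Fin d} (h1 : j ≤ t) {k : ℕ} (hk : (t : ℕ) < k) (i : Fin d) :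
    (i : ℕ) < k ↔ ((Fin.cycleIcc j t i : Fin d) : ℕ) < k := by
  rcases lt_or_ge i j with h | h
  · rw [FFlag_cyc_lt h]
  · rcases lt_trichotomy i t with h2 | h2 | h2
    · rw [FFlag_cyc_mid h h2]
      have : (i : ℕ) < t := h2
      omega
    · rw [h2, FFlag_cyc_last h1]
      have : (j : ℕ) ≤ t := h1
      omega
    · rw [FFlag_cyc_gt h2]

theorem head_split [Nonempty U] (h : IsFan cones p) (lab : U → ℕ)
    (hlab : ∀ σ ∈ cones, Set.InjOn lab (σ : Set U)) {t : ℕ} (ht : t < d) {τ : Finset U}
    (hτ : τ ∈ cones) (hc : τ.card = t) (ψ : (Fin d → U) → ℤ)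
    (hψ : ∀ w ∈ fts d cones, ∀ w' ∈ fts d cones, (∀ j, t < j → Wset w j = Wset w' j) →
      ψ w = ψ w') :
    ∑ w ∈ ftsH cones t (en lab τ), foZ p w * ψ w =
      ∑ v ∈ fnb cones τ, (-1) ^ t * sg lab v τ *
        ∑ w ∈ ftsH cones (t + 1) (en lab (insert v τ)), foZ p w * ψ w := by
  have hτi := hlab τ hτ
  let tt : Fin d := ⟨t, ht⟩
  have hmaps : ∀ w ∈ ftsH cones t (en lab τ), w tt ∈ fnb cones τ := by
    intro w hw
    have hW := FFlag_wset_head lab hτi hc ht.le hw
    obtain ⟨hw1, hw2⟩ := Finset.mem_filter.1 hw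
    obtain ⟨hwi, hwc⟩ := mem_fts.1 hw1
    have hsub : insert (w tt) τ ⊆ Finset.univ.image w := by
      intro v hv
      rw [Finset.mem_insert] at hv
      rcases hv with rfl | hv
      · exact Finset.mem_image_of_mem w (Finset.mem_univ _)
      · rw [← hW] at hv
        obtain ⟨i, -, rfl⟩ := Finset.mem_image.1 hv
        exact Finset.mem_image_of_mem w (Finset.mem_univ _)
    refine Finset.mem_filter.2 ⟨?_, ?_, h.down _ hwc _ hsub⟩
    · rw [Finset.mem_biUnion]
      exact ⟨_, hwc, Finset.mem_image_of_mem w (Finset.mem_univ _)⟩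
    · intro hmem
      rw [← hW] at hmem
      obtain ⟨i, hi, hh⟩ := Finset.mem_image.1 hmem
      rw [Finset.mem_filter] at hi
      have := hwi hh
      rw [this] at hi
      exact absurd hi.2 (lt_irrefl _)
  rw [← Finset.sum_fiberwise_of_maps_to hmaps]
  refine Finset.sum_congr rfl fun v hv => ?_
  obtain ⟨-, hvτ, hvc⟩ := Finset.mem_filter.1 hv
  have hρi := hlab _ hvc
  have hρc : (insert v τ).card = t + 1 := by
    rw [Finset.card_insert_of_notMem hvτ, hc]
  obtain ⟨j, hj, hjv⟩ := en_surj hρi (Finset.mem_insert_self v τ)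
  obtain ⟨he1, he2⟩ := FFlag_en_erase lab hρi hj
  rw [hjv, Finset.erase_insert hvτ] at he1
  rw [hjv, FFlag_sg_insert] at he2
  rw [hρc] at hj he1
  have hjt : j ≤ t := by omega
  let jj : Fin d := ⟨j, by omega⟩
  have hjj : jj ≤ tt := hjt
  have hsign : ((Equiv.Perm.sign (Fin.cycleIcc jj tt) : ℤˣ) : ℤ) = (-1) ^ t * (-1) ^ j := by
    rw [Fin.sign_cycleIcc_of_le hjj]
    push_cast
    show (-1 : ℤ) ^ (t - j) = _
    obtain ⟨r, rfl⟩ := Nat.exists_eq_add_of_le hjt
    rw [Nat.add_sub_cancel_left, pow_add, mul_right_comm, ← pow_add, ← two_mul, pow_mul]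
    norm_num
  rw [he2, Finset.mul_sum]
  symm
  refine Finset.sum_bij' (fun w _ => fun i => w (Fin.cycleIcc jj tt i))
    (fun w _ => fun i => w ((Fin.cycleIcc jj tt).symm i)) ?_ ?_ ?_ ?_ ?_
  · intro w hw
    obtain ⟨hw1, hw2⟩ := Finset.mem_filter.1 hw
    refine Finset.mem_filter.2 ⟨Finset.mem_filter.2 ⟨FFlag_perm_mem hw1 _, ?_⟩, ?_⟩
    · intro i hi
      show w (Fin.cycleIcc jj tt i) = en lab τ i
      rw [he1 i (by omega)]
      unfold rm
      split_ifs with hij
      · rw [FFlag_cyc_lt (show i < jj from hij)]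
        exact hw2 i (by omega)
      · have h5 : ((Fin.cycleIcc jj tt i : Fin d) : ℕ) = i + 1 :=
          FFlag_cyc_mid (show jj ≤ i from not_lt.1 hij) (show i < tt from hi)
        rw [hw2 _ (by rw [h5]; omega), h5]
    · show w (Fin.cycleIcc jj tt tt) = v
      rw [FFlag_cyc_last hjj, hw2 jj (show j < t + 1 by omega)]
      exact hjv
  · intro w hw
    obtain ⟨hw0, hwv⟩ := Finset.mem_filter.1 hw
    obtain ⟨hw1, hw2⟩ := Finset.mem_filter.1 hw0
    refine Finset.mem_filter.2 ⟨FFlag_perm_mem hw1 _, ?_⟩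
    have key : ∀ i : Fin d, (i : ℕ) < t + 1 →
        w i = en lab (insert v τ) (Fin.cycleIcc jj tt i : Fin d) := by
      intro i hi
      rcases lt_or_ge i jj with h1 | h1
      · have h1' : (i : ℕ) < j := h1
        rw [FFlag_cyc_lt h1, hw2 i (by omega), he1 i (by omega)]
        unfold rm
        rw [if_pos h1']
      · have h1' : j ≤ (i : ℕ) := h1
        rcases lt_or_ge i tt with h2 | h2
        · have h2' : (i : ℕ) < t := h2
          rw [FFlag_cyc_mid h1 h2, hw2 i h2', he1 i (by omega)]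
          unfold rm
          rw [if_neg (not_lt.2 h1')]
        · have h2' : t ≤ (i : ℕ) := h2
          have h3 : i = tt := Fin.ext (by show (i : ℕ) = t; omega)
          rw [h3, FFlag_cyc_last hjj, hwv]
          exact hjv.symm
    intro i hi
    show w ((Fin.cycleIcc jj tt).symm i) = _
    have h4 := FFlag_cyc_bound hjj (k := t + 1) (Nat.lt_succ_self t)
      ((Fin.cycleIcc jj tt).symm i)
    rw [Equiv.apply_symm_apply] at h4
    rw [key _ (h4.2 hi), Equiv.apply_symm_apply]
  · intro w _
    funext i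
    simp only [Equiv.apply_symm_apply]
  · intro w _
    funext i
    simp only [Equiv.symm_apply_apply]
  · intro w hw
    obtain ⟨hw1, hw2⟩ := Finset.mem_filter.1 hw
    have h5 : ψ (fun i => w (Fin.cycleIcc jj tt i)) = ψ w := by
      refine hψ _ (FFlag_perm_mem hw1 _) w hw1 fun k hk => ?_
      exact FFlag_Wset_perm _ (FFlag_cyc_bound hjj hk)
    rw [FFlag_foZ_perm, hsign, h5]
    ring

/-- the first `t` vertices of a chamber beginning with `en lab τ` -/
theorem wset_head [Nonempty U] (lab : U → ℕ) {t : ℕ} {τ : Finset U}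
    (hτ : Set.InjOn lab (τ : Set U)) (hc : τ.card = t) (htd : t ≤ d) {w : Fin d → U}
    (hw : w ∈ ftsH cones t (en lab τ)) : Wset w t = τ :=
  FFlag_wset_head lab hτ hc htd hw

/-- removing an element of `ρ` removes the corresponding entry of the enumeration -/
theorem en_erase [Nonempty U] (lab : U → ℕ) {ρ : Finset U} (hρ : Set.InjOn lab (ρ : Set U)) {j : ℕ}
    (hj : j < ρ.card) :
    (∀ i, i + 1 < ρ.card → en lab (ρ.erase (en lab ρ j)) i = rm (en lab ρ) j i) ∧
      sg lab (en lab ρ j) ρ = (-1) ^ j :=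
  FFlag_en_erase lab hρ hj

theorem sum_en [Nonempty U] (lab : U → ℕ) {ρ : Finset U} (hρ : Set.InjOn lab (ρ : Set U))
    (f : U → ℤ) : ∑ v ∈ ρ, f v = ∑ j ∈ Finset.range ρ.card, f (en lab ρ j) := by
  symm
  refine Finset.sum_bij (fun j _ => en lab ρ j) ?_ ?_ ?_ ?_
  · intro j hj
    exact en_mem hρ (Finset.mem_range.1 hj)
  · intro i hi j hj hij
    exact FFlag_en_inj hρ (Finset.mem_range.1 hi) (Finset.mem_range.1 hj) hij
  · intro v hv
    obtain ⟨i, hi, rfl⟩ := en_surj hρ hv
    exact ⟨i, Finset.mem_range.2 hi, rfl⟩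
  · intro j _
    rfl

end Pool.Agent.ChG
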