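import Pool.Agent.ChG.FDefs

/-!
# Separation of the dual cells at the barycentres

Let `β_k = ∑ v ∈ Wset w k, p v`.  It suffices (Gordan's theorem: separate `0` from the convex hull of
the finite set of the `β_k`, `t ≤ k ≤ d`, and the `-p v`, `v ∈ ρ`, `geometric_hahn_banach_*`; the convex
hull of a finite set is compact) that `0` is not in this convex hull.  Suppose
`∑ a_k β_k = ∑ v ∈ ρ, c_v p v` with `a, c ≥ 0`, `∑ a + ∑ c = 1`.  If all `a_k = 0` then `∑ c_v p v = 0` and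
`c = 0` by `IsFan.indep`, a contradiction.  So `A = ∑ a_k > 0`; the left side is
`∑ v ∈ Wset w d, e_v p v` with `e_v = ∑ {k : v ∈ Wset w k} a_k`, `e_v = A > 0` for
`v ∈ Wset w t`.  Let `τ` be the set of the `v ∈ Wset w d` with `e_v > 0` and `ρ'` the set of the `v ∈ ρ` with
`c_v > 0`.  By the uniqueness in `IsFan.cover` `τ = ρ'`.  So `Wset w t ⊆ τ = ρ' ⊆ ρ`, and
`ρ = Wset w t` as both have `t` elements, a contradiction.  (`Wset w d = univ.image w ∈ cones`,
`Wset w t` has `t` elements as `w` is injective.)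
-/

namespace Pool.Agent.ChG

open Matrix Pool.Agent.ChP Pool.Agent.ChS

variable {d : ℕ} {U : Type} [DecidableEq U] {cones : Finset (Finset U)} {p : U → Fin d → ℝ}

private theorem FSep_mono (w : Fin d → U) {k l : ℕ} (h : k ≤ l) : Wset w k ⊆ Wset w l := by
  unfold Wset
  refine Finset.image_subset_image ?_
  intro i hi
  rw [Finset.mem_filter] at hi ⊢
  exact ⟨hi.1, lt_of_lt_of_le hi.2 h⟩

private theorem FSep_aux (h : IsFan cones p) {w : Fin d → U} (hw : w ∈ fts d cones) {t : ℕ}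
    (htd : t ≤ d) {ρ : Finset U} (hρ : ρ ∈ cones) (hc : ρ.card = t) (hne : ρ ≠ Wset w t)
    (a : ℕ → ℝ) (c : U → ℝ) (ha : ∀ k ∈ Finset.Icc t d, 0 ≤ a k) (hcn : ∀ v ∈ ρ, 0 ≤ c v)
    (hs : ∑ k ∈ Finset.Icc t d, a k + ∑ v ∈ ρ, c v = 1)
    (he : ∑ k ∈ Finset.Icc t d, a k • ∑ v ∈ Wset w k, p v = ∑ v ∈ ρ, c v • p v) : False := by
  classical
  have hw' := mem_fts.1 hw
  obtain ⟨hinj, hmem⟩ := hw'
  have hσ : Wset w d ∈ cones := by
    have h1 : Wset w d = Finset.univ.image w := by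
      unfold Wset
      rw [Finset.filter_true_of_mem fun i _ => i.2]
    rw [h1]
    exact hmem
  set e : U → ℝ := fun v => ∑ k ∈ Finset.Icc t d, if v ∈ Wset w k then a k else 0 with hedef
  have hx : ∑ k ∈ Finset.Icc t d, a k • ∑ v ∈ Wset w k, p v = ∑ v ∈ Wset w d, e v • p v := by
    have h1 : ∀ k ∈ Finset.Icc t d, a k • ∑ v ∈ Wset w k, p v =
        ∑ v ∈ Wset w d, (if v ∈ Wset w k then a k else 0) • p v := by
      intro k hk
      rw [Finset.smul_sum]
      rw [← Finset.sum_subset (FSep_mono w (Finset.mem_Icc.1 hk).2)]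
      · refine Finset.sum_congr rfl fun v hv => ?_
        rw [if_pos hv]
      · intro v _ hv
        rw [if_neg hv, zero_smul]
    rw [Finset.sum_congr rfl h1, Finset.sum_comm]
    refine Finset.sum_congr rfl fun v _ => ?_
    rw [hedef, Finset.sum_smul]
  have hen : ∀ v, 0 ≤ e v := by
    intro v
    refine Finset.sum_nonneg fun k hk => ?_
    split_ifs
    · exact ha k hk
    · exact le_rfl
  set τ := (Wset w d).filter fun v => 0 < e v with hτ
  set ρ' := ρ.filter fun v => 0 < c v with hρ'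
  have h1 : ∑ v ∈ τ, e v • p v = ∑ v ∈ ρ, c v • p v := by
    rw [← he, hx]
    refine Finset.sum_subset (Finset.filter_subset _ _) fun v hv hv' => ?_
    have h2 : ¬ 0 < e v := fun h3 => hv' (Finset.mem_filter.2 ⟨hv, h3⟩)
    have h3 : e v = 0 := le_antisymm (not_lt.1 h2) (hen v)
    rw [h3, zero_smul]
  have h2 : ∑ v ∈ ρ', c v • p v = ∑ v ∈ ρ, c v • p v := by
    refine Finset.sum_subset (Finset.filter_subset _ _) fun v hv hv' => ?_
    have h2 : ¬ 0 < c v := fun h3 => hv' (Finset.mem_filter.2 ⟨hv, h3⟩)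
    have h3 : c v = 0 := le_antisymm (not_lt.1 h2) (hcn v hv)
    rw [h3, zero_smul]
  have h3 : τ = ρ' := by
    refine (h.cover (∑ v ∈ ρ, c v • p v)).unique ?_ ?_
    · exact ⟨h.down _ hσ _ (Finset.filter_subset _ _), e,
        fun v hv => (Finset.mem_filter.1 hv).2, h1⟩
    · exact ⟨h.down _ hρ _ (Finset.filter_subset _ _), c,
        fun v hv => (Finset.mem_filter.1 hv).2, h2⟩
  by_cases hA : ∑ k ∈ Finset.Icc t d, a k = 0
  · have h4 : ∀ k ∈ Finset.Icc t d, a k = 0 := (Finset.sum_eq_zero_iff_of_nonneg ha).1 hA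
    have h5 : ∀ v, e v = 0 := by
      intro v
      refine Finset.sum_eq_zero fun k hk => ?_
      rw [h4 k hk]
      split_ifs <;> rfl
    have h6 : τ = ∅ := by
      rw [hτ, Finset.filter_eq_empty_iff]
      intro v _
      rw [h5 v]
      exact lt_irrefl _
    have h7 : ∑ v ∈ ρ, c v = 0 := by
      refine Finset.sum_eq_zero fun v hv => ?_
      by_contra h8
      have h9 : v ∈ ρ' := Finset.mem_filter.2 ⟨hv, lt_of_le_of_ne (hcn v hv) (Ne.symm h8)⟩
      rw [← h3, h6] at h9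
      exact absurd h9 (Finset.notMem_empty v)
    rw [hA, h7] at hs
    norm_num at hs
  · have hA' : 0 < ∑ k ∈ Finset.Icc t d, a k :=
      lt_of_le_of_ne (Finset.sum_nonneg ha) (Ne.symm hA)
    have h4 : ∀ v ∈ Wset w t, e v = ∑ k ∈ Finset.Icc t d, a k := by
      intro v hv
      refine Finset.sum_congr rfl fun k hk => ?_
      rw [if_pos (FSep_mono w (Finset.mem_Icc.1 hk).1 hv)]
    have h5 : Wset w t ⊆ ρ := by
      intro v hv
      have h6 : v ∈ τ := Finset.mem_filter.2 ⟨FSep_mono w htd hv, by rw [h4 v hv]; exact hA'⟩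
      rw [h3] at h6
      exact (Finset.mem_filter.1 h6).1
    have h6 : (Wset w t).card = t := by
      unfold Wset
      rw [Finset.card_image_of_injective _ hinj]
      have h7 : (Finset.univ.filter fun i : Fin d => (i : ℕ) < t).card = t := by
        rw [Fin.card_filter_val_lt]
        omega
      exact h7
    exact hne (Finset.eq_of_subset_of_card_le h5 (by rw [h6, hc])).symm

theorem fan_sep (h : IsFan cones p) {w : Fin d → U} (hw : w ∈ fts d cones) {t : ℕ} (ht : 1 ≤ t)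
    (htd : t ≤ d) {ρ : Finset U} (hρ : ρ ∈ cones) (hc : ρ.card = t) (hne : ρ ≠ Wset w t) :
    ∃ l : (Fin d → ℝ) →ₗ[ℝ] ℝ, (∀ k, t ≤ k → k ≤ d → 0 < l (∑ v ∈ Wset w k, p v)) ∧
      ∀ v ∈ ρ, l (p v) < 0 := by
  classical
  let f : ({k // k ∈ Finset.Icc t d} ⊕ {v // v ∈ ρ}) → Fin d → ℝ :=
    Sum.elim (fun k => ∑ v ∈ Wset w k.1, p v) (fun v => -p v.1)
  let Φ : (({k // k ∈ Finset.Icc t d} ⊕ {v // v ∈ ρ}) → ℝ) →ₗ[ℝ] (Fin d → ℝ) :=
    { toFun := fun a => ∑ j, a j • f j
      map_add' := fun a b => by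
        simp only [Pi.add_apply, add_smul, Finset.sum_add_distrib]
      map_smul' := fun r a => by
        simp only [Pi.smul_apply, smul_eq_mul, mul_smul, RingHom.id_apply, Finset.smul_sum] }
  let C : Set (Fin d → ℝ) := Φ '' stdSimplex ℝ ({k // k ∈ Finset.Icc t d} ⊕ {v // v ∈ ρ})
  have hconv : Convex ℝ C := (convex_stdSimplex ℝ _).linear_image Φ
  have hcl : IsClosed C :=
    ((isCompact_stdSimplex ℝ _).image (LinearMap.continuous_of_finiteDimensional Φ)).isClosed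
  have h0 : (0 : Fin d → ℝ) ∉ C := by
    rintro ⟨a, ⟨ha0, ha1⟩, ha⟩
    have ha' : ∑ j, a j • f j = 0 := ha
    rw [Fintype.sum_sum_type] at ha' ha1
    let a1 : ℕ → ℝ := fun k => if hk : k ∈ Finset.Icc t d then a (Sum.inl ⟨k, hk⟩) else 0
    let c1 : U → ℝ := fun v => if hv : v ∈ ρ then a (Sum.inr ⟨v, hv⟩) else 0
    have e1 : ∀ k : {k // k ∈ Finset.Icc t d}, a (Sum.inl k) = a1 k.1 := by
      intro k
      show _ = if hk : k.1 ∈ Finset.Icc t d then a (Sum.inl ⟨k.1, hk⟩) else 0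
      rw [dif_pos k.2]
    have e2 : ∀ v : {v // v ∈ ρ}, a (Sum.inr v) = c1 v.1 := by
      intro v
      show _ = if hv : v.1 ∈ ρ then a (Sum.inr ⟨v.1, hv⟩) else 0
      rw [dif_pos v.2]
    refine FSep_aux h hw htd hρ hc hne a1 c1 ?_ ?_ ?_ ?_
    · intro k hk
      rw [← e1 ⟨k, hk⟩]
      exact ha0 _
    · intro v hv
      rw [← e2 ⟨v, hv⟩]
      exact ha0 _
    · rw [← ha1]
      simp only [e1, e2]
      rw [Finset.sum_coe_sort (Finset.Icc t d) a1, Finset.sum_coe_sort ρ c1]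
    · simp only [e1, e2] at ha'
      have g1 : ∑ k : {k // k ∈ Finset.Icc t d}, a1 k.1 • f (Sum.inl k) =
          ∑ k ∈ Finset.Icc t d, a1 k • ∑ v ∈ Wset w k, p v :=
        Finset.sum_coe_sort (Finset.Icc t d) (fun k => a1 k • ∑ v ∈ Wset w k, p v)
      have g2 : ∑ v : {v // v ∈ ρ}, c1 v.1 • f (Sum.inr v) = ∑ v ∈ ρ, c1 v • -p v :=
        Finset.sum_coe_sort ρ (fun v => c1 v • -p v)
      rw [g1, g2] at ha'
      simp only [smul_neg, Finset.sum_neg_distrib] at ha'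
      exact add_neg_eq_zero.1 ha'
  obtain ⟨l, u, hl0, hl⟩ := geometric_hahn_banach_point_closed hconv hcl h0
  rw [map_zero] at hl0
  have hf : ∀ j, f j ∈ C := by
    intro j
    refine ⟨Pi.single j 1, single_mem_stdSimplex ℝ j, ?_⟩
    show ∑ i, (Pi.single j (1 : ℝ) : _ → ℝ) i • f i = f j
    rw [Finset.sum_eq_single j]
    · rw [Pi.single_eq_same, one_smul]
    · intro i _ hi
      rw [Pi.single_eq_of_ne hi, zero_smul]
    · intro hj
      exact absurd (Finset.mem_univ j) hj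
  refine ⟨l.toLinearMap, fun k hk hk' => ?_, fun v hv => ?_⟩
  · exact hl0.trans (hl _ (hf (Sum.inl ⟨k, Finset.mem_Icc.2 ⟨hk, hk'⟩⟩)))
  · have h1 := hl0.trans (hl _ (hf (Sum.inr ⟨v, hv⟩)))
    have h2 : l (f (Sum.inr ⟨v, hv⟩)) = -l (p v) := map_neg l (p v)
    rw [h2] at h1
    show l (p v) < 0
    linarith

end Pool.Agent.ChG
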