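import Pool.Agent.ChG.FFlag

/-!
# The identities between the intersection numbers

General position for `pair_cocycle`: if the determinant of `d` of the vectors vanishes there is a
non-trivial relation between them, contradicting `GoodPos.gen` (the `x_i` are `y` and the
`b (Wset w k)`, `1 ≤ k ≤ d`, the `z_j` are the `p v`, `v ∈ ρ`, `ρ ∈ cones`; the vectors have distinct indices).

`star_id`: multiply `pair_cocycle` for `a = d + 2 - t`, `x = (y, b (Wset w t), ..., b (Wset w d))`,
`z = p ∘ en lab ρ` by `foZ p w` and sum over `w ∈ ftsH cones t (en lab τ)`.  The term `i = 0` gives `Nn`.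
The term `i = 1` (remove `b (Wset w t)`) gives by `head_split` the sum over `v ∈ fnb cones τ` of
`-(-1)^t * sg lab v τ * Ee (t+1) (insert v τ) ρ`.  The terms `i = 1 + k`, `1 ≤ k`, remove
`b (Wset w (t+k))` and vanish by `flag_cancel`.  The terms with `rm z j` give (`en_erase`, `sum_en`)
`(-1)^(d+2-t) ∑ v ∈ ρ, sg lab v ρ * Ee t τ (ρ.erase v)`.

`n_rec`: the same with `a = d + 1 - t` and `x = (b (Wset w t), ..., b (Wset w d))`, `ρ.card = t + 1`.

`top_id`: `pair_cocycle` for `a = 2`, `x = (y, b τ)` and `z = p ∘ en lab ρ` (take `w ∈ fts d cones` with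
`Wset w d = τ`, `exists_fts`).
-/

namespace Pool.Agent.ChG

open Matrix Pool.Agent.ChP Pool.Agent.ChS

variable {d : ℕ} {U : Type} [DecidableEq U] [Nonempty U] {cones : Finset (Finset U)}
  {p : U → Fin d → ℝ} {b : Finset U → Fin d → ℝ} {y : Fin d → ℝ}

private theorem FStar_en_inj {lab : U → ℕ} {τ : Finset U}
    (hτ : Set.InjOn lab (τ : Set U)) {i j : ℕ} (hi : i < τ.card) (hj : j < τ.card)
    (h : en lab τ i = en lab τ j) : i = j := by
  rcases lt_trichotomy i j with h1 | h1 | h1
  · have := en_lt hτ h1 hj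
    rw [h] at this
    exact absurd this (lt_irrefl _)
  · exact h1
  · have := en_lt hτ h1 hi
    rw [h] at this
    exact absurd this (lt_irrefl _)

/-- general position of the vectors `x_i`, `i < a`, and `p (en lab ρ j)` -/
private theorem FStar_gp (lab : U → ℕ)
    (hlab : ∀ σ ∈ cones, Set.InjOn lab (σ : Set U)) (hg : GoodPos cones p b y) {w : Fin d → U}
    (hw : w ∈ fts d cones) {t : ℕ} (ht : 1 ≤ t) (htd : t ≤ d) {s : ℕ} (hs : s ≤ 1)
    {ρ : Finset U} (hρ : ρ ∈ cones) (hρc : ρ.card + s = t + 1) {a : ℕ} (ha : a + t = d + 1 + s)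
    (x : ℕ → Fin d → ℝ) (hxy : s = 1 → x 0 = y)
    (hxb : ∀ i, i < d + 1 - t → x (i + s) = b (Wset w (t + i)))
    (e : Fin d ↪o Fin (d + 2)) :
    Matrix.det (Matrix.of fun k b' => comb a x (fun j => p (en lab ρ j)) (e k) b') ≠ 0 := by
  classical
  intro hdet
  obtain ⟨v, hv, hv0⟩ := Matrix.exists_vecMul_eq_zero_iff.2 hdet
  have hinj := hlab ρ hρ
  -- the coefficients
  let c : ℕ → ℝ := fun i => ∑ k, if ((e k : Fin (d + 2)) : ℕ) = i then v k else 0
  let Tn : Finset ℕ := Finset.univ.image fun k : Fin d => ((e k : Fin (d + 2)) : ℕ)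
  have hTn : Tn.card = d := by
    rw [Finset.card_image_of_injective _ (fun k l hkl => e.injective (Fin.ext hkl)),
      Finset.card_univ, Fintype.card_fin]
  have hc0 : ∀ i, i ∉ Tn → c i = 0 := by
    intro i hi
    refine Finset.sum_eq_zero fun k _ => if_neg fun hk => hi ?_
    exact Finset.mem_image.2 ⟨k, Finset.mem_univ _, hk⟩
  have hce : ∀ k : Fin d, c ((e k : Fin (d + 2)) : ℕ) = v k := by
    intro k
    show ∑ l, _ = _
    rw [Finset.sum_eq_single k]
    · rw [if_pos rfl]
    · intro l _ hl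
      rw [if_neg]
      intro hh
      exact hl (e.injective (Fin.ext hh))
    · intro hk
      exact absurd (Finset.mem_univ _) hk
  let z : ℕ → Fin d → ℝ := fun j => p (en lab ρ j)
  let g : ℕ → Fin d → ℝ := fun i => if i < a then x i else -z (i - a)
  have hsum : ∑ i ∈ Finset.range (d + 2), c i • g i = 0 := by
    have h1 : ∑ i ∈ Finset.range (d + 2), c i • g i = ∑ k, v k • g ((e k : Fin (d + 2)) : ℕ) := by
      simp only [c, Finset.sum_smul]
      rw [Finset.sum_comm]
      refine Finset.sum_congr rfl fun k _ => ?_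
      rw [Finset.sum_eq_single ((e k : Fin (d + 2)) : ℕ)]
      · rw [if_pos rfl]
      · intro i _ hi
        rw [if_neg (fun hh => hi hh.symm), zero_smul]
      · intro hh
        exact absurd (Finset.mem_range.2 (e k).2) hh
    rw [h1]
    funext b'
    have h2 := congrFun hv0 b'
    rw [Matrix.vecMul, dotProduct] at h2
    rw [Finset.sum_apply, Pi.zero_apply]
    rw [Pi.zero_apply] at h2
    rw [← h2]
    refine Finset.sum_congr rfl fun k _ => ?_
    rw [Pi.smul_apply, smul_eq_mul, Matrix.of_apply]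
    rfl
  have hda : d + 2 = a + ρ.card := by omega
  rw [hda, Finset.sum_range_add] at hsum
  have e1 : ∑ i ∈ Finset.range a, c i • g i =
      (if s = 1 then c 0 else 0) • y + ∑ i ∈ Finset.range (d + 1 - t), c (i + s) • b (Wset w (t + i)) := by
    have e2 : ∑ i ∈ Finset.range a, c i • g i = ∑ i ∈ Finset.range a, c i • x i := by
      refine Finset.sum_congr rfl fun i hi => ?_
      show c i • (if i < a then x i else -z (i - a)) = _
      rw [if_pos (Finset.mem_range.1 hi)]
    have e3 : a = (d + 1 - t) + s := by omega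
    have e4 : ∑ i ∈ Finset.range (d + 1 - t), c (i + s) • b (Wset w (t + i)) =
        ∑ i ∈ Finset.range (d + 1 - t), c (i + s) • x (i + s) :=
      Finset.sum_congr rfl fun i hi => by rw [hxb i (Finset.mem_range.1 hi)]
    rw [e2, e4, e3]
    rcases Nat.le_one_iff_eq_zero_or_eq_one.1 hs with h0 | h1
    · subst h0
      simp
    · subst h1
      rw [Finset.sum_range_succ', if_pos rfl, hxy rfl, add_comm]
  have e5 : ∑ j ∈ Finset.range ρ.card, c (a + j) • g (a + j) =
      ∑ j ∈ Finset.range ρ.card, (-c (a + j)) • p (en lab ρ j) := by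
    refine Finset.sum_congr rfl fun j _ => ?_
    show c (a + j) • (if a + j < a then x (a + j) else -z (a + j - a)) = _
    rw [if_neg (by omega), Nat.add_sub_cancel_left, smul_neg, neg_smul]
  rw [e1, e5] at hsum
  -- the index sets
  let F1 : Finset ℕ := (Finset.range (d + 1 - t)).filter fun i => i + s ∈ Tn
  let F2 : Finset ℕ := (Finset.range ρ.card).filter fun j => a + j ∈ Tn
  let S : Finset ℕ := F1.image fun i => t + i
  let R : Finset U := F2.image (en lab ρ)
  let idx : U → ℕ := fun u => if hu : ∃ j < ρ.card, en lab ρ j = u then hu.choose else 0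
  have hidx : ∀ j < ρ.card, idx (en lab ρ j) = j := by
    intro j hj
    have hu : ∃ j' < ρ.card, en lab ρ j' = en lab ρ j := ⟨j, hj, rfl⟩
    show (if hu : ∃ j' < ρ.card, en lab ρ j' = en lab ρ j then hu.choose else 0) = j
    rw [dif_pos hu]
    exact FStar_en_inj hinj hu.choose_spec.1 hj hu.choose_spec.2
  have hS : ∑ k ∈ S, c (k - t + s) • b (Wset w k) =
      ∑ i ∈ Finset.range (d + 1 - t), c (i + s) • b (Wset w (t + i)) := by
    rw [Finset.sum_image (fun i _ j _ hij => Nat.add_left_cancel hij)]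
    rw [← Finset.sum_subset (Finset.filter_subset (fun i => i + s ∈ Tn) (Finset.range (d + 1 - t)))]
    · refine Finset.sum_congr rfl fun i _ => ?_
      rw [Nat.add_sub_cancel_left]
    · intro i hi hi'
      rw [hc0 _ (fun hh => hi' (Finset.mem_filter.2 ⟨hi, hh⟩)), zero_smul]
  have hR : ∑ u ∈ R, (-c (a + idx u)) • p u =
      ∑ j ∈ Finset.range ρ.card, (-c (a + j)) • p (en lab ρ j) := by
    have hRi : Set.InjOn (en lab ρ) ((F2 : Finset ℕ) : Set ℕ) := fun i hi j hj hij =>
      FStar_en_inj hinj (Finset.mem_range.1 (Finset.mem_filter.1 (Finset.mem_coe.1 hi)).1)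
        (Finset.mem_range.1 (Finset.mem_filter.1 (Finset.mem_coe.1 hj)).1) hij
    rw [Finset.sum_image hRi]
    rw [← Finset.sum_subset (Finset.filter_subset (fun j => a + j ∈ Tn) (Finset.range ρ.card))]
    · refine Finset.sum_congr rfl fun j hj => ?_
      rw [hidx j (Finset.mem_range.1 (Finset.mem_filter.1 hj).1)]
    · intro j hj hj'
      rw [hc0 _ (fun hh => hj' (Finset.mem_filter.2 ⟨hj, hh⟩)), neg_zero, zero_smul]
  have hSR : S.card + R.card ≤ d ∧ (s = 1 → 0 ∈ Tn → S.card + R.card < d) := by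
    have c1 : S.card ≤ F1.card := Finset.card_image_le
    have c2 : R.card ≤ F2.card := Finset.card_image_le
    let A1 : Finset ℕ := F1.image fun i => i + s
    let A2 : Finset ℕ := F2.image fun j => a + j
    have c3 : A1.card = F1.card :=
      Finset.card_image_of_injective _ (fun i j hij => Nat.add_right_cancel hij)
    have c4 : A2.card = F2.card :=
      Finset.card_image_of_injective _ (fun i j hij => Nat.add_left_cancel hij)
    have c5 : Disjoint A1 A2 := by
      rw [Finset.disjoint_left]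
      intro i hi hi'
      obtain ⟨k, hk, rfl⟩ := Finset.mem_image.1 hi
      obtain ⟨l, hl, hkl⟩ := Finset.mem_image.1 hi'
      have := Finset.mem_range.1 (Finset.mem_filter.1 hk).1
      omega
    have c6 : A1 ∪ A2 ⊆ Tn := by
      intro i hi
      rcases Finset.mem_union.1 hi with hi | hi
      · obtain ⟨k, hk, rfl⟩ := Finset.mem_image.1 hi
        exact (Finset.mem_filter.1 hk).2
      · obtain ⟨k, hk, rfl⟩ := Finset.mem_image.1 hi
        exact (Finset.mem_filter.1 hk).2
    have c7 : (A1 ∪ A2).card = A1.card + A2.card := Finset.card_union_of_disjoint c5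
    refine ⟨?_, fun hs1 h0 => ?_⟩
    · have := Finset.card_le_card c6
      omega
    · have c8 : A1 ∪ A2 ⊆ Tn.erase 0 := by
        intro i hi
        refine Finset.mem_erase.2 ⟨?_, c6 hi⟩
        rcases Finset.mem_union.1 hi with hi | hi
        · obtain ⟨k, hk, rfl⟩ := Finset.mem_image.1 hi
          omega
        · obtain ⟨k, hk, rfl⟩ := Finset.mem_image.1 hi
          omega
      have c9 := Finset.card_le_card c8
      rw [Finset.card_erase_of_mem h0] at c9
      have c10 : 0 < Tn.card := Finset.card_pos.2 ⟨0, h0⟩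
      omega
  have hSI : S ⊆ Finset.Icc 1 d := by
    intro k hk
    obtain ⟨i, hi, rfl⟩ := Finset.mem_image.1 hk
    have := Finset.mem_range.1 (Finset.mem_filter.1 hi).1
    rw [Finset.mem_Icc]
    omega
  have hRρ : R ⊆ ρ := by
    intro u hu
    obtain ⟨j, hj, rfl⟩ := Finset.mem_image.1 hu
    exact en_mem hinj (Finset.mem_range.1 (Finset.mem_filter.1 hj).1)
  have hα : (if s = 1 then c 0 else 0) = 0 ∨ S.card + R.card < d := by
    by_cases hs1 : s = 1
    · by_cases h0 : 0 ∈ Tn
      · exact Or.inr (hSR.2 hs1 h0)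
      · left
        rw [if_pos hs1, hc0 0 h0]
    · left
      rw [if_neg hs1]
  obtain ⟨g1, g2, g3⟩ := hg.gen w hw ρ hρ (if s = 1 then c 0 else 0) (fun k => c (k - t + s))
    (fun u => -c (a + idx u)) S R hSI hRρ hSR.1 hα (by
      rw [hS, hR]
      exact hsum)
  apply hv
  funext k
  rw [Pi.zero_apply, ← hce k]
  have hk : ((e k : Fin (d + 2)) : ℕ) ∈ Tn := Finset.mem_image.2 ⟨k, Finset.mem_univ _, rfl⟩
  have hk2 : ((e k : Fin (d + 2)) : ℕ) < d + 2 := (e k).2
  generalize ((e k : Fin (d + 2)) : ℕ) = m at hk hk2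
  by_cases h1 : m < s
  · have hs1 : s = 1 := by omega
    have hm0 : m = 0 := by omega
    rw [if_pos hs1] at g1
    rw [hm0, g1]
  · by_cases h2 : m < a
    · have h3 : m - s ∈ F1 := by
        refine Finset.mem_filter.2 ⟨Finset.mem_range.2 (by omega), ?_⟩
        rw [Nat.sub_add_cancel (by omega)]
        exact hk
      have h4 := g2 (t + (m - s)) (Finset.mem_image_of_mem _ h3)
      simp only [Nat.add_sub_cancel_left] at h4
      rw [Nat.sub_add_cancel (by omega)] at h4
      exact h4
    · have h3 : m - a ∈ F2 := by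
        refine Finset.mem_filter.2 ⟨Finset.mem_range.2 (by omega), ?_⟩
        rw [Nat.add_sub_cancel' (by omega)]
        exact hk
      have h4 := g3 _ (Finset.mem_image_of_mem (en lab ρ) h3)
      rw [hidx _ (Finset.mem_range.1 (Finset.mem_filter.1 h3).1), neg_eq_zero,
        Nat.add_sub_cancel' (by omega)] at h4
      exact h4

/-- the terms of the cocycle relation which remove a vector `p v` -/
private theorem FStar_z (lab : U → ℕ) {ρ : Finset U} (hρ : Set.InjOn lab (ρ : Set U)) {a : ℕ}
    (hρc : a + ρ.card = d + 2) (x : ℕ → Fin d → ℝ) :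
    ∑ j ∈ Finset.range (d + 2 - a), (-1 : ℤ) ^ (a + j) *
      pairN a x (rm (fun j => p (en lab ρ j)) j) =
    (-1) ^ a * ∑ v ∈ ρ, sg lab v ρ * pairN a x (fun i => p (en lab (ρ.erase v) i)) := by
  rw [sum_en lab hρ, Finset.mul_sum]
  have h1 : d + 2 - a = ρ.card := by omega
  rw [h1]
  refine Finset.sum_congr rfl fun j hj => ?_
  have hj' := Finset.mem_range.1 hj
  obtain ⟨h2, h3⟩ := en_erase lab hρ hj'
  rw [h3, pow_add, mul_assoc]
  congr 2
  refine pairN_congr (fun _ _ => rfl) fun i hi => ?_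
  rw [h2 i (by omega)]
  unfold rm
  split_ifs <;> rfl

theorem star_id (h : IsFan cones p) (lab : U → ℕ)
    (hlab : ∀ σ ∈ cones, Set.InjOn lab (σ : Set U)) (hg : GoodPos cones p b y) {t : ℕ}
    (ht : 1 ≤ t) (htd : t < d) {τ ρ : Finset U} (hτ : τ ∈ cones) (hτc : τ.card = t)
    (hρ : ρ ∈ cones) (hρc : ρ.card = t) :
    Nn cones p lab b t τ ρ -
      ∑ v ∈ fnb cones τ, (-1) ^ t * sg lab v τ * Ee cones p lab b y (t + 1) (insert v τ) ρ +
      (-1) ^ (d - t) * ∑ v ∈ ρ, sg lab v ρ * Ee cones p lab b y t τ (ρ.erase v) = 0 := by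
  classical
  let z : ℕ → Fin d → ℝ := fun j => p (en lab ρ j)
  let x : (Fin d → U) → ℕ → Fin d → ℝ := fun w i => if i = 0 then y else b (Wset w (t + i - 1))
  have hcoc : ∀ w ∈ ftsH cones t (en lab τ),
      ∑ i ∈ Finset.range (d + 2 - t), (-1 : ℤ) ^ i * pairN (d + 2 - t - 1) (rm (x w) i) z +
      (-1) ^ (d + 2 - t) * ∑ v ∈ ρ, sg lab v ρ *
        pairN (d + 2 - t) (x w) (fun i => p (en lab (ρ.erase v) i)) = 0 := by
    intro w hw
    have hw1 : w ∈ fts d cones := (Finset.mem_filter.1 hw).1
    have h1 := pair_cocycle (a := d + 2 - t) (by omega) (x w) z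
      (FStar_gp lab hlab hg hw1 ht htd.le (s := 1) le_rfl hρ (by omega) (by omega) (x w)
        (fun _ => by simp only [x, if_true])
        (fun i _ => by
          simp only [x]
          rw [if_neg (by omega)]
          rfl))
    rw [FStar_z lab (hlab ρ hρ) (by omega) (x w)] at h1
    exact h1
  have h2 : ∑ w ∈ ftsH cones t (en lab τ), foZ p w *
      (∑ i ∈ Finset.range (d + 2 - t), (-1 : ℤ) ^ i * pairN (d + 2 - t - 1) (rm (x w) i) z +
      (-1) ^ (d + 2 - t) * ∑ v ∈ ρ, sg lab v ρ *
        pairN (d + 2 - t) (x w) (fun i => p (en lab (ρ.erase v) i))) = 0 :=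
    Finset.sum_eq_zero fun w hw => by rw [hcoc w hw, mul_zero]
  simp only [mul_add, Finset.sum_add_distrib] at h2
  -- the first part
  have h3 : ∑ w ∈ ftsH cones t (en lab τ), foZ p w *
      ∑ i ∈ Finset.range (d + 2 - t), (-1 : ℤ) ^ i * pairN (d + 2 - t - 1) (rm (x w) i) z =
      Nn cones p lab b t τ ρ -
      ∑ v ∈ fnb cones τ, (-1) ^ t * sg lab v τ * Ee cones p lab b y (t + 1) (insert v τ) ρ := by
    have h4 : ∑ w ∈ ftsH cones t (en lab τ), foZ p w *
        ∑ i ∈ Finset.range (d + 2 - t), (-1 : ℤ) ^ i * pairN (d + 2 - t - 1) (rm (x w) i) z =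
        ∑ i ∈ Finset.range (d + 2 - t), (-1 : ℤ) ^ i * ∑ w ∈ ftsH cones t (en lab τ), foZ p w *
          pairN (d + 2 - t - 1) (rm (x w) i) z := by
      simp only [Finset.mul_sum]
      rw [Finset.sum_comm]
      refine Finset.sum_congr rfl fun i _ => Finset.sum_congr rfl fun w _ => ?_
      ring
    rw [h4]
    have h5 : d + 2 - t = (d - t) + 1 + 1 := by omega
    rw [h5, Finset.sum_range_succ', Finset.sum_range_succ']
    have h6 : ∑ i ∈ Finset.range (d - t), (-1 : ℤ) ^ (i + 1 + 1) *
        ∑ w ∈ ftsH cones t (en lab τ), foZ p w *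
          pairN (d - t + 1 + 1 - 1) (rm (x w) (i + 1 + 1)) z = 0 := by
      refine Finset.sum_eq_zero fun i hi => ?_
      have hi' := Finset.mem_range.1 hi
      rw [flag_cancel h (t := t) (k := t + (i + 1)) (by omega) (by omega) (en lab τ)
        (fun w => pairN (d - t + 1 + 1 - 1) (rm (x w) (i + 1 + 1)) z), mul_zero]
      intro w hw w' hw' hww
      refine pairN_congr (fun j hj => ?_) (fun _ _ => rfl)
      simp only [rm, x]
      split_ifs with c1 c2 c2
      · rfl
      · rw [hww _ (by omega) (by omega)]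
      · rfl
      · rw [hww _ (by omega) (by omega)]
    rw [h6, zero_add, add_comm]
    have h7 : ∑ w ∈ ftsH cones t (en lab τ), foZ p w *
        pairN (d - t + 1 + 1 - 1) (rm (x w) 0) z = Nn cones p lab b t τ ρ := by
      unfold Nn
      refine Finset.sum_congr rfl fun w _ => ?_
      have h8 : d - t + 1 + 1 - 1 = d + 1 - t := by omega
      rw [h8]
      refine congrArg (fun q => foZ p w * q) ?_
      refine pairN_congr (fun i _ => ?_) (fun _ _ => rfl)
      simp only [rm, x]
      rw [if_neg (by omega), if_neg (by omega)]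
      rfl
    have h9 : ∑ w ∈ ftsH cones t (en lab τ), foZ p w *
        pairN (d - t + 1 + 1 - 1) (rm (x w) (0 + 1)) z =
        ∑ v ∈ fnb cones τ, (-1) ^ t * sg lab v τ *
          Ee cones p lab b y (t + 1) (insert v τ) ρ := by
      have h10 := head_split h lab hlab htd hτ hτc
        (fun w => pairN (d + 2 - (t + 1)) (fun i => if i = 0 then y else b (Wset w (t + 1 + i - 1))) z)
        (fun w _ w' _ hww => by
          refine pairN_congr (fun i _ => ?_) (fun _ _ => rfl)
          by_cases hi : i = 0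
          · rw [if_pos hi, if_pos hi]
          · rw [if_neg hi, if_neg hi, hww _ (by omega)])
      unfold Ee
      rw [← h10]
      refine Finset.sum_congr rfl fun w _ => ?_
      have h8 : d - t + 1 + 1 - 1 = d + 2 - (t + 1) := by omega
      rw [h8]
      refine congrArg (fun q => foZ p w * q) ?_
      refine pairN_congr (fun i _ => ?_) (fun _ _ => rfl)
      simp only [rm, x]
      by_cases hi : i = 0
      · rw [if_pos (by omega), if_pos hi, if_pos hi]
      · rw [if_neg (by omega), if_neg (by omega), if_neg hi]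
        have h11 : t + (i + 1) - 1 = t + 1 + i - 1 := by omega
        rw [h11]
    rw [h7, h9]
    ring
  have h12 : ∑ w ∈ ftsH cones t (en lab τ), foZ p w *
      ((-1) ^ (d + 2 - t) * ∑ v ∈ ρ, sg lab v ρ *
        pairN (d + 2 - t) (x w) (fun i => p (en lab (ρ.erase v) i))) =
      (-1) ^ (d - t) * ∑ v ∈ ρ, sg lab v ρ * Ee cones p lab b y t τ (ρ.erase v) := by
    have h13 : (-1 : ℤ) ^ (d + 2 - t) = (-1) ^ (d - t) := by
      have : d + 2 - t = (d - t) + 2 := by omega
      rw [this, pow_add]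
      norm_num
    rw [h13]
    unfold Ee
    simp only [Finset.mul_sum]
    rw [Finset.sum_comm]
    refine Finset.sum_congr rfl fun v _ => Finset.sum_congr rfl fun w _ => ?_
    ring
  rw [h3, h12] at h2
  exact h2

theorem n_rec (h : IsFan cones p) (lab : U → ℕ)
    (hlab : ∀ σ ∈ cones, Set.InjOn lab (σ : Set U)) (hg : GoodPos cones p b y) {t : ℕ}
    (ht : 1 ≤ t) (htd : t < d) {τ ρ : Finset U} (hτ : τ ∈ cones) (hτc : τ.card = t)
    (hρ : ρ ∈ cones) (hρc : ρ.card = t + 1) :
    ∑ v ∈ fnb cones τ, (-1) ^ t * sg lab v τ * Nn cones p lab b (t + 1) (insert v τ) ρ +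
      (-1) ^ (d - t + 1) * ∑ v ∈ ρ, sg lab v ρ * Nn cones p lab b t τ (ρ.erase v) = 0 := by
  classical
  let z : ℕ → Fin d → ℝ := fun j => p (en lab ρ j)
  let x : (Fin d → U) → ℕ → Fin d → ℝ := fun w i => b (Wset w (t + i))
  have hcoc : ∀ w ∈ ftsH cones t (en lab τ),
      ∑ i ∈ Finset.range (d + 1 - t), (-1 : ℤ) ^ i * pairN (d + 1 - t - 1) (rm (x w) i) z +
      (-1) ^ (d + 1 - t) * ∑ v ∈ ρ, sg lab v ρ *
        pairN (d + 1 - t) (x w) (fun i => p (en lab (ρ.erase v) i)) = 0 := by
    intro w hw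
    have hw1 : w ∈ fts d cones := (Finset.mem_filter.1 hw).1
    have h1 := pair_cocycle (a := d + 1 - t) (by omega) (x w) z
      (FStar_gp lab hlab hg hw1 ht htd.le (s := 0) (Nat.zero_le _) hρ (by omega) (by omega) (x w)
        (fun h0 => by omega)
        (fun i _ => rfl))
    rw [FStar_z lab (hlab ρ hρ) (by omega) (x w)] at h1
    exact h1
  have h2 : ∑ w ∈ ftsH cones t (en lab τ), foZ p w *
      (∑ i ∈ Finset.range (d + 1 - t), (-1 : ℤ) ^ i * pairN (d + 1 - t - 1) (rm (x w) i) z +
      (-1) ^ (d + 1 - t) * ∑ v ∈ ρ, sg lab v ρ *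
        pairN (d + 1 - t) (x w) (fun i => p (en lab (ρ.erase v) i))) = 0 :=
    Finset.sum_eq_zero fun w hw => by rw [hcoc w hw, mul_zero]
  simp only [mul_add, Finset.sum_add_distrib] at h2
  have h3 : ∑ w ∈ ftsH cones t (en lab τ), foZ p w *
      ∑ i ∈ Finset.range (d + 1 - t), (-1 : ℤ) ^ i * pairN (d + 1 - t - 1) (rm (x w) i) z =
      ∑ v ∈ fnb cones τ, (-1) ^ t * sg lab v τ * Nn cones p lab b (t + 1) (insert v τ) ρ := by
    have h4 : ∑ w ∈ ftsH cones t (en lab τ), foZ p w *
        ∑ i ∈ Finset.range (d + 1 - t), (-1 : ℤ) ^ i * pairN (d + 1 - t - 1) (rm (x w) i) z =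
        ∑ i ∈ Finset.range (d + 1 - t), (-1 : ℤ) ^ i * ∑ w ∈ ftsH cones t (en lab τ), foZ p w *
          pairN (d + 1 - t - 1) (rm (x w) i) z := by
      simp only [Finset.mul_sum]
      rw [Finset.sum_comm]
      refine Finset.sum_congr rfl fun i _ => Finset.sum_congr rfl fun w _ => ?_
      ring
    rw [h4]
    have h5 : d + 1 - t = (d - t) + 1 := by omega
    rw [h5, Finset.sum_range_succ']
    have h6 : ∑ i ∈ Finset.range (d - t), (-1 : ℤ) ^ (i + 1) *
        ∑ w ∈ ftsH cones t (en lab τ), foZ p w *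
          pairN (d - t + 1 - 1) (rm (x w) (i + 1)) z = 0 := by
      refine Finset.sum_eq_zero fun i hi => ?_
      have hi' := Finset.mem_range.1 hi
      rw [flag_cancel h (t := t) (k := t + (i + 1)) (by omega) (by omega) (en lab τ)
        (fun w => pairN (d - t + 1 - 1) (rm (x w) (i + 1)) z), mul_zero]
      intro w hw w' hw' hww
      refine pairN_congr (fun j hj => ?_) (fun _ _ => rfl)
      simp only [rm, x]
      split_ifs with c1
      · rw [hww _ (by omega) (by omega)]
      · rw [hww _ (by omega) (by omega)]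
    rw [h6, zero_add, pow_zero, one_mul]
    have h10 := head_split h lab hlab htd hτ hτc
      (fun w => pairN (d + 1 - (t + 1)) (fun i => b (Wset w (t + 1 + i))) z)
      (fun w _ w' _ hww => by
        refine pairN_congr (fun i _ => ?_) (fun _ _ => rfl)
        rw [hww _ (by omega)])
    unfold Nn
    rw [← h10]
    refine Finset.sum_congr rfl fun w _ => ?_
    have h8 : d - t + 1 - 1 = d + 1 - (t + 1) := by omega
    rw [h8]
    refine congrArg (fun q => foZ p w * q) ?_
    refine pairN_congr (fun i _ => ?_) (fun _ _ => rfl)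
    simp only [rm, x]
    rw [if_neg (by omega)]
    have h11 : t + (i + 1) = t + 1 + i := by omega
    rw [h11]
  have h12 : ∑ w ∈ ftsH cones t (en lab τ), foZ p w *
      ((-1) ^ (d + 1 - t) * ∑ v ∈ ρ, sg lab v ρ *
        pairN (d + 1 - t) (x w) (fun i => p (en lab (ρ.erase v) i))) =
      (-1) ^ (d - t + 1) * ∑ v ∈ ρ, sg lab v ρ * Nn cones p lab b t τ (ρ.erase v) := by
    have h13 : d + 1 - t = d - t + 1 := by omega
    unfold Nn
    rw [h13]
    simp only [Finset.mul_sum]
    rw [Finset.sum_comm]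
    refine Finset.sum_congr rfl fun v _ => Finset.sum_congr rfl fun w _ => ?_
    ring
  rw [h3, h12] at h2
  exact h2

theorem top_id (h : IsFan cones p) (lab : U → ℕ)
    (hlab : ∀ σ ∈ cones, Set.InjOn lab (σ : Set U)) (hg : GoodPos cones p b y)
    {τ ρ : Finset U} (hτ : τ ∈ cones) (hτc : τ.card = d) (hρ : ρ ∈ cones) (hρc : ρ.card = d)
    (hd : 0 < d) :
    pairN 1 (fun _ => b τ) (fun i => p (en lab ρ i)) - pairN 1 (fun _ => y) (fun i => p (en lab ρ i)) +
      ∑ v ∈ ρ, sg lab v ρ * pairN 2 (fun i => if i = 0 then y else b τ)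
        (fun i => p (en lab (ρ.erase v) i)) = 0 := by
  classical
  obtain ⟨w, hw, hwτ⟩ := exists_fts h hτ hτc
  have hW : Wset w d = τ := by
    rw [← hwτ]
    unfold Wset
    congr 1
    exact Finset.filter_true_of_mem fun i _ => i.2
  have h1 := pair_cocycle (a := 2) (by omega) (fun i => if i = 0 then y else b τ)
    (fun j => p (en lab ρ j))
    (FStar_gp lab hlab hg hw (t := d) (by omega) le_rfl (s := 1) le_rfl hρ (by omega) (by omega) _
      (fun _ => by simp only [if_true])
      (fun i hi => by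
        have h0 : i = 0 := by omega
        subst h0
        rw [if_neg (by omega), Nat.add_zero, hW]))
  rw [FStar_z lab (hlab ρ hρ) (by omega)] at h1
  rw [Finset.sum_range_succ, Finset.sum_range_one] at h1
  have h2 : pairN (d := d) (2 - 1) (rm (fun i => if i = 0 then y else b τ) 0)
      (fun j => p (en lab ρ j)) = pairN 1 (fun _ => b τ) (fun i => p (en lab ρ i)) := by
    refine pairN_congr (fun i _ => ?_) (fun _ _ => rfl)
    simp only [rm]
    rw [if_neg (by omega), if_neg (by omega)]
  have h3 : pairN (d := d) (2 - 1) (rm (fun i => if i = 0 then y else b τ) 1)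
      (fun j => p (en lab ρ j)) = pairN 1 (fun _ => y) (fun i => p (en lab ρ i)) := by
    refine pairN_congr (fun i hi => ?_) (fun _ _ => rfl)
    have h0 : i = 0 := by omega
    subst h0
    simp [rm]
  rw [h2, h3] at h1
  linear_combination h1

end Pool.Agent.ChG
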