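import Pool.Agent.ChG.FStar

/-!
# The intersection number of a dual cell with a simplex

`n_local`: all terms vanish by `GoodPos.sep` (`Wset w t = τ` by `wset_head`) and `epsZ_sep`.
`n_top`: the only `w` is `en lab τ`; `pairN_one` and `foZ_mul_self`.
`n_val`: downward induction on `t`, starting with `t = d`.  For `t < d` take `v` with
`ρ = insert v τ ∈ cones`, `v ∉ τ` (`IsFan.pure`) in `n_rec`; by `n_local` only `v` contributes to both
sums, so `(-1)^t * sg lab v τ * Nn (t+1) ρ ρ + (-1)^(d-t+1) * sg lab v ρ * Nn t τ τ = 0`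
and `sg lab v ρ = sg lab v τ`; hence `Nn t τ τ = (-1)^d * Nn (t+1) ρ ρ`.
-/

namespace Pool.Agent.ChG

open Matrix Pool.Agent.ChP Pool.Agent.ChS

variable {d : ℕ} {U : Type} [DecidableEq U] [Nonempty U] {cones : Finset (Finset U)}
  {p : U → Fin d → ℝ} {b : Finset U → Fin d → ℝ} {y : Fin d → ℝ}

theorem n_local (h : IsFan cones p) (lab : U → ℕ)
    (hlab : ∀ σ ∈ cones, Set.InjOn lab (σ : Set U)) (hg : GoodPos cones p b y) {t : ℕ}
    (ht : 1 ≤ t) (htd : t ≤ d) {τ ρ : Finset U} (hτ : τ ∈ cones) (hτc : τ.card = t)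
    (hρ : ρ ∈ cones) (hρc : ρ.card = t) (hne : ρ ≠ τ) :
    Nn cones p lab b t τ ρ = 0 := by
  unfold Nn
  refine Finset.sum_eq_zero fun w hw => ?_
  have hw1 : w ∈ fts d cones := by
    unfold ftsH at hw
    exact (Finset.mem_filter.1 hw).1
  have hwt : Wset w t = τ := wset_head lab (hlab τ hτ) hτc htd hw
  obtain ⟨l, hl1, hl2⟩ := hg.sep w hw1 t ht htd ρ hρ hρc (by rw [hwt]; exact hne)
  have key : pairN (d + 1 - t) (fun i => b (Wset w (t + i))) (fun i => p (en lab ρ i)) = 0 := by
    unfold pairN
    refine epsZ_sep _ l fun i => ?_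
    by_cases hi : (i : ℕ) < d + 1 - t
    · simp only [if_pos hi]
      exact hl1 _ (by omega) (by omega)
    · simp only [if_neg hi]
      rw [map_neg]
      have hi2 := i.2
      have := hl2 (en lab ρ ((i : ℕ) - (d + 1 - t))) (en_mem (hlab ρ hρ) (by omega))
      linarith
  rw [key, mul_zero]

private theorem FVal_top (h : IsFan cones p) (lab : U → ℕ)
    (hlab : ∀ σ ∈ cones, Set.InjOn lab (σ : Set U)) (hg : GoodPos cones p b y)
    {τ : Finset U} (hτ : τ ∈ cones) (hτc : τ.card = d) :
    Nn cones p lab b d τ τ = (-1) ^ d := by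
  have hinj : Function.Injective (fun i : Fin d => en lab τ i) := by
    intro i j hij
    by_contra hne
    rcases lt_or_gt_of_ne (fun hh => hne (Fin.ext hh)) with hlt | hlt
    · have := en_lt (hlab τ hτ) hlt (by rw [hτc]; exact j.2)
      have h2 : en lab τ i = en lab τ j := hij
      rw [h2] at this
      exact lt_irrefl _ this
    · have := en_lt (hlab τ hτ) hlt (by rw [hτc]; exact i.2)
      have h2 : en lab τ i = en lab τ j := hij
      rw [h2] at this
      exact lt_irrefl _ this
  have himg : Finset.univ.image (fun i : Fin d => en lab τ i) = τ := by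
    refine Finset.eq_of_subset_of_card_le ?_ ?_
    · intro v hv
      obtain ⟨i, -, rfl⟩ := Finset.mem_image.1 hv
      exact en_mem (hlab τ hτ) (by rw [hτc]; exact i.2)
    · rw [Finset.card_image_of_injective _ hinj, Finset.card_univ, Fintype.card_fin, hτc]
  have hmem : (fun i : Fin d => en lab τ i) ∈ fts d cones :=
    mem_fts.2 ⟨hinj, by rw [himg]; exact hτ⟩
  have hH : ftsH cones d (en lab τ) = {fun i : Fin d => en lab τ i} := by
    ext w
    unfold ftsH
    rw [Finset.mem_filter, Finset.mem_singleton]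
    constructor
    · rintro ⟨-, hw⟩
      funext i
      exact hw i i.2
    · rintro rfl
      exact ⟨hmem, fun i _ => rfl⟩
  unfold Nn
  rw [hH, Finset.sum_singleton]
  have h1 : d + 1 - d = 1 := by omega
  rw [h1]
  have h2 : pairN 1 (fun i => b (Wset (fun i : Fin d => en lab τ i) (d + i)))
      (fun i => p (en lab τ i)) =
      pairN 1 (fun _ => b (Wset (fun i : Fin d => en lab τ i) d)) (fun i => p (en lab τ i)) := by
    refine pairN_congr (fun i hi => ?_) (fun i _ => rfl)
    have : i = 0 := by omega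
    subst this
    rfl
  rw [h2, pairN_one h hmem _ (hg.top _ hmem) _ (fun i => rfl)]
  have h3 := foZ_mul_self h hmem
  calc foZ p (fun i : Fin d => en lab τ i) * ((-1) ^ d * foZ p (fun i : Fin d => en lab τ i))
      = (-1) ^ d * (foZ p (fun i : Fin d => en lab τ i) *
        foZ p (fun i : Fin d => en lab τ i)) := by ring
    _ = (-1) ^ d := by rw [h3, mul_one]

private theorem FVal_diag (h : IsFan cones p) (lab : U → ℕ)
    (hlab : ∀ σ ∈ cones, Set.InjOn lab (σ : Set U)) (hg : GoodPos cones p b y) (k : ℕ) :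
    ∀ {t : ℕ}, 1 ≤ t → t + k = d → ∀ {τ : Finset U}, τ ∈ cones → τ.card = t →
    Nn cones p lab b t τ τ = (-1) ^ (d * (k + 1)) := by
  induction k with
  | zero =>
    intro t ht htk τ hτ hτc
    have htd : t = d := by omega
    subst htd
    rw [FVal_top h lab hlab hg hτ hτc, zero_add, mul_one]
  | succ k ih =>
    intro t ht htk τ hτ hτc
    -- a vertex
    obtain ⟨σ, hσ, hsub, hσc⟩ := h.pure τ hτ
    obtain ⟨v, hvσ, hvτ⟩ : ∃ v ∈ σ, v ∉ τ := by
      by_contra hcon
      push Not at hcon
      have := Finset.card_le_card (show σ ⊆ τ from hcon)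
      omega
    have hρ : insert v τ ∈ cones :=
      h.down σ hσ _ (Finset.insert_subset hvσ hsub)
    have hρc : (insert v τ).card = t + 1 := by
      rw [Finset.card_insert_of_notMem hvτ, hτc]
    have h1 := n_rec h lab hlab hg ht (by omega) hτ hτc hρ hρc
    have h2 : ∑ v' ∈ fnb cones τ, (-1) ^ t * sg lab v' τ *
        Nn cones p lab b (t + 1) (insert v' τ) (insert v τ) =
        (-1) ^ t * sg lab v τ * Nn cones p lab b (t + 1) (insert v τ) (insert v τ) := by
      refine Finset.sum_eq_single v (fun v' hv' hne => ?_) (fun hv => ?_)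
      · unfold fnb at hv'
        obtain ⟨-, h3, h4⟩ := Finset.mem_filter.1 hv'
        have h5 : insert v τ ≠ insert v' τ := by
          intro heq
          have : v' ∈ insert v τ := by rw [heq]; exact Finset.mem_insert_self _ _
          rcases Finset.mem_insert.1 this with h6 | h6
          · exact hne h6
          · exact h3 h6
        rw [n_local h lab hlab hg (by omega) (by omega) h4
          (by rw [Finset.card_insert_of_notMem h3, hτc]) hρ hρc h5, mul_zero]
      · exfalso
        apply hv
        unfold fnb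
        refine Finset.mem_filter.2 ⟨?_, hvτ, hρ⟩
        rw [Finset.mem_biUnion]
        exact ⟨σ, hσ, hvσ⟩
    have h3 : ∑ v' ∈ insert v τ, sg lab v' (insert v τ) *
        Nn cones p lab b t τ ((insert v τ).erase v') =
        sg lab v (insert v τ) * Nn cones p lab b t τ τ := by
      rw [Finset.sum_eq_single v (fun v' hv' hne => ?_) (fun hv => ?_)]
      · rw [Finset.erase_insert hvτ]
      · have h5 : (insert v τ).erase v' ≠ τ := by
          intro heq
          have h6 : v ∈ (insert v τ).erase v' :=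
            Finset.mem_erase.2 ⟨fun hh => hne hh.symm, Finset.mem_insert_self _ _⟩
          rw [heq] at h6
          exact hvτ h6
        have h6 : ((insert v τ).erase v').card = t := by
          rw [Finset.card_erase_of_mem hv', hρc]
          omega
        rw [n_local h lab hlab hg ht (by omega) hτ hτc
          (h.down _ hρ _ (Finset.erase_subset _ _)) h6 h5, mul_zero]
      · exact absurd (Finset.mem_insert_self v τ) hv
    have h4 : sg lab v (insert v τ) = sg lab v τ := by
      unfold sg
      rw [Finset.filter_insert, if_neg (lt_irrefl _)]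
    rw [h2, h3, h4, ih (by omega) (by omega) hρ hρc] at h1
    have h5 : sg lab v τ * sg lab v τ = 1 := by
      unfold sg
      rw [← pow_add, ← two_mul, pow_mul]
      norm_num
    have h6 : d - t + 1 = k + 2 := by omega
    rw [h6] at h1
    have h7 : (-1 : ℤ) ^ t * (-1) ^ t = 1 := by
      rw [← pow_add, ← two_mul, pow_mul]
      norm_num
    have h8 : (-1 : ℤ) ^ k * (-1) ^ k = 1 := by
      rw [← pow_add, ← two_mul, pow_mul]
      norm_num
    have h9 : (-1 : ℤ) ^ d = (-1) ^ t * (-1) ^ k * (-1) := by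
      rw [← htk, pow_add, pow_add, pow_one, mul_assoc]
    have h10 : (-1 : ℤ) ^ (d * (k + 1 + 1)) = (-1) ^ (d * (k + 1)) * (-1) ^ d := by
      rw [← pow_add]
      congr 1
    rw [h10, h9]
    have h11 : (-1 : ℤ) ^ (k + 2) = (-1) ^ k := by
      rw [pow_add]
      norm_num
    rw [h11] at h1
    -- multiply by `sg * (-1)^k`
    have h12 : sg lab v τ * (-1) ^ k * ((-1) ^ t * sg lab v τ * (-1) ^ (d * (k + 1)) +
        (-1) ^ k * (sg lab v τ * Nn cones p lab b t τ τ)) = 0 := by
      rw [h1, mul_zero]
    have h13 : sg lab v τ * (-1) ^ k * ((-1) ^ t * sg lab v τ * (-1) ^ (d * (k + 1)) +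
        (-1) ^ k * (sg lab v τ * Nn cones p lab b t τ τ)) =
        (sg lab v τ * sg lab v τ) * ((-1) ^ k * (-1) ^ t * (-1) ^ (d * (k + 1))) +
        ((-1) ^ k * (-1) ^ k) * (sg lab v τ * sg lab v τ) * Nn cones p lab b t τ τ := by ring
    rw [h13, h5, h8] at h12
    linear_combination h12

theorem n_val (h : IsFan cones p) (lab : U → ℕ)
    (hlab : ∀ σ ∈ cones, Set.InjOn lab (σ : Set U)) (hg : GoodPos cones p b y) {t : ℕ}
    (ht : 1 ≤ t) (htd : t ≤ d) {τ ρ : Finset U} (hτ : τ ∈ cones) (hτc : τ.card = t)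
    (hρ : ρ ∈ cones) (hρc : ρ.card = t) :
    Nn cones p lab b t τ ρ = if ρ = τ then (-1) ^ (d * (d - t + 1)) else 0 := by
  by_cases hne : ρ = τ
  · subst hne
    rw [if_pos rfl]
    exact FVal_diag h lab hlab hg (d - t) ht (by omega) hρ hρc
  · rw [if_neg hne]
    exact n_local h lab hlab hg ht htd hτ hτc hρ hρc hne

end Pool.Agent.ChG
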