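import Pool.Agent.ChG.Betti
import Pool.Agent.ChG.CmpB
import Pool.Agent.ChG.CompP
import Pool.Agent.ELS.Compare
import Pool.Agent.ChS.FGGam

/-!
# The middle Betti numbers of the finite coverings of a closed affine manifold
-/

namespace Pool.Agent.ChG

open Matrix Pool.Agent.ChP Pool.Agent.ChS Pool.Agent.ELS
open scoped Pointwise

variable {n : ℕ} {K : AffineTriangulation n}

/-- the orientation character as a homomorphism -/
noncomputable def orHom (K : AffineTriangulation n) : K.Γ →* ℤˣ where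
  toFun γ := ⟨chZ K γ, chZ K γ, chZ_mul_self γ, chZ_mul_self γ⟩
  map_one' := by
    ext
    show chZ K 1 = 1
    have h := chZ_mul (K := K) 1 1
    rw [mul_one] at h
    have h2 := chZ_mul_self (K := K) 1
    rw [← h] at h2
    exact h2
  map_mul' γ δ := by
    ext
    exact chZ_mul γ δ

theorem exists_or (K : AffineTriangulation n) :
    ∃ Γ₁ : Subgroup K.Γ, Γ₁.FiniteIndex ∧ ∀ γ ∈ Γ₁, chZ K γ = 1 := by
  refine ⟨(orHom K).ker, inferInstance, fun γ hγ => ?_⟩
  have h : orHom K γ = 1 := hγ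
  exact congrArg Units.val h

theorem final_betti_gen (hc : Connected K) (o : Lab K) {m : ℕ} (hn : n = 2 * m) (hm : 0 < m)
    (N : ℕ) :
    ∃ Γ₀ : Subgroup K.Γ, Γ₀.FiniteIndex ∧ ∀ (H : Subgroup K.Γ) (_ : H.FiniteIndex), H ≤ Γ₀ →
      (N : ℤ) * (2 ^ n * (H.index * |K.eulerChar|)) ≤
        N * ((n.choose m : ℤ) *
          ((Module.finrank ℚ (ZC (o.restrict H) ℚ (m + 1)) : ℤ) -
            Module.finrank ℚ (BC (o.restrict H) ℚ m))) + H.index := by
  obtain ⟨e, ρ, hρ⟩ := exists_wrep K m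
  obtain ⟨B, hB⟩ := bdE_norm o (m + 1)
  obtain ⟨Γ₁, hΓ₁, hor⟩ := exists_or K
  obtain ⟨Γ₂, hΓ₂, hcomp⟩ := comparison (gamma_fg K hc) (fcT_free (K := K) (t := m + 1 + 1))
    (fcT_finite K (m + 1 + 1)) (bdE o (m + 1)) B hB (n.choose m) ρ (2 * N)
  refine ⟨Γ₁ ⊓ Γ₂, inferInstance, fun H hH hle => ?_⟩
  have h1 := hcomp H (hle.trans inf_le_right) hH
  obtain ⟨s, hs, h2⟩ := main_ineq (K := K.restrict H) (m := m)
    (fun γ => hor _ (hle.trans inf_le_left γ.2)) (o.restrict H) ℚ hn hm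
  rw [K.restrict_eulerChar H, abs_mul, abs_of_nonneg (Int.natCast_nonneg _)] at h2
  rw [← esol_zb o H hs e ρ hρ (m + 1), ← tsol_zb ℚ o H (m + 1)] at h1
  have h3 : (2 * (N : ℤ)) * (Module.finrank ℝ (ZB (o.restrict H)
      (WC (K := K.restrict H) m s hs) (m + 1 + 1)) : ℤ) ≤ (2 * N) * ((n.choose m : ℤ) *
        (Module.finrank ℚ (ZB (o.restrict H) (PC ℚ (o.restrict H)) (m + 1 + 1)) : ℤ)) +
          H.index := by
    exact_mod_cast h1
  have h4 := mul_le_mul_of_nonneg_left h2 (Int.natCast_nonneg N)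
  have e1 : m + 1 + 1 = m + 2 := rfl
  rw [e1] at h3
  linarith

theorem final_betti_p (hc : Connected K) (o : Lab K) {m : ℕ} (hn : n = 2 * m) (hm : 0 < m) :
    ∃ (p : ℕ) (_ : Fact p.Prime) (Γ₀ : Subgroup K.Γ), Γ₀.FiniteIndex ∧
      ∀ (H : Subgroup K.Γ) (_ : H.FiniteIndex), H ≤ Γ₀ →
        2 ^ n * (H.index * |K.eulerChar|) ≤ (n.choose m : ℤ) *
          ((Module.finrank (ZMod p) (ZC (o.restrict H) (ZMod p) (m + 1)) : ℤ) -
            Module.finrank (ZMod p) (BC (o.restrict H) (ZMod p) m)) := by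
  obtain ⟨e, ρ, hρ⟩ := exists_wrep K m
  obtain ⟨B, hB⟩ := bdE_norm o (m + 1)
  obtain ⟨Γ₁, hΓ₁, hor⟩ := exists_or K
  obtain ⟨p, hp, Γ₂, hΓ₂, hcomp⟩ := comparison_p (gamma_fg K hc)
    (fcT_free (K := K) (t := m + 1 + 1)) (fcT_finite K (m + 1 + 1)) (bdE o (m + 1)) B hB
    (n.choose m) ρ
  refine ⟨p, hp, Γ₁ ⊓ Γ₂, inferInstance, fun H hH hle => ?_⟩
  have h1 := hcomp H (hle.trans inf_le_right) hH
  obtain ⟨s, hs, h2⟩ := main_ineq (K := K.restrict H) (m := m)
    (fun γ => hor _ (hle.trans inf_le_left γ.2)) (o.restrict H) (ZMod p) hn hm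
  rw [K.restrict_eulerChar H, abs_mul, abs_of_nonneg (Int.natCast_nonneg _)] at h2
  rw [← esol_zb o H hs e ρ hρ (m + 1), ← tsol_zb (ZMod p) o H (m + 1)] at h1
  have h3 : (Module.finrank ℝ (ZB (o.restrict H)
      (WC (K := K.restrict H) m s hs) (m + 1 + 1)) : ℤ) ≤ (n.choose m : ℤ) *
        (Module.finrank (ZMod p) (ZB (o.restrict H) (PC (ZMod p) (o.restrict H)) (m + 1 + 1)) : ℤ) := by
    exact_mod_cast h1
  have e1 : m + 1 + 1 = m + 2 := rfl
  rw [e1] at h3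
  linarith

/-- The inequality for the limit of the normalised middle Betti numbers. -/
theorem final_limit {a c χ : ℝ} (b : ℕ → ℝ) (x : ℕ → ℕ) (hx : ∀ i, 0 < x i)
    (h : ∀ N : ℕ, ∀ᶠ i in Filter.atTop, N * (a * (x i * χ)) ≤ N * (c * b i) + x i) {β : ℝ}
    (hβ : Filter.Tendsto (fun i => b i / x i) Filter.atTop (nhds β)) : a * χ ≤ c * β := by
  by_contra hcon
  push Not at hcon
  obtain ⟨N, hN⟩ := exists_nat_gt (1 / (a * χ - c * β))
  have hpos : 0 < a * χ - c * β := by linarith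
  have hN' : 1 < N * (a * χ - c * β) := by
    rw [div_lt_iff₀ hpos] at hN
    exact hN
  have h1 : ∀ᶠ i in Filter.atTop, (N : ℝ) * (a * χ) - N * (c * (b i / x i)) ≤ 1 := by
    filter_upwards [h N] with i hi
    have hxi : (0 : ℝ) < x i := by exact_mod_cast hx i
    have e : b i = b i / x i * x i := by field_simp
    rw [e] at hi
    have h2 : ((N : ℝ) * (a * χ) - N * (c * (b i / x i))) * x i ≤ 1 * x i := by
      linarith
    exact le_of_mul_le_mul_right h2 hxi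
  have h2 : Filter.Tendsto (fun i => (N : ℝ) * (a * χ) - N * (c * (b i / x i))) Filter.atTop
      (nhds ((N : ℝ) * (a * χ) - N * (c * β))) :=
    ((hβ.const_mul c).const_mul (N : ℝ)).const_sub _
  have h3 := le_of_tendsto h2 h1
  linarith

end Pool.Agent.ChG
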