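import Pool.Agent.ChG.EDim

/-!
# Exactness for linearly independent vectors

Let `x v`, `v ∈ τ`, be linearly independent, `B ⊆ τ`.  `kos1` says that the complex of the families
`a I ∈ LW m x I` on the sets `B ⊆ I ⊆ τ` with the differential
`(d a) I = ∑ v ∈ I \ B, con (x v) (a (I.erase v))` is exact at the sets with `q > B.card` elements.

Induction on the number of elements of `τ \ B`.  If `τ = B` there is nothing to prove.  Choose
`w ∈ τ \ B`.  By induction for `τ.erase w` (and `B`) there is `b₁` with `d b₁ = a` on the `I` with `w ∉ I`; we may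
assume `b₁ J = 0` if `w ∈ J` or `¬ B ⊆ J` or `¬ J ⊆ τ` or `J.card + 1 ≠ q`.  Then
`a' = a - d b₁` (on the `I` with `B ⊆ I ⊆ τ`, `I.card = q`; `0` elsewhere) vanishes on the `I` with `w ∉ I`, is closed
(`d d = 0` by `con_con`, `con_comm`) and has values in `LW m x I`.  So it is closed for `B' = insert w B`: the
additional term `con (x w) (a' (I.erase w))` is `0`.  If `q > B'.card` apply the
induction hypothesis to `τ`, `B'`: `a' = d' b₂`, `b₂ J = 0` unless `B' ⊆ J`; then `d b₂ = d' b₂` as
`con (x w)` kills `b₂ (I.erase w)` (which is `0`) and for `w ∉ I` both sides are `0`.  If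
`q = B'.card` then `a'` is concentrated at `I = B'`, `ω = a' B'` is killed by all `x v`, `v ∈ τ` (closedness,
`a' (insert v B' .erase w) = 0`; if `m < q + 1` because the degree of `ω` is zero, or `ω = 0`); with `ξ`
dual to `w` (`exists_dual_cov` for `τ`) `b₂ B = wdg ξ ω`, `b₂ = 0` elsewhere: `con (x w) (wdg ξ ω) = ω`,
`con (x v) (wdg ξ ω) = 0` for `v ∈ τ`, `v ≠ w`, so `wdg ξ ω ∈ LW m x B` and `d b₂ = a'`.
-/

namespace Pool.Agent.ChG

variable {n : ℕ} {U : Type} [DecidableEq U]

private theorem Kos1_insert {m : ℕ} {x : U → Fin n → ℝ} {J : Finset U} {v : U} (hv : v ∉ J)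
    {ω : EE n} (h : ω ∈ LW m x J) : con (x v) ω ∈ LW m x (insert v J) := by
  rw [mem_LW, Finset.card_insert_of_notMem hv]
  rcases mem_LW.1 h with ⟨h1, h2, h3⟩ | ⟨h1, h2⟩
  · by_cases h4 : J.card + 1 ≤ m
    · refine Or.inl ⟨h4, ?_, ?_⟩
      · refine con_lam (x v) ?_
        have h5 : m - (J.card + 1) + 1 = m - J.card := by omega
        rw [h5]
        exact h2
      · intro u hu
        rcases Finset.mem_insert.1 hu with rfl | hu
        · exact con_con _ _
        · rw [con_comm, h3 u hu, map_zero, neg_zero]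
    · refine Or.inr ⟨by omega, ?_⟩
      have h5 : m - J.card = 0 := by omega
      rw [h5] at h2
      exact con_lam_zero _ h2
  · exact Or.inr ⟨by omega, by rw [h2, map_zero]⟩

private theorem Kos1_erase {m : ℕ} {x : U → Fin n → ℝ} {I : Finset U} {v : U} (hv : v ∈ I)
    {ω : EE n} (h : ω ∈ LW m x (I.erase v)) : con (x v) ω ∈ LW m x I := by
  have h1 := Kos1_insert (Finset.notMem_erase v I) h
  rwa [Finset.insert_erase hv] at h1

private theorem Kos1_dd (x : U → Fin n → ℝ) (B I : Finset U) (f : Finset U → EE n) :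
    ∑ v ∈ I \ B, con (x v) (∑ u ∈ (I.erase v) \ B, con (x u) (f ((I.erase v).erase u))) = 0 := by
  have e : ∀ v ∈ I \ B, con (x v) (∑ u ∈ (I.erase v) \ B, con (x u) (f ((I.erase v).erase u))) =
      ∑ u ∈ (I.erase v) \ B, con (x v) (con (x u) (f ((I.erase v).erase u))) :=
    fun v _ => map_sum _ _ _
  rw [Finset.sum_congr rfl e, Finset.sum_sigma']
  refine Finset.sum_involution (fun y _ => ⟨y.2, y.1⟩) ?_ ?_ ?_ ?_
  · rintro ⟨v, u⟩ _
    dsimp only
    rw [Finset.erase_right_comm (s := I) (a := u) (b := v), con_comm (x v) (x u), neg_add_cancel]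
  · rintro ⟨v, u⟩ hy - h
    rw [Finset.mem_sigma] at hy
    dsimp only at hy h
    rw [Finset.mem_sdiff, Finset.mem_sdiff, Finset.mem_erase] at hy
    rw [Sigma.mk.injEq] at h
    exact hy.2.1.1 h.1
  · rintro ⟨v, u⟩ hy
    rw [Finset.mem_sigma] at hy ⊢
    dsimp only at hy ⊢
    rw [Finset.mem_sdiff, Finset.mem_sdiff, Finset.mem_erase] at hy ⊢
    exact ⟨⟨hy.2.1.2, hy.2.2⟩, ⟨hy.2.1.1.symm, hy.1.1⟩, hy.1.2⟩
  · rintro ⟨v, u⟩ _
    rfl

private theorem Kos1_aux (N : ℕ) : ∀ {m : ℕ} {x : U → Fin n → ℝ} {τ : Finset U}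
    (_ : LinearIndependent ℝ (fun v : τ => x v)) {B : Finset U} (_ : B ⊆ τ)
    (_ : (τ \ B).card = N) {q : ℕ}
    (_ : B.card < q) (a : Finset U → EE n) (_ : ∀ I, a I ∈ LW m x I)
    (_ : ∀ I, B ⊆ I → I ⊆ τ → I.card = q + 1 →
      ∑ v ∈ I \ B, con (x v) (a (I.erase v)) = 0),
    ∃ b : Finset U → EE n, (∀ J, b J ∈ LW m x J) ∧ ∀ I, B ⊆ I → I ⊆ τ → I.card = q →
      ∑ v ∈ I \ B, con (x v) (b (I.erase v)) = a I := by
  induction N with
  | zero =>
    intro m x τ _ B hB hN q hq a _ _
    refine ⟨0, fun J => Submodule.zero_mem _, fun I hBI hIτ hI => ?_⟩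
    exfalso
    have h1 : τ ⊆ B := Finset.sdiff_eq_empty_iff_subset.1 (Finset.card_eq_zero.1 hN)
    have h2 := Finset.card_le_card (hIτ.trans h1)
    omega
  | succ N ih =>
    intro m x τ hx B hB hN q hq a ha hc
    have hne : (τ \ B).Nonempty := Finset.card_pos.1 (by omega)
    obtain ⟨w, hw⟩ := hne
    rw [Finset.mem_sdiff] at hw
    obtain ⟨hwτ, hwB⟩ := hw
    -- the first step
    have hx' : LinearIndependent ℝ (fun v : (τ.erase w : Finset U) => x v) := by
      have h := hx.comp (fun v : (τ.erase w : Finset U) => (⟨v.1, Finset.mem_of_mem_erase v.2⟩ : τ))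
        (by
          intro u v huv
          exact Subtype.ext (congrArg (fun z : τ => z.1) huv))
      exact h
    have hBw : B ⊆ τ.erase w := fun v hv => Finset.mem_erase.2 ⟨fun h => hwB (h ▸ hv), hB hv⟩
    have hcard1 : ((τ.erase w) \ B).card = N := by
      have h1 : (τ.erase w) \ B = (τ \ B).erase w := by
        ext v
        simp only [Finset.mem_sdiff, Finset.mem_erase]
        tauto
      rw [h1, Finset.card_erase_of_mem (Finset.mem_sdiff.2 ⟨hwτ, hwB⟩), hN]
      rfl
    obtain ⟨b₁, hb₁, hb₁'⟩ := ih hx' hBw hcard1 hq a ha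
      (fun I h1 h2 h3 => hc I h1 (h2.trans (Finset.erase_subset w τ)) h3)
    let c₁ : Finset U → EE n := fun J => if w ∉ J then b₁ J else 0
    have hc₁ : ∀ J, c₁ J ∈ LW m x J := by
      intro J
      by_cases h : w ∉ J
      · have h1 : c₁ J = b₁ J := if_pos h
        rw [h1]
        exact hb₁ J
      · have h1 : c₁ J = 0 := if_neg h
        rw [h1]
        exact Submodule.zero_mem _
    let e₁ : Finset U → EE n := fun I => ∑ v ∈ I \ B, con (x v) (c₁ (I.erase v))
    have he₁ : ∀ I, e₁ I ∈ LW m x I := fun I => Submodule.sum_mem _ fun v hv =>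
      Kos1_erase (Finset.mem_sdiff.1 hv).1 (hc₁ _)
    have he₁' : ∀ I, B ⊆ I → I ⊆ τ → I.card = q → w ∉ I → e₁ I = a I := by
      intro I h1 h2 h3 h4
      rw [← hb₁' I h1 (fun v hv => Finset.mem_erase.2 ⟨fun h => h4 (h ▸ hv), h2 hv⟩) h3]
      refine Finset.sum_congr rfl fun v _ => ?_
      have h5 : c₁ (I.erase v) = b₁ (I.erase v) :=
        if_pos fun h => h4 (Finset.mem_of_mem_erase h)
      rw [h5]
    let a' : Finset U → EE n := fun I => if B ⊆ I ∧ I ⊆ τ ∧ I.card = q then a I - e₁ I else 0
    have ha'pos : ∀ I, B ⊆ I → I ⊆ τ → I.card = q → a' I = a I - e₁ I :=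
      fun I h1 h2 h3 => if_pos ⟨h1, h2, h3⟩
    have ha' : ∀ I, a' I ∈ LW m x I := by
      intro I
      by_cases h : B ⊆ I ∧ I ⊆ τ ∧ I.card = q
      · rw [ha'pos I h.1 h.2.1 h.2.2]
        exact Submodule.sub_mem _ (ha I) (he₁ I)
      · have h1 : a' I = 0 := if_neg h
        rw [h1]
        exact Submodule.zero_mem _
    have haw : ∀ I, w ∉ I → a' I = 0 := by
      intro I hI
      by_cases h : B ⊆ I ∧ I ⊆ τ ∧ I.card = q
      · rw [ha'pos I h.1 h.2.1 h.2.2, he₁' I h.1 h.2.1 h.2.2 hI, sub_self]
      · exact if_neg h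
    have hca' : ∀ I, B ⊆ I → I ⊆ τ → I.card = q + 1 →
        ∑ v ∈ I \ B, con (x v) (a' (I.erase v)) = 0 := by
      intro I h1 h2 h3
      have h4 : ∀ v ∈ I \ B, con (x v) (a' (I.erase v)) =
          con (x v) (a (I.erase v)) - con (x v) (∑ u ∈ (I.erase v) \ B,
            con (x u) (c₁ ((I.erase v).erase u))) := by
        intro v hv
        rw [Finset.mem_sdiff] at hv
        rw [ha'pos (I.erase v) ?_ ((Finset.erase_subset v I).trans h2) ?_, map_sub]
        · intro u hu
          exact Finset.mem_erase.2 ⟨fun h => hv.2 (h ▸ hu), h1 hu⟩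
        · rw [Finset.card_erase_of_mem hv.1, h3]
          rfl
      rw [Finset.sum_congr rfl h4, Finset.sum_sub_distrib, hc I h1 h2 h3, Kos1_dd, sub_zero]
    have hB' : insert w B ⊆ τ := Finset.insert_subset hwτ hB
    have hB'card : (insert w B).card = B.card + 1 := Finset.card_insert_of_notMem hwB
    -- it is enough to solve the equation for `a'`
    suffices hs : ∃ b : Finset U → EE n, (∀ J, b J ∈ LW m x J) ∧
        ∀ I, B ⊆ I → I ⊆ τ → I.card = q → ∑ v ∈ I \ B, con (x v) (b (I.erase v)) = a' I by
      obtain ⟨b₂, h1, h2⟩ := hs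
      refine ⟨fun J => c₁ J + b₂ J, fun J => Submodule.add_mem _ (hc₁ J) (h1 J),
        fun I h3 h4 h5 => ?_⟩
      have h6 : ∀ v ∈ I \ B, con (x v) (c₁ (I.erase v) + b₂ (I.erase v)) =
          con (x v) (c₁ (I.erase v)) + con (x v) (b₂ (I.erase v)) := fun v _ => map_add _ _ _
      rw [Finset.sum_congr rfl h6, Finset.sum_add_distrib, h2 I h3 h4 h5, ha'pos I h3 h4 h5]
      show e₁ I + (a I - e₁ I) = a I
      abel
    have hsd : ∀ I : Finset U, w ∈ I → I \ B = insert w (I \ insert w B) := by
      intro I hI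
      ext v
      simp only [Finset.mem_sdiff, Finset.mem_insert]
      by_cases hv : v = w
      · subst hv
        simp [hI, hwB]
      · simp [hv]
    have hsd' : ∀ I : Finset U, w ∉ I \ insert w B := by
      intro I h
      exact (Finset.mem_sdiff.1 h).2 (Finset.mem_insert_self _ _)
    by_cases hq' : (insert w B).card < q
    · have hN' : (τ \ insert w B).card = N := by
        have h1 := hsd τ hwτ
        rw [h1, Finset.card_insert_of_notMem (hsd' τ)] at hN
        omega
      obtain ⟨b₂, hb₂, hb₂'⟩ := ih hx hB' hN' hq' a' ha' (by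
        intro I h1 h2 h3
        have hwI : w ∈ I := h1 (Finset.mem_insert_self _ _)
        have h4 := hca' I ((Finset.subset_insert w B).trans h1) h2 h3
        rw [hsd I hwI, Finset.sum_insert (hsd' I), haw _ (Finset.notMem_erase w I), map_zero,
          zero_add] at h4
        exact h4)
      let c₂ : Finset U → EE n := fun J => if w ∈ J then b₂ J else 0
      refine ⟨c₂, fun J => ?_, fun I h1 h2 h3 => ?_⟩
      · by_cases h : w ∈ J
        · have h1 : c₂ J = b₂ J := if_pos h
          rw [h1]
          exact hb₂ J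
        · have h1 : c₂ J = 0 := if_neg h
          rw [h1]
          exact Submodule.zero_mem _
      · by_cases hwI : w ∈ I
        · rw [hsd I hwI, Finset.sum_insert (hsd' I)]
          have h4 : c₂ (I.erase w) = 0 := if_neg (Finset.notMem_erase w I)
          rw [h4, map_zero, zero_add, ← hb₂' I (Finset.insert_subset hwI h1) h2 h3]
          refine Finset.sum_congr rfl fun v hv => ?_
          have h5 : c₂ (I.erase v) = b₂ (I.erase v) := by
            refine if_pos (Finset.mem_erase.2 ⟨?_, hwI⟩)
            intro h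
            exact hsd' I (h ▸ hv)
          rw [h5]
        · rw [haw I hwI]
          refine Finset.sum_eq_zero fun v _ => ?_
          have h4 : c₂ (I.erase v) = 0 := if_neg fun h => hwI (Finset.mem_of_mem_erase h)
          rw [h4, map_zero]
    · have hqe : q = B.card + 1 := by omega
      obtain ⟨ξ, hξ1, hξ0⟩ := exists_dual_cov hx hwτ
      let ω : EE n := a' (insert w B)
      have hω : ω ∈ LW m x (insert w B) := ha' _
      have hωk : ∀ v ∈ insert w B, con (x v) ω = 0 := by
        intro v hv
        rcases mem_LW.1 hω with ⟨-, -, h3⟩ | ⟨-, h2⟩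
        · exact h3 v hv
        · rw [h2, map_zero]
      let c₂ : Finset U → EE n := fun J => if J = B then wdg ξ ω else 0
      have hc₂B : c₂ B = wdg ξ ω := if_pos rfl
      refine ⟨c₂, fun J => ?_, fun I h1 h2 h3 => ?_⟩
      · by_cases h : J = B
        · subst h
          rw [hc₂B, mem_LW]
          rcases mem_LW.1 hω with ⟨h1, h2, h3⟩ | ⟨h1, h2⟩
          · refine Or.inl ⟨by omega, ?_, ?_⟩
            · have h4 := wdg_lam ξ h2
              have h5 : m - (insert w J).card + 1 = m - J.card := by omega
              rwa [h5] at h4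
            · intro v hv
              rw [con_wdg, hξ0 v (hB hv) (fun h => hwB (h ▸ hv)), zero_smul,
                h3 v (Finset.mem_insert_of_mem hv), map_zero, sub_zero]
          · rw [h2, map_zero]
            by_cases h6 : J.card ≤ m
            · exact Or.inl ⟨h6, Submodule.zero_mem _, fun v _ => map_zero _⟩
            · exact Or.inr ⟨by omega, rfl⟩
        · have h1 : c₂ J = 0 := if_neg h
          rw [h1]
          exact Submodule.zero_mem _
      · -- `I = insert u B`
        have hsub : ∃ u ∈ I, u ∉ B := by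
          by_contra hcon
          push Not at hcon
          have h4 := Finset.card_le_card (show I ⊆ B from hcon)
          omega
        obtain ⟨u, huI, huB⟩ := hsub
        have hI : I = insert u B := by
          symm
          refine Finset.eq_of_subset_of_card_le (Finset.insert_subset huI h1) ?_
          rw [Finset.card_insert_of_notMem huB]
          omega
        have hIB : I \ B = {u} := by
          rw [hI]
          ext v
          simp only [Finset.mem_sdiff, Finset.mem_insert, Finset.mem_singleton]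
          constructor
          · rintro ⟨h4 | h4, h5⟩
            · exact h4
            · exact absurd h4 h5
          · rintro rfl
            exact ⟨Or.inl rfl, huB⟩
        have hIe : I.erase u = B := by
          rw [hI, Finset.erase_insert huB]
        rw [hIB, Finset.sum_singleton, hIe, hc₂B, con_wdg]
        by_cases huw : u = w
        · subst huw
          rw [hξ1, one_smul, hωk u (Finset.mem_insert_self _ _), map_zero, sub_zero, hI]
        · have hwI : w ∉ I := by
            rw [hI, Finset.mem_insert, not_or]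
            exact ⟨fun h => huw h.symm, hwB⟩
          have huw' : u ∉ insert w B := by
            rw [Finset.mem_insert, not_or]
            exact ⟨huw, huB⟩
          have h4 := hca' (insert u (insert w B))
            ((Finset.subset_insert w B).trans (Finset.subset_insert _ _))
            (Finset.insert_subset (h2 huI) hB')
            (by rw [Finset.card_insert_of_notMem huw', hB'card, hqe])
          have h5 : insert u (insert w B) \ B = {u, w} := by
            ext v
            simp only [Finset.mem_sdiff, Finset.mem_insert, Finset.mem_singleton]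
            constructor
            · rintro ⟨h6 | h6 | h6, h7⟩
              · exact Or.inl h6
              · exact Or.inr h6
              · exact absurd h6 h7
            · rintro (rfl | rfl)
              · exact ⟨Or.inl rfl, huB⟩
              · exact ⟨Or.inr (Or.inl rfl), hwB⟩
          rw [h5, Finset.sum_pair huw, Finset.erase_insert huw',
            haw _ (Finset.notMem_erase w _), map_zero, add_zero] at h4
          have h6 : con (x u) ω = 0 := h4
          rw [hξ0 u (h2 huI) huw, zero_smul, h6, map_zero, sub_zero, haw I hwI]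

theorem kos1 {m : ℕ} {x : U → Fin n → ℝ} {τ : Finset U}
    (hx : LinearIndependent ℝ (fun v : τ => x v)) {B : Finset U} (hB : B ⊆ τ) {q : ℕ}
    (hq : B.card < q) (a : Finset U → EE n) (ha : ∀ I, a I ∈ LW m x I)
    (hc : ∀ I, B ⊆ I → I ⊆ τ → I.card = q + 1 →
      ∑ v ∈ I \ B, con (x v) (a (I.erase v)) = 0) :
    ∃ b : Finset U → EE n, (∀ J, b J ∈ LW m x J) ∧ ∀ I, B ⊆ I → I ⊆ τ → I.card = q →
      ∑ v ∈ I \ B, con (x v) (b (I.erase v)) = a I :=
  Kos1_aux (τ \ B).card hx hB rfl hq a ha hc

end Pool.Agent.ChG
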