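import Pool.Agent.ChG.Kos1

/-!
# Exactness for `n + 1` vectors in general position

Let `σ` have `n + 1` elements, any `n` of the vectors `x v`, `v ∈ σ`, linearly independent, and
`∑ v ∈ σ, t v • x v = 0` with all `t v ≠ 0`.  `kos2`: for `B ⊆ σ`, `B.card < q ≤ m`, `m < n`, the complex of the
families `a I ∈ LW m x I` on the sets `B ⊆ I ⊆ σ` is exact at `q`, where for `q = m` closedness is
replaced by `∑ I, (∏ v ∈ I \ B, t v) * scal (a I) = 0`.

Downward induction on `B.card` from `m` (`B.card = m`: no `q`) using `kos2_bot`: for `B.card = q ≤ m` the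
value `a B` is zero if it is closed, i.e. if `con (x v) (a B) = 0` for all `v ∈ σ \ B` (for `q < m`: then `a B` is
killed by all vectors, and `con (x v)`, `v ∈ σ`, determine it: `con_sum`, a form of
positive degree killed by a basis is `0`, `killed_finrank`), resp. `scal (a B) = 0` for `q = m`.
Inductive step: choose `w ∈ σ \ B`.  By `kos1` for `τ = σ.erase w` (for `q < m` the family is closed there;
for `q = m` closedness for `τ` holds because `LW m x I = 0` for `I.card = m + 1` and
`con (x v)` kills degree `0`) there is `b₁` with `d b₁ = a` on the `I` with `w ∉ I`, `b₁ J = 0` for `w ∈ J`.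
`a' = a - d b₁` vanishes on the `I` with `w ∉ I` and is closed (for `q = m`:
`∑ I (∏ t) scal (d b₁ I) = ∑ J (∏_{J \ B} t) ∑ v ∈ σ \ J, t v scal (con (x v) (b₁ J))` and
`∑ v ∈ σ, t v • con (x v) = 0`, where the `v ∈ J` contribute `0` as `con (x v) (b₁ J) = 0`).  So `a'` is closed
for `B' = insert w B` (for `q = m` divide by `t w ≠ 0`).  If `q > B'.card` use the induction hypothesis, if
`q = B'.card` then `a' = 0` by `kos2_bot`.
-/

namespace Pool.Agent.ChG

variable {n : ℕ} {U : Type} [DecidableEq U]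

theorem kos2_bot {m : ℕ} (hmn : m < n) {x : U → Fin n → ℝ} {σ : Finset U} (hc : σ.card = n + 1)
    (hx : ∀ τ ⊆ σ, τ.card = n → LinearIndependent ℝ (fun v : τ => x v))
    {B : Finset U} (hB : B ⊆ σ) {ω : EE n} (hω : ω ∈ LW m x B)
    (h1 : B.card < m → ∀ v ∈ σ \ B, con (x v) ω = 0) (h2 : B.card = m → scal ω = 0) : ω = 0 := by
  rcases mem_LW.1 hω with ⟨hcard, hlam, hkill⟩ | ⟨-, h0⟩
  · rcases Nat.lt_or_ge B.card m with hlt | hge
    · obtain ⟨τ, hτσ, hτ⟩ := Finset.exists_subset_card_eq (s := σ) (n := n) (by omega)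
      have hfin := killed_finrank (hx τ hτσ hτ) (m - B.card)
      have h0 : (n - τ.card).choose (m - B.card) = 0 := by
        rw [hτ, Nat.sub_self]
        exact Nat.choose_eq_zero_of_lt (by omega)
      rw [h0] at hfin
      haveI := lam_finite (n := n) (m - B.card)
      haveI : Module.Finite ℝ (Lam n (m - B.card) ⊓ ⨅ v ∈ τ, LinearMap.ker (con (x v)) :
          Submodule ℝ (EE n)) :=
        Submodule.finiteDimensional_of_le inf_le_left
      have hbot := Submodule.finrank_eq_zero.1 hfin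
      have hmem : ω ∈ (Lam n (m - B.card) ⊓ ⨅ v ∈ τ, LinearMap.ker (con (x v)) :
          Submodule ℝ (EE n)) := by
        refine Submodule.mem_inf.2 ⟨hlam, ?_⟩
        simp only [Submodule.mem_iInf]
        intro v hv
        rw [LinearMap.mem_ker]
        by_cases hvB : v ∈ B
        · exact hkill v hvB
        · exact h1 hlt v (Finset.mem_sdiff.2 ⟨hτσ hv, hvB⟩)
      rw [hbot] at hmem
      exact (Submodule.mem_bot ℝ).1 hmem
    · have heq : B.card = m := le_antisymm hcard hge
      have hl0 : ω ∈ Lam n 0 := by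
        rw [heq, Nat.sub_self] at hlam
        exact hlam
      rw [lam_zero hl0, h2 heq, map_zero]
  · exact h0

omit [DecidableEq U] in
private theorem kos2_kill {m : ℕ} {x : U → Fin n → ℝ} {J : Finset U} {ω : EE n}
    (hω : ω ∈ LW m x J) {v : U} (hv : v ∈ J) : con (x v) ω = 0 := by
  rcases mem_LW.1 hω with ⟨-, -, h⟩ | ⟨-, rfl⟩
  · exact h v hv
  · exact map_zero _

private theorem kos2_con {m : ℕ} {x : U → Fin n → ℝ} {J : Finset U} {v : U} (hv : v ∉ J)
    {ω : EE n} (hω : ω ∈ LW m x J) : con (x v) ω ∈ LW m x (insert v J) := by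
  rcases mem_LW.1 hω with ⟨hcard, hlam, hkill⟩ | ⟨-, rfl⟩
  · by_cases h : J.card + 1 ≤ m
    · refine mem_LW.2 (Or.inl ⟨?_, ?_, ?_⟩)
      · rw [Finset.card_insert_of_notMem hv]
        exact h
      · rw [Finset.card_insert_of_notMem hv]
        apply con_lam
        have h3 : m - (J.card + 1) + 1 = m - J.card := by omega
        rw [h3]
        exact hlam
      · intro u hu
        rcases Finset.mem_insert.1 hu with rfl | hu
        · exact con_con _ _
        · rw [con_comm, hkill u hu, map_zero, neg_zero]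
    · have h3 : m - J.card = 0 := by omega
      rw [h3] at hlam
      rw [con_lam_zero _ hlam]
      exact Submodule.zero_mem _
  · rw [map_zero]
    exact Submodule.zero_mem _

private theorem kos2_con' {m : ℕ} {x : U → Fin n → ℝ} {I : Finset U} {v : U} (hv : v ∈ I)
    {ω : EE n} (hω : ω ∈ LW m x (I.erase v)) : con (x v) ω ∈ LW m x I := by
  have h := kos2_con (Finset.notMem_erase v I) hω
  rwa [Finset.insert_erase hv] at h

/-- the differential is a differential -/
private theorem kos2_dd (x : U → Fin n → ℝ) (B I : Finset U) (b : Finset U → EE n) :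
    ∑ v ∈ I \ B, con (x v) (∑ u ∈ (I.erase v) \ B, con (x u) (b ((I.erase v).erase u))) = 0 := by
  set S := ∑ v ∈ I \ B, con (x v) (∑ u ∈ (I.erase v) \ B, con (x u) (b ((I.erase v).erase u)))
    with hS
  have h1 : S = ∑ v ∈ I \ B, ∑ u ∈ (I \ B).erase v,
      con (x v) (con (x u) (b ((I.erase v).erase u))) := by
    rw [hS]
    refine Finset.sum_congr rfl fun v _ => ?_
    rw [map_sum]
    refine Finset.sum_congr ?_ fun u _ => rfl
    ext u
    simp only [Finset.mem_sdiff, Finset.mem_erase]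
    tauto
  have h2 : S = ∑ u ∈ I \ B, ∑ v ∈ (I \ B).erase u,
      con (x v) (con (x u) (b ((I.erase v).erase u))) := by
    rw [h1]
    apply Finset.sum_comm'
    intro v u
    simp only [Finset.mem_sdiff, Finset.mem_erase]
    constructor
    · rintro ⟨⟨h1, h2⟩, h3, h4, h5⟩
      exact ⟨⟨fun h => h3 h.symm, h1, h2⟩, h4, h5⟩
    · rintro ⟨⟨h1, h2, h3⟩, h4, h5⟩
      exact ⟨⟨h2, h3⟩, fun h => h1 h.symm, h4, h5⟩
  have h3 : S = -S := by
    conv_lhs => rw [h2]
    rw [h1, ← Finset.sum_neg_distrib]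
    refine Finset.sum_congr rfl fun u _ => ?_
    rw [← Finset.sum_neg_distrib]
    refine Finset.sum_congr rfl fun v _ => ?_
    rw [con_comm, Finset.erase_right_comm]
  have h4 : (2 : ℝ) • S = 0 := by
    rw [two_smul]
    nth_rewrite 2 [h3]
    exact add_neg_cancel S
  exact (smul_eq_zero.1 h4).resolve_left two_ne_zero

/-- the relation between the values of an exact family -/
private theorem kos2_zero {m : ℕ} {x : U → Fin n → ℝ} {σ : Finset U} {t : U → ℝ}
    (hrel : ∑ v ∈ σ, t v • x v = 0) (B : Finset U) (b : Finset U → EE n)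
    (hb : ∀ J, b J ∈ LW m x J) :
    ∑ I ∈ σ.powerset.filter (fun I => B ⊆ I ∧ I.card = m),
      (∏ v ∈ I \ B, t v) * scal (∑ v ∈ I \ B, con (x v) (b (I.erase v))) = 0 := by
  have h1 : ∀ J : Finset U, J ⊆ σ → ∑ v ∈ σ \ J, t v • con (x v) (b J) = 0 := by
    intro J hJ
    have h2 : ∑ v ∈ σ, t v • con (x v) (b J) = 0 := by
      rw [← con_sum, hrel]
      have h3 := con_sum (∅ : Finset U) t x (b J)
      simpa using h3
    rw [← Finset.sum_sdiff hJ] at h2
    have h3 : ∑ v ∈ J, t v • con (x v) (b J) = 0 :=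
      Finset.sum_eq_zero fun v hv => by rw [kos2_kill (hb J) hv, smul_zero]
    rw [h3, add_zero] at h2
    exact h2
  have h2 : ∑ I ∈ σ.powerset.filter (fun I => B ⊆ I ∧ I.card = m),
      (∏ v ∈ I \ B, t v) * scal (∑ v ∈ I \ B, con (x v) (b (I.erase v))) =
      ∑ J ∈ σ.powerset.filter (fun J => B ⊆ J ∧ J.card + 1 = m),
        ∑ v ∈ σ \ J, (∏ u ∈ J \ B, t u) * (t v * scal (con (x v) (b J))) := by
    have h3 : ∀ I ∈ σ.powerset.filter (fun I => B ⊆ I ∧ I.card = m),
        (∏ v ∈ I \ B, t v) * scal (∑ v ∈ I \ B, con (x v) (b (I.erase v))) =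
        ∑ v ∈ I \ B, (∏ v ∈ I \ B, t v) * scal (con (x v) (b (I.erase v))) := by
      intro I _
      rw [map_sum, Finset.mul_sum]
    rw [Finset.sum_congr rfl h3, Finset.sum_sigma', Finset.sum_sigma']
    refine Finset.sum_nbij' (fun p => ⟨p.1.erase p.2, p.2⟩) (fun p => ⟨insert p.2 p.1, p.2⟩)
      ?_ ?_ ?_ ?_ ?_
    · rintro ⟨I, v⟩ hp
      simp only [Finset.mem_sigma, Finset.mem_filter, Finset.mem_powerset, Finset.mem_sdiff] at hp ⊢
      obtain ⟨⟨hI, hBI, hcI⟩, hv, hvB⟩ := hp
      refine ⟨⟨(Finset.erase_subset _ _).trans hI, ?_, ?_⟩, hI hv, Finset.notMem_erase _ _⟩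
      · intro u hu
        exact Finset.mem_erase.2 ⟨fun h => hvB (h ▸ hu), hBI hu⟩
      · rw [Finset.card_erase_add_one hv, hcI]
    · rintro ⟨J, v⟩ hp
      simp only [Finset.mem_sigma, Finset.mem_filter, Finset.mem_powerset, Finset.mem_sdiff] at hp ⊢
      obtain ⟨⟨hJ, hBJ, hcJ⟩, hv, hvJ⟩ := hp
      refine ⟨⟨Finset.insert_subset hv hJ, hBJ.trans (Finset.subset_insert _ _), ?_⟩,
        Finset.mem_insert_self _ _, fun h => hvJ (hBJ h)⟩
      rw [Finset.card_insert_of_notMem hvJ, hcJ]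
    · rintro ⟨I, v⟩ hp
      simp only [Finset.mem_sigma, Finset.mem_filter, Finset.mem_powerset, Finset.mem_sdiff] at hp
      simp only [Sigma.mk.injEq, heq_eq_eq, and_true]
      exact Finset.insert_erase hp.2.1
    · rintro ⟨J, v⟩ hp
      simp only [Finset.mem_sigma, Finset.mem_filter, Finset.mem_powerset, Finset.mem_sdiff] at hp
      simp only [Sigma.mk.injEq, heq_eq_eq, and_true]
      exact Finset.erase_insert hp.2.2
    · rintro ⟨I, v⟩ hp
      simp only [Finset.mem_sigma, Finset.mem_filter, Finset.mem_powerset, Finset.mem_sdiff] at hp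
      obtain ⟨⟨hI, hBI, hcI⟩, hv, hvB⟩ := hp
      show (∏ v ∈ I \ B, t v) * scal (con (x v) (b (I.erase v))) =
        (∏ u ∈ (I.erase v) \ B, t u) * (t v * scal (con (x v) (b (I.erase v))))
      have h4 : (I.erase v) \ B = (I \ B).erase v := by
        ext u
        simp only [Finset.mem_sdiff, Finset.mem_erase]
        tauto
      rw [h4, ← mul_assoc, Finset.prod_erase_mul _ _ (Finset.mem_sdiff.2 ⟨hv, hvB⟩)]
  rw [h2]
  refine Finset.sum_eq_zero fun J hJ => ?_
  rw [← Finset.mul_sum]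
  have h4 : ∑ v ∈ σ \ J, t v * scal (con (x v) (b J)) =
      scal (∑ v ∈ σ \ J, t v • con (x v) (b J)) := by
    rw [map_sum]
    exact Finset.sum_congr rfl fun v _ => by rw [map_smul, smul_eq_mul]
  rw [h4, h1 J (Finset.mem_powerset.1 (Finset.mem_filter.1 hJ).1), map_zero, mul_zero]

/-- one step: the family `a` is exact on the sets not containing `w` -/
private theorem kos2_step {m : ℕ} {x : U → Fin n → ℝ} {σ : Finset U}
    (hc : σ.card = n + 1)
    (hx : ∀ τ ⊆ σ, τ.card = n → LinearIndependent ℝ (fun v : τ => x v)) {t : U → ℝ}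
    (ht : ∀ v ∈ σ, t v ≠ 0) (hrel : ∑ v ∈ σ, t v • x v = 0) {q : ℕ} (hqm : q ≤ m)
    {B : Finset U} (hB : B ⊆ σ) (hq : B.card < q) {w : U} (hw : w ∈ σ) (hwB : w ∉ B)
    (a : Finset U → EE n) (ha : ∀ I, a I ∈ LW m x I)
    (h1 : q < m → ∀ I, B ⊆ I → I ⊆ σ → I.card = q + 1 →
      ∑ v ∈ I \ B, con (x v) (a (I.erase v)) = 0)
    (h2 : q = m → ∑ I ∈ σ.powerset.filter (fun I => B ⊆ I ∧ I.card = m),
      (∏ v ∈ I \ B, t v) * scal (a I) = 0) :
    ∃ b a' : Finset U → EE n, (∀ J, b J ∈ LW m x J) ∧ (∀ J, a' J ∈ LW m x J) ∧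
      (∀ I, ∑ v ∈ I \ B, con (x v) (b (I.erase v)) + a' I = a I) ∧
      (∀ I, B ⊆ I → I ⊆ σ → I.card = q → w ∉ I → a' I = 0) ∧
      (q < m → ∀ I, insert w B ⊆ I → I ⊆ σ → I.card = q + 1 →
        ∑ v ∈ I \ insert w B, con (x v) (a' (I.erase v)) = 0) ∧
      (q = m → ∑ I ∈ σ.powerset.filter (fun I => insert w B ⊆ I ∧ I.card = m),
        (∏ v ∈ I \ insert w B, t v) * scal (a' I) = 0) := by
  have hτ : (σ.erase w).card = n := by
    rw [Finset.card_erase_of_mem hw, hc]
    rfl
  have hBτ : B ⊆ σ.erase w := fun u hu => Finset.mem_erase.2 ⟨fun h => hwB (h ▸ hu), hB hu⟩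
  have hcl : ∀ I, B ⊆ I → I ⊆ σ.erase w → I.card = q + 1 →
      ∑ v ∈ I \ B, con (x v) (a (I.erase v)) = 0 := by
    intro I hBI hI hcI
    rcases Nat.lt_or_ge q m with hlt | hge
    · exact h1 hlt I hBI (hI.trans (Finset.erase_subset _ _)) hcI
    · refine Finset.sum_eq_zero fun v hv => ?_
      have hcard : (I.erase v).card = m := by
        rw [Finset.card_erase_of_mem (Finset.mem_sdiff.1 hv).1, hcI]
        omega
      rcases mem_LW.1 (ha (I.erase v)) with ⟨-, hlam, -⟩ | ⟨-, h0⟩
      · rw [hcard, Nat.sub_self] at hlam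
        exact con_lam_zero _ hlam
      · rw [h0, map_zero]
  obtain ⟨b, hb, hbd⟩ := kos1 (hx (σ.erase w) (Finset.erase_subset _ _) hτ) hBτ hq a ha hcl
  have hzero : ∀ I, B ⊆ I → I ⊆ σ → I.card = q → w ∉ I →
      a I - ∑ v ∈ I \ B, con (x v) (b (I.erase v)) = 0 := by
    intro I hBI hI hcI hwI
    rw [hbd I hBI (fun u hu => Finset.mem_erase.2 ⟨fun h => hwI (h ▸ hu), hI hu⟩) hcI, sub_self]
  refine ⟨b, fun I => a I - ∑ v ∈ I \ B, con (x v) (b (I.erase v)), hb, fun J => ?_, fun I => ?_,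
    hzero, fun hlt I hBI hI hcI => ?_, fun heq => ?_⟩
  · exact Submodule.sub_mem _ (ha J) (Submodule.sum_mem _ fun v hv =>
      kos2_con' (Finset.mem_sdiff.1 hv).1 (hb _))
  · exact add_sub_cancel _ _
  · have hwI : w ∈ I := hBI (Finset.mem_insert_self _ _)
    have hBI' : B ⊆ I := (Finset.subset_insert _ _).trans hBI
    have hw' : w ∈ I \ B := Finset.mem_sdiff.2 ⟨hwI, hwB⟩
    have hset : I \ insert w B = (I \ B).erase w := by
      ext u
      simp only [Finset.mem_sdiff, Finset.mem_erase, Finset.mem_insert]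
      tauto
    have h3 : ∑ v ∈ I \ B, con (x v) (a (I.erase v) -
        ∑ u ∈ (I.erase v) \ B, con (x u) (b ((I.erase v).erase u))) = 0 := by
      simp only [map_sub, Finset.sum_sub_distrib]
      rw [h1 hlt I hBI' hI hcI, kos2_dd, sub_zero]
    rw [← Finset.add_sum_erase _ _ hw'] at h3
    have h4 : a (I.erase w) - ∑ u ∈ (I.erase w) \ B, con (x u) (b ((I.erase w).erase u)) = 0 := by
      refine hzero _ ?_ ((Finset.erase_subset _ _).trans hI) ?_ (Finset.notMem_erase _ _)
      · exact fun u hu => Finset.mem_erase.2 ⟨fun h => hwB (h ▸ hu), hBI' hu⟩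
      · rw [Finset.card_erase_of_mem hwI, hcI]
        rfl
    rw [h4, map_zero, zero_add] at h3
    rw [hset]
    exact h3
  · have h3 : ∑ I ∈ σ.powerset.filter (fun I => B ⊆ I ∧ I.card = m),
        (∏ v ∈ I \ B, t v) * scal (a I - ∑ v ∈ I \ B, con (x v) (b (I.erase v))) = 0 := by
      simp only [map_sub, mul_sub, Finset.sum_sub_distrib]
      rw [h2 heq, kos2_zero hrel B b hb, sub_zero]
    have h4 : ∑ I ∈ σ.powerset.filter (fun I => B ⊆ I ∧ I.card = m),
        (∏ v ∈ I \ B, t v) * scal (a I - ∑ v ∈ I \ B, con (x v) (b (I.erase v))) =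
        ∑ I ∈ σ.powerset.filter (fun I => insert w B ⊆ I ∧ I.card = m),
        (∏ v ∈ I \ B, t v) * scal (a I - ∑ v ∈ I \ B, con (x v) (b (I.erase v))) := by
      symm
      apply Finset.sum_subset
      · intro I hI
        simp only [Finset.mem_filter, Finset.mem_powerset] at hI ⊢
        exact ⟨hI.1, (Finset.subset_insert _ _).trans hI.2.1, hI.2.2⟩
      · intro I hI hI'
        simp only [Finset.mem_filter, Finset.mem_powerset] at hI hI'
        have hwI : w ∉ I := fun h => hI' ⟨hI.1, Finset.insert_subset h hI.2.1, hI.2.2⟩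
        rw [hzero I hI.2.1 hI.1 (by rw [hI.2.2, heq]) hwI, map_zero, mul_zero]
    rw [h4] at h3
    have h5 : ∑ I ∈ σ.powerset.filter (fun I => insert w B ⊆ I ∧ I.card = m),
        (∏ v ∈ I \ B, t v) * scal (a I - ∑ v ∈ I \ B, con (x v) (b (I.erase v))) =
        t w * ∑ I ∈ σ.powerset.filter (fun I => insert w B ⊆ I ∧ I.card = m),
        (∏ v ∈ I \ insert w B, t v) *
          scal (a I - ∑ v ∈ I \ B, con (x v) (b (I.erase v))) := by
      rw [Finset.mul_sum]
      refine Finset.sum_congr rfl fun I hI => ?_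
      simp only [Finset.mem_filter, Finset.mem_powerset] at hI
      have hset : I \ insert w B = (I \ B).erase w := by
        ext u
        simp only [Finset.mem_sdiff, Finset.mem_erase, Finset.mem_insert]
        tauto
      have hw' : w ∈ I \ B :=
        Finset.mem_sdiff.2 ⟨hI.2.1 (Finset.mem_insert_self _ _), hwB⟩
      rw [hset, ← mul_assoc, Finset.mul_prod_erase _ _ hw']
    rw [h5] at h3
    exact (mul_eq_zero.1 h3).resolve_left (ht w hw)

/-- gluing -/
private theorem kos2_glue {m : ℕ} {x : U → Fin n → ℝ} {σ B : Finset U} {q : ℕ} {w : U}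
    (hwB : w ∉ B) {a b a' b2 : Finset U → EE n}
    (hb : ∀ J, b J ∈ LW m x J) (hb2 : ∀ J, b2 J ∈ LW m x J)
    (h1 : ∀ I, ∑ v ∈ I \ B, con (x v) (b (I.erase v)) + a' I = a I)
    (h2 : ∀ I, B ⊆ I → I ⊆ σ → I.card = q → w ∉ I → a' I = 0)
    (h3 : ∀ I, insert w B ⊆ I → I ⊆ σ → I.card = q →
      ∑ v ∈ I \ insert w B, con (x v) (b2 (I.erase v)) = a' I) :
    ∃ b : Finset U → EE n, (∀ J, b J ∈ LW m x J) ∧ ∀ I, B ⊆ I → I ⊆ σ → I.card = q →
      ∑ v ∈ I \ B, con (x v) (b (I.erase v)) = a I := by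
  refine ⟨fun J => b J + if insert w B ⊆ J then b2 J else 0, fun J => ?_, fun I hBI hI hcI => ?_⟩
  · refine Submodule.add_mem _ (hb J) ?_
    split_ifs
    · exact hb2 J
    · exact Submodule.zero_mem _
  · simp only [map_add, Finset.sum_add_distrib]
    rw [← h1 I]
    congr 1
    by_cases hwI : w ∈ I
    · have hBI' : insert w B ⊆ I := Finset.insert_subset hwI hBI
      have hw' : w ∈ I \ B := Finset.mem_sdiff.2 ⟨hwI, hwB⟩
      have hset : I \ insert w B = (I \ B).erase w := by
        ext u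
        simp only [Finset.mem_sdiff, Finset.mem_erase, Finset.mem_insert]
        tauto
      rw [← h3 I hBI' hI hcI, ← Finset.add_sum_erase _ _ hw', hset]
      have h4 : ¬ insert w B ⊆ I.erase w := fun h =>
        Finset.notMem_erase w I (h (Finset.mem_insert_self _ _))
      rw [if_neg h4, map_zero, zero_add]
      refine Finset.sum_congr rfl fun v hv => ?_
      rw [Finset.mem_erase, Finset.mem_sdiff] at hv
      have h5 : insert w B ⊆ I.erase v := by
        intro u hu
        refine Finset.mem_erase.2 ⟨?_, hBI' hu⟩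
        rintro rfl
        rcases Finset.mem_insert.1 hu with h | h
        · exact hv.1 h
        · exact hv.2.2 h
      rw [if_pos h5]
    · rw [h2 I hBI hI hcI hwI]
      refine Finset.sum_eq_zero fun v _ => ?_
      have h4 : ¬ insert w B ⊆ I.erase v := fun h =>
        hwI (Finset.mem_of_mem_erase (h (Finset.mem_insert_self _ _)))
      rw [if_neg h4, map_zero]

/-- the induction -/
private theorem kos2_aux {m : ℕ} (hmn : m < n) {x : U → Fin n → ℝ} {σ : Finset U}
    (hc : σ.card = n + 1)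
    (hx : ∀ τ ⊆ σ, τ.card = n → LinearIndependent ℝ (fun v : τ => x v)) {t : U → ℝ}
    (ht : ∀ v ∈ σ, t v ≠ 0) (hrel : ∑ v ∈ σ, t v • x v = 0) {q : ℕ} (hqm : q ≤ m) (k : ℕ) :
    ∀ B : Finset U, B ⊆ σ → q = B.card + k + 1 → ∀ a : Finset U → EE n,
    (∀ I, a I ∈ LW m x I) →
    (q < m → ∀ I, B ⊆ I → I ⊆ σ → I.card = q + 1 →
      ∑ v ∈ I \ B, con (x v) (a (I.erase v)) = 0) →
    (q = m → ∑ I ∈ σ.powerset.filter (fun I => B ⊆ I ∧ I.card = m),
      (∏ v ∈ I \ B, t v) * scal (a I) = 0) →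
    ∃ b : Finset U → EE n, (∀ J, b J ∈ LW m x J) ∧ ∀ I, B ⊆ I → I ⊆ σ → I.card = q →
      ∑ v ∈ I \ B, con (x v) (b (I.erase v)) = a I := by
  induction k with
  | zero =>
    intro B hB hq a ha h1 h2
    obtain ⟨w, hw, hwB⟩ := Finset.exists_of_ssubset (s₁ := B) (s₂ := σ)
      (Finset.ssubset_iff_subset_ne.2 ⟨hB, fun h => by rw [h] at hq; omega⟩)
    obtain ⟨b, a', hb, ha', h3, h4, h5, h6⟩ :=
      kos2_step hc hx ht hrel hqm hB (by omega) hw hwB a ha h1 h2
    have hBw : insert w B ⊆ σ := Finset.insert_subset hw hB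
    have hcard : (insert w B).card = q := by
      rw [Finset.card_insert_of_notMem hwB]
      omega
    have h0 : a' (insert w B) = 0 := by
      refine kos2_bot hmn hc hx hBw (ha' _) (fun hlt v hv => ?_) (fun heq => ?_)
      · rw [hcard] at hlt
        rw [Finset.mem_sdiff] at hv
        have h7 := h5 hlt (insert v (insert w B)) (Finset.subset_insert _ _)
          (Finset.insert_subset hv.1 hBw) (by rw [Finset.card_insert_of_notMem hv.2, hcard])
        have h8 : insert v (insert w B) \ insert w B = {v} := by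
          ext u
          simp only [Finset.mem_sdiff, Finset.mem_insert, Finset.mem_singleton]
          constructor
          · rintro ⟨h | h, h'⟩
            · exact h
            · exact absurd h h'
          · rintro rfl
            exact ⟨Or.inl rfl, fun h => hv.2 (Finset.mem_insert.2 h)⟩
        rw [h8, Finset.sum_singleton, Finset.erase_insert hv.2] at h7
        exact h7
      · rw [hcard] at heq
        have h7 := h6 heq
        have h8 : σ.powerset.filter (fun I => insert w B ⊆ I ∧ I.card = m) = {insert w B} := by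
          ext I
          simp only [Finset.mem_filter, Finset.mem_powerset, Finset.mem_singleton]
          constructor
          · rintro ⟨-, h, h'⟩
            exact (Finset.eq_of_subset_of_card_le h (by rw [h', hcard, heq])).symm
          · rintro rfl
            exact ⟨hBw, Finset.Subset.refl _, by rw [hcard, heq]⟩
        rw [h8, Finset.sum_singleton, Finset.sdiff_self, Finset.prod_empty, one_mul] at h7
        exact h7
    refine kos2_glue hwB (b2 := fun _ => 0) hb (fun J => Submodule.zero_mem _) h3 h4 ?_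
    intro I hBI hI hcI
    have h9 : insert w B = I := Finset.eq_of_subset_of_card_le hBI (by rw [hcI, hcard])
    rw [← h9, h0]
    simp
  | succ k ih =>
    intro B hB hq a ha h1 h2
    obtain ⟨w, hw, hwB⟩ := Finset.exists_of_ssubset (s₁ := B) (s₂ := σ)
      (Finset.ssubset_iff_subset_ne.2 ⟨hB, fun h => by rw [h] at hq; omega⟩)
    obtain ⟨b, a', hb, ha', h3, h4, h5, h6⟩ :=
      kos2_step hc hx ht hrel hqm hB (by omega) hw hwB a ha h1 h2
    obtain ⟨b2, hb2, h7⟩ := ih (insert w B) (Finset.insert_subset hw hB)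
      (by rw [Finset.card_insert_of_notMem hwB]; omega) a' ha' h5 h6
    exact kos2_glue hwB hb hb2 h3 h4 h7

theorem kos2 {m : ℕ} (hmn : m < n) {x : U → Fin n → ℝ} {σ : Finset U} (hc : σ.card = n + 1)
    (hx : ∀ τ ⊆ σ, τ.card = n → LinearIndependent ℝ (fun v : τ => x v)) {t : U → ℝ}
    (ht : ∀ v ∈ σ, t v ≠ 0) (hrel : ∑ v ∈ σ, t v • x v = 0) {B : Finset U} (hB : B ⊆ σ) {q : ℕ}
    (hq : B.card < q) (hqm : q ≤ m) (a : Finset U → EE n) (ha : ∀ I, a I ∈ LW m x I)
    (h1 : q < m → ∀ I, B ⊆ I → I ⊆ σ → I.card = q + 1 →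
      ∑ v ∈ I \ B, con (x v) (a (I.erase v)) = 0)
    (h2 : q = m → ∑ I ∈ σ.powerset.filter (fun I => B ⊆ I ∧ I.card = m),
      (∏ v ∈ I \ B, t v) * scal (a I) = 0) :
    ∃ b : Finset U → EE n, (∀ J, b J ∈ LW m x J) ∧ ∀ I, B ⊆ I → I ⊆ σ → I.card = q →
      ∑ v ∈ I \ B, con (x v) (b (I.erase v)) = a I :=
  kos2_aux hmn hc hx ht hrel hqm (q - B.card - 1) B hB (by omega) a ha h1 h2

/-- exact families satisfy the relation -/
theorem kos2_rel {m : ℕ} {x : U → Fin n → ℝ} {σ : Finset U} {t : U → ℝ}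
    (hrel : ∑ v ∈ σ, t v • x v = 0) (hm : 0 < m) (b : Finset U → EE n)
    (hb : ∀ J, b J ∈ LW m x J) :
    ∑ I ∈ σ.powerset.filter (fun I => I.card = m),
      (∏ v ∈ I, t v) * scal (∑ v ∈ I, con (x v) (b (I.erase v))) = 0 := by
  have h := kos2_zero hrel ∅ b hb
  simpa using h

end Pool.Agent.ChG
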