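import Pool.Agent.ChS.Defs

/-!
# The quadratic cocycle in dimension `2 m`: definitions
-/

namespace Pool.Agent.ChG

open Matrix Pool.Agent.ChP Pool.Agent.ChS

/-- The linear form on the functions on the `m`-element subsets given by `n + 1` vectors of
`ℝ^n`. -/
noncomputable def LLg {n : ℕ} (m : ℕ) (C : Finset (Fin (n + 1)) → ℝ) (s : Fin (n + 1) → Fin n → ℝ) :
    ℝ :=
  ∑ J ∈ Finset.powersetCard m Finset.univ, (∏ i ∈ J, tco s i) * C J

/-- The quadratic form given by `n + 1` vectors of `ℝ^n`. -/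
noncomputable def BBg {n : ℕ} (m : ℕ) (C : Finset (Fin (n + 1)) → ℝ) (s : Fin (n + 1) → Fin n → ℝ) :
    ℝ :=
  LLg m C s ^ 2 / ∏ i, tco s i

theorem LLg_add {n : ℕ} (m : ℕ) (C D : Finset (Fin (n + 1)) → ℝ) (s : Fin (n + 1) → Fin n → ℝ) :
    LLg m (fun J => C J + D J) s = LLg m C s + LLg m D s := by
  unfold LLg
  rw [← Finset.sum_add_distrib]
  exact Finset.sum_congr rfl fun J _ => mul_add _ _ _

theorem LLg_smul {n : ℕ} (m : ℕ) (c : ℝ) (C : Finset (Fin (n + 1)) → ℝ)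
    (s : Fin (n + 1) → Fin n → ℝ) : LLg m (fun J => c * C J) s = c * LLg m C s := by
  unfold LLg
  rw [Finset.mul_sum]
  exact Finset.sum_congr rfl fun J _ => mul_left_comm _ _ _

end Pool.Agent.ChG
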