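import Pool.Agent.ChG.LDefs
import Pool.Agent.ChS.Lagr

/-!
# The cocycle identity for the quadratic form `BBg`

`lagrange_gen` is the homogeneous Lagrange (residue) identity for `2 m + 2` points of the projective line and
the square of the form `∑_J C_J ∏_{i ∈ J} ℓ_i(z)` of degree `m`, see `lagrange6` in `ChS/Lagr.lean` for
`m = 2` (the same proof: `Lagrange.coeff_eq_sum` for a polynomial of degree `≤ 2 m < 2 m + 1`; then a
substitution `x ↦ x + c y` to get rid of the condition `x k ≠ 0`).

`BBg_cocycle`: as `BB_cocycle` in `ChS/Lagr.lean`: let `u_k j`, `u_k k = 0`,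
`u_k (k.succAbove j') = (-1)^k * tco (s ∘ k.succAbove) j'` be the relation vectors; they are antisymmetric and satisfy
the Plücker relations, so `u_k j = x_j y_k - x_k y_j`.  In `LLg` for `s ∘ k.succAbove` every summand has
`m` factors `(-1)^k`, squared they give `1`; the product of the `n + 1 = 2 m + 1` cofactors gives `(-1)^k`.
The sets `J ⊆ Fin (n + 1)` with `m` elements correspond to the `J' = J.map k.succAboveEmb` not containing `k`;
for `k ∈ J'` the product of the `u_k j` is `0`.
-/

namespace Pool.Agent.ChG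

open Matrix Pool.Agent.ChP Pool.Agent.ChS

private theorem Lag_main {m N : ℕ} (hN : N = 2 * m + 2) (x y : Fin N → ℝ) (hx : ∀ k, x k ≠ 0)
    (h : ∀ i j, i ≠ j → x i * y j - x j * y i ≠ 0) (C : Finset (Fin N) → ℝ) :
    ∑ k : Fin N, (∑ J ∈ Finset.powersetCard m Finset.univ,
        (∏ i ∈ J, (x i * y k - x k * y i)) * C J) ^ 2 /
      ∏ i ∈ Finset.univ.erase k, (x i * y k - x k * y i) = 0 := by
  classical
  obtain ⟨r, hr⟩ : ∃ r : Fin N → ℝ, r = fun k => y k / x k := ⟨_, rfl⟩
  have hrk : ∀ k, y k = x k * r k := fun k => by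
    rw [hr]; field_simp [hx k]
  have hinj : Set.InjOn r (Finset.univ : Finset (Fin N)) := by
    intro i _ j _ hij
    by_contra hne
    apply h i j hne
    rw [hrk i, hrk j]
    have : r i = r j := hij
    rw [this]; ring
  obtain ⟨Q, hQ⟩ : ∃ Q : Polynomial ℝ, Q = ∑ J ∈ Finset.powersetCard m Finset.univ,
      (∏ i ∈ J, (Polynomial.C (x i) * Polynomial.X - Polynomial.C (y i))) *
        Polynomial.C (C J) := ⟨_, rfl⟩
  have hl : ∀ i, (Polynomial.C (x i) * Polynomial.X - Polynomial.C (y i)).natDegree ≤ 1 := by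
    intro i
    refine (Polynomial.natDegree_sub_le _ _).trans ?_
    rw [Polynomial.natDegree_C]
    refine max_le ?_ (Nat.zero_le _)
    exact (Polynomial.natDegree_C_mul_le _ _).trans Polynomial.natDegree_X_le
  have hQd : Q.natDegree ≤ m := by
    rw [hQ]
    refine Polynomial.natDegree_sum_le_of_forall_le _ _ fun J hJ => ?_
    rw [Finset.mem_powersetCard] at hJ
    refine (Polynomial.natDegree_mul_C_le _ _).trans ?_
    refine (Polynomial.natDegree_prod_le _ _).trans ?_
    refine (Finset.sum_le_sum fun i _ => hl i).trans ?_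
    rw [Finset.sum_const, smul_eq_mul, mul_one, hJ.2]
  have hQ2 : (Q ^ 2).natDegree ≤ 2 * m := by
    refine Polynomial.natDegree_pow_le.trans ?_
    omega
  have hdeg : (Q ^ 2).degree < (Finset.univ : Finset (Fin N)).card := by
    rw [Finset.card_univ, Fintype.card_fin]
    refine Polynomial.degree_le_natDegree.trans_lt ?_
    exact_mod_cast lt_of_le_of_lt hQ2 (by omega)
  have hco := Lagrange.coeff_eq_sum hinj hdeg
  have hz : (Q ^ 2).coeff ((Finset.univ : Finset (Fin N)).card - 1) = 0 := by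
    apply Polynomial.coeff_eq_zero_of_natDegree_lt
    rw [Finset.card_univ, Fintype.card_fin]
    omega
  rw [hz] at hco
  have hp : ∏ i, x i ≠ 0 := Finset.prod_ne_zero_iff.2 fun i _ => hx i
  have hterm : ∀ k : Fin N, (∑ J ∈ Finset.powersetCard m Finset.univ,
        (∏ i ∈ J, (x i * y k - x k * y i)) * C J) ^ 2 /
      ∏ i ∈ Finset.univ.erase k, (x i * y k - x k * y i) =
      (∏ i, x i)⁻¹ * ((Q ^ 2).eval (r k) / ∏ i ∈ Finset.univ.erase k, (r k - r i)) := by
    intro k
    have h1 : (∑ J ∈ Finset.powersetCard m Finset.univ,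
        (∏ i ∈ J, (x i * y k - x k * y i)) * C J) = x k ^ m * Q.eval (r k) := by
      rw [hQ, Polynomial.eval_finsetSum, Finset.mul_sum]
      refine Finset.sum_congr rfl fun J hJ => ?_
      rw [Finset.mem_powersetCard] at hJ
      rw [Polynomial.eval_mul, Polynomial.eval_prod, Polynomial.eval_C, ← mul_assoc, ← hJ.2,
        ← Finset.prod_const, ← Finset.prod_mul_distrib]
      congr 1
      refine Finset.prod_congr rfl fun i _ => ?_
      simp only [Polynomial.eval_mul, Polynomial.eval_sub, Polynomial.eval_C,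
        Polynomial.eval_X]
      rw [hrk k]; ring
    have h2 : ∏ i ∈ Finset.univ.erase k, (x i * y k - x k * y i) =
        x k ^ (2 * m) * (∏ i, x i) * ∏ i ∈ Finset.univ.erase k, (r k - r i) := by
      have h3 : ∀ i, x i * y k - x k * y i = x k * x i * (r k - r i) := by
        intro i
        rw [hrk i, hrk k]; ring
      rw [Finset.prod_congr rfl fun i _ => h3 i, Finset.prod_mul_distrib,
        Finset.prod_mul_distrib, Finset.prod_const, Finset.card_erase_of_mem (Finset.mem_univ k),
        Finset.card_univ, Fintype.card_fin, ← Finset.mul_prod_erase Finset.univ x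
        (Finset.mem_univ k)]
      have e : N - 1 = 2 * m + 1 := by omega
      rw [e]
      ring
    rw [h1, h2, Polynomial.eval_pow]
    have hp2 : ∏ i ∈ Finset.univ.erase k, (r k - r i) ≠ 0 := by
      refine Finset.prod_ne_zero_iff.2 fun i hi => ?_
      rw [sub_ne_zero]
      intro hki
      exact (Finset.ne_of_mem_erase hi) (hinj (by simp) (by simp) hki.symm)
    have hxk : x k ^ m ≠ 0 := pow_ne_zero _ (hx k)
    have e2 : x k ^ (2 * m) = (x k ^ m) ^ 2 := by ring
    rw [e2]
    field_simp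
  rw [Finset.sum_congr rfl fun k _ => hterm k, ← Finset.mul_sum, ← hco, mul_zero]

theorem lagrange_gen {m N : ℕ} (hN : N = 2 * m + 2) (x y : Fin N → ℝ)
    (h : ∀ i j, i ≠ j → x i * y j - x j * y i ≠ 0) (C : Finset (Fin N) → ℝ) :
    ∑ k : Fin N, (∑ J ∈ Finset.powersetCard m Finset.univ,
        (∏ i ∈ J, (x i * y k - x k * y i)) * C J) ^ 2 /
      ∏ i ∈ Finset.univ.erase k, (x i * y k - x k * y i) = 0 := by
  classical
  -- choose `c` with `x k + c * y k ≠ 0` for all `k`
  obtain ⟨c, hc⟩ : ∃ c : ℝ, ∀ k, x k + c * y k ≠ 0 := by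
    obtain ⟨c, hc⟩ := ((Finset.univ.image fun k : Fin N => -(x k) / y k).finite_toSet
      |>.infinite_compl).nonempty
    refine ⟨c, fun k hk => ?_⟩
    by_cases hy : y k = 0
    · rw [hy, mul_zero, add_zero] at hk
      obtain ⟨j, hj⟩ : ∃ j : Fin N, k ≠ j := by
        have : Nontrivial (Fin N) := by
          rw [hN]
          infer_instance
        obtain ⟨j, hj⟩ := exists_ne k
        exact ⟨j, hj.symm⟩
      apply h k j hj
      rw [hk, hy]; ring
    · apply hc
      simp only [Finset.coe_image, Finset.coe_univ, Set.image_univ, Set.mem_range]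
      refine ⟨k, ?_⟩
      field_simp
      linarith
  have hbr : ∀ i j, (x i + c * y i) * y j - (x j + c * y j) * y i = x i * y j - x j * y i := by
    intro i j; ring
  have := Lag_main hN (fun k => x k + c * y k) y hc (fun i j hij => by
    have := h i j hij
    rw [← hbr] at this
    exact this) C
  simp only [hbr] at this
  exact this

private theorem Lag_rel {n : ℕ} (t : Fin (n + 1) → Fin n → ℝ) (b : Fin n) :
    ∑ j, tco t j * t j b = 0 := by
  have h0 : Matrix.det (Matrix.of fun (i : Fin (n + 1)) (j : Fin (n + 1)) =>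
      (Fin.cons (t i b) (t i) : Fin (n + 1) → ℝ) j) = 0 := by
    refine Matrix.det_zero_of_column_eq (i := 0) (j := b.succ) (Fin.succ_ne_zero b).symm ?_
    intro k
    simp
  rw [Matrix.det_succ_column_zero] at h0
  rw [← h0]
  refine Finset.sum_congr rfl fun j _ => ?_
  unfold tco
  have : (Matrix.of fun (i : Fin (n + 1)) (j : Fin (n + 1)) =>
      (Fin.cons (t i b) (t i) : Fin (n + 1) → ℝ) j).submatrix j.succAbove Fin.succ =
      Matrix.of fun a b : Fin n => t (j.succAbove a) b := by
    ext a b'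
    simp
  rw [this]
  simp only [Matrix.of_apply, Fin.cons_zero]
  ring

/-- the relation vector -/
private noncomputable def Lag_u {n : ℕ} (s : Fin (n + 2) → Fin n → ℝ) (k : Fin (n + 2)) :
    Fin (n + 2) → ℝ :=
  Fin.insertNth (α := fun _ => ℝ) k 0 fun j' : Fin (n + 1) =>
    (-1) ^ (k : ℕ) * tco (fun i => s (k.succAbove i)) j'

variable {n : ℕ}

private theorem Lag_u_self (s : Fin (n + 2) → Fin n → ℝ) (k : Fin (n + 2)) : Lag_u s k k = 0 := by
  unfold Lag_u
  rw [Fin.insertNth_apply_same]

private theorem Lag_u_above (s : Fin (n + 2) → Fin n → ℝ) (k : Fin (n + 2)) (j : Fin (n + 1)) :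
    Lag_u s k (k.succAbove j) = (-1) ^ (k : ℕ) * tco (fun i => s (k.succAbove i)) j := by
  unfold Lag_u
  rw [Fin.insertNth_apply_succAbove]

private theorem Lag_tco (s : Fin (n + 2) → Fin n → ℝ) (k : Fin (n + 2)) (j : Fin (n + 1)) :
    tco (fun i => s (k.succAbove i)) j = (-1) ^ (k : ℕ) * Lag_u s k (k.succAbove j) := by
  rw [Lag_u_above, ← mul_assoc, ← mul_pow]
  norm_num

private theorem Lag_u_rel (s : Fin (n + 2) → Fin n → ℝ) (k : Fin (n + 2)) (b : Fin n) :
    ∑ j, Lag_u s k j * s j b = 0 := by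
  rw [Fin.sum_univ_succAbove _ k, Lag_u_self, zero_mul, zero_add]
  have := Lag_rel (fun i => s (k.succAbove i)) b
  rw [Finset.sum_congr rfl fun j _ => by
    rw [Lag_u_above, mul_assoc], ← Finset.mul_sum, this, mul_zero]

private theorem Lag_u_antisymm (s : Fin (n + 2) → Fin n → ℝ) (k j : Fin (n + 2)) :
    Lag_u s k j = - Lag_u s j k := by
  by_cases hkj : j = k
  · subst hkj
    rw [Lag_u_self, neg_zero]
  obtain ⟨j', rfl⟩ := Fin.exists_succAbove_eq hkj
  have hk : k = (k.succAbove j').succAbove (j'.predAbove k) := by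
    rw [Fin.succAbove_succAbove_predAbove]
  rw [Lag_u_above]
  conv_rhs => rw [hk]
  conv_rhs => arg 1; arg 2; rw [← hk]
  rw [Lag_u_above]
  unfold tco
  have hm : (Matrix.of fun a b : Fin n =>
      s ((k.succAbove j').succAbove ((j'.predAbove k).succAbove a)) b) =
      Matrix.of fun a b : Fin n => s (k.succAbove (j'.succAbove a)) b := by
    ext a b
    simp only [Matrix.of_apply]
    rw [Fin.succAbove_succAbove_succAbove_predAbove]
  rw [hm, ← mul_assoc, ← mul_assoc, ← pow_add, ← pow_add]
  rw [Fin.neg_one_pow_succAbove_add_predAbove]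
  ring

private theorem Lag_uniq (s : Fin (n + 2) → Fin n → ℝ)
    (h : Matrix.det (Matrix.of fun a b : Fin n => s a.succ.succ b) ≠ 0)
    (w : Fin (n + 2) → ℝ) (hw : ∀ b, ∑ j, w j * s j b = 0) (h0 : w 0 = 0) (h1 : w 1 = 0) :
    w = 0 := by
  have hv : (fun a : Fin n => w a.succ.succ) ᵥ*
      (Matrix.of fun a b : Fin n => s a.succ.succ b) = 0 := by
    ext b
    have := hw b
    rw [Fin.sum_univ_succ, Fin.sum_univ_succ, h0, zero_mul, zero_add] at this
    have h1' : w (Fin.succ 0) = 0 := h1
    rw [h1', zero_mul, zero_add] at this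
    simpa [Matrix.vecMul, dotProduct] using this
  have hz := Matrix.eq_zero_of_vecMul_eq_zero h hv
  ext j
  refine Fin.cases h0 (fun j => ?_) j
  refine Fin.cases h1 (fun j => ?_) j
  exact congrFun hz j

theorem BBg_cocycle {m : ℕ} (hn : n = 2 * m) (C : Finset (Fin (n + 2)) → ℝ)
    (s : Fin (n + 2) → Fin n → ℝ)
    (h : ∀ e : Fin n ↪o Fin (n + 2), Matrix.det (Matrix.of fun a b => s (e a) b) ≠ 0) :
    ∑ k : Fin (n + 2), (-1) ^ (k : ℕ) *
      BBg m (fun J => C (J.map k.succAboveEmb)) (fun i => s (k.succAbove i)) = 0 := by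
  classical
  have hne : ∀ k j : Fin (n + 2), j ≠ k → Lag_u s k j ≠ 0 := by
    intro k j hkj
    obtain ⟨j', rfl⟩ := Fin.exists_succAbove_eq hkj
    rw [Lag_u_above]
    unfold tco
    refine mul_ne_zero (pow_ne_zero _ (by norm_num)) (mul_ne_zero (pow_ne_zero _ (by norm_num)) ?_)
    exact h ((Fin.succAboveOrderEmb j').trans (Fin.succAboveOrderEmb k))
  have h01 : Lag_u s 1 0 ≠ 0 := hne 1 0 (by simp)
  have h2 : Matrix.det (Matrix.of fun a b : Fin n => s a.succ.succ b) ≠ 0 :=
    h ((Fin.succOrderEmb n).trans (Fin.succOrderEmb (n + 1)))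
  -- `N j k = Lag_u s k j`
  have hpl : ∀ k j : Fin (n + 2), Lag_u s k j =
      Lag_u s 1 j * (Lag_u s k 0 / Lag_u s 1 0) -
      Lag_u s 1 k * (Lag_u s j 0 / Lag_u s 1 0) := by
    intro k j
    have hw := Lag_uniq s h2 (fun j => Lag_u s k j -
      (Lag_u s k 0 / Lag_u s 1 0) * Lag_u s 1 j +
      (Lag_u s k 1 / Lag_u s 1 0) * Lag_u s 0 j) (by
        intro b
        have e1 := Lag_u_rel s k b
        have e2 := Lag_u_rel s 1 b
        have e3 := Lag_u_rel s 0 b
        calc ∑ j, (Lag_u s k j - (Lag_u s k 0 / Lag_u s 1 0) * Lag_u s 1 j +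
              (Lag_u s k 1 / Lag_u s 1 0) * Lag_u s 0 j) * s j b
            = ∑ j, Lag_u s k j * s j b -
              (Lag_u s k 0 / Lag_u s 1 0) * ∑ j, Lag_u s 1 j * s j b +
              (Lag_u s k 1 / Lag_u s 1 0) * ∑ j, Lag_u s 0 j * s j b := by
              rw [Finset.mul_sum, Finset.mul_sum, ← Finset.sum_sub_distrib,
                ← Finset.sum_add_distrib]
              refine Finset.sum_congr rfl fun j _ => ?_
              ring
          _ = 0 := by rw [e1, e2, e3]; ring)
      (by
        rw [Lag_u_self s 0]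
        field_simp
        ring)
      (by
        rw [Lag_u_self s 1, Lag_u_antisymm s 0 1]
        field_simp
        ring)
    have := congrFun hw j
    simp only [Pi.zero_apply] at this
    rw [Lag_u_antisymm s 1 k, Lag_u_antisymm s j 0]
    have e : Lag_u s k j = (Lag_u s k 0 / Lag_u s 1 0) * Lag_u s 1 j -
      (Lag_u s k 1 / Lag_u s 1 0) * Lag_u s 0 j := by linarith
    rw [e]
    ring
  obtain ⟨X, hX⟩ : ∃ X : Fin (n + 2) → ℝ, X = fun j => Lag_u s 1 j := ⟨_, rfl⟩
  obtain ⟨Y, hY⟩ : ∃ Y : Fin (n + 2) → ℝ, Y = fun j => Lag_u s j 0 / Lag_u s 1 0 := ⟨_, rfl⟩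
  have hN : ∀ k j, Lag_u s k j = X j * Y k - X k * Y j := fun k j => by
    rw [hX, hY]
    exact hpl k j
  have hL := lagrange_gen (m := m) (N := n + 2) (by omega) X Y (fun i j hij => by
    rw [← hN j i]
    exact hne j i hij) C
  rw [← hL]
  refine Finset.sum_congr rfl fun k _ => ?_
  simp only [← hN]
  have hsgn : ((-1 : ℝ) ^ (k : ℕ)) * ((-1 : ℝ) ^ (k : ℕ)) = 1 := by
    rw [← mul_pow]; norm_num
  have hsum : (∑ J ∈ Finset.powersetCard m (Finset.univ : Finset (Fin (n + 2))),
      (∏ i ∈ J, Lag_u s k i) * C J) =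
      ((-1 : ℝ) ^ (k : ℕ)) ^ m *
        LLg m (fun J => C (J.map k.succAboveEmb)) (fun i => s (k.succAbove i)) := by
    unfold LLg
    rw [Finset.mul_sum]
    have h3 : ∑ J ∈ Finset.powersetCard m (Finset.univ : Finset (Fin (n + 2))),
        (∏ i ∈ J, Lag_u s k i) * C J =
        ∑ J ∈ (Finset.powersetCard m (Finset.univ : Finset (Fin (n + 1)))).map
          (Finset.mapEmbedding k.succAboveEmb).toEmbedding, (∏ i ∈ J, Lag_u s k i) * C J := by
      symm
      refine Finset.sum_subset ?_ ?_
      · intro J hJ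
        rw [Finset.mem_map] at hJ
        obtain ⟨J', hJ', rfl⟩ := hJ
        rw [Finset.mem_powersetCard] at hJ' ⊢
        refine ⟨Finset.subset_univ _, ?_⟩
        show (J'.map k.succAboveEmb).card = m
        rw [Finset.card_map, hJ'.2]
      · intro J hJ hJ'
        rw [Finset.mem_powersetCard] at hJ
        have hk : k ∈ J := by
          by_contra hk
          apply hJ'
          rw [Finset.mem_map]
          have he : (Finset.univ.filter fun a : Fin (n + 1) => k.succAbove a ∈ J).map
              k.succAboveEmb = J := by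
            ext j
            simp only [Finset.mem_map, Finset.mem_filter, Finset.mem_univ, true_and,
              Fin.coe_succAboveEmb]
            constructor
            · rintro ⟨a, ha, rfl⟩
              exact ha
            · intro hj
              have hjk : j ≠ k := fun hjk => hk (hjk ▸ hj)
              obtain ⟨a, ha⟩ := Fin.exists_succAbove_eq hjk
              exact ⟨a, by rw [ha]; exact hj, ha⟩
          refine ⟨_, ?_, he⟩
          rw [Finset.mem_powersetCard]
          refine ⟨Finset.subset_univ _, ?_⟩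
          rw [← hJ.2]
          conv_rhs => rw [← he]
          rw [Finset.card_map]
        rw [Finset.prod_eq_zero hk (Lag_u_self s k), zero_mul]
    rw [h3, Finset.sum_map]
    refine Finset.sum_congr rfl fun J hJ => ?_
    rw [Finset.mem_powersetCard] at hJ
    show (∏ i ∈ J.map k.succAboveEmb, Lag_u s k i) * C (J.map k.succAboveEmb) = _
    rw [Finset.prod_map, ← mul_assoc]
    congr 1
    simp_rw [Lag_tco]
    rw [Finset.prod_mul_distrib, Finset.prod_const, hJ.2, ← mul_assoc, ← mul_pow, hsgn, one_pow,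
      one_mul]
    rfl
  have hprod : ∏ i : Fin (n + 1), tco (fun i => s (k.succAbove i)) i =
      (-1) ^ (k : ℕ) * ∏ i ∈ Finset.univ.erase k, Lag_u s k i := by
    have he : Finset.univ.erase k = Finset.univ.map (Fin.succAboveEmb k) := by
      ext j
      simp only [Finset.mem_erase, Finset.mem_univ, and_true, Finset.mem_map, true_and,
        Fin.coe_succAboveEmb]
      constructor
      · intro hj
        exact Fin.exists_succAbove_eq hj
      · rintro ⟨a, rfl⟩
        exact Fin.succAbove_ne k a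
    rw [he, Finset.prod_map, Finset.prod_congr rfl fun i _ => Lag_tco s k i,
      Finset.prod_mul_distrib, Finset.prod_const, Finset.card_univ, Fintype.card_fin]
    have e5 : ((-1 : ℝ) ^ (k : ℕ)) ^ (n + 1) = (-1) ^ (k : ℕ) := by
      have e6 : n + 1 = 2 * m + 1 := by omega
      calc ((-1 : ℝ) ^ (k : ℕ)) ^ (n + 1) = ((-1 : ℝ) ^ (k : ℕ)) ^ (2 * m + 1) :=
          congrArg _ e6
        _ = (((-1 : ℝ) ^ (k : ℕ)) * ((-1 : ℝ) ^ (k : ℕ))) ^ m * (-1 : ℝ) ^ (k : ℕ) := by ring
        _ = _ := by rw [hsgn]; ring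
    rw [e5]
    rfl
  unfold BBg
  rw [hsum, hprod]
  have hs : ((-1 : ℝ) ^ (k : ℕ)) ≠ 0 := pow_ne_zero _ (by norm_num)
  have hp : ∏ i ∈ Finset.univ.erase k, Lag_u s k i ≠ 0 :=
    Finset.prod_ne_zero_iff.2 fun i hi => hne k i (Finset.ne_of_mem_erase hi)
  have e7 : (((-1 : ℝ) ^ (k : ℕ)) ^ m *
      LLg m (fun J => C (J.map k.succAboveEmb)) (fun i => s (k.succAbove i))) ^ 2 =
      LLg m (fun J => C (J.map k.succAboveEmb)) (fun i => s (k.succAbove i)) ^ 2 := by
    rw [mul_pow, ← pow_mul, mul_comm m 2, pow_mul, sq, hsgn, one_pow, one_mul]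
  rw [e7]
  field_simp

end Pool.Agent.ChG
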