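import Pool.Agent.ChG.SgBas
import Pool.Agent.ChP.Facet

/-!
# The orientation cycle

`orZ_eq`: `cham_unique`.  `orZ_smul`: `Cham.smul`, `orr_smul`.
`orZ_cycle`: `K.facet` for `ρ` (`ChP/Facet.lean`): exactly two vertices `w₁`, `w₂` can be added and
`α • dev w₁ + β • dev w₂` is an affine combination of the vertices of `ρ` with `α, β > 0`.  The
orientation sign of a chamber `insert w ρ` in label order is `sg w ρ` times the sign of the
determinant of `(dev w - dev v₁, dev v_2 - dev v₁, ..., dev v_n - dev v₁)`, `v₁, ..., v_n` the vertices of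
`ρ` in label order, up to a sign not depending on `w` (work with the determinant of the `(n+1) × (n+1)` matrix
with rows `(1, dev v)`, which is multilinear and alternating); this determinant is affine in `dev w` and
vanishes on the affine span of `ρ`, so the signs for `w₁` and `w₂` are opposite.
-/

namespace Pool.Agent.ChG

open Matrix Pool.Agent.ChP Pool.Agent.ChS
open scoped Pointwise

variable {n : ℕ} {K : AffineTriangulation n}

private theorem OrCyc_sign (x : ℝ) : (((SignType.sign x : SignType) : ℤ) : ℝ) = Real.sign x := by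
  rcases lt_trichotomy x 0 with h | h | h
  · rw [sign_neg h, Real.sign_of_neg h]
    norm_num
  · rw [h, sign_zero, Real.sign_zero]
    norm_num
  · rw [sign_pos h, Real.sign_of_pos h]
    norm_num

private theorem OrCyc_choose (o : Lab K) {t : Fin (n + 1) → K.V} (ht : Cham o t) :
    orZ o (Finset.univ.image t) = (SignType.sign (Matrix.det (Matrix.of fun a : Fin n =>
      K.dev (t a.succ) - K.dev (t 0))) : ℤ) := by
  classical
  have h : ∃ t' : Fin (n + 1) → K.V, Cham o t' ∧ Finset.univ.image t' = Finset.univ.image t :=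
    ⟨t, ht, rfl⟩
  have h2 : h.choose = t := cham_unique h.choose_spec.1 ht h.choose_spec.2
  unfold orZ
  rw [dif_pos h]
  simp only [h2]

theorem orZ_eq (o : Lab K) {t : Fin (n + 1) → K.V} (ht : Cham o t) :
    ((orZ o (Finset.univ.image t) : ℤ) : ℝ) = orr K t := by
  rw [OrCyc_choose o ht, OrCyc_sign]
  rfl

theorem orZ_mul_self (o : Lab K) {σ : Finset K.V} (hσ : σ ∈ K.faces) (hc : σ.card = n + 1) :
    orZ o σ * orZ o σ = 1 := by
  obtain ⟨t, ht, rfl⟩ := exists_cham o ⟨hσ, hc⟩
  have h1 := orZ_eq o ht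
  have h2 := orr_ne_zero ht
  rw [← h1] at h2
  rw [OrCyc_choose o ht] at h2 ⊢
  generalize (SignType.sign (Matrix.det (Matrix.of fun a : Fin n =>
      K.dev (t a.succ) - K.dev (t 0))) : SignType) = s at h2
  revert h2
  cases s <;> simp

theorem orZ_smul (o : Lab K) (γ : K.Γ) {σ : Finset K.V} (hσ : σ ∈ K.faces) (hc : σ.card = n + 1) :
    orZ o (γ • σ) = chZ K γ * orZ o σ := by
  obtain ⟨t, ht, rfl⟩ := exists_cham o ⟨hσ, hc⟩
  have h1 : γ • Finset.univ.image t = Finset.univ.image (fun i => γ • t i) := by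
    ext v
    simp only [Finset.mem_image, Finset.mem_univ, true_and, Finset.mem_smul_finset]
    constructor
    · rintro ⟨_, ⟨i, rfl⟩, rfl⟩
      exact ⟨i, rfl⟩
    · rintro ⟨i, rfl⟩
      exact ⟨t i, ⟨i, rfl⟩, rfl⟩
  have h2 : ((orZ o (γ • Finset.univ.image t) : ℤ) : ℝ) =
      ((chZ K γ * orZ o (Finset.univ.image t) : ℤ) : ℝ) := by
    rw [h1, orZ_eq o (ht.smul γ), orr_smul, Int.cast_mul, chZ_cast, orZ_eq o ht]
  exact_mod_cast h2

private theorem OrCyc_detD {n : ℕ} (x : Fin (n + 1) → Fin n → ℝ) :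
    Matrix.det (Matrix.of fun i => (Fin.cons 1 (x i) : Fin (n + 1) → ℝ)) =
      Matrix.det (Matrix.of fun a : Fin n => x a.succ - x 0) := by
  have h1 : Matrix.det (Matrix.of fun i => (Fin.cons 1 (x i) : Fin (n + 1) → ℝ)) =
      Matrix.det (Matrix.of fun i : Fin (n + 1) =>
        if i = 0 then (Fin.cons 1 (x 0) : Fin (n + 1) → ℝ) else Fin.cons 0 (x i - x 0)) := by
    refine Matrix.det_eq_of_forall_row_eq_smul_add_const (fun i => if i = 0 then 0 else 1) 0
      (if_pos rfl) ?_
    intro i j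
    by_cases hi : i = 0
    · subst hi
      simp
    · refine Fin.cases ?_ ?_ j
      · simp [hi]
      · intro j
        simp [hi]
  rw [h1, Matrix.det_succ_column_zero, Fin.sum_univ_succ, Finset.sum_eq_zero, add_zero]
  · have h2 : ((Matrix.of fun i : Fin (n + 1) =>
        if i = 0 then (Fin.cons 1 (x 0) : Fin (n + 1) → ℝ) else Fin.cons 0 (x i - x 0)).submatrix
        (0 : Fin (n + 1)).succAbove Fin.succ) = Matrix.of fun a : Fin n => x a.succ - x 0 := by
      ext a b
      simp [Fin.succ_ne_zero]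
    rw [h2]
    simp
  · intro i _
    simp [Fin.succ_ne_zero]

/-- the linear form of the expansion of a determinant along a row -/
private noncomputable def OrCyc_L {n : ℕ} (B : Fin n → Fin (n + 1) → ℝ)
    (x : Fin (n + 1) → ℝ) : ℝ :=
  ∑ j : Fin (n + 1), (-1) ^ (j : ℕ) * x j *
    Matrix.det (Matrix.of fun a b : Fin n => B a (j.succAbove b))

private theorem OrCyc_L_det {n : ℕ} (A : Matrix (Fin (n + 1)) (Fin (n + 1)) ℝ) (k : Fin (n + 1)) :
    A.det = (-1) ^ (k : ℕ) * OrCyc_L (fun a => A (k.succAbove a)) (A k) := by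
  rw [Matrix.det_succ_row A k]
  unfold OrCyc_L
  rw [Finset.mul_sum]
  refine Finset.sum_congr rfl fun j _ => ?_
  rw [pow_add]
  have : (A.submatrix k.succAbove j.succAbove) =
      Matrix.of fun a b : Fin n => A (k.succAbove a) (j.succAbove b) := by
    ext a b
    rfl
  rw [this]
  ring

private theorem OrCyc_L_self {n : ℕ} (B : Fin n → Fin (n + 1) → ℝ) (a : Fin n) :
    OrCyc_L B (B a) = 0 := by
  obtain ⟨A, hA⟩ : ∃ A : Matrix (Fin (n + 1)) (Fin (n + 1)) ℝ, A = Matrix.of
    (Fin.cons (α := fun _ => Fin (n + 1) → ℝ) (B a) B) := ⟨_, rfl⟩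
  have hA0 : A 0 = B a := by
    rw [hA]
    rfl
  have hAs : ∀ b : Fin n, A b.succ = B b := by
    intro b
    rw [hA]
    rfl
  have h1 := OrCyc_L_det A 0
  have h2 : A.det = 0 := by
    refine Matrix.det_zero_of_row_eq (i := 0) (j := a.succ) (Fin.succ_ne_zero a).symm ?_
    rw [hA0, hAs]
  rw [h2, hA0] at h1
  have h3 : (fun b : Fin n => A ((0 : Fin (n + 1)).succAbove b)) = B := by
    funext b
    rw [Fin.zero_succAbove, hAs]
  rw [h3, Fin.val_zero, pow_zero, one_mul] at h1
  exact h1.symm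

private theorem OrCyc_L_sum {n : ℕ} {ι : Type*} (B : Fin n → Fin (n + 1) → ℝ) (s : Finset ι)
    (c : ι → ℝ) (x : ι → Fin (n + 1) → ℝ) :
    OrCyc_L B (∑ i ∈ s, c i • x i) = ∑ i ∈ s, c i * OrCyc_L B (x i) := by
  unfold OrCyc_L
  simp only [Finset.mul_sum]
  rw [Finset.sum_comm]
  refine Finset.sum_congr rfl fun j _ => ?_
  rw [Finset.sum_apply, Finset.mul_sum, Finset.sum_mul]
  refine Finset.sum_congr rfl fun i _ => ?_
  rw [Pi.smul_apply, smul_eq_mul]
  ring

private theorem OrCyc_enum (o : Lab K) {ρ : Finset K.V} (hc : ρ.card = n) {w : K.V}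
    (hw : w ∉ ρ) (hf : insert w ρ ∈ K.faces) :
    ∃ (t : Fin (n + 1) → K.V) (k : Fin (n + 1)), Cham o t ∧ Finset.univ.image t = insert w ρ ∧
      t k = w ∧ Finset.univ.image (fun a => t (k.succAbove a)) = ρ ∧
      sg o.lab w ρ = (-1) ^ (k : ℕ) := by
  classical
  obtain ⟨t, ht, him⟩ := exists_cham o (σ := insert w ρ) ⟨hf, by
    rw [Finset.card_insert_of_notMem hw, hc]⟩
  have h1 : w ∈ Finset.univ.image t := by
    rw [him]
    exact Finset.mem_insert_self _ _
  obtain ⟨k, -, hk⟩ := Finset.mem_image.1 h1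
  refine ⟨t, k, ht, him, hk, ?_, ?_⟩
  · ext v
    constructor
    · intro hv
      obtain ⟨a, -, rfl⟩ := Finset.mem_image.1 hv
      have h2 : t (k.succAbove a) ∈ insert w ρ := by
        rw [← him]
        exact Finset.mem_image_of_mem t (Finset.mem_univ _)
      rcases Finset.mem_insert.1 h2 with h3 | h3
      · exfalso
        rw [← hk] at h3
        exact Fin.succAbove_ne k a (ht.injective h3)
      · exact h3
    · intro hv
      have h2 : v ∈ Finset.univ.image t := by
        rw [him]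
        exact Finset.mem_insert_of_mem hv
      obtain ⟨i, -, rfl⟩ := Finset.mem_image.1 h2
      have hik : i ≠ k := by
        rintro rfl
        rw [hk] at hv
        exact hw hv
      obtain ⟨a, ha⟩ := Fin.exists_succAbove_eq hik
      rw [← ha]
      exact Finset.mem_image_of_mem (fun a => t (k.succAbove a)) (Finset.mem_univ a)
  · unfold sg
    congr 1
    have h2 : (ρ.filter fun u => o.lab u < o.lab w) = (Finset.univ.filter fun i => i < k).image t := by
      ext v
      simp only [Finset.mem_filter, Finset.mem_image, Finset.mem_univ, true_and]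
      constructor
      · rintro ⟨hv, hlt⟩
        have h2 : v ∈ Finset.univ.image t := by
          rw [him]
          exact Finset.mem_insert_of_mem hv
        obtain ⟨i, -, rfl⟩ := Finset.mem_image.1 h2
        refine ⟨i, ?_, rfl⟩
        rw [← hk] at hlt
        exact ht.1.lt_iff_lt.1 hlt
      · rintro ⟨i, hi, rfl⟩
        have h2 : t i ∈ insert w ρ := by
          rw [← him]
          exact Finset.mem_image_of_mem t (Finset.mem_univ _)
        refine ⟨?_, ?_⟩
        · rcases Finset.mem_insert.1 h2 with h3 | h3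
          · exfalso
            rw [← hk] at h3
            exact hi.ne (ht.injective h3)
          · exact h3
        · rw [← hk]
          exact ht.1 hi
    rw [h2, Finset.card_image_of_injective _ ht.injective]
    have h3 : (Finset.univ.filter fun i : Fin (n + 1) => i < k) = Finset.Iio k := by
      ext i
      simp
    rw [h3, Fin.card_Iio]

private theorem OrCyc_unique (o : Lab K) {ρ : Finset K.V} (hρ : ρ ∈ K.faces)
    {t t' : Fin n → K.V} (ht : StrictMono fun i => o.lab (t i))
    (ht' : StrictMono fun i => o.lab (t' i)) (h : Finset.univ.image t = ρ)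
    (h' : Finset.univ.image t' = ρ) : t = t' := by
  classical
  have h1 : (fun i => o.lab (t i)) = fun i => o.lab (t' i) := by
    rw [← StrictMono.range_inj ht ht']
    have e : ∀ s : Fin n → K.V, Set.range (fun i => o.lab (s i)) =
        o.lab '' ((Finset.univ.image s : Finset K.V) : Set K.V) := by
      intro s
      rw [Finset.coe_image, Finset.coe_univ, Set.image_univ, ← Set.range_comp]
      rfl
    rw [e t, e t', h, h']
  funext i
  refine o.inj _ hρ ?_ ?_ (congrFun h1 i)
  · rw [← h]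
    exact Finset.mem_coe.2 (Finset.mem_image_of_mem t (Finset.mem_univ i))
  · rw [← h']
    exact Finset.mem_coe.2 (Finset.mem_image_of_mem t' (Finset.mem_univ i))

private theorem OrCyc_signs (a b α β : ℝ) (hα : 0 < α) (hβ : 0 < β) (h : α * a + β * b = 0) :
    ((SignType.sign a : SignType) : ℤ) + ((SignType.sign b : SignType) : ℤ) = 0 := by
  rcases lt_trichotomy a 0 with ha | ha | ha
  · have hb : 0 < b := by
      by_contra hb
      push Not at hb
      nlinarith [mul_neg_of_pos_of_neg hα ha, mul_nonneg hβ.le (neg_nonneg.2 hb)]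
    rw [sign_neg ha, sign_pos hb]
    decide
  · have hb : b = 0 := by
      rw [ha, mul_zero, zero_add] at h
      exact (mul_eq_zero.1 h).resolve_left hβ.ne'
    rw [ha, hb, sign_zero]
    decide
  · have hb : b < 0 := by
      by_contra hb
      push Not at hb
      nlinarith [mul_pos hα ha, mul_nonneg hβ.le hb]
    rw [sign_pos ha, sign_neg hb]
    decide

private theorem OrCyc_pow (k : ℕ) (x : ℝ) :
    ((-1 : ℤ)) ^ k * ((SignType.sign ((-1) ^ k * x) : SignType) : ℤ) =
      ((SignType.sign x : SignType) : ℤ) := by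
  rcases neg_one_pow_eq_or ℝ k with h | h
  · have h' : (-1 : ℤ) ^ k = 1 := by
      have := h
      exact_mod_cast this
    rw [h, h', one_mul, one_mul]
  · have h' : (-1 : ℤ) ^ k = -1 := by
      have := h
      exact_mod_cast this
    have h2 : (-1 : ℝ) * x = -x := by ring
    rw [h, h', h2, Left.sign_neg]
    generalize SignType.sign x = s
    cases s <;> decide

theorem orZ_cycle (o : Lab K) {ρ : Finset K.V} (hρ : ρ ∈ K.faces) (hc : ρ.card = n) :
    bd o (orZ o) ρ = 0 := by
  classical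
  obtain ⟨w₁, w₂, hw₁, hw₂, hne, hf₁, hf₂, huniq, α, β, c, hα, hβ, hcs, hrel⟩ := K.facet hρ hc
  have hnb : nb K ρ = {w₁, w₂} := by
    ext v
    rw [mem_nb hρ, Finset.mem_insert, Finset.mem_singleton]
    constructor
    · rintro ⟨h1, h2⟩
      exact huniq v h1 h2
    · rintro (rfl | rfl)
      · exact ⟨hw₁, hf₁⟩
      · exact ⟨hw₂, hf₂⟩
  obtain ⟨t₁, k₁, ht₁, him₁, hk₁, hs₁, hsg₁⟩ := OrCyc_enum o hc hw₁ hf₁
  obtain ⟨t₂, k₂, ht₂, him₂, hk₂, hs₂, hsg₂⟩ := OrCyc_enum o hc hw₂ hf₂
  have heq : (fun a => t₂ (k₂.succAbove a)) = fun a => t₁ (k₁.succAbove a) := by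
    refine OrCyc_unique o hρ ?_ ?_ hs₂ hs₁
    · intro a b hab
      exact ht₂.1 (Fin.strictMono_succAbove k₂ hab)
    · intro a b hab
      exact ht₁.1 (Fin.strictMono_succAbove k₁ hab)
  obtain ⟨B, hB⟩ : ∃ B : Fin n → Fin (n + 1) → ℝ,
      B = fun a => Fin.cons 1 (K.dev (t₁ (k₁.succAbove a))) := ⟨_, rfl⟩
  have hd₁ : Matrix.det (Matrix.of fun a : Fin n => K.dev (t₁ a.succ) - K.dev (t₁ 0)) =
      (-1) ^ (k₁ : ℕ) * OrCyc_L B (Fin.cons 1 (K.dev w₁)) := by
    rw [← OrCyc_detD (fun i => K.dev (t₁ i)), OrCyc_L_det _ k₁, hB, ← hk₁]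
    rfl
  have hd₂ : Matrix.det (Matrix.of fun a : Fin n => K.dev (t₂ a.succ) - K.dev (t₂ 0)) =
      (-1) ^ (k₂ : ℕ) * OrCyc_L B (Fin.cons 1 (K.dev w₂)) := by
    rw [← OrCyc_detD (fun i => K.dev (t₂ i)), OrCyc_L_det _ k₂, hB, ← hk₂]
    have : (fun a => (Matrix.of fun i => (Fin.cons 1 (K.dev (t₂ i)) : Fin (n + 1) → ℝ))
        (k₂.succAbove a)) = fun a => Fin.cons 1 (K.dev (t₁ (k₁.succAbove a))) := by
      funext a
      rw [← congrFun heq a]
      rfl
    rw [this]
    rfl
  have hB0 : ∀ v ∈ ρ, OrCyc_L B (Fin.cons 1 (K.dev v)) = 0 := by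
    intro v hv
    rw [← hs₁] at hv
    obtain ⟨a, -, rfl⟩ := Finset.mem_image.1 hv
    have := OrCyc_L_self B a
    rw [hB] at this ⊢
    exact this
  have hlin : α * OrCyc_L B (Fin.cons 1 (K.dev w₁)) + β * OrCyc_L B (Fin.cons 1 (K.dev w₂)) = 0 := by
    have h1 : OrCyc_L B (∑ v ∈ ρ, c v • (Fin.cons 1 (K.dev v) : Fin (n + 1) → ℝ)) = 0 := by
      rw [OrCyc_L_sum]
      exact Finset.sum_eq_zero fun v hv => by rw [hB0 v hv, mul_zero]
    have h2 : (∑ v ∈ ρ, c v • (Fin.cons 1 (K.dev v) : Fin (n + 1) → ℝ)) =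
        ∑ i : Fin 2, (![α, β] i) •
          ((![(Fin.cons 1 (K.dev w₁) : Fin (n + 1) → ℝ), Fin.cons 1 (K.dev w₂)]) i) := by
      rw [Fin.sum_univ_two]
      funext j
      refine Fin.cases ?_ (fun j => ?_) j
      · simp [Finset.sum_apply, hcs]
      · have h3 := congrFun hrel j
        simp only [Pi.add_apply, Pi.smul_apply, Finset.sum_apply, smul_eq_mul] at h3
        simp [Finset.sum_apply, h3]
    rw [h2, OrCyc_L_sum, Fin.sum_univ_two] at h1
    exact h1
  unfold bd
  rw [hnb, Finset.sum_pair hne, smul_eq_mul, smul_eq_mul, ← him₁, ← him₂, OrCyc_choose o ht₁,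
    OrCyc_choose o ht₂, hsg₁, hsg₂, hd₁, hd₂, OrCyc_pow, OrCyc_pow]
  exact OrCyc_signs _ _ α β hα hβ hlin

end Pool.Agent.ChG
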