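import Pool.Agent.ChG.OrCyc
import Pool.Agent.ChG.FExact
import Pool.Agent.ChS.LinkFan

/-!
# Exactness of the chain complex of the star of a simplex

Let `cones`, `p` be the fan of `I` (`exists_link_fan`, `d = n + 1 - I.card`).  For `τ ∈ cones` put
`θ τ = ∏ v ∈ τ, sg o.lab v I` and `c' τ = θ τ • c (τ ∪ I)`.  For `τ ∈ cones` the sets `fnb cones τ` and
`nb K (τ ∪ I)` coincide, `θ (insert v τ) = sg v I * θ τ`, `sg v (τ ∪ I) = sg v τ * sg v I` (`sg_union`), so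
`fbd cones o.lab c' τ = θ τ • bd o c (τ ∪ I)`.  Apply `fan_exact` with `r = t - I.card`.

`rowK_top`: apply `fan_top` to `c'` and to the family of `orZ` (`orZ_cycle`, `A = ℤ`): `orZ o σ = θ * foS * a₀`
and `c σ = θ • foS • a` for all chambers `σ ⊇ I`; `a₀² = 1` by `orZ_mul_self` (a chamber exists,
`exists_top`).  So `c σ = orZ o σ • (a₀ • a)`.
-/

namespace Pool.Agent.ChG

open Matrix Pool.Agent.ChP Pool.Agent.ChS
open scoped Pointwise

variable {n : ℕ} {K : AffineTriangulation n}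

private theorem RowK_mem_fnb {U : Type} [DecidableEq U] {cones : Finset (Finset U)} {τ : Finset U}
    {v : U} : v ∈ fnb cones τ ↔ v ∉ τ ∧ insert v τ ∈ cones := by
  unfold fnb
  rw [Finset.mem_filter, Finset.mem_biUnion]
  constructor
  · intro h
    exact h.2
  · intro h
    exact ⟨⟨_, h.2, Finset.mem_insert_self v τ⟩, h⟩

private theorem RowK_fnb {I : Finset K.V} {cones : Finset (Finset K.V)}
    (hcones : ∀ τ : Finset K.V, τ ∈ cones ↔ Disjoint τ I ∧ τ ∪ I ∈ K.faces) {τ : Finset K.V}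
    (hτ : τ ∈ cones) : fnb cones τ = nb K (τ ∪ I) := by
  have hτ' := (hcones τ).1 hτ
  ext v
  rw [RowK_mem_fnb, mem_nb hτ'.2, hcones, Finset.mem_union, not_or, Finset.disjoint_insert_left,
    Finset.insert_union]
  constructor
  · rintro ⟨h1, ⟨h2, -⟩, h3⟩
    exact ⟨⟨h1, h2⟩, h3⟩
  · rintro ⟨⟨h1, h2⟩, h3⟩
    exact ⟨h1, ⟨h2, hτ'.1⟩, h3⟩

private noncomputable def RowK_th (o : Lab K) (I τ : Finset K.V) : ℤ := ∏ v ∈ τ, sg o.lab v I

private theorem RowK_th_sq (o : Lab K) (I τ : Finset K.V) :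
    RowK_th o I τ * RowK_th o I τ = 1 := by
  unfold RowK_th
  rw [← Finset.prod_mul_distrib]
  exact Finset.prod_eq_one fun v _ => sg_mul_self _ _ _

private theorem RowK_fbd (o : Lab K) {I : Finset K.V} {cones : Finset (Finset K.V)}
    (hcones : ∀ τ : Finset K.V, τ ∈ cones ↔ Disjoint τ I ∧ τ ∪ I ∈ K.faces) {A : Type}
    [AddCommGroup A] (c : Finset K.V → A) {τ : Finset K.V} (hτ : τ ∈ cones) :
    fbd cones o.lab (fun τ => RowK_th o I τ • c (τ ∪ I)) τ = RowK_th o I τ • bd o c (τ ∪ I) := by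
  have hτ' := (hcones τ).1 hτ
  unfold fbd bd
  rw [← RowK_fnb hcones hτ, Finset.smul_sum]
  refine Finset.sum_congr rfl fun v hv => ?_
  have h1 := (RowK_mem_fnb.1 hv).1
  simp only [Finset.insert_union]
  rw [sg_union _ _ hτ'.1, smul_smul, smul_smul]
  have h2 : RowK_th o I (insert v τ) = sg o.lab v I * RowK_th o I τ := Finset.prod_insert h1
  rw [h2]
  congr 1
  ring

private theorem RowK_lab (o : Lab K) {I : Finset K.V} {cones : Finset (Finset K.V)}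
    (hcones : ∀ τ : Finset K.V, τ ∈ cones ↔ Disjoint τ I ∧ τ ∪ I ∈ K.faces) :
    ∀ σ ∈ cones, Set.InjOn o.lab (σ : Set K.V) := by
  intro σ hσ
  have h := (hcones σ).1 hσ
  exact (o.inj _ h.2).mono (Finset.coe_subset.2 Finset.subset_union_left)

private theorem RowK_card {I τ : Finset K.V} (h : Disjoint τ I) :
    (τ ∪ I).card = τ.card + I.card := Finset.card_union_of_disjoint h

private theorem RowK_sdiff {I : Finset K.V} {cones : Finset (Finset K.V)}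
    (hcones : ∀ τ : Finset K.V, τ ∈ cones ↔ Disjoint τ I ∧ τ ∪ I ∈ K.faces) {ρ : Finset K.V}
    (hρ : ρ ∈ K.faces) (hI : I ⊆ ρ) : ρ \ I ∈ cones ∧ (ρ \ I) ∪ I = ρ ∧
      (ρ \ I).card + I.card = ρ.card := by
  have h1 : (ρ \ I) ∪ I = ρ := Finset.sdiff_union_of_subset hI
  have h2 : Disjoint (ρ \ I) I := Finset.sdiff_disjoint
  refine ⟨?_, h1, ?_⟩
  · rw [hcones, h1]
    exact ⟨h2, hρ⟩
  · rw [← RowK_card h2, h1]

private theorem RowK_card_le {I : Finset K.V} (hI : I ∈ K.faces) : I.card ≤ n + 1 := by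
  obtain ⟨τ, -, h1, h2⟩ := K.exists_top hI
  rw [← h2]
  exact Finset.card_le_card h1

theorem rowK (o : Lab K) {I : Finset K.V} (hI : I ∈ K.faces) {A : Type} [AddCommGroup A] {t : ℕ}
    (ht : t ≤ n) (hIt : I.card ≤ t) (c : Finset K.V → A)
    (hc : ∀ ρ ∈ K.faces, I ⊆ ρ → ρ.card + 1 = t → bd o c ρ = 0) :
    ∃ e : Finset K.V → A, ∀ ρ ∈ K.faces, I ⊆ ρ → ρ.card = t → bd o e ρ = c ρ := by
  have hle := RowK_card_le hI
  obtain ⟨d, hd⟩ : ∃ d, I.card + d = n + 1 := ⟨n + 1 - I.card, by omega⟩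
  obtain ⟨cones, p, hfan, hcones⟩ := exists_link_fan K hI hd
  obtain ⟨r, hr⟩ : ∃ r, I.card + r = t := ⟨t - I.card, by omega⟩
  obtain ⟨e', he'⟩ := fan_exact hfan o.lab (RowK_lab o hcones) (r := r) (by omega)
    (fun τ => RowK_th o I τ • c (τ ∪ I)) (by
      intro ρ hρ hρr
      have h1 := (hcones ρ).1 hρ
      rw [RowK_fbd o hcones c hρ, hc _ h1.2 Finset.subset_union_right (by
        rw [RowK_card h1.1]; omega), smul_zero])
  refine ⟨fun ρ => RowK_th o I (ρ \ I) • e' (ρ \ I), fun ρ hρ hIρ hρt => ?_⟩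
  obtain ⟨h1, h2, h3⟩ := RowK_sdiff hcones hρ hIρ
  have h4 := he' (ρ \ I) h1 (by omega)
  have h5 := RowK_fbd o hcones (fun ρ => RowK_th o I (ρ \ I) • e' (ρ \ I)) h1
  have h6 : fbd cones o.lab (fun τ => RowK_th o I τ •
      (fun ρ => RowK_th o I (ρ \ I) • e' (ρ \ I)) (τ ∪ I)) (ρ \ I) =
      fbd cones o.lab e' (ρ \ I) := by
    unfold fbd
    refine Finset.sum_congr rfl fun v hv => ?_
    have h7 := (hcones _).1 (RowK_mem_fnb.1 hv).2
    have h8 : (insert v (ρ \ I) ∪ I) \ I = insert v (ρ \ I) :=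
      Finset.union_sdiff_cancel_right h7.1
    simp only [h8]
    rw [smul_smul (RowK_th o I _), RowK_th_sq, one_smul]
  rw [h6, h4, h2] at h5
  have h9 := congrArg (fun x => RowK_th o I (ρ \ I) • x) h5
  simp only [smul_smul, RowK_th_sq, one_smul] at h9
  exact h9.symm

theorem rowK_top (o : Lab K) {I : Finset K.V} (hI : I ∈ K.faces) {A : Type} [AddCommGroup A]
    (c : Finset K.V → A) (hc : ∀ ρ ∈ K.faces, I ⊆ ρ → ρ.card = n → bd o c ρ = 0) :
    ∃ a : A, ∀ σ ∈ K.faces, I ⊆ σ → σ.card = n + 1 → c σ = orZ o σ • a := by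
  have hle := RowK_card_le hI
  obtain ⟨v₀, -⟩ := K.nonempty_of_mem I hI
  have hne : Nonempty K.V := ⟨v₀⟩
  obtain ⟨d, hd⟩ : ∃ d, I.card + d = n + 1 := ⟨n + 1 - I.card, by omega⟩
  obtain ⟨cones, p, hfan, hcones⟩ := exists_link_fan K hI hd
  have key : ∀ {B : Type} [AddCommGroup B] (c : Finset K.V → B),
      (∀ ρ ∈ K.faces, I ⊆ ρ → ρ.card = n → bd o c ρ = 0) →
      ∃ a : B, ∀ σ ∈ K.faces, I ⊆ σ → σ.card = n + 1 →
        c σ = (RowK_th o I (σ \ I) * foS o.lab p (σ \ I)) • a := by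
    intro B _ c hc
    obtain ⟨a, ha⟩ := fan_top hfan o.lab (RowK_lab o hcones)
      (fun τ => RowK_th o I τ • c (τ ∪ I)) (by
        intro ρ hρ hρr
        have h1 := (hcones ρ).1 hρ
        rw [RowK_fbd o hcones c hρ, hc _ h1.2 Finset.subset_union_right (by
          rw [RowK_card h1.1]; omega), smul_zero])
    refine ⟨a, fun σ hσ hIσ hσn => ?_⟩
    obtain ⟨h1, h2, h3⟩ := RowK_sdiff hcones hσ hIσ
    have h4 := ha (σ \ I) h1 (by omega)
    simp only [h2] at h4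
    rw [mul_smul, ← h4, smul_smul, RowK_th_sq, one_smul]
  obtain ⟨a, ha⟩ := key c hc
  obtain ⟨a₀, ha₀⟩ := key (orZ o) (fun ρ hρ _ hρn => orZ_cycle o hρ hρn)
  refine ⟨a₀ • a, fun σ hσ hIσ hσn => ?_⟩
  have h1 := ha₀ σ hσ hIσ hσn
  have h2 := orZ_mul_self o hσ hσn
  rw [smul_eq_mul] at h1
  have h3 : a₀ * a₀ = 1 := by
    have h4 : a₀ ∣ 1 := by
      rw [← h2, h1]
      exact ⟨RowK_th o I (σ \ I) * foS o.lab p (σ \ I) *
        (RowK_th o I (σ \ I) * foS o.lab p (σ \ I)) * a₀, by ring⟩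
    rcases Int.isUnit_iff.1 (isUnit_of_dvd_one h4) with h5 | h5
    · rw [h5]; norm_num
    · rw [h5]; norm_num
  rw [ha σ hσ hIσ hσn, smul_smul, h1, mul_assoc _ a₀ a₀, h3, mul_one]

end Pool.Agent.ChG
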