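import Pool.Agent.ChG.Defs

/-!
# Signs and neighbours

`mem_nb`: the set in the definition of `nb` is finite for `ρ ∈ K.faces` (`star_finite`).
`sg_swap`: for different labels exactly one of `u`, `v` counts for the other.
-/

namespace Pool.Agent.ChG

open Matrix Pool.Agent.ChP Pool.Agent.ChS
open scoped Pointwise

section

variable {U : Type} [DecidableEq U]

theorem sg_mul_self (lab : U → ℕ) (v : U) (σ : Finset U) : sg lab v σ * sg lab v σ = 1 := by
  unfold sg
  rw [← mul_pow]
  norm_num

theorem sg_insert_self (lab : U → ℕ) (v : U) (σ : Finset U) : sg lab v (insert v σ) = sg lab v σ := by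
  unfold sg
  rw [Finset.filter_insert, if_neg (lt_irrefl _)]

theorem sg_erase_self (lab : U → ℕ) (v : U) (σ : Finset U) : sg lab v (σ.erase v) = sg lab v σ := by
  unfold sg
  rw [Finset.filter_erase, Finset.erase_eq_of_notMem]
  intro h
  exact lt_irrefl _ (Finset.mem_filter.1 h).2

theorem sg_union (lab : U → ℕ) (v : U) {σ τ : Finset U} (h : Disjoint σ τ) :
    sg lab v (σ ∪ τ) = sg lab v σ * sg lab v τ := by
  unfold sg
  rw [Finset.filter_union, Finset.card_union_of_disjoint (Finset.disjoint_filter_filter h), pow_add]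

private theorem SgBas_insert_lt (lab : U → ℕ) {u v : U} (h : lab u < lab v) {σ : Finset U}
    (hu : u ∉ σ) : sg lab v (insert u σ) = -sg lab v σ := by
  unfold sg
  rw [Finset.filter_insert, if_pos h, Finset.card_insert_of_notMem, pow_succ]
  · ring
  · intro h1
    exact hu (Finset.mem_filter.1 h1).1

private theorem SgBas_insert_ge (lab : U → ℕ) {u v : U} (h : ¬ lab u < lab v) {σ : Finset U} :
    sg lab v (insert u σ) = sg lab v σ := by
  unfold sg
  rw [Finset.filter_insert, if_neg h]

theorem sg_swap (lab : U → ℕ) {u v : U} (h : lab u ≠ lab v) {σ : Finset U} (hu : u ∉ σ)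
    (hv : v ∉ σ) :
    sg lab u (insert v σ) * sg lab v σ = -(sg lab v (insert u σ) * sg lab u σ) := by
  rcases lt_or_gt_of_ne h with h1 | h1
  · rw [SgBas_insert_lt lab h1 hu, SgBas_insert_ge lab (not_lt.2 h1.le)]
    ring
  · rw [SgBas_insert_lt lab h1 hv, SgBas_insert_ge lab (not_lt.2 h1.le)]
    ring

end

variable {n : ℕ} {K : AffineTriangulation n}

theorem mem_nb {ρ : Finset K.V} (hρ : ρ ∈ K.faces) {v : K.V} :
    v ∈ nb K ρ ↔ v ∉ ρ ∧ insert v ρ ∈ K.faces := by
  have hfin : {v : K.V | v ∉ ρ ∧ insert v ρ ∈ K.faces}.Finite := by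
    refine Set.Finite.of_finite_image (f := fun v => insert v ρ)
      ((K.star_finite hρ).subset ?_) ?_
    · rintro _ ⟨v, hv, rfl⟩
      exact ⟨hv.2, Finset.subset_insert _ _⟩
    · intro a ha b hb hab
      have h1 : a ∈ insert b ρ := by
        have h2 : insert a ρ = insert b ρ := hab
        rw [← h2]
        exact Finset.mem_insert_self _ _
      rcases Finset.mem_insert.1 h1 with h2 | h2
      · exact h2
      · exact absurd h2 ha.1
  unfold nb
  rw [dif_pos hfin, Set.Finite.mem_toFinset]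
  rfl

theorem smul_mem_faces (γ : K.Γ) (σ : Finset K.V) : γ • σ ∈ K.faces ↔ σ ∈ K.faces := by
  constructor
  · intro h
    have h1 := K.smul_mem γ⁻¹ _ h
    rwa [inv_smul_smul] at h1
  · exact K.smul_mem γ σ

theorem nb_smul (γ : K.Γ) {ρ : Finset K.V} (hρ : ρ ∈ K.faces) :
    nb K (γ • ρ) = γ • nb K ρ := by
  ext v
  rw [mem_nb (K.smul_mem γ ρ hρ), ← Finset.inv_smul_mem_iff (s := nb K ρ), mem_nb hρ,
    ← Finset.inv_smul_mem_iff]
  have h1 : insert v (γ • ρ) = γ • insert (γ⁻¹ • v) ρ := by
    ext w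
    rw [← Finset.inv_smul_mem_iff, Finset.mem_insert, Finset.mem_insert, ← Finset.inv_smul_mem_iff,
      smul_left_cancel_iff]
  rw [h1, smul_mem_faces]

theorem sg_smul (o : Lab K) (γ : K.Γ) (v : K.V) (σ : Finset K.V) :
    sg o.lab (γ • v) (γ • σ) = sg o.lab v σ := by
  have h1 : (γ • σ).filter (fun u => o.lab u < o.lab (γ • v)) =
      γ • (σ.filter fun u => o.lab u < o.lab v) := by
    ext u
    rw [← Finset.inv_smul_mem_iff, Finset.mem_filter, Finset.mem_filter,
      ← Finset.inv_smul_mem_iff, o.smul, o.smul]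
  unfold sg
  rw [h1, Finset.card_smul_finset]

theorem chZ_mul (γ δ : K.Γ) : chZ K (γ * δ) = chZ K γ * chZ K δ := by
  unfold chZ
  rw [map_mul, Matrix.det_mul, sign_mul]
  push_cast
  rfl

theorem chZ_mul_self (γ : K.Γ) : chZ K γ * chZ K γ = 1 := by
  have h0 : (K.lin γ).det ≠ 0 := by
    intro h
    have h1 : (K.lin γ).det * (K.lin γ⁻¹).det = 1 := by
      rw [← Matrix.det_mul, ← map_mul, mul_inv_cancel, map_one, Matrix.det_one]
    rw [h, zero_mul] at h1
    exact zero_ne_one h1
  unfold chZ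
  rcases lt_or_gt_of_ne h0 with h | h
  · rw [sign_neg h]
    norm_num
  · rw [sign_pos h]
    norm_num

theorem chZ_cast (γ : K.Γ) : ((chZ K γ : ℤ) : ℝ) = chi K.lin γ := by
  unfold chZ chi
  rcases lt_trichotomy (K.lin γ).det 0 with h | h | h
  · rw [Real.sign_of_neg h, sign_neg h]
    norm_num
  · rw [h, Real.sign_zero, sign_zero]
    norm_num
  · rw [Real.sign_of_pos h, sign_pos h]
    norm_num

end Pool.Agent.ChG
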