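import Pool.Agent.ChG.SgBas

/-!
# The dimension of the space of equivariant families

Let `R` be a set of representatives (`K.exists_reps`), `R_t` the set of the `A ∈ R` with `A.card = t`;
`K.numSimplices (t - 1) = R_t.card` (`numSimplices_eq`).  The restriction of `a ∈ Sp τ L t` to `R_t` is an
isomorphism onto `∏ A ∈ R_t, L A`: injective because every simplex is `γ • A`, surjective:
`a (γ • A) = τ γ (x A)`, which is well defined by the uniqueness of `(γ, A)` and equivariant by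
`τ (γ * δ) = τ γ ∘ τ δ`.  See `ChS/EdgeDim.lean` for a special case.
-/

namespace Pool.Agent.ChG

open Matrix Pool.Agent.ChP Pool.Agent.ChS
open scoped Pointwise

variable {n : ℕ} {K : AffineTriangulation n} {F M : Type} [Field F] [AddCommGroup M] [Module F M]

theorem sp_finrank (τ : K.Γ → M →ₗ[F] M) (h1 : τ 1 = LinearMap.id)
    (hmul : ∀ γ δ : K.Γ, τ (γ * δ) = (τ γ).comp (τ δ)) (L : Finset K.V → Submodule F M)
    (hL : ∀ (γ : K.Γ) (I : Finset K.V), ∀ x ∈ L I, τ γ x ∈ L (γ • I)) {t : ℕ} (l : ℕ)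
    (hfin : ∀ I ∈ K.faces, I.card = t + 1 → Module.Finite F (L I))
    (hl : ∀ I ∈ K.faces, I.card = t + 1 → Module.finrank F (L I) = l) :
    Module.Finite F (Sp τ L (t + 1)) ∧
      Module.finrank F (Sp τ L (t + 1)) = K.numSimplices t * l := by
  classical
  obtain ⟨R, hR⟩ := K.exists_reps
  obtain ⟨R₁, hR₁⟩ : ∃ R₁ : Finset (Finset K.V), R₁ = R.filter fun σ => σ.card = t + 1 := ⟨_, rfl⟩
  have hnum : K.numSimplices t = R₁.card := by rw [hR₁]; exact numSimplices_eq hR t
  have hmemR : ∀ τ, τ ∈ R₁ ↔ τ ∈ R ∧ τ.card = t + 1 := fun τ => by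
    rw [hR₁, Finset.mem_filter]
  have hcard : ∀ σ : R₁, (σ : Finset K.V).card = t + 1 := fun σ => ((hmemR _).1 σ.2).2
  have hR₁R : ∀ σ : R₁, (σ : Finset K.V) ∈ R := fun σ => ((hmemR _).1 σ.2).1
  have hface : ∀ σ : R₁, (σ : Finset K.V) ∈ K.faces := fun σ => hR.1 _ (hR₁R σ)
  obtain ⟨f, hf⟩ : ∃ f : Sp τ L (t + 1) →ₗ[F] (∀ σ : R₁, L (σ : Finset K.V)),
      ∀ (a : Sp τ L (t + 1)) (σ : R₁), (f a σ : M) = (a : Finset K.V → M) σ :=
    ⟨{ toFun := fun a σ => ⟨(a : Finset K.V → M) σ, a.2.1 σ⟩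
       map_add' := fun a b => by ext σ; rfl
       map_smul' := fun r a => by ext σ; rfl }, fun a σ => rfl⟩
  have hinj : Function.Injective f := by
    rw [← LinearMap.ker_eq_bot, LinearMap.ker_eq_bot']
    intro a ha
    apply Subtype.ext
    obtain ⟨-, hzero, hequi⟩ := a.2
    funext I
    show (a : Finset K.V → M) I = 0
    by_cases h : I ∈ K.faces ∧ I.card = t + 1
    · obtain ⟨⟨γ, σ⟩, ⟨hσR, hγσ⟩, -⟩ := hR.2 _ h.1
      simp only at hσR hγσ
      have hc2 : σ.card = t + 1 := by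
        rw [← Finset.card_smul_finset γ σ, hγσ]
        exact h.2
      have hmem : σ ∈ R₁ := (hmemR σ).2 ⟨hσR, hc2⟩
      have h4 : (f a ⟨σ, hmem⟩ : M) = 0 := by rw [ha]; rfl
      rw [hf] at h4
      have h4' : (a : Finset K.V → M) σ = 0 := h4
      rw [← hγσ, hequi, h4', map_zero]
    · exact hzero I h
  have hsurj : Function.Surjective f := by
    intro c
    have hp : ∀ τ : Finset K.V, ∃ p : K.Γ × Finset K.V, τ ∈ K.faces →
        (p.2 ∈ R ∧ p.1 • p.2 = τ) ∧ ∀ q : K.Γ × Finset K.V, q.2 ∈ R ∧ q.1 • q.2 = τ → q = p := by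
      intro τ
      by_cases hτ : τ ∈ K.faces
      · obtain ⟨p, hp1, hp2⟩ := hR.2 τ hτ
        exact ⟨p, fun _ => ⟨hp1, hp2⟩⟩
      · exact ⟨(1, τ), fun h => absurd h hτ⟩
    choose p hp using hp
    obtain ⟨c', hc', hcL⟩ : ∃ c' : Finset K.V → M, (∀ σ : R₁, c' σ = c σ) ∧ ∀ A, c' A ∈ L A := by
      refine ⟨fun σ => if h : σ ∈ R₁ then (c ⟨σ, h⟩ : M) else 0, fun σ => dif_pos σ.2, fun A => ?_⟩
      by_cases h : A ∈ R₁
      · simp only [dif_pos h]
        exact (c ⟨A, h⟩).2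
      · simp only [dif_neg h]
        exact (L A).zero_mem
    obtain ⟨W, hW⟩ : ∃ W : Finset K.V → M, ∀ I, W I = τ (p I).1 (c' (p I).2) :=
      ⟨_, fun I => rfl⟩
    have hWsmul : ∀ (γ : K.Γ) (I : Finset K.V), I ∈ K.faces → W (γ • I) = τ γ (W I) := by
      intro γ I hI
      have h1 := hp I hI
      have h2 := hp (γ • I) (K.smul_mem γ I hI)
      have h3 := h2.2 (γ * (p I).1, (p I).2) ⟨h1.1.1, by
        show (γ * (p I).1) • (p I).2 = γ • I
        rw [mul_smul, h1.1.2]⟩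
      rw [hW, hW, ← h3]
      show τ (γ * (p I).1) (c' (p I).2) = _
      rw [hmul, LinearMap.comp_apply]
    have hWL : ∀ I ∈ K.faces, W I ∈ L I := by
      intro I hI
      have h2 := hL (p I).1 (p I).2 (c' (p I).2) (hcL _)
      rw [(hp I hI).1.2] at h2
      rw [hW]
      exact h2
    have hW1 : ∀ σ : R₁, W σ = c σ := by
      intro σ
      have h2 := (hp σ (hface σ)).2 (1, (σ : Finset K.V)) ⟨hR₁R σ, by
        show (1 : K.Γ) • (σ : Finset K.V) = σ
        rw [one_smul]⟩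
      rw [hW, ← h2]
      show τ 1 (c' σ) = _
      rw [h1, LinearMap.id_apply, hc']
    refine ⟨⟨fun I => if I ∈ K.faces ∧ I.card = t + 1 then W I else 0, ?_, ?_, ?_⟩, ?_⟩
    · intro I
      by_cases h : I ∈ K.faces ∧ I.card = t + 1
      · simp only [if_pos h]
        exact hWL I h.1
      · simp only [if_neg h]
        exact (L I).zero_mem
    · intro I h
      simp only [if_neg h]
    · intro γ I
      have h2 : (γ • I ∈ K.faces ∧ (γ • I).card = t + 1) ↔ (I ∈ K.faces ∧ I.card = t + 1) := by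
        rw [smul_mem_faces, Finset.card_smul_finset]
      by_cases h : I ∈ K.faces ∧ I.card = t + 1
      · simp only [if_pos h, if_pos (h2.2 h)]
        exact hWsmul γ I h.1
      · simp only [if_neg h, if_neg (fun h' => h (h2.1 h')), map_zero]
    · funext σ
      apply Subtype.ext
      rw [hf]
      have h2 : (σ : Finset K.V) ∈ K.faces ∧ (σ : Finset K.V).card = t + 1 := ⟨hface σ, hcard σ⟩
      show (if (σ : Finset K.V) ∈ K.faces ∧ (σ : Finset K.V).card = t + 1 then W σ else 0) = _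
      rw [if_pos h2, hW1]
  have e : Sp τ L (t + 1) ≃ₗ[F] (∀ σ : R₁, L (σ : Finset K.V)) :=
    LinearEquiv.ofBijective f ⟨hinj, hsurj⟩
  haveI : ∀ σ : R₁, Module.Finite F (L (σ : Finset K.V)) :=
    fun σ => hfin _ (hface σ) (hcard σ)
  refine ⟨Module.Finite.equiv e.symm, ?_⟩
  rw [e.finrank_eq, Module.finrank_pi_fintype, hnum]
  rw [Finset.sum_congr rfl (fun σ _ => hl _ (hface σ) (hcard σ)), Finset.sum_const,
    Finset.card_univ, Fintype.card_coe, smul_eq_mul]

private theorem SpDim_chZ_one : chZ K 1 = 1 := by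
  have h1 := chZ_mul (K := K) 1 1
  rw [mul_one, chZ_mul_self] at h1
  exact h1

theorem asp_finrank (C : Coef K F M) {t : ℕ} (l : ℕ)
    (hfin : ∀ I ∈ K.faces, I.card = t + 1 → Module.Finite F (C.L I))
    (hl : ∀ I ∈ K.faces, I.card = t + 1 → Module.finrank F (C.L I) = l) :
    Module.Finite F (Asp C (t + 1)) ∧ Module.finrank F (Asp C (t + 1)) = K.numSimplices t * l := by
  unfold Asp
  refine sp_finrank (fun γ => chZ K γ • C.act γ) ?_ ?_ C.L ?_ l hfin hl
  · show chZ K 1 • C.act 1 = LinearMap.id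
    rw [SpDim_chZ_one, one_smul, map_one]
    rfl
  · intro γ δ
    show chZ K (γ * δ) • C.act (γ * δ) = (chZ K γ • C.act γ).comp (chZ K δ • C.act δ)
    ext x
    rw [chZ_mul, map_mul]
    simp only [LinearMap.smul_apply, LinearMap.comp_apply, map_zsmul, Module.End.mul_apply]
    rw [mul_smul, smul_comm]
  · intro γ I x hx
    show (chZ K γ • C.act γ) x ∈ C.L (γ • I)
    rw [LinearMap.smul_apply]
    exact zsmul_mem (C.act_L γ I x hx) _

theorem bsp_finrank (C : Coef K F M) (t : ℕ) (hfin : Module.Finite F (C.L ∅)) :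
    Module.Finite F (Bsp C (t + 1)) ∧
      Module.finrank F (Bsp C (t + 1)) = K.numSimplices t * Module.finrank F (C.L ∅) := by
  unfold Bsp
  refine sp_finrank (fun γ => C.act γ) ?_ ?_ (fun _ => C.L ∅) ?_ _ (fun _ _ _ => hfin)
    (fun _ _ _ => rfl)
  · show C.act 1 = LinearMap.id
    rw [map_one]
    rfl
  · intro γ δ
    show C.act (γ * δ) = (C.act γ).comp (C.act δ)
    rw [map_mul]
    rfl
  · intro γ I x hx
    have h := C.act_L γ ∅ x hx
    rwa [Finset.smul_finset_empty] at h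

end Pool.Agent.ChG
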