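import Pool.Agent.ChG.PCoef

/-!
# The coboundary map is the transpose of the boundary map

Let `R` be a set of representatives, `R_t` the set of the `σ ∈ R` with `σ.card = t`.  The restriction to `R_t` is an
isomorphism of `CoC K F t` (and `Bsp (PC F o) t`) onto `R_t → F` (see the proof of `sp_finrank`).  In
these coordinates the coboundary map from `t + 1` to `t + 2` vertices has the matrix
`M ρ σ = ∑ v ∈ ρ, if ρ.erase v ∈ orbit σ then sg v ρ else 0` (`ρ ∈ R_{t+2}`, `σ ∈ R_{t+1}`) and the boundary map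
has the matrix `N σ ρ = ∑ v ∈ nb σ, if insert v σ ∈ orbit ρ then sg v σ else 0`.  `N σ ρ = M ρ σ`: to `v ∈ ρ` with
`ρ.erase v = γ • σ` corresponds `γ⁻¹ • v ∈ nb σ` (`γ` is unique as the action is free; `sg_smul`).
The rank of a matrix is the rank of its transpose, `dim ZB = f_{t+1} - rank`, `dim ZC = f_t - rank`.
(Only the simplices with `t + 1` vertices matter in the definition of `ZB o _ (t + 2)`: for the other
`ρ ∈ K.faces` the boundary vanishes as `b` vanishes on the sets `insert v ρ`.)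
-/

namespace Pool.Agent.ChG

open Matrix Pool.Agent.ChP Pool.Agent.ChS
open scoped Pointwise

/-- linear algebra: adjoint maps have the same rank -/
private theorem Tran_adj {F V W ι κ : Type} [Field F] [AddCommGroup V] [Module F V]
    [AddCommGroup W] [Module F W] [Fintype ι] [Fintype κ] (eV : V ≃ₗ[F] (ι → F))
    (eW : W ≃ₗ[F] (κ → F)) (d : V →ₗ[F] W) (e : W →ₗ[F] V)
    (h : ∀ a b, eW (d a) ⬝ᵥ eW b = eV a ⬝ᵥ eV (e b)) :
    Module.finrank F (LinearMap.ker e) + Fintype.card ι =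
      Fintype.card κ + Module.finrank F (LinearMap.ker d) := by
  classical
  obtain ⟨bV, hbV⟩ : ∃ bV : Module.Basis ι F V, bV = Module.Basis.ofEquivFun eV := ⟨_, rfl⟩
  obtain ⟨bW, hbW⟩ : ∃ bW : Module.Basis κ F W, bW = Module.Basis.ofEquivFun eW := ⟨_, rfl⟩
  have hV : ∀ i, eV (bV i) = Pi.single i 1 := fun i => by
    rw [hbV, Module.Basis.coe_ofEquivFun, LinearEquiv.apply_symm_apply]
  have hW : ∀ j, eW (bW j) = Pi.single j 1 := fun j => by
    rw [hbW, Module.Basis.coe_ofEquivFun, LinearEquiv.apply_symm_apply]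
  have hrV : ∀ x i, bV.repr x i = eV x i := fun x i => by
    rw [hbV, Module.Basis.ofEquivFun_repr_apply]
  have hrW : ∀ x j, bW.repr x j = eW x j := fun x j => by
    rw [hbW, Module.Basis.ofEquivFun_repr_apply]
  have : Module.Finite F V := Module.Finite.equiv eV.symm
  have : Module.Finite F W := Module.Finite.equiv eW.symm
  have hmat : LinearMap.toMatrix bW bV e = (LinearMap.toMatrix bV bW d).transpose := by
    ext i j
    rw [Matrix.transpose_apply, LinearMap.toMatrix_apply, LinearMap.toMatrix_apply, hrV, hrW]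
    have h1 := h (bV i) (bW j)
    rw [hV, hW, dotProduct_single, single_dotProduct, mul_one, one_mul] at h1
    exact h1.symm
  have h1 : (LinearMap.toMatrix bV bW d).rank = Module.finrank F (LinearMap.range d) := by
    rw [Matrix.rank_eq_finrank_range_toLin _ bW bV, Matrix.toLin_toMatrix]
  have h2 : (LinearMap.toMatrix bW bV e).rank = Module.finrank F (LinearMap.range e) := by
    rw [Matrix.rank_eq_finrank_range_toLin _ bV bW, Matrix.toLin_toMatrix]
  rw [hmat, Matrix.rank_transpose] at h2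
  have h3 := LinearMap.finrank_range_add_finrank_ker d
  have h4 := LinearMap.finrank_range_add_finrank_ker e
  rw [eV.finrank_eq, Module.finrank_fintype_fun_eq_card] at h3
  rw [eW.finrank_eq, Module.finrank_fintype_fun_eq_card] at h4
  omega

variable {n : ℕ} {K : AffineTriangulation n}

private theorem Tran_erase_smul (γ : K.Γ) (v : K.V) (σ : Finset K.V) :
    (γ • σ).erase (γ • v) = γ • σ.erase v := by
  ext u
  rw [← Finset.inv_smul_mem_iff, Finset.mem_erase, Finset.mem_erase, ← Finset.inv_smul_mem_iff]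
  have h1 : u ≠ γ • v ↔ γ⁻¹ • u ≠ v := by
    rw [Ne, Ne, inv_smul_eq_iff]
  rw [h1]

private theorem Tran_insert_smul (γ : K.Γ) (v : K.V) (σ : Finset K.V) :
    γ • insert v σ = insert (γ • v) (γ • σ) := by
  ext u
  rw [← Finset.inv_smul_mem_iff, Finset.mem_insert, Finset.mem_insert,
    ← Finset.inv_smul_mem_iff, inv_smul_eq_iff]

/-- restriction to the representatives -/
private theorem Tran_equiv (F : Type) [Field F] {R : Finset (Finset K.V)} (hR : K.Reps R) (t : ℕ)
    (ht : Module.finrank F (CoC K F t) = (R.filter fun σ => σ.card = t).card) :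
    ∃ e : CoC K F t ≃ₗ[F] ((R.filter fun σ => σ.card = t : Finset (Finset K.V)) → F),
      ∀ a σ, e a σ = (a : Finset K.V → F) σ := by
  obtain ⟨f, hf⟩ : ∃ f : CoC K F t →ₗ[F]
      ((R.filter fun σ => σ.card = t : Finset (Finset K.V)) → F),
      ∀ a σ, f a σ = (a : Finset K.V → F) σ :=
    ⟨{ toFun := fun a σ => (a : Finset K.V → F) σ
       map_add' := fun a b => by ext σ; rfl
       map_smul' := fun r a => by ext σ; rfl }, fun a σ => rfl⟩
  have hinj : Function.Injective f := by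
    rw [← LinearMap.ker_eq_bot, LinearMap.ker_eq_bot']
    intro a ha
    apply Subtype.ext
    obtain ⟨-, hzero, hequi⟩ := a.2
    funext I
    show (a : Finset K.V → F) I = 0
    by_cases h : I ∈ K.faces ∧ I.card = t
    · obtain ⟨⟨γ, σ⟩, ⟨hσR, hγσ⟩, -⟩ := hR.2 _ h.1
      simp only at hσR hγσ
      have hc2 : σ.card = t := by
        rw [← Finset.card_smul_finset γ σ, hγσ]
        exact h.2
      have hmem : σ ∈ R.filter fun σ => σ.card = t := Finset.mem_filter.2 ⟨hσR, hc2⟩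
      have h4 : f a ⟨σ, hmem⟩ = 0 := by rw [ha]; rfl
      rw [hf] at h4
      have h4' : (a : Finset K.V → F) σ = 0 := h4
      rw [← hγσ, hequi, h4', map_zero]
    · exact hzero I h
  have : Module.Finite F (CoC K F t) := Module.Finite.of_injective f hinj
  have hbij : Function.Bijective f := by
    refine ⟨hinj, ?_⟩
    refine (LinearMap.injective_iff_surjective_of_finrank_eq_finrank ?_).1 hinj
    rw [ht, Module.finrank_fintype_fun_eq_card, Fintype.card_coe]
  exact ⟨LinearEquiv.ofBijective f hbij, fun a σ => by rw [LinearEquiv.ofBijective_apply, hf]⟩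

private theorem Tran_sum (F : Type) [Field F] (o : Lab K) {R : Finset (Finset K.V)}
    (hR : K.Reps R) (t : ℕ) {a b : Finset K.V → F} (ha : a ∈ CoC K F (t + 1))
    (hb : b ∈ CoC K F (t + 2)) :
    ∑ ρ ∈ R.filter (fun σ => σ.card = t + 2), cob o a ρ * b ρ =
      ∑ σ ∈ R.filter (fun σ => σ.card = t + 1), a σ * bd o b σ := by
  classical
  have hp : ∀ τ : Finset K.V, ∃ p : K.Γ × Finset K.V, τ ∈ K.faces →
      (p.2 ∈ R ∧ p.1 • p.2 = τ) ∧ ∀ q : K.Γ × Finset K.V, q.2 ∈ R ∧ q.1 • q.2 = τ → q = p := by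
    intro τ
    by_cases hτ : τ ∈ K.faces
    · obtain ⟨p, hp1, hp2⟩ := hR.2 τ hτ
      exact ⟨p, fun _ => ⟨hp1, hp2⟩⟩
    · exact ⟨(1, τ), fun h => absurd h hτ⟩
  choose p hp using hp
  have hca : ∀ γ : K.Γ, ∀ I, a (γ • I) = a I := ha.2.2
  have hcb : ∀ γ : K.Γ, ∀ I, b (γ • I) = b I := hb.2.2
  -- the two index sets
  have hE : ∀ ρ ∈ K.faces, ρ.card = t + 2 → ∀ v ∈ ρ, ρ.erase v ∈ K.faces ∧
      (ρ.erase v).card = t + 1 := by
    intro ρ hρ hc v hv
    have h1 : (ρ.erase v).card = t + 1 := by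
      rw [Finset.card_erase_of_mem hv, hc]
      rfl
    refine ⟨K.down_closed ρ hρ _ (Finset.erase_subset _ _) ?_, h1⟩
    rw [← Finset.card_pos, h1]
    exact Nat.succ_pos t
  have hleft : ∑ ρ ∈ R.filter (fun σ => σ.card = t + 2), cob o a ρ * b ρ =
      ∑ x ∈ (R.filter (fun σ => σ.card = t + 2)).sigma (fun ρ => ρ),
        (sg o.lab x.2 x.1 • a (x.1.erase x.2)) * b x.1 := by
    rw [Finset.sum_sigma]
    refine Finset.sum_congr rfl fun ρ _ => ?_
    unfold cob
    rw [Finset.sum_mul]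
  have hright : ∑ σ ∈ R.filter (fun σ => σ.card = t + 1), a σ * bd o b σ =
      ∑ y ∈ (R.filter (fun σ => σ.card = t + 1)).sigma (fun σ => nb K σ),
        a y.1 * (sg o.lab y.2 y.1 • b (insert y.2 y.1)) := by
    rw [Finset.sum_sigma]
    refine Finset.sum_congr rfl fun ρ _ => ?_
    unfold bd
    rw [Finset.mul_sum]
  rw [hleft, hright]
  have hx : ∀ x : (_ : Finset K.V) × K.V,
      x ∈ (R.filter (fun σ => σ.card = t + 2)).sigma (fun ρ => ρ) ↔
        (x.1 ∈ R ∧ x.1.card = t + 2) ∧ x.2 ∈ x.1 := fun x => by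
    rw [Finset.mem_sigma, Finset.mem_filter]
  have hy : ∀ y : (_ : Finset K.V) × K.V,
      y ∈ (R.filter (fun σ => σ.card = t + 1)).sigma (fun σ => nb K σ) ↔
        (y.1 ∈ R ∧ y.1.card = t + 1) ∧ (y.2 ∉ y.1 ∧ insert y.2 y.1 ∈ K.faces) := fun y => by
    rw [Finset.mem_sigma, Finset.mem_filter]
    constructor
    · rintro ⟨h1, h2⟩
      exact ⟨h1, (mem_nb (hR.1 _ h1.1)).1 h2⟩
    · rintro ⟨h1, h2⟩
      exact ⟨h1, (mem_nb (hR.1 _ h1.1)).2 h2⟩
  -- the data of the representative of a face of `ρ`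
  have key1 : ∀ ρ ∈ R, ρ.card = t + 2 → ∀ v ∈ ρ,
      ((p (ρ.erase v)).2 ∈ R ∧ (p (ρ.erase v)).2.card = t + 1) ∧
      ((p (ρ.erase v)).1⁻¹ • v ∉ (p (ρ.erase v)).2) ∧
      insert ((p (ρ.erase v)).1⁻¹ • v) (p (ρ.erase v)).2 = (p (ρ.erase v)).1⁻¹ • ρ := by
    intro ρ hρR hc v hv
    have hρ := hR.1 ρ hρR
    obtain ⟨hE1, hE2⟩ := hE ρ hρ hc v hv
    obtain ⟨⟨h1, h2⟩, -⟩ := hp _ hE1
    have h3 : (p (ρ.erase v)).2 = (p (ρ.erase v)).1⁻¹ • ρ.erase v := by
      rw [eq_inv_smul_iff, h2]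
    refine ⟨⟨h1, ?_⟩, ?_, ?_⟩
    · rw [h3, Finset.card_smul_finset, hE2]
    · intro h4
      rw [h3, Finset.smul_mem_smul_finset_iff] at h4
      exact Finset.notMem_erase v ρ h4
    · have h5 : insert ((p (ρ.erase v)).1⁻¹ • v) ((p (ρ.erase v)).1⁻¹ • ρ.erase v) =
          (p (ρ.erase v)).1⁻¹ • ρ := by
        rw [← Tran_insert_smul, Finset.insert_erase hv]
      rw [← h5]
      congr 1
  have key2 : ∀ σ ∈ R, σ.card = t + 1 → ∀ w, w ∉ σ → insert w σ ∈ K.faces →
      ((p (insert w σ)).2 ∈ R ∧ (p (insert w σ)).2.card = t + 2) ∧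
      ((p (insert w σ)).1⁻¹ • w ∈ (p (insert w σ)).2) ∧
      (p (insert w σ)).2.erase ((p (insert w σ)).1⁻¹ • w) = (p (insert w σ)).1⁻¹ • σ := by
    intro σ hσR hc w hw hf
    obtain ⟨⟨h1, h2⟩, -⟩ := hp _ hf
    have h3 : (p (insert w σ)).2 = (p (insert w σ)).1⁻¹ • insert w σ := by
      rw [eq_inv_smul_iff, h2]
    refine ⟨⟨h1, ?_⟩, ?_, ?_⟩
    · rw [h3, Finset.card_smul_finset, Finset.card_insert_of_notMem hw, hc]
    · rw [h3, Finset.smul_mem_smul_finset_iff]
      exact Finset.mem_insert_self _ _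
    · have h5 : ((p (insert w σ)).1⁻¹ • insert w σ).erase ((p (insert w σ)).1⁻¹ • w) =
          (p (insert w σ)).1⁻¹ • σ := by
        rw [Tran_erase_smul, Finset.erase_insert hw]
      rw [← h5]
      congr 1
  refine Finset.sum_bij' (fun x _ => ⟨(p (x.1.erase x.2)).2, (p (x.1.erase x.2)).1⁻¹ • x.2⟩)
    (fun y _ => ⟨(p (insert y.2 y.1)).2, (p (insert y.2 y.1)).1⁻¹ • y.2⟩) ?_ ?_ ?_ ?_ ?_
  · intro x hx1
    rw [hx] at hx1
    rw [hy]
    obtain ⟨h1, h2, h3⟩ := key1 x.1 hx1.1.1 hx1.1.2 x.2 hx1.2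
    refine ⟨h1, h2, ?_⟩
    show insert ((p (x.1.erase x.2)).1⁻¹ • x.2) (p (x.1.erase x.2)).2 ∈ K.faces
    rw [h3]
    exact K.smul_mem _ _ (hR.1 _ hx1.1.1)
  · intro y hy1
    rw [hy] at hy1
    rw [hx]
    obtain ⟨h1, h2, h3⟩ := key2 y.1 hy1.1.1 hy1.1.2 y.2 hy1.2.1 hy1.2.2
    exact ⟨h1, h2⟩
  · rintro ⟨ρ, v⟩ hx1
    rw [hx] at hx1
    obtain ⟨h1, h2, h3⟩ := key1 ρ hx1.1.1 hx1.1.2 v hx1.2
    show (⟨(p (insert ((p (ρ.erase v)).1⁻¹ • v) (p (ρ.erase v)).2)).2,
      (p (insert ((p (ρ.erase v)).1⁻¹ • v) (p (ρ.erase v)).2)).1⁻¹ •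
        (p (ρ.erase v)).1⁻¹ • v⟩ : (_ : Finset K.V) × K.V) = ⟨ρ, v⟩
    rw [h3]
    have h4 := (hp _ (K.smul_mem (p (ρ.erase v)).1⁻¹ _ (hR.1 _ hx1.1.1))).2
      ((p (ρ.erase v)).1⁻¹, ρ) ⟨hx1.1.1, rfl⟩
    rw [← h4]
    show (⟨ρ, ((p (ρ.erase v)).1⁻¹)⁻¹ • (p (ρ.erase v)).1⁻¹ • v⟩ : (_ : Finset K.V) × K.V) = _
    rw [inv_smul_smul]
  · rintro ⟨σ, w⟩ hy1
    rw [hy] at hy1
    obtain ⟨h1, h2, h3⟩ := key2 σ hy1.1.1 hy1.1.2 w hy1.2.1 hy1.2.2
    show (⟨(p ((p (insert w σ)).2.erase ((p (insert w σ)).1⁻¹ • w))).2,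
      (p ((p (insert w σ)).2.erase ((p (insert w σ)).1⁻¹ • w))).1⁻¹ •
        (p (insert w σ)).1⁻¹ • w⟩ : (_ : Finset K.V) × K.V) = ⟨σ, w⟩
    rw [h3]
    have h4 := (hp _ (K.smul_mem (p (insert w σ)).1⁻¹ _ (hR.1 _ hy1.1.1))).2
      ((p (insert w σ)).1⁻¹, σ) ⟨hy1.1.1, rfl⟩
    rw [← h4]
    show (⟨σ, ((p (insert w σ)).1⁻¹)⁻¹ • (p (insert w σ)).1⁻¹ • w⟩ :
      (_ : Finset K.V) × K.V) = _
    rw [inv_smul_smul]
  · rintro ⟨ρ, v⟩ hx1
    rw [hx] at hx1
    obtain ⟨h1, h2, h3⟩ := key1 ρ hx1.1.1 hx1.1.2 v hx1.2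
    obtain ⟨hE1, hE2⟩ := hE ρ (hR.1 _ hx1.1.1) hx1.1.2 v hx1.2
    obtain ⟨⟨-, h5⟩, -⟩ := hp _ hE1
    show (sg o.lab v ρ • a (ρ.erase v)) * b ρ = a (p (ρ.erase v)).2 *
      (sg o.lab ((p (ρ.erase v)).1⁻¹ • v) (p (ρ.erase v)).2 •
        b (insert ((p (ρ.erase v)).1⁻¹ • v) (p (ρ.erase v)).2))
    rw [h3, hcb]
    have h6 : (p (ρ.erase v)).2 = (p (ρ.erase v)).1⁻¹ • ρ.erase v := by
      rw [eq_inv_smul_iff, h5]
    have h7 : a (p (ρ.erase v)).2 = a (ρ.erase v) := by
      conv_rhs => rw [← h5]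
      rw [hca]
    have h8 : sg o.lab ((p (ρ.erase v)).1⁻¹ • v) (p (ρ.erase v)).2 = sg o.lab v ρ := by
      have h9 : sg o.lab ((p (ρ.erase v)).1⁻¹ • v) (p (ρ.erase v)).2 =
          sg o.lab ((p (ρ.erase v)).1⁻¹ • v) ((p (ρ.erase v)).1⁻¹ • ρ.erase v) := by
        congr 1
      rw [h9, sg_smul, sg_erase_self]
    rw [h7, h8, smul_mul_assoc, mul_smul_comm]

private theorem Tran_bsp (F : Type) [Field F] (o : Lab K) (t : ℕ) :
    Bsp (PC F o) t = CoC K F t := rfl

theorem tran (F : Type) [Field F] (o : Lab K) (t : ℕ) :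
    Module.finrank F (ZB o (PC F o) (t + 2)) + K.numSimplices t =
      K.numSimplices (t + 1) + Module.finrank F (ZC o F (t + 1)) := by
  classical
  obtain ⟨R, hR⟩ := K.exists_reps
  obtain ⟨eV, heV⟩ := Tran_equiv F hR (t + 1) (by
    rw [(coc_finrank F t).2, numSimplices_eq hR t])
  obtain ⟨eW, heW⟩ := Tran_equiv F hR (t + 2) (by
    rw [(coc_finrank F (t + 1)).2, numSimplices_eq hR (t + 1)])
  -- the boundary map
  obtain ⟨e, he⟩ : ∃ e : CoC K F (t + 2) →ₗ[F] CoC K F (t + 1),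
      ∀ b : CoC K F (t + 2), (e b : Finset K.V → F) = bdB o b := by
    refine ⟨{ toFun := fun b => ⟨bdB o b, bdB_mem o (PC F o) b.2⟩
              map_add' := fun b b' => ?_
              map_smul' := fun r b => ?_ }, fun b => rfl⟩
    · apply Subtype.ext
      funext ρ
      show bdB o ((b : Finset K.V → F) + (b' : Finset K.V → F)) ρ = bdB o b ρ + bdB o b' ρ
      unfold bdB
      split_ifs with h
      · unfold bd
        rw [← Finset.sum_add_distrib]
        exact Finset.sum_congr rfl fun v _ => by rw [Pi.add_apply, smul_add]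
      · rw [add_zero]
    · apply Subtype.ext
      funext ρ
      show bdB o (r • (b : Finset K.V → F)) ρ = r • bdB o b ρ
      unfold bdB
      split_ifs with h
      · unfold bd
        rw [Finset.smul_sum]
        exact Finset.sum_congr rfl fun v _ => by rw [Pi.smul_apply, smul_comm]
      · rw [smul_zero]
  -- the coboundary map
  obtain ⟨d, hd⟩ : ∃ d : CoC K F (t + 1) →ₗ[F] CoC K F (t + 2),
      ∀ a : CoC K F (t + 1), ∀ τ, (d a : Finset K.V → F) τ =
        if τ ∈ K.faces ∧ τ.card = t + 2 then cob o (a : Finset K.V → F) τ else 0 := by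
    refine ⟨{ toFun := fun a => ⟨fun τ => if τ ∈ K.faces ∧ τ.card = t + 2 then
                cob o (a : Finset K.V → F) τ else 0, ?_, ?_, ?_⟩
              map_add' := fun b b' => ?_
              map_smul' := fun r b => ?_ }, fun b τ => rfl⟩
    · exact fun I => Submodule.mem_top
    · intro I h
      exact if_neg h
    · intro γ I
      show (if γ • I ∈ K.faces ∧ (γ • I).card = t + 2 then cob o (a : Finset K.V → F) (γ • I)
        else 0) = if I ∈ K.faces ∧ I.card = t + 2 then cob o (a : Finset K.V → F) I else 0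
      rw [smul_mem_faces, Finset.card_smul_finset]
      have h1 : cob o (a : Finset K.V → F) (γ • I) = cob o (a : Finset K.V → F) I := by
        unfold cob
        have h2 : γ • I = I.map (MulAction.toPerm γ).toEmbedding := by
          ext u
          rw [Finset.mem_map_equiv, ← Finset.inv_smul_mem_iff]
          rfl
        have h3 : ∑ v ∈ γ • I, sg o.lab v (γ • I) • (a : Finset K.V → F) ((γ • I).erase v) =
            ∑ v ∈ I, sg o.lab (γ • v) (γ • I) • (a : Finset K.V → F) ((γ • I).erase (γ • v)) := by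
          conv_lhs => rw [h2, Finset.sum_map]
          rw [← h2]
          rfl
        rw [h3]
        refine Finset.sum_congr rfl fun v _ => ?_
        rw [sg_smul, Tran_erase_smul]
        congr 1
        exact a.2.2.2 γ _
      rw [h1]
    · apply Subtype.ext
      funext τ
      show (if τ ∈ K.faces ∧ τ.card = t + 2 then
        cob o ((b : Finset K.V → F) + (b' : Finset K.V → F)) τ else 0) =
        (if τ ∈ K.faces ∧ τ.card = t + 2 then cob o (b : Finset K.V → F) τ else 0) +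
        (if τ ∈ K.faces ∧ τ.card = t + 2 then cob o (b' : Finset K.V → F) τ else 0)
      split_ifs with h
      · unfold cob
        rw [← Finset.sum_add_distrib]
        exact Finset.sum_congr rfl fun v _ => by rw [Pi.add_apply, smul_add]
      · rw [add_zero]
    · apply Subtype.ext
      funext τ
      show (if τ ∈ K.faces ∧ τ.card = t + 2 then
        cob o (r • (b : Finset K.V → F)) τ else 0) =
        r • (if τ ∈ K.faces ∧ τ.card = t + 2 then cob o (b : Finset K.V → F) τ else 0)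
      split_ifs with h
      · unfold cob
        rw [Finset.smul_sum]
        exact Finset.sum_congr rfl fun v _ => by rw [Pi.smul_apply, smul_comm]
      · rw [smul_zero]
  have hmain := Tran_adj eV eW d e (by
    intro a b
    unfold dotProduct
    have h1 := Tran_sum F o hR t a.2 b.2
    rw [← Finset.sum_coe_sort (R.filter fun σ => σ.card = t + 2),
      ← Finset.sum_coe_sort (R.filter fun σ => σ.card = t + 1)] at h1
    refine Eq.trans (Finset.sum_congr rfl fun ρ _ => ?_) (h1.trans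
      (Finset.sum_congr rfl fun σ _ => ?_))
    · rw [heW, heW, hd]
      have h2 := Finset.mem_filter.1 ρ.2
      rw [if_pos ⟨hR.1 _ h2.1, h2.2⟩]
    · rw [heV, heV, he]
      have h2 := Finset.mem_filter.1 σ.2
      unfold bdB
      rw [if_pos (hR.1 _ h2.1)])
  rw [Fintype.card_coe, Fintype.card_coe, ← numSimplices_eq hR t, ← numSimplices_eq hR (t + 1)]
    at hmain
  have hZB : Module.finrank F (LinearMap.ker e) = Module.finrank F (ZB o (PC F o) (t + 2)) := by
    have hle : ZB o (PC F o) (t + 2) ≤ CoC K F (t + 2) := fun b hb => hb.1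
    rw [← (Submodule.comapSubtypeEquivOfLe hle).finrank_eq]
    suffices hk : LinearMap.ker e = (ZB o (PC F o) (t + 2)).comap (CoC K F (t + 2)).subtype by
      rw [hk]
    ext b
    rw [LinearMap.mem_ker, Submodule.mem_comap, Submodule.subtype_apply, mem_ZB]
    constructor
    · intro h
      exact ⟨b.2, by rw [← he, h]; rfl⟩
    · intro h
      apply Subtype.ext
      rw [he]
      exact h.2
  have hZC : Module.finrank F (LinearMap.ker d) = Module.finrank F (ZC o F (t + 1)) := by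
    have hle : ZC o F (t + 1) ≤ CoC K F (t + 1) := fun b hb => hb.1
    rw [← (Submodule.comapSubtypeEquivOfLe hle).finrank_eq]
    suffices hk : LinearMap.ker d = (ZC o F (t + 1)).comap (CoC K F (t + 1)).subtype by
      rw [hk]
    ext a
    rw [LinearMap.mem_ker, Submodule.mem_comap, Submodule.subtype_apply]
    constructor
    · intro h
      refine ⟨a.2, fun τ hτ hc => ?_⟩
      have h1 := hd a τ
      rw [if_pos ⟨hτ, hc⟩, h] at h1
      exact h1.symm
    · intro h
      apply Subtype.ext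
      funext τ
      rw [hd]
      split_ifs with h1
      · exact h.2 τ h1.1 h1.2
      · rfl
  rw [← hZB, ← hZC]
  exact hmain

end Pool.Agent.ChG
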