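import Pool.Agent.ChG.CCoef

/-!
# The coboundary map is the transpose of the boundary map: twisted coefficients

Let `R` be a set of representatives, `R_t` the set of the `σ ∈ R` with `σ.card = t`.  For
`c ∈ Asp C t`, `b ∈ Bsp C t` (`C = CC act L₀ hL o`) put `⟨c, b⟩ = ∑ σ ∈ R_t, B (c σ) (b σ)`.  The function
`σ ↦ B (c σ) (b σ)` is invariant by `hB`, and the pairing is nondegenerate on both sides, because
elements of `Asp C t`, `Bsp C t` are given by arbitrary values in `L₀` on `R_t` (see `sp_finrank`).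
Let `d : Asp C (t+1) → Asp C (t+2)` be the coboundary map (`dA C (t+1)`, `dcol_cc`) and
`∂ : Bsp C (t+2) → Bsp C (t+1)` the boundary map (`bdB o`).  Then
`⟨d c, b⟩ = ∑ ρ ∈ R_{t+2}, ∑ v ∈ ρ, sg v ρ • B (c (ρ.erase v)) (b ρ)` and
`⟨c, ∂ b⟩ = ∑ σ ∈ R_{t+1}, ∑ v ∈ nb σ, sg v σ • B (c σ) (b (insert v σ))` are equal: both are sums over the orbits of
the pairs `(σ, ρ)`, `σ ⊆ ρ`, of an invariant function (see the proof of `tran`; to `(ρ, v)` with
`ρ.erase v = γ • σ` corresponds `(σ, γ⁻¹ • v)`).  So the kernel of `∂` is the annihilator of the image of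
`d`, `dim ker ∂ = dim Bsp C (t+2) - rank d` and `rank d = dim Asp C (t+1) - dim ZCc (t+1)` (`cc_asp`, `cc_bsp`).
-/

namespace Pool.Agent.ChG

open Matrix Pool.Agent.ChP Pool.Agent.ChS
open scoped Pointwise

variable {n : ℕ} {K : AffineTriangulation n} {F M : Type} [Field F] [AddCommGroup M] [Module F M]

/-- linear algebra: adjoint maps have the same rank -/
private theorem TranW_adj {V V' W W' : Type} [AddCommGroup V] [Module F V]
    [AddCommGroup V'] [Module F V'] [AddCommGroup W] [Module F W] [AddCommGroup W'] [Module F W']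
    [Module.Finite F V] [Module.Finite F W] [Module.Finite F W']
    (P : V' →ₗ[F] W →ₗ[F] F) (Q : V →ₗ[F] W' →ₗ[F] F) (hP : ∀ x, (∀ y, P x y = 0) → x = 0)
    (hQ : ∀ x, (∀ y, Q x y = 0) → x = 0) (hdim : Module.finrank F V = Module.finrank F W')
    (d : V →ₗ[F] V') (e : W →ₗ[F] W') (h : ∀ a b, P (d a) b = Q a (e b)) :
    Module.finrank F (LinearMap.ker e) + Module.finrank F V =
      Module.finrank F W + Module.finrank F (LinearMap.ker d) := by
  obtain ⟨g, hg⟩ : ∃ g : V →ₗ[F] Module.Dual F W, g = (P : V' →ₗ[F] Module.Dual F W).comp d :=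
    ⟨_, rfl⟩
  have hg2 : g = (e.dualMap).comp (Q : V →ₗ[F] Module.Dual F W') := by
    rw [hg]
    ext a b
    exact h a b
  have hker : LinearMap.ker g = LinearMap.ker d := by
    ext a
    rw [LinearMap.mem_ker, LinearMap.mem_ker, hg, LinearMap.comp_apply]
    constructor
    · intro h1
      exact hP _ fun y => by rw [h1]; rfl
    · intro h1
      rw [h1, map_zero]
  have hinj : Function.Injective (Q : V →ₗ[F] Module.Dual F W') := by
    rw [← LinearMap.ker_eq_bot, LinearMap.ker_eq_bot']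
    intro a ha
    exact hQ a fun y => by rw [ha]; rfl
  have hsurj : Function.Surjective (Q : V →ₗ[F] Module.Dual F W') := by
    refine (LinearMap.injective_iff_surjective_of_finrank_eq_finrank ?_).1 hinj
    rw [hdim, Subspace.dual_finrank_eq]
  have hrange : LinearMap.range g = LinearMap.range e.dualMap := by
    rw [hg2]
    exact LinearMap.range_comp_of_range_eq_top _ (LinearMap.range_eq_top.2 hsurj)
  have h1 := LinearMap.finrank_range_add_finrank_ker g
  have h2 := LinearMap.finrank_range_add_finrank_ker e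
  have h3 := LinearMap.finrank_range_dualMap_eq_finrank_range e
  rw [hker, hrange, h3] at h1
  omega

private theorem TranW_erase_smul (γ : K.Γ) (v : K.V) (σ : Finset K.V) :
    (γ • σ).erase (γ • v) = γ • σ.erase v := by
  ext u
  rw [← Finset.inv_smul_mem_iff, Finset.mem_erase, Finset.mem_erase, ← Finset.inv_smul_mem_iff]
  have h1 : u ≠ γ • v ↔ γ⁻¹ • u ≠ v := by
    rw [Ne, Ne, inv_smul_eq_iff]
  rw [h1]

private theorem TranW_insert_smul (γ : K.Γ) (v : K.V) (σ : Finset K.V) :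
    γ • insert v σ = insert (γ • v) (γ • σ) := by
  ext u
  rw [← Finset.inv_smul_mem_iff, Finset.mem_insert, Finset.mem_insert,
    ← Finset.inv_smul_mem_iff, inv_smul_eq_iff]

/-- sums over the orbits of the pairs `σ ⊆ ρ` -/
private theorem TranW_orb {R : Finset (Finset K.V)} (hR : K.Reps R) (t : ℕ)
    (G : Finset K.V → K.V → F)
    (hG : ∀ (γ : K.Γ) (ρ : Finset K.V) (v : K.V), ρ ∈ K.faces → ρ.card = t + 2 → v ∈ ρ →
      G (γ • ρ) (γ • v) = G ρ v) :
    ∑ ρ ∈ R.filter (fun σ => σ.card = t + 2), ∑ v ∈ ρ, G ρ v =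
      ∑ σ ∈ R.filter (fun σ => σ.card = t + 1), ∑ w ∈ nb K σ, G (insert w σ) w := by
  classical
  have hp : ∀ τ : Finset K.V, ∃ p : K.Γ × Finset K.V, τ ∈ K.faces →
      (p.2 ∈ R ∧ p.1 • p.2 = τ) ∧ ∀ q : K.Γ × Finset K.V, q.2 ∈ R ∧ q.1 • q.2 = τ → q = p := by
    intro τ
    by_cases hτ : τ ∈ K.faces
    · obtain ⟨p, hp1, hp2⟩ := hR.2 τ hτ
      exact ⟨p, fun _ => ⟨hp1, hp2⟩⟩
    · exact ⟨(1, τ), fun h => absurd h hτ⟩
  choose p hp using hp
  -- the two index sets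
  have hE : ∀ ρ ∈ K.faces, ρ.card = t + 2 → ∀ v ∈ ρ, ρ.erase v ∈ K.faces ∧
      (ρ.erase v).card = t + 1 := by
    intro ρ hρ hc v hv
    have h1 : (ρ.erase v).card = t + 1 := by
      rw [Finset.card_erase_of_mem hv, hc]
      rfl
    refine ⟨K.down_closed ρ hρ _ (Finset.erase_subset _ _) ?_, h1⟩
    rw [← Finset.card_pos, h1]
    exact Nat.succ_pos t
  rw [Finset.sum_sigma' (R.filter (fun σ => σ.card = t + 2)) (fun ρ => ρ) (fun ρ v => G ρ v),
    Finset.sum_sigma' (R.filter (fun σ => σ.card = t + 1)) (fun σ => nb K σ)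
      (fun σ w => G (insert w σ) w)]
  have hx : ∀ x : (_ : Finset K.V) × K.V,
      x ∈ (R.filter (fun σ => σ.card = t + 2)).sigma (fun ρ => ρ) ↔
        (x.1 ∈ R ∧ x.1.card = t + 2) ∧ x.2 ∈ x.1 := fun x => by
    rw [Finset.mem_sigma, Finset.mem_filter]
  have hy : ∀ y : (_ : Finset K.V) × K.V,
      y ∈ (R.filter (fun σ => σ.card = t + 1)).sigma (fun σ => nb K σ) ↔
        (y.1 ∈ R ∧ y.1.card = t + 1) ∧ (y.2 ∉ y.1 ∧ insert y.2 y.1 ∈ K.faces) := fun y => by
    rw [Finset.mem_sigma, Finset.mem_filter]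
    constructor
    · rintro ⟨h1, h2⟩
      exact ⟨h1, (mem_nb (hR.1 _ h1.1)).1 h2⟩
    · rintro ⟨h1, h2⟩
      exact ⟨h1, (mem_nb (hR.1 _ h1.1)).2 h2⟩
  -- the data of the representative of a face of `ρ`
  have key1 : ∀ ρ ∈ R, ρ.card = t + 2 → ∀ v ∈ ρ,
      ((p (ρ.erase v)).2 ∈ R ∧ (p (ρ.erase v)).2.card = t + 1) ∧
      ((p (ρ.erase v)).1⁻¹ • v ∉ (p (ρ.erase v)).2) ∧
      insert ((p (ρ.erase v)).1⁻¹ • v) (p (ρ.erase v)).2 = (p (ρ.erase v)).1⁻¹ • ρ := by
    intro ρ hρR hc v hv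
    have hρ := hR.1 ρ hρR
    obtain ⟨hE1, hE2⟩ := hE ρ hρ hc v hv
    obtain ⟨⟨h1, h2⟩, -⟩ := hp _ hE1
    have h3 : (p (ρ.erase v)).2 = (p (ρ.erase v)).1⁻¹ • ρ.erase v := by
      rw [eq_inv_smul_iff, h2]
    refine ⟨⟨h1, ?_⟩, ?_, ?_⟩
    · rw [h3, Finset.card_smul_finset, hE2]
    · intro h4
      rw [h3, Finset.smul_mem_smul_finset_iff] at h4
      exact Finset.notMem_erase v ρ h4
    · have h5 : insert ((p (ρ.erase v)).1⁻¹ • v) ((p (ρ.erase v)).1⁻¹ • ρ.erase v) =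
          (p (ρ.erase v)).1⁻¹ • ρ := by
        rw [← TranW_insert_smul, Finset.insert_erase hv]
      rw [← h5]
      congr 1
  have key2 : ∀ σ ∈ R, σ.card = t + 1 → ∀ w, w ∉ σ → insert w σ ∈ K.faces →
      ((p (insert w σ)).2 ∈ R ∧ (p (insert w σ)).2.card = t + 2) ∧
      ((p (insert w σ)).1⁻¹ • w ∈ (p (insert w σ)).2) ∧
      (p (insert w σ)).2.erase ((p (insert w σ)).1⁻¹ • w) = (p (insert w σ)).1⁻¹ • σ := by
    intro σ hσR hc w hw hf
    obtain ⟨⟨h1, h2⟩, -⟩ := hp _ hf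
    have h3 : (p (insert w σ)).2 = (p (insert w σ)).1⁻¹ • insert w σ := by
      rw [eq_inv_smul_iff, h2]
    refine ⟨⟨h1, ?_⟩, ?_, ?_⟩
    · rw [h3, Finset.card_smul_finset, Finset.card_insert_of_notMem hw, hc]
    · rw [h3, Finset.smul_mem_smul_finset_iff]
      exact Finset.mem_insert_self _ _
    · have h5 : ((p (insert w σ)).1⁻¹ • insert w σ).erase ((p (insert w σ)).1⁻¹ • w) =
          (p (insert w σ)).1⁻¹ • σ := by
        rw [TranW_erase_smul, Finset.erase_insert hw]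
      rw [← h5]
      congr 1
  refine Finset.sum_bij' (fun x _ => ⟨(p (x.1.erase x.2)).2, (p (x.1.erase x.2)).1⁻¹ • x.2⟩)
    (fun y _ => ⟨(p (insert y.2 y.1)).2, (p (insert y.2 y.1)).1⁻¹ • y.2⟩) ?_ ?_ ?_ ?_ ?_
  · intro x hx1
    rw [hx] at hx1
    rw [hy]
    obtain ⟨h1, h2, h3⟩ := key1 x.1 hx1.1.1 hx1.1.2 x.2 hx1.2
    refine ⟨h1, h2, ?_⟩
    show insert ((p (x.1.erase x.2)).1⁻¹ • x.2) (p (x.1.erase x.2)).2 ∈ K.faces
    rw [h3]
    exact K.smul_mem _ _ (hR.1 _ hx1.1.1)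
  · intro y hy1
    rw [hy] at hy1
    rw [hx]
    obtain ⟨h1, h2, h3⟩ := key2 y.1 hy1.1.1 hy1.1.2 y.2 hy1.2.1 hy1.2.2
    exact ⟨h1, h2⟩
  · rintro ⟨ρ, v⟩ hx1
    rw [hx] at hx1
    obtain ⟨h1, h2, h3⟩ := key1 ρ hx1.1.1 hx1.1.2 v hx1.2
    show (⟨(p (insert ((p (ρ.erase v)).1⁻¹ • v) (p (ρ.erase v)).2)).2,
      (p (insert ((p (ρ.erase v)).1⁻¹ • v) (p (ρ.erase v)).2)).1⁻¹ •
        (p (ρ.erase v)).1⁻¹ • v⟩ : (_ : Finset K.V) × K.V) = ⟨ρ, v⟩
    rw [h3]
    have h4 := (hp _ (K.smul_mem (p (ρ.erase v)).1⁻¹ _ (hR.1 _ hx1.1.1))).2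
      ((p (ρ.erase v)).1⁻¹, ρ) ⟨hx1.1.1, rfl⟩
    rw [← h4]
    show (⟨ρ, ((p (ρ.erase v)).1⁻¹)⁻¹ • (p (ρ.erase v)).1⁻¹ • v⟩ : (_ : Finset K.V) × K.V) = _
    rw [inv_smul_smul]
  · rintro ⟨σ, w⟩ hy1
    rw [hy] at hy1
    obtain ⟨h1, h2, h3⟩ := key2 σ hy1.1.1 hy1.1.2 w hy1.2.1 hy1.2.2
    show (⟨(p ((p (insert w σ)).2.erase ((p (insert w σ)).1⁻¹ • w))).2,
      (p ((p (insert w σ)).2.erase ((p (insert w σ)).1⁻¹ • w))).1⁻¹ •
        (p (insert w σ)).1⁻¹ • w⟩ : (_ : Finset K.V) × K.V) = ⟨σ, w⟩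
    rw [h3]
    have h4 := (hp _ (K.smul_mem (p (insert w σ)).1⁻¹ _ (hR.1 _ hy1.1.1))).2
      ((p (insert w σ)).1⁻¹, σ) ⟨hy1.1.1, rfl⟩
    rw [← h4]
    show (⟨σ, ((p (insert w σ)).1⁻¹)⁻¹ • (p (insert w σ)).1⁻¹ • w⟩ :
      (_ : Finset K.V) × K.V) = _
    rw [inv_smul_smul]
  · rintro ⟨ρ, v⟩ hx1
    rw [hx] at hx1
    obtain ⟨h1, h2, h3⟩ := key1 ρ hx1.1.1 hx1.1.2 v hx1.2
    show G ρ v = G (insert ((p (ρ.erase v)).1⁻¹ • v) (p (ρ.erase v)).2)
      ((p (ρ.erase v)).1⁻¹ • v)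
    rw [h3]
    exact (hG _ ρ v (hR.1 _ hx1.1.1) hx1.1.2 hx1.2).symm

variable (act : K.Γ →* Module.End F M) (L₀ : Submodule F M)
  (hL : ∀ (γ : K.Γ), ∀ x ∈ L₀, act γ x ∈ L₀) (o : Lab K)

private theorem TranW_asp {t : ℕ} {a : Finset K.V → M} (ha : a ∈ Asp (CC act L₀ hL o) t) :
    (∀ I, a I ∈ L₀) ∧ (∀ I, ¬ (I ∈ K.faces ∧ I.card = t) → a I = 0) ∧
      ∀ (γ : K.Γ) (I : Finset K.V), a (γ • I) = chZ K γ • act γ (a I) := ha

private theorem TranW_bsp {t : ℕ} {b : Finset K.V → M} (hb : b ∈ Bsp (CC act L₀ hL o) t) :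
    (∀ I, b I ∈ L₀) ∧ (∀ I, ¬ (I ∈ K.faces ∧ I.card = t) → b I = 0) ∧
      ∀ (γ : K.Γ) (I : Finset K.V), b (γ • I) = act γ (b I) := hb

/-- a chain with prescribed values on the representatives -/
private theorem TranW_ext (hf : Module.Finite F L₀) {R : Finset (Finset K.V)} (hR : K.Reps R)
    (t : ℕ) (c : (R.filter fun σ => σ.card = t + 1 : Finset (Finset K.V)) → L₀) :
    ∃ b ∈ Bsp (CC act L₀ hL o) (t + 1),
      ∀ σ : (R.filter fun σ => σ.card = t + 1 : Finset (Finset K.V)), b σ = c σ := by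
  classical
  obtain ⟨hfin, hrank⟩ := cc_bsp act L₀ hL o hf t
  obtain ⟨f, hf'⟩ : ∃ f : Bsp (CC act L₀ hL o) (t + 1) →ₗ[F]
      ((R.filter fun σ => σ.card = t + 1 : Finset (Finset K.V)) → L₀),
      ∀ a σ, (f a σ : M) = (a : Finset K.V → M) σ :=
    ⟨{ toFun := fun a σ => ⟨(a : Finset K.V → M) σ, (TranW_bsp act L₀ hL o a.2).1 _⟩
       map_add' := fun a b => by ext σ; rfl
       map_smul' := fun r a => by ext σ; rfl }, fun a σ => rfl⟩
  have hinj : Function.Injective f := by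
    rw [← LinearMap.ker_eq_bot, LinearMap.ker_eq_bot']
    intro a ha
    apply Subtype.ext
    obtain ⟨-, hzero, hequi⟩ := TranW_bsp act L₀ hL o a.2
    funext I
    show (a : Finset K.V → M) I = 0
    by_cases h : I ∈ K.faces ∧ I.card = t + 1
    · obtain ⟨⟨γ, σ⟩, ⟨hσR, hγσ⟩, -⟩ := hR.2 _ h.1
      simp only at hσR hγσ
      have hc2 : σ.card = t + 1 := by
        rw [← Finset.card_smul_finset γ σ, hγσ]
        exact h.2
      have hmem : σ ∈ R.filter fun σ => σ.card = t + 1 := Finset.mem_filter.2 ⟨hσR, hc2⟩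
      have h4 : (f a ⟨σ, hmem⟩ : M) = 0 := by rw [ha]; rfl
      rw [hf'] at h4
      have h4' : (a : Finset K.V → M) σ = 0 := h4
      rw [← hγσ, hequi, h4', map_zero]
    · exact hzero I h
  have hsurj : Function.Surjective f := by
    refine (LinearMap.injective_iff_surjective_of_finrank_eq_finrank ?_).1 hinj
    rw [hrank, Module.finrank_pi_fintype, Finset.sum_const, Finset.card_univ, Fintype.card_coe,
      smul_eq_mul, numSimplices_eq hR t]
  obtain ⟨a, ha⟩ := hsurj c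
  exact ⟨a, a.2, fun σ => by rw [← ha, hf']⟩

/-- the pairing -/
private noncomputable def TranW_P (B : M →ₗ[F] M →ₗ[F] F) (S : Finset (Finset K.V)) (t : ℕ) :
    Asp (CC act L₀ hL o) t →ₗ[F] Bsp (CC act L₀ hL o) t →ₗ[F] F :=
  LinearMap.mk₂ F (fun a b => ∑ σ ∈ S, B ((a : Finset K.V → M) σ) ((b : Finset K.V → M) σ))
    (fun a a' b => by
      rw [← Finset.sum_add_distrib]
      exact Finset.sum_congr rfl fun σ _ => by
        rw [Submodule.coe_add, Pi.add_apply, map_add, LinearMap.add_apply])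
    (fun r a b => by
      rw [smul_eq_mul, Finset.mul_sum]
      exact Finset.sum_congr rfl fun σ _ => by
        rw [Submodule.coe_smul, Pi.smul_apply, map_smul, LinearMap.smul_apply, smul_eq_mul])
    (fun a b b' => by
      rw [← Finset.sum_add_distrib]
      exact Finset.sum_congr rfl fun σ _ => by
        rw [Submodule.coe_add, Pi.add_apply, map_add])
    (fun r a b => by
      rw [smul_eq_mul, Finset.mul_sum]
      exact Finset.sum_congr rfl fun σ _ => by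
        rw [Submodule.coe_smul, Pi.smul_apply, map_smul, smul_eq_mul])

private theorem TranW_P_apply (B : M →ₗ[F] M →ₗ[F] F) (S : Finset (Finset K.V)) (t : ℕ)
    (a : Asp (CC act L₀ hL o) t) (b : Bsp (CC act L₀ hL o) t) :
    TranW_P act L₀ hL o B S t a b =
      ∑ σ ∈ S, B ((a : Finset K.V → M) σ) ((b : Finset K.V → M) σ) := rfl

private theorem TranW_nondeg (hf : Module.Finite F L₀) (B : M →ₗ[F] M →ₗ[F] F)
    (hB1 : ∀ x ∈ L₀, (∀ y ∈ L₀, B x y = 0) → x = 0) {R : Finset (Finset K.V)} (hR : K.Reps R)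
    (t : ℕ) (a : Asp (CC act L₀ hL o) (t + 1))
    (ha : ∀ b, TranW_P act L₀ hL o B (R.filter fun σ => σ.card = t + 1) (t + 1) a b = 0) :
    a = 0 := by
  classical
  obtain ⟨hmem, hzero, hequi⟩ := TranW_asp act L₀ hL o a.2
  have h1 : ∀ σ ∈ R, σ.card = t + 1 → (a : Finset K.V → M) σ = 0 := by
    intro σ hσ hc
    have hσ' : σ ∈ R.filter fun σ => σ.card = t + 1 := Finset.mem_filter.2 ⟨hσ, hc⟩
    refine hB1 _ (hmem σ) fun y hy => ?_
    obtain ⟨b, hb, hbv⟩ := TranW_ext act L₀ hL o hf hR t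
      (fun τ => if (τ : Finset K.V) = σ then ⟨y, hy⟩ else 0)
    have h2 := ha ⟨b, hb⟩
    rw [TranW_P_apply] at h2
    rw [Finset.sum_eq_single_of_mem σ hσ'] at h2
    · have h3 := hbv ⟨σ, hσ'⟩
      rw [if_pos rfl] at h3
      have h4 : b σ = y := h3
      rw [← h4]
      exact h2
    · intro τ hτ hne
      have h3 := hbv ⟨τ, hτ⟩
      rw [if_neg hne] at h3
      have h4 : b τ = 0 := h3
      show B ((a : Finset K.V → M) τ) (b τ) = 0
      rw [h4, map_zero]
  apply Subtype.ext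
  funext I
  show (a : Finset K.V → M) I = 0
  by_cases h : I ∈ K.faces ∧ I.card = t + 1
  · obtain ⟨⟨γ, σ⟩, ⟨hσR, hγσ⟩, -⟩ := hR.2 _ h.1
    simp only at hσR hγσ
    have hc2 : σ.card = t + 1 := by
      rw [← Finset.card_smul_finset γ σ, hγσ]
      exact h.2
    rw [← hγσ, hequi, h1 σ hσR hc2, map_zero, smul_zero]
  · exact hzero I h

private theorem TranW_sum (B : M →ₗ[F] M →ₗ[F] F)
    (hB : ∀ (γ : K.Γ), ∀ x ∈ L₀, ∀ y ∈ L₀, B (chZ K γ • act γ x) (act γ y) = B x y)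
    {R : Finset (Finset K.V)} (hR : K.Reps R) (t : ℕ) {a b : Finset K.V → M}
    (ha : a ∈ Asp (CC act L₀ hL o) (t + 1)) (hb : b ∈ Bsp (CC act L₀ hL o) (t + 2)) :
    ∑ ρ ∈ R.filter (fun σ => σ.card = t + 2), B (cob o a ρ) (b ρ) =
      ∑ σ ∈ R.filter (fun σ => σ.card = t + 1), B (a σ) (bd o b σ) := by
  classical
  obtain ⟨ha1, -, ha3⟩ := TranW_asp act L₀ hL o ha
  obtain ⟨hb1, -, hb3⟩ := TranW_bsp act L₀ hL o hb
  have h := TranW_orb hR t (fun ρ v => sg o.lab v ρ • B (a (ρ.erase v)) (b ρ)) (by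
    intro γ ρ v _ _ _
    show sg o.lab (γ • v) (γ • ρ) • B (a ((γ • ρ).erase (γ • v))) (b (γ • ρ)) =
      sg o.lab v ρ • B (a (ρ.erase v)) (b ρ)
    rw [sg_smul, TranW_erase_smul, ha3, hb3, hB γ _ (ha1 _) _ (hb1 _)])
  refine Eq.trans (Finset.sum_congr rfl fun ρ _ => ?_) (h.trans
    (Finset.sum_congr rfl fun σ hσ => ?_))
  · unfold cob
    rw [map_sum, LinearMap.sum_apply]
    exact Finset.sum_congr rfl fun v _ => by rw [map_zsmul, LinearMap.smul_apply]
  · have hσ' := Finset.mem_filter.1 hσ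
    unfold bd
    rw [map_sum]
    refine Finset.sum_congr rfl fun w hw => ?_
    have hw' := ((mem_nb (hR.1 _ hσ'.1)).1 hw).1
    show sg o.lab w (insert w σ) • B (a ((insert w σ).erase w)) (b (insert w σ)) = _
    rw [sg_insert_self, Finset.erase_insert hw', map_zsmul]

theorem tranW (act : K.Γ →* Module.End F M) (L₀ : Submodule F M)
    (hL : ∀ (γ : K.Γ), ∀ x ∈ L₀, act γ x ∈ L₀) (o : Lab K) (hf : Module.Finite F L₀)
    (B : M →ₗ[F] M →ₗ[F] F)
    (hB : ∀ (γ : K.Γ), ∀ x ∈ L₀, ∀ y ∈ L₀, B (chZ K γ • act γ x) (act γ y) = B x y)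
    (hB1 : ∀ x ∈ L₀, (∀ y ∈ L₀, B x y = 0) → x = 0)
    (hB2 : ∀ y ∈ L₀, (∀ x ∈ L₀, B x y = 0) → y = 0) (t : ℕ) :
    Module.finrank F (ZB o (CC act L₀ hL o) (t + 2)) +
        K.numSimplices t * Module.finrank F L₀ =
      K.numSimplices (t + 1) * Module.finrank F L₀ +
        Module.finrank F (ZCc act L₀ hL o (t + 1)) := by
  classical
  obtain ⟨R, hR⟩ := K.exists_reps
  obtain ⟨fV, rV⟩ := cc_asp act L₀ hL o hf t
  obtain ⟨fW, rW⟩ := cc_bsp act L₀ hL o hf (t + 1)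
  obtain ⟨fW', rW'⟩ := cc_bsp act L₀ hL o hf t
  -- the boundary map
  obtain ⟨e, he⟩ : ∃ e : Bsp (CC act L₀ hL o) (t + 2) →ₗ[F] Bsp (CC act L₀ hL o) (t + 1),
      ∀ b : Bsp (CC act L₀ hL o) (t + 2), (e b : Finset K.V → M) = bdB o b := by
    refine ⟨{ toFun := fun b => ⟨bdB o b, bdB_mem o (CC act L₀ hL o) b.2⟩
              map_add' := fun b b' => ?_
              map_smul' := fun r b => ?_ }, fun b => rfl⟩
    · apply Subtype.ext
      funext ρ
      show bdB o ((b : Finset K.V → M) + (b' : Finset K.V → M)) ρ = bdB o b ρ + bdB o b' ρ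
      unfold bdB
      split_ifs with h
      · unfold bd
        rw [← Finset.sum_add_distrib]
        exact Finset.sum_congr rfl fun v _ => by rw [Pi.add_apply, smul_add]
      · rw [add_zero]
    · apply Subtype.ext
      funext ρ
      show bdB o (r • (b : Finset K.V → M)) ρ = r • bdB o b ρ
      unfold bdB
      split_ifs with h
      · unfold bd
        rw [Finset.smul_sum]
        exact Finset.sum_congr rfl fun v _ => by rw [Pi.smul_apply, smul_comm]
      · rw [smul_zero]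
  -- the coboundary map
  obtain ⟨d, hd⟩ : ∃ d : Asp (CC act L₀ hL o) (t + 1) →ₗ[F] Asp (CC act L₀ hL o) (t + 2),
      ∀ a : Asp (CC act L₀ hL o) (t + 1), ∀ τ, (d a : Finset K.V → M) τ =
        if τ ∈ K.faces ∧ τ.card = t + 2 then cob o (a : Finset K.V → M) τ else 0 := by
    have hdA : ∀ (a : Finset K.V → M) τ, dA (CC act L₀ hL o) (t + 1) a τ =
        if τ ∈ K.faces ∧ τ.card = t + 2 then cob o a τ else 0 := by
      intro a τ
      unfold dA
      rw [dcol_cc]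
    refine ⟨{ toFun := fun a => ⟨dA (CC act L₀ hL o) (t + 1) a, dA_mem (CC act L₀ hL o) a.2⟩
              map_add' := fun b b' => ?_
              map_smul' := fun r b => ?_ }, fun b τ => hdA b τ⟩
    · apply Subtype.ext
      funext τ
      show dA (CC act L₀ hL o) (t + 1) ((b : Finset K.V → M) + (b' : Finset K.V → M)) τ =
        dA (CC act L₀ hL o) (t + 1) b τ + dA (CC act L₀ hL o) (t + 1) b' τ
      rw [hdA, hdA, hdA]
      split_ifs with h
      · unfold cob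
        rw [← Finset.sum_add_distrib]
        exact Finset.sum_congr rfl fun v _ => by rw [Pi.add_apply, smul_add]
      · rw [add_zero]
    · apply Subtype.ext
      funext τ
      show dA (CC act L₀ hL o) (t + 1) (r • (b : Finset K.V → M)) τ =
        r • dA (CC act L₀ hL o) (t + 1) b τ
      rw [hdA, hdA]
      split_ifs with h
      · unfold cob
        rw [Finset.smul_sum]
        exact Finset.sum_congr rfl fun v _ => by rw [Pi.smul_apply, smul_comm]
      · rw [smul_zero]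
  have hmain := TranW_adj
    (TranW_P act L₀ hL o B (R.filter fun σ => σ.card = t + 2) (t + 2))
    (TranW_P act L₀ hL o B (R.filter fun σ => σ.card = t + 1) (t + 1))
    (TranW_nondeg act L₀ hL o hf B hB1 hR (t + 1)) (TranW_nondeg act L₀ hL o hf B hB1 hR t)
    (by rw [rV, rW']) d e (by
    intro a b
    rw [TranW_P_apply, TranW_P_apply]
    refine Eq.trans (Finset.sum_congr rfl fun ρ hρ => ?_)
      ((TranW_sum act L₀ hL o B hB hR t a.2 b.2).trans (Finset.sum_congr rfl fun σ hσ => ?_))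
    · have h2 := Finset.mem_filter.1 hρ
      rw [hd, if_pos ⟨hR.1 _ h2.1, h2.2⟩]
    · have h2 := Finset.mem_filter.1 hσ
      rw [he]
      unfold bdB
      rw [if_pos (hR.1 _ h2.1)])
  have hZB : Module.finrank F (LinearMap.ker e) =
      Module.finrank F (ZB o (CC act L₀ hL o) (t + 2)) := by
    have hle : ZB o (CC act L₀ hL o) (t + 2) ≤ Bsp (CC act L₀ hL o) (t + 2) := fun b hb => hb.1
    rw [← (Submodule.comapSubtypeEquivOfLe hle).finrank_eq]
    suffices hk : LinearMap.ker e =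
        (ZB o (CC act L₀ hL o) (t + 2)).comap (Bsp (CC act L₀ hL o) (t + 2)).subtype by
      rw [hk]
    ext b
    rw [LinearMap.mem_ker, Submodule.mem_comap, Submodule.subtype_apply, mem_ZB]
    constructor
    · intro h
      exact ⟨b.2, by rw [← he, h]; rfl⟩
    · intro h
      apply Subtype.ext
      rw [he]
      exact h.2
  have hZC : Module.finrank F (LinearMap.ker d) =
      Module.finrank F (ZCc act L₀ hL o (t + 1)) := by
    have hle : ZCc act L₀ hL o (t + 1) ≤ Asp (CC act L₀ hL o) (t + 1) := fun b hb => hb.1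
    rw [← (Submodule.comapSubtypeEquivOfLe hle).finrank_eq]
    suffices hk : LinearMap.ker d =
        (ZCc act L₀ hL o (t + 1)).comap (Asp (CC act L₀ hL o) (t + 1)).subtype by
      rw [hk]
    ext a
    rw [LinearMap.mem_ker, Submodule.mem_comap, Submodule.subtype_apply]
    constructor
    · intro h
      refine ⟨a.2, fun τ hτ hc => ?_⟩
      have h1 := hd a τ
      rw [if_pos ⟨hτ, hc⟩, h] at h1
      exact h1.symm
    · intro h
      apply Subtype.ext
      funext τ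
      rw [hd]
      split_ifs with h1
      · exact h.2 τ h1.1 h1.2
      · rfl
  rw [rV, rW, hZB, hZC] at hmain
  exact hmain

end Pool.Agent.ChG
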