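import Pool.Agent.ChG.BettiW
import Pool.Agent.ChG.EEv

/-!
# The Euler characteristic and the twisted cohomology of a closed affine manifold

Let `M` be a closed affine manifold of dimension `2 m`, `m ≥ 1`, and let `W` be the flat vector bundle
of the alternating `m`-forms on the tangent spaces, twisted by `|det|^(1/2)`.  Then

`4^m |χ(M)| ≤ dim H^m(M; W)`.

For `m = 1` one has `dim H^1(M; W) = -2 χ(M) + 2 dim H^0(M; W)`, and the inequality for the finite
coverings of `M` implies `χ(M) = 0`, the theorem of Benzécri and Milnor.  In dimension 4 the right hand side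
is `6 χ(M) + 2 dim H^1(M; W) - 2 dim H^0(M; W)`.

The cohomology is computed by simplicial cochains: functions `c` on the `k`-dimensional simplices of
the covering `K` with values in the alternating `m`-forms on `ℝ^(2m)` which satisfy
`c(γ σ)(g x_1, ..., g x_m) = |det g|^(1/2) c(σ)(x_1, ..., x_m)`, `g` the linear holonomy of `γ`.  The
triangulated closed affine manifold is given by `Pool.Agent.ChP.AffineTriangulation (2 * m)` (see
`Pool/Agent/ChP/TriDefs.lean`); `Lab` is defined in `Pool/Agent/ChS/Defs.lean`.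
-/

namespace Pool.Agent.ChG.TwistedCohomology

open Pool.Agent.ChP Pool.Agent.ChS
open scoped Pointwise

section

variable {n : ℕ} (K : AffineTriangulation n)

/-- The determinant of the linear holonomy of a deck transformation. -/
noncomputable def holDet (γ : K.Γ) : ℝ :=
  LinearMap.det ((K.hol γ).linear : (Fin n → ℝ) →ₗ[ℝ] (Fin n → ℝ))

/-- The simplicial `k`-cochains of `M = |K| / Γ` with values in the flat vector bundle of the
alternating `m`-forms twisted by `|det|^(1/2)`. -/
noncomputable def Cochains (m k : ℕ) :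
    Submodule ℝ (Finset K.V → (Fin n → ℝ) [⋀^Fin m]→ₗ[ℝ] ℝ) where
  carrier := {c | (∀ σ, c σ ≠ 0 → σ ∈ K.faces ∧ σ.card = k + 1) ∧
    ∀ (γ : K.Γ) (σ : Finset K.V) (x : Fin m → Fin n → ℝ),
      c (γ • σ) (fun i => (K.hol γ).linear (x i)) = √|holDet K γ| * c σ x}
  add_mem' := by
    rintro a b ⟨ha, ha'⟩ ⟨hb, hb'⟩
    refine ⟨fun σ h => ?_, fun γ σ x => ?_⟩
    · by_cases h1 : a σ = 0
      · refine hb σ fun h2 => h ?_
        rw [Pi.add_apply, h1, h2, add_zero]
      · exact ha σ h1
    · rw [Pi.add_apply, Pi.add_apply, AlternatingMap.add_apply, AlternatingMap.add_apply, ha', hb',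
        mul_add]
  zero_mem' := ⟨fun σ h => absurd rfl h, fun γ σ x => (mul_zero _).symm⟩
  smul_mem' := by
    rintro r a ⟨ha, ha'⟩
    refine ⟨fun σ h => ha σ fun h2 => h ?_, fun γ σ x => ?_⟩
    · rw [Pi.smul_apply, h2, smul_zero]
    · rw [Pi.smul_apply, Pi.smul_apply, AlternatingMap.smul_apply, AlternatingMap.smul_apply, ha',
        smul_eq_mul, smul_eq_mul, mul_left_comm]

/-- The simplicial coboundary map on `k`-cochains, for the vertices ordered by their labels. -/
noncomputable def coboundary (o : Lab K) (m k : ℕ) :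
    (Finset K.V → (Fin n → ℝ) [⋀^Fin m]→ₗ[ℝ] ℝ) →ₗ[ℝ]
      (Finset K.V → (Fin n → ℝ) [⋀^Fin m]→ₗ[ℝ] ℝ) where
  toFun c τ := open Classical in
    if τ ∈ K.faces ∧ τ.card = k + 2 then
      ∑ v ∈ τ, (-1 : ℝ) ^ (τ.filter fun u => o.lab u < o.lab v).card • c (τ.erase v)
    else 0
  map_add' a b := by
    funext τ
    simp only [Pi.add_apply]
    split_ifs
    · rw [← Finset.sum_add_distrib]
      exact Finset.sum_congr rfl fun v _ => smul_add _ _ _
    · rw [add_zero]
  map_smul' r a := by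
    funext τ
    simp only [Pi.smul_apply, RingHom.id_apply]
    split_ifs
    · rw [Finset.smul_sum]
      exact Finset.sum_congr rfl fun v _ => smul_comm _ _ _
    · rw [smul_zero]

/-- For `k ≥ 1` the dimension of `H^k(M; W)`: the dimension of the space of cocycles minus the
dimension of the space of coboundaries. -/
noncomputable def twistedBetti (o : Lab K) (m k : ℕ) : ℤ :=
  (Module.finrank ℝ (Cochains K m k ⊓ LinearMap.ker (coboundary K o m k) :
      Submodule ℝ (Finset K.V → (Fin n → ℝ) [⋀^Fin m]→ₗ[ℝ] ℝ)) : ℤ) -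
    Module.finrank ℝ ((Cochains K m (k - 1)).map (coboundary K o m (k - 1)))

end

section Comparison

open Pool.Agent.ChG Matrix

variable {n : ℕ} {K : AffineTriangulation n}

/-- composition with the map to alternating forms -/
noncomputable def EV (K : AffineTriangulation n) (m : ℕ) :
    (Finset K.V → EE n) →ₗ[ℝ] (Finset K.V → (Fin n → ℝ) [⋀^Fin m]→ₗ[ℝ] ℝ) :=
  LinearMap.pi fun σ => (ev n m).comp (LinearMap.proj σ)

theorem EV_apply (m : ℕ) (c : Finset K.V → EE n) (σ : Finset K.V) :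
    EV K m c σ = ev n m (c σ) := rfl

theorem EV_inj {m : ℕ} {c : Finset K.V → EE n} (hc : ∀ σ, c σ ∈ Lam n m) (h : EV K m c = 0) :
    c = 0 := by
  funext σ
  exact ev_inj (hc σ) (congrFun h σ)

theorem finrank_EV {m : ℕ} (S : Submodule ℝ (Finset K.V → EE n))
    (hS : ∀ c ∈ S, ∀ σ, c σ ∈ Lam n m) :
    Module.finrank ℝ (S.map (EV K m)) = Module.finrank ℝ S := by
  have h1 : Function.Injective ((EV K m).domRestrict S) := by
    rw [injective_iff_map_eq_zero]
    intro c hc
    exact Subtype.ext (EV_inj (hS c.1 c.2) hc)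
  rw [← LinearMap.range_domRestrict]
  exact LinearMap.finrank_range_of_inj h1

/-- the coefficient system -/
noncomputable abbrev CW (o : Lab K) (m : ℕ) : Coef K ℝ (EE n) :=
  CC (actW K) (Lam n m) (fun γ _ h => actW_lam γ h) o

theorem holDet_eq (γ : K.Γ) : holDet K γ = (K.lin γ).det :=
  (LinearMap.det_toMatrix' _).symm

theorem lin_apply (γ : K.Γ) (x : Fin n → ℝ) : K.lin γ *ᵥ x = (K.hol γ).linear x :=
  LinearMap.toMatrix'_mulVec _ x

theorem lin_det_ne (γ : K.Γ) : (K.lin γ).det ≠ 0 := by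
  have h : (K.lin γ).det * (K.lin γ⁻¹).det = 1 := by
    rw [← Matrix.det_mul, ← map_mul, mul_inv_cancel, map_one, Matrix.det_one]
  exact left_ne_zero_of_mul_eq_one h

theorem twist_apply (γ : K.Γ) (ω : EE n) :
    chZ K γ • actW K γ ω = kapG K γ • mapE ((K.lin γ)⁻¹)ᵀ ω := by
  have hc : ((chZ K γ : ℤ) : ℝ) * (chZ K γ : ℝ) = 1 := by exact_mod_cast chZ_mul_self γ
  rw [actW_apply, ← Int.cast_smul_eq_zsmul ℝ, smul_smul]
  congr 1
  linear_combination kapG K γ * hc

theorem ev_twist {m : ℕ} (γ : K.Γ) (ω : EE n) (x : Fin m → Fin n → ℝ) :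
    ev n m (chZ K γ • actW K γ ω) (fun i => (K.hol γ).linear (x i)) =
      √|holDet K γ| * ev n m ω x := by
  rw [twist_apply, map_smul, AlternatingMap.smul_apply, ev_mapE, smul_eq_mul, holDet_eq]
  congr 2
  funext i
  rw [Matrix.transpose_transpose, ← lin_apply, Matrix.mulVec_mulVec,
    Matrix.nonsing_inv_mul _ (isUnit_iff_ne_zero.2 (lin_det_ne γ)), Matrix.one_mulVec]

theorem cochains_map (o : Lab K) (m k : ℕ) :
    (Asp (CW o m) (k + 1)).map (EV K m) = Cochains K m k := by
  obtain ⟨e, he⟩ := exists_evEquiv n m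
  ext c
  constructor
  · rintro ⟨b, ⟨h1, h2, h3⟩, rfl⟩
    refine ⟨fun σ h => ?_, fun γ σ x => ?_⟩
    · by_contra h4
      apply h
      rw [EV_apply, h2 σ h4, map_zero]
    · rw [EV_apply, EV_apply, h3 γ σ]
      exact ev_twist γ (b σ) x
  · rintro ⟨h1, h2⟩
    have hval : ∀ σ, ev n m ((e.symm (c σ)).1) = c σ := by
      intro σ
      rw [← he, LinearEquiv.apply_symm_apply]
    refine ⟨fun σ => (e.symm (c σ)).1, ⟨fun σ => (e.symm (c σ)).2, fun σ h => ?_, fun γ σ => ?_⟩,
      funext hval⟩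
    · have h3 : c σ = 0 := by
        by_contra h4
        exact h (h1 σ h4)
      show ((e.symm (c σ)).1 : EE n) = 0
      rw [h3, map_zero]
      rfl
    · have h3 : ev n m ((e.symm (c (γ • σ))).1 - chZ K γ • actW K γ (e.symm (c σ)).1) = 0 := by
        rw [map_sub, hval, sub_eq_zero]
        ext y
        obtain ⟨x, rfl⟩ : ∃ x : Fin m → Fin n → ℝ, y = fun i => (K.hol γ).linear (x i) :=
          ⟨fun i => (K.hol γ).linear.symm (y i), by
            funext i
            exact (LinearEquiv.apply_symm_apply _ _).symm⟩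
        rw [h2 γ σ x, ev_twist, hval]
      have h4 : (e.symm (c (γ • σ))).1 - chZ K γ • actW K γ (e.symm (c σ)).1 ∈ Lam n m := by
        refine (Lam n m).sub_mem (e.symm _).2 ?_
        exact (Lam n m).smul_of_tower_mem _ (actW_lam γ (e.symm _).2)
      exact sub_eq_zero.1 (ev_inj h4 h3)

/-- the coboundary map with values in the exterior algebra -/
noncomputable def cobE (o : Lab K) (t : ℕ) : (Finset K.V → EE n) →ₗ[ℝ] (Finset K.V → EE n) :=
  LinearMap.pi fun τ =>
    open Classical in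
    if τ ∈ K.faces ∧ τ.card = t + 1 then
      ∑ v ∈ τ, ChG.sg o.lab v τ • (LinearMap.proj (τ.erase v) : (Finset K.V → EE n) →ₗ[ℝ] EE n)
    else 0

theorem cobE_apply (o : Lab K) (t : ℕ) (c : Finset K.V → EE n) (τ : Finset K.V)
    (h : τ ∈ K.faces ∧ τ.card = t + 1) : cobE o t c τ = cob o c τ := by
  unfold cobE
  rw [LinearMap.pi_apply, if_pos h, LinearMap.sum_apply]
  rfl

theorem cobE_apply_not (o : Lab K) (t : ℕ) (c : Finset K.V → EE n) (τ : Finset K.V)
    (h : ¬ (τ ∈ K.faces ∧ τ.card = t + 1)) : cobE o t c τ = 0 := by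
  unfold cobE
  rw [LinearMap.pi_apply, if_neg h]
  rfl

theorem EV_cobE (o : Lab K) (m k : ℕ) (c : Finset K.V → EE n) :
    EV K m (cobE o (k + 1) c) = coboundary K o m k (EV K m c) := by
  classical
  funext τ
  show ev n m (cobE o (k + 1) c τ) = if τ ∈ K.faces ∧ τ.card = k + 2 then
      ∑ v ∈ τ, (-1 : ℝ) ^ (τ.filter fun u => o.lab u < o.lab v).card • ev n m (c (τ.erase v))
    else 0
  by_cases h : τ ∈ K.faces ∧ τ.card = k + 2
  · rw [cobE_apply o (k + 1) c τ h, if_pos h]
    unfold cob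
    rw [map_sum]
    refine Finset.sum_congr rfl fun v _ => ?_
    unfold ChG.sg
    rw [map_zsmul, ← Int.cast_smul_eq_zsmul ℝ]
    push_cast
    rfl
  · rw [cobE_apply_not o (k + 1) c τ h, if_neg h, map_zero]

theorem cobE_lam (o : Lab K) {m t : ℕ} {c : Finset K.V → EE n} (hc : ∀ σ, c σ ∈ Lam n m)
    (τ : Finset K.V) : cobE o t c τ ∈ Lam n m := by
  by_cases h : τ ∈ K.faces ∧ τ.card = t + 1
  · rw [cobE_apply o t c τ h]
    exact (Lam n m).sum_mem fun v _ => (Lam n m).smul_of_tower_mem _ (hc _)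
  · rw [cobE_apply_not o t c τ h]
    exact (Lam n m).zero_mem

theorem twistedBetti_eq (o : Lab K) {m k : ℕ} (hk : 0 < k) :
    twistedBetti K o m k =
      (Module.finrank ℝ (ZCc (actW K) (Lam n m) (fun γ _ h => actW_lam γ h) o (k + 1)) : ℤ) -
        Module.finrank ℝ (BCc (actW K) (Lam n m) (fun γ _ h => actW_lam γ h) o k) := by
  obtain ⟨k, rfl⟩ : ∃ k', k = k' + 1 := ⟨k - 1, by omega⟩
  have h1 : (ZCc (actW K) (Lam n m) (fun γ _ h => actW_lam γ h) o (k + 1 + 1)).map (EV K m) =
      (Cochains K m (k + 1) ⊓ LinearMap.ker (coboundary K o m (k + 1)) :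
        Submodule ℝ (Finset K.V → (Fin n → ℝ) [⋀^Fin m]→ₗ[ℝ] ℝ)) := by
    rw [← cochains_map o m (k + 1)]
    ext c
    constructor
    · rintro ⟨b, ⟨hb, hb'⟩, rfl⟩
      refine ⟨⟨b, hb, rfl⟩, ?_⟩
      show coboundary K o m (k + 1) (EV K m b) = 0
      rw [← EV_cobE]
      have h2 : cobE o (k + 1 + 1) b = 0 := by
        funext τ
        by_cases h : τ ∈ K.faces ∧ τ.card = k + 1 + 1 + 1
        · rw [cobE_apply o (k + 1 + 1) b τ h]
          exact hb' τ h.1 h.2
        · exact cobE_apply_not o (k + 1 + 1) b τ h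
      rw [h2, map_zero]
    · rintro ⟨⟨b, hb, rfl⟩, hb'⟩
      refine ⟨b, ⟨hb, fun τ hτ hc => ?_⟩, rfl⟩
      have h2 : EV K m (cobE o (k + 1 + 1) b) = 0 := by
        rw [EV_cobE]
        exact hb'
      have h3 := EV_inj (cobE_lam o (t := k + 1 + 1) hb.1) h2
      rw [← cobE_apply o (k + 1 + 1) b τ ⟨hτ, hc⟩, h3]
      rfl
  have h2 : (BCc (actW K) (Lam n m) (fun γ _ h => actW_lam γ h) o (k + 1)).map (EV K m) =
      (Cochains K m k).map (coboundary K o m k) := by
    rw [← cochains_map o m k]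
    show ((Asp (CW o m) (k + 1)).map (cobE o (k + 1))).map (EV K m) = _
    rw [← Submodule.map_comp, ← Submodule.map_comp]
    congr 1
    ext1 c
    exact EV_cobE o m k c
  have h3 := finrank_EV (m := m) (ZCc (actW K) (Lam n m) (fun γ _ h => actW_lam γ h) o (k + 1 + 1))
    (fun c hc σ => hc.1.1 σ)
  have h4 := finrank_EV (m := m) (BCc (actW K) (Lam n m) (fun γ _ h => actW_lam γ h) o (k + 1))
    (by
      rintro _ ⟨b, hb, rfl⟩ σ
      exact cobE_lam o (t := k + 1) hb.1 σ)
  rw [h1] at h3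
  rw [h2] at h4
  unfold twistedBetti
  rw [h3]
  show _ - (Module.finrank ℝ ((Cochains K m k).map (coboundary K o m k)) : ℤ) = _
  rw [h4]

end Comparison

/-- The Euler characteristic of a closed affine manifold of dimension `2 m > 0` is bounded by the
dimension of its `m`-th cohomology with values in the flat vector bundle of the alternating
`m`-forms twisted by `|det|^(1/2)`: `4^m |χ(M)| ≤ dim H^m(M; W)`. -/
theorem result (m : ℕ) (hm : 0 < m) (K : AffineTriangulation (2 * m)) (o : Lab K) :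
    4 ^ m * |K.eulerChar| ≤ twistedBetti K o m m := by
  have h4 : (2 : ℤ) ^ (2 * m) = 4 ^ m := by rw [pow_mul]; norm_num
  have h := ChG.main_twisted o rfl hm
  rw [h4] at h
  rw [twistedBetti_eq o hm]
  exact h

end Pool.Agent.ChG.TwistedCohomology
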