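import Pool.Agent.ChG.SpDim
import Pool.Agent.ChG.EDim

/-!
# The twisted alternating forms as a coefficient system

`scal_mapE`: `ExteriorAlgebra.algebraMapInv` composed with `ExteriorAlgebra.map` (both sides are algebra
homomorphisms, `ExteriorAlgebra.hom_ext`).
`actW1_mul`: `mapE_mul`, `chZ_mul`, `kapG (γ * δ) = kapG γ * kapG δ`, the determinants of the `K.lin γ` do
not vanish (`K.lin` is a homomorphism), `(g h)⁻¹ = h⁻¹ g⁻¹`.
`actW_con`: `mapE_con` for `g = ((lin γ)⁻¹)ᵀ`, so `gᵀ *ᵥ s (γ • v) = (lin γ)⁻¹ *ᵥ (lin γ *ᵥ s v) = s v`.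
`con_LW`: `con_lam`, `con_lam_zero`, `con_comm`, `con_con`, `mem_LW`.
`wc_asp`: `asp_finrank`, `lw_finrank`; a simplex with at most `n` vertices is contained in a chamber
(`K.exists_top`), `genPos_lin`.  `wc_bsp`: `bsp_finrank`, `lw_finrank` with `I = ∅`.
-/

namespace Pool.Agent.ChG

open Matrix Pool.Agent.ChP Pool.Agent.ChS
open scoped Pointwise

variable {n : ℕ}

theorem scal_mapE (g : Matrix (Fin n) (Fin n) ℝ) (ω : EE n) : scal (mapE g ω) = scal ω := by
  have h1 : (ExteriorAlgebra.algebraMapInv (R := ℝ) (M := Fin n → ℝ)).comp (mapE g) =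
      ExteriorAlgebra.algebraMapInv := by
    refine ExteriorAlgebra.hom_ext ?_
    ext i
    simp [mapE, ExteriorAlgebra.algebraMapInv]
  exact congrArg (fun f : EE n →ₐ[ℝ] ℝ => f ω) h1

variable (K : AffineTriangulation n)

private theorem WCoef_det (γ : K.Γ) : (K.lin γ).det ≠ 0 := by
  intro h
  have h1 : (K.lin γ).det * (K.lin γ⁻¹).det = 1 := by
    rw [← Matrix.det_mul, ← map_mul, mul_inv_cancel, map_one, Matrix.det_one]
  rw [h, zero_mul] at h1
  exact zero_ne_one h1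

private theorem WCoef_chZ_one : chZ K 1 = 1 := by
  have h1 := chZ_mul (K := K) 1 1
  rw [mul_one, chZ_mul_self] at h1
  exact h1

private theorem WCoef_kap_one : kapG K 1 = 1 := by
  unfold kapG
  rw [map_one, Matrix.det_one, abs_one, Real.sqrt_one]

private theorem WCoef_kap_mul (γ δ : K.Γ) : kapG K (γ * δ) = kapG K γ * kapG K δ := by
  unfold kapG
  rw [map_mul, Matrix.det_mul, abs_mul, Real.sqrt_mul (abs_nonneg _)]

private theorem WCoef_chZ_sq (γ : K.Γ) : (chZ K γ : ℝ) * (chZ K γ : ℝ) = 1 := by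
  have h1 := chZ_mul_self (K := K) γ
  exact_mod_cast h1

/-- The action of a deck transformation on forms. -/
noncomputable def actW1 (γ : K.Γ) : Module.End ℝ (EE n) :=
  (kapG K γ * (chZ K γ : ℝ)) • (mapE ((K.lin γ)⁻¹)ᵀ).toLinearMap

theorem actW1_one : actW1 K 1 = 1 := by
  unfold actW1
  rw [WCoef_kap_one, WCoef_chZ_one, map_one, inv_one, Matrix.transpose_one, mapE_one, Int.cast_one,
    mul_one, one_smul]
  rfl

theorem actW1_mul (γ δ : K.Γ) : actW1 K (γ * δ) = actW1 K γ * actW1 K δ := by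
  have h1 : ((K.lin (γ * δ))⁻¹)ᵀ = ((K.lin γ)⁻¹)ᵀ * ((K.lin δ)⁻¹)ᵀ := by
    rw [map_mul, Matrix.mul_inv_rev, Matrix.transpose_mul]
  have h2 : ((chZ K (γ * δ) : ℤ) : ℝ) = (chZ K γ : ℝ) * (chZ K δ : ℝ) := by
    rw [chZ_mul, Int.cast_mul]
  refine LinearMap.ext fun ω => ?_
  rw [Module.End.mul_apply]
  unfold actW1
  simp only [LinearMap.smul_apply, AlgHom.toLinearMap_apply, map_smul]
  rw [h1, h2, WCoef_kap_mul, mapE_mul, AlgHom.comp_apply, smul_smul]
  congr 1
  ring

/-- The action of the deck transformations on forms. -/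
noncomputable def actW : K.Γ →* Module.End ℝ (EE n) where
  toFun := actW1 K
  map_one' := actW1_one K
  map_mul' := actW1_mul K

variable {K}

theorem actW_apply (γ : K.Γ) (ω : EE n) :
    actW K γ ω = (kapG K γ * (chZ K γ : ℝ)) • mapE ((K.lin γ)⁻¹)ᵀ ω := rfl

theorem actW_lam (γ : K.Γ) {k : ℕ} {ω : EE n} (h : ω ∈ Lam n k) : actW K γ ω ∈ Lam n k := by
  rw [actW_apply]
  exact Submodule.smul_mem _ _ (mapE_lam _ h)

/-- the scalar part of a twisted translate -/
theorem scal_actW (γ : K.Γ) (ω : EE n) : scal (chZ K γ • actW K γ ω) = kapG K γ * scal ω := by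
  rw [actW_apply, map_zsmul, map_smul, scal_mapE, zsmul_eq_mul, smul_eq_mul]
  have h1 := WCoef_chZ_sq K γ
  linear_combination (kapG K γ * scal ω) * h1

theorem actW_con {s : K.V → Fin n → ℝ} (hs : Equi K s) (γ : K.Γ) (v : K.V) (ω : EE n) :
    actW K γ (con (s v) ω) = con (s (γ • v)) (actW K γ ω) := by
  have h1 : (((K.lin γ)⁻¹)ᵀ)ᵀ *ᵥ s (γ • v) = s v := by
    rw [Matrix.transpose_transpose, hs γ v, Matrix.mulVec_mulVec,
      Matrix.nonsing_inv_mul _ (isUnit_iff_ne_zero.2 (WCoef_det K γ)), Matrix.one_mulVec]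
  rw [actW_apply, actW_apply, map_smul, mapE_con, h1]

theorem actW_LW {s : K.V → Fin n → ℝ} (hs : Equi K s) (m : ℕ) (γ : K.Γ) (I : Finset K.V)
    {ω : EE n} (h : ω ∈ LW m s I) : actW K γ ω ∈ LW m s (γ • I) := by
  rw [mem_LW] at h ⊢
  rw [Finset.card_smul_finset]
  rcases h with ⟨h1, h2, h3⟩ | ⟨h1, h2⟩
  · refine Or.inl ⟨h1, actW_lam γ h2, ?_⟩
    intro v hv
    rw [← Finset.inv_smul_mem_iff] at hv
    have h4 := actW_con hs γ (γ⁻¹ • v) ω
    rw [smul_inv_smul, h3 _ hv, map_zero] at h4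
    exact h4.symm
  · refine Or.inr ⟨h1, ?_⟩
    rw [h2, map_zero]

theorem con_LW {U : Type} [DecidableEq U] (m : ℕ) (x : U → Fin n → ℝ) {v : U} {I : Finset U}
    (hv : v ∉ I) {ω : EE n} (h : ω ∈ LW m x I) : con (x v) ω ∈ LW m x (insert v I) := by
  rw [mem_LW] at h ⊢
  rw [Finset.card_insert_of_notMem hv]
  rcases h with ⟨h1, h2, h3⟩ | ⟨h1, h2⟩
  · rcases Nat.lt_or_ge I.card m with h4 | h4
    · refine Or.inl ⟨h4, ?_, ?_⟩
      · have h5 : m - I.card = (m - (I.card + 1)) + 1 := by omega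
        rw [h5] at h2
        exact con_lam _ h2
      · intro u hu
        rcases Finset.mem_insert.1 hu with rfl | hu
        · exact con_con _ _
        · rw [con_comm, h3 u hu, map_zero, neg_zero]
    · refine Or.inr ⟨by omega, ?_⟩
      have h5 : m - I.card = 0 := by omega
      rw [h5] at h2
      exact con_lam_zero _ h2
  · refine Or.inr ⟨by omega, ?_⟩
    rw [h2, map_zero]

/-- The coefficient system given by an equivariant vector field. -/
noncomputable def WC (m : ℕ) (s : K.V → Fin n → ℝ) (hs : Equi K s) : Coef K ℝ (EE n) where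
  act := actW K
  L := LW m s
  D := fun v _ => con (s v)
  act_L := fun γ I _ hx => actW_LW hs m γ I hx
  D_L := fun _ _ hv _ hx => con_LW m s hv hx
  D_act := fun γ v _ x => actW_con hs γ v x
  D_D := fun _ _ u v _ _ _ _ _ x _ => by
    rw [con_comm]
    exact neg_add_cancel _

theorem wc_asp (o : Lab K) {s : K.V → Fin n → ℝ} (hs : Equi K s) (hg : GenPos o s) {m t : ℕ}
    (ht : t + 1 ≤ m) (hmn : m ≤ n) :
    Module.Finite ℝ (Asp (WC m s hs) (t + 1)) ∧ Module.finrank ℝ (Asp (WC m s hs) (t + 1)) =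
      K.numSimplices t * (n - (t + 1)).choose (m - (t + 1)) := by
  refine asp_finrank (WC m s hs) _ (fun I _ _ => lw_finite m s I) ?_
  intro I hI hc
  obtain ⟨σ, h1, h2, h3⟩ := K.exists_top hI
  have h4 : LinearIndependent ℝ (fun v : I => s v) :=
    genPos_lin hg ⟨h1, h3⟩ I h2 (by omega)
  have h5 := lw_finrank (m := m) h4 (by omega)
  rw [hc] at h5
  exact h5

theorem wc_bsp {s : K.V → Fin n → ℝ} (hs : Equi K s) (m t : ℕ) :
    Module.Finite ℝ (Bsp (WC m s hs) (t + 1)) ∧ Module.finrank ℝ (Bsp (WC m s hs) (t + 1)) =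
      K.numSimplices t * n.choose m := by
  have h1 := bsp_finrank (WC m s hs) t (lw_finite m s ∅)
  have h2 : Module.finrank ℝ (LW m s (∅ : Finset K.V)) = n.choose m := by
    have h3 := lw_finrank (m := m) (x := s) (I := (∅ : Finset K.V))
      (linearIndependent_empty_type) (by simp)
    rw [Finset.card_empty, Nat.sub_zero, Nat.sub_zero] at h3
    exact h3
  have h4 : Module.finrank ℝ ((WC m s hs).L ∅) = n.choose m := h2
  rw [h4] at h1
  exact h1

end Pool.Agent.ChG
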