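import Pool.Agent.ChG.WCoef
import Pool.Agent.ChG.Kos2
import Pool.Agent.ChG.DCDefs

/-!
# Exactness of the columns for the twisted alternating forms

Let `ρ` be a simplex with `n + 1 - p` vertices, `p + q ≤ j + 1 ≤ m`, not (`p = 0` and `q = j + 1`).
For `q = 0` the closed family is a form `a ∅` of degree `m` killed by the `s v`, `v ∈ ρ`.  If `p = 0` it is
killed by `n` linearly independent vectors (`genPos_lin` for a subset of `ρ` with `n` elements), if `p > 0`
by `n + 1 - p`; it vanishes as the space of such forms has dimension `0.choose m`, resp.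
`(p - 1).choose m = 0` (`killed_finrank`, `p ≤ m`; `lam_finite`).
For `q > 0`, `p > 0`: `kos1` with `B = ∅` (the vectors are linearly independent: `ρ` is contained in
a chamber, `K.exists_top`, `genPos_lin`).  For `q > 0`, `p = 0` (so `q < m`): `kos2` with `B = ∅`, and for `t v` the
cofactors: for the ordered chamber `x` with vertex set `ρ` (`exists_cham`) put `t (x i) = tco (s ∘ x) i`;
`tco_rel`.  Note `dcol (WC m s hs) a I = ∑ v ∈ I \ ∅, con (s v) (a (I.erase v))` by definition.
`chamber_rel` gives the relation between the vectors at the vertices of a chamber.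
-/

namespace Pool.Agent.ChG

open Matrix Pool.Agent.ChP Pool.Agent.ChS
open scoped Pointwise

/-- the relation between `n + 1` vectors (expand the determinant with a repeated column) -/
theorem tco_rel {n : ℕ} (s : Fin (n + 1) → Fin n → ℝ) : ∑ i, tco s i • s i = 0 := by
  funext c
  rw [Finset.sum_apply, Pi.zero_apply]
  have h0 : Matrix.det (Matrix.of fun i : Fin (n + 1) =>
      (Fin.cons (s i c) (s i) : Fin (n + 1) → ℝ)) = 0 := by
    refine Matrix.det_zero_of_column_eq (i := 0) (j := c.succ) (Fin.succ_ne_zero c).symm ?_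
    intro k
    rw [Matrix.of_apply, Matrix.of_apply, Fin.cons_zero, Fin.cons_succ]
  rw [Matrix.det_succ_column_zero] at h0
  rw [← h0]
  refine Finset.sum_congr rfl fun i _ => ?_
  have h1 : (Matrix.of fun i : Fin (n + 1) =>
      (Fin.cons (s i c) (s i) : Fin (n + 1) → ℝ)).submatrix i.succAbove Fin.succ =
      Matrix.of fun a b : Fin n => s (i.succAbove a) b := by
    ext a b
    rw [Matrix.submatrix_apply, Matrix.of_apply, Matrix.of_apply, Fin.cons_succ]
  rw [h1, Matrix.of_apply, Fin.cons_zero, Pi.smul_apply, smul_eq_mul]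
  unfold tco
  ring

variable {n : ℕ} {K : AffineTriangulation n}

theorem chamber_rel {o : Lab K} {s : K.V → Fin n → ℝ} (hg : GenPos o s)
    {t : Fin (n + 1) → K.V} (ht : Cham o t) :
    ∃ τ : K.V → ℝ, (∀ i, τ (t i) = tco (fun j => s (t j)) i) ∧
      (∀ v ∈ Finset.univ.image t, τ v ≠ 0) ∧ ∑ v ∈ Finset.univ.image t, τ v • s v = 0 := by
  classical
  have hinj : Function.Injective t := ht.injective
  obtain ⟨τ, hτ⟩ : ∃ τ : K.V → ℝ, ∀ i, τ (t i) = tco (fun j => s (t j)) i := by
    refine ⟨fun v => if h : ∃ i, t i = v then tco (fun j => s (t j)) h.choose else 0, fun i => ?_⟩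
    have h : ∃ i', t i' = t i := ⟨i, rfl⟩
    have h1 : h.choose = i := hinj h.choose_spec
    show (if h : ∃ i', t i' = t i then tco (fun j => s (t j)) h.choose else 0) = _
    rw [dif_pos h, h1]
  refine ⟨τ, hτ, ?_, ?_⟩
  · intro v hv
    obtain ⟨i, -, rfl⟩ := Finset.mem_image.1 hv
    rw [hτ]
    exact hg t ht i
  · rw [Finset.sum_image (fun i _ j _ h => hinj h)]
    rw [Finset.sum_congr rfl fun i _ => by rw [hτ i]]
    exact tco_rel (fun j => s (t j))

theorem wcol (o : Lab K) {s : K.V → Fin n → ℝ} (hs : Equi K s) (hg : GenPos o s) {m j : ℕ}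
    (hj : j < m) (hmn : m < n) : ColRange (WC m s hs) j := by
  classical
  intro p q hpq hne ρ hρ hρc a ha hcl
  obtain ⟨σ, hσ, hρσ, hσc⟩ := K.exists_top hρ
  have hcl' : ∀ I ⊆ ρ, I.card = q + 1 → ∑ v ∈ I, con (s v) (a (I.erase v)) = 0 := hcl
  have ha' : ∀ I, a I ∈ LW m s I := ha
  constructor
  · intro hq
    subst hq
    obtain ⟨τ, hτρ, hτc⟩ := Finset.exists_subset_card_eq (s := ρ) (n := n + 1 - max p 1)
      (by omega)
    have hlin := genPos_lin hg ⟨hσ, hσc⟩ τ (hτρ.trans hρσ) (by omega)
    have hfin := killed_finrank hlin m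
    have h0 : (n - τ.card).choose m = 0 := by
      rw [hτc]
      exact Nat.choose_eq_zero_of_lt (by omega)
    rw [h0] at hfin
    haveI := lam_finite (n := n) m
    haveI : Module.Finite ℝ (Lam n m ⊓ ⨅ v ∈ τ, LinearMap.ker (con (s v)) :
        Submodule ℝ (EE n)) :=
      Submodule.finiteDimensional_of_le inf_le_left
    have hbot := Submodule.finrank_eq_zero.1 hfin
    have hmem : a ∅ ∈ (Lam n m ⊓ ⨅ v ∈ τ, LinearMap.ker (con (s v)) :
        Submodule ℝ (EE n)) := by
      refine Submodule.mem_inf.2 ⟨?_, ?_⟩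
      · rcases mem_LW.1 (ha' ∅) with ⟨-, h2, -⟩ | ⟨-, h2⟩
        · rw [Finset.card_empty, Nat.sub_zero] at h2
          exact h2
        · rw [h2]
          exact Submodule.zero_mem _
      · simp only [Submodule.mem_iInf]
        intro v hv
        rw [LinearMap.mem_ker]
        have h1 := hcl' {v} (Finset.singleton_subset_iff.2 (hτρ hv)) (Finset.card_singleton v)
        rw [Finset.sum_singleton, Finset.erase_singleton] at h1
        exact h1
    rw [hbot] at hmem
    exact (Submodule.mem_bot ℝ).1 hmem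
  · intro hq
    rcases Nat.eq_zero_or_pos p with hp | hp
    · subst hp
      have hqm : q < m := by omega
      have hρc' : ρ.card = n + 1 := by rw [hρc, Nat.sub_zero]
      obtain ⟨t, ht, rfl⟩ := exists_cham o ⟨hρ, hρc'⟩
      obtain ⟨τ, -, hτ0, hrel⟩ := chamber_rel hg ht
      obtain ⟨b, hb1, hb2⟩ := kos2 (m := m) hmn (x := s) hρc'
        (fun J hJ hJc => genPos_lin hg ht.chb J hJ hJc.le) (t := τ) hτ0 hrel
        (B := ∅) (Finset.empty_subset _) (q := q) (by rw [Finset.card_empty]; exact hq) hqm.le a ha'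
        (fun _ I _ hI hIc => by
          rw [Finset.sdiff_empty]
          exact hcl' I hI hIc)
        (fun h => absurd h (by omega))
      refine ⟨b, hb1, fun I hI hIc => ?_⟩
      have h2 := hb2 I (Finset.empty_subset _) hI hIc
      rw [Finset.sdiff_empty] at h2
      exact h2
    · have hlin := genPos_lin hg ⟨hσ, hσc⟩ ρ hρσ (by omega)
      obtain ⟨b, hb1, hb2⟩ := kos1 (m := m) (x := s) hlin (B := ∅) (Finset.empty_subset _) (q := q)
        (by rw [Finset.card_empty]; exact hq) a ha'
        (fun I _ hI hIc => by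
          rw [Finset.sdiff_empty]
          exact hcl' I hI hIc)
      refine ⟨b, hb1, fun I hI hIc => ?_⟩
      have h2 := hb2 I (Finset.empty_subset _) hI hIc
      rw [Finset.sdiff_empty] at h2
      exact h2

end Pool.Agent.ChG
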