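import Pool.Agent.ChG.WCoef

/-!
# The forms of degree `m` as a representation by matrices

Choose a linear equivalence `e` of `Lam n m` with `Fin (n.choose m) → ℝ` (`lam_finite`, `lam_finrank`,
`LinearEquiv.ofFinrankEq`).  The matrix `ρ γ` is `LinearMap.toMatrix'` of
`e ∘ (actW γ restricted to Lam n m) ∘ e.symm` (`actW_lam`, `LinearMap.restrict`).
-/

namespace Pool.Agent.ChG

open Matrix Pool.Agent.ChP Pool.Agent.ChS
open scoped Pointwise

variable {n : ℕ}

/-- the action of a deck transformation in coordinates -/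
private noncomputable def WRep_lin (K : AffineTriangulation n) (m N : ℕ)
    (e : Lam n m ≃ₗ[ℝ] (Fin N → ℝ)) (γ : K.Γ) : (Fin N → ℝ) →ₗ[ℝ] (Fin N → ℝ) where
  toFun v := e ⟨actW K γ (e.symm v).1, actW_lam γ (e.symm v).2⟩
  map_add' v w := by
    rw [← map_add]
    refine congrArg e (Subtype.ext ?_)
    change actW K γ (e.symm (v + w)).1 = actW K γ (e.symm v).1 + actW K γ (e.symm w).1
    rw [map_add e.symm v w, ← map_add (actW K γ)]
    rfl
  map_smul' c v := by
    rw [RingHom.id_apply, ← map_smul]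
    refine congrArg e (Subtype.ext ?_)
    change actW K γ (e.symm (c • v)).1 = c • actW K γ (e.symm v).1
    rw [map_smul e.symm c v, ← map_smul (actW K γ)]
    rfl

private theorem WRep_lin_apply (K : AffineTriangulation n) (m N : ℕ)
    (e : Lam n m ≃ₗ[ℝ] (Fin N → ℝ)) (γ : K.Γ) (v : Fin N → ℝ) :
    WRep_lin K m N e γ v = e ⟨actW K γ (e.symm v).1, actW_lam γ (e.symm v).2⟩ := rfl

/-- the representation by matrices -/
private noncomputable def WRep_rho (K : AffineTriangulation n) (m N : ℕ)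
    (e : Lam n m ≃ₗ[ℝ] (Fin N → ℝ)) : K.Γ →* Matrix (Fin N) (Fin N) ℝ where
  toFun γ := LinearMap.toMatrix' (WRep_lin K m N e γ)
  map_one' := by
    have h : WRep_lin K m N e 1 = LinearMap.id := by
      refine LinearMap.ext fun v => ?_
      rw [WRep_lin_apply, LinearMap.id_apply]
      have h1 : (⟨actW K 1 (e.symm v).1, actW_lam 1 (e.symm v).2⟩ : Lam n m) = e.symm v := by
        refine Subtype.ext ?_
        change actW K 1 (e.symm v).1 = (e.symm v).1
        rw [map_one, Module.End.one_apply]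
      rw [h1, LinearEquiv.apply_symm_apply]
    rw [h, LinearMap.toMatrix'_id]
  map_mul' γ δ := by
    have h : WRep_lin K m N e (γ * δ) = (WRep_lin K m N e γ).comp (WRep_lin K m N e δ) := by
      refine LinearMap.ext fun v => ?_
      rw [LinearMap.comp_apply, WRep_lin_apply, WRep_lin_apply, WRep_lin_apply]
      refine congrArg e (Subtype.ext ?_)
      change actW K (γ * δ) (e.symm v).1 =
        actW K γ (e.symm (e ⟨actW K δ (e.symm v).1, actW_lam δ (e.symm v).2⟩)).1
      rw [LinearEquiv.symm_apply_apply, map_mul, Module.End.mul_apply]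
    rw [h, LinearMap.toMatrix'_comp]

theorem exists_wrep (K : AffineTriangulation n) (m : ℕ) :
    ∃ (e : Lam n m ≃ₗ[ℝ] (Fin (n.choose m) → ℝ))
      (ρ : K.Γ →* Matrix (Fin (n.choose m)) (Fin (n.choose m)) ℝ),
      ∀ (γ : K.Γ) (ω : Lam n m), e ⟨actW K γ ω.1, actW_lam γ ω.2⟩ = ρ γ *ᵥ e ω := by
  have := lam_finite (n := n) m
  have h : Module.finrank ℝ (Lam n m) = Module.finrank ℝ (Fin (n.choose m) → ℝ) := by
    rw [lam_finrank, Module.finrank_fin_fun]
  refine ⟨LinearEquiv.ofFinrankEq (Lam n m) (Fin (n.choose m) → ℝ) h,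
    WRep_rho K m _ (LinearEquiv.ofFinrankEq (Lam n m) (Fin (n.choose m) → ℝ) h), ?_⟩
  intro γ ω
  generalize LinearEquiv.ofFinrankEq (Lam n m) (Fin (n.choose m) → ℝ) h = e
  change _ = LinearMap.toMatrix' (WRep_lin K m _ e γ) *ᵥ e ω
  rw [LinearMap.toMatrix'_mulVec, WRep_lin_apply]
  refine congrArg e (Subtype.ext ?_)
  change actW K γ ω.1 = actW K γ (e.symm (e ω)).1
  rw [LinearEquiv.symm_apply_apply]

end Pool.Agent.ChG
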