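import Pool.Agent.ChG.WCol
import Pool.Agent.ChG.LSc

/-!
# The kernel of the map to functions on the chambers

`zg_iff`: if `a` is locally exact on the chamber `σ`, i.e. `a I = dcol b I` for `I ⊆ σ`, `I.card = k + 1`, use
`kos2_rel` with `m = k + 1` and the weights of `chamber_rel` (a sum over `powersetCard (k+1) univ` is the sum over
the images `I = J.image t`, `t` injective).  Conversely use `kos2` with `B = ∅`, `q = m = k + 1`.
`LLg_translate`: equivariance (`scal_actW`, `LLg_mulVec`).
-/

namespace Pool.Agent.ChG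

open Matrix Pool.Agent.ChP Pool.Agent.ChS
open scoped Pointwise

variable {n : ℕ} {K : AffineTriangulation n}

/-- the sum over the subsets of a chamber as a sum over the subsets of its image -/
private theorem WTop_sum {o : Lab K} {s : K.V → Fin n → ℝ} {t : Fin (n + 1) → K.V}
    (ht : Cham o t) {τ : K.V → ℝ} (hτ : ∀ i, τ (t i) = tco (fun j => s (t j)) i) (m : ℕ)
    (g : Finset K.V → ℝ) :
    LLg m (fun J => g (J.image t)) (fun i => s (t i)) =
      ∑ I ∈ (Finset.univ.image t).powerset.filter (fun I => I.card = m),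
        (∏ v ∈ I, τ v) * g I := by
  unfold LLg
  refine Finset.sum_nbij (fun J => J.image t) ?_ ?_ ?_ ?_
  · intro J hJ
    rw [Finset.mem_powersetCard] at hJ
    rw [Finset.mem_filter, Finset.mem_powerset]
    exact ⟨Finset.image_subset_image (Finset.subset_univ J),
      by rw [Finset.card_image_of_injective _ ht.injective, hJ.2]⟩
  · intro J _ J' _ h
    exact Finset.image_injective ht.injective h
  · intro I hI
    rw [Finset.mem_coe, Finset.mem_filter, Finset.mem_powerset] at hI
    obtain ⟨J, -, hJ⟩ := Finset.subset_image_iff.1 hI.1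
    refine ⟨J, ?_, hJ⟩
    rw [Finset.mem_coe, Finset.mem_powersetCard]
    refine ⟨Finset.subset_univ J, ?_⟩
    rw [← Finset.card_image_of_injective J ht.injective, hJ, hI.2]
  · intro J _
    rw [Finset.prod_image fun i _ j _ h => ht.injective h]
    simp only [hτ]

theorem zg_iff (o : Lab K) {s : K.V → Fin n → ℝ} (hs : Equi K s) (hg : GenPos o s) {k : ℕ}
    (hk : k + 1 < n) {a : Finset K.V → EE n} :
    a ∈ ZG (WC (k + 1) s hs) k ↔ a ∈ Asp (WC (k + 1) s hs) (k + 1) ∧
      ∀ t, Cham o t → LLg (k + 1) (fun J => scal (a (J.image t))) (fun i => s (t i)) = 0 := by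
  constructor
  · rintro ⟨ha, hb⟩
    refine ⟨ha, fun t ht => ?_⟩
    obtain ⟨τ, hτ, -, hrel⟩ := chamber_rel hg ht
    obtain ⟨b, hb1, hb2⟩ := hb _ ht.chb.1 ht.chb.2
    rw [WTop_sum ht hτ (k + 1) (fun I => scal (a I))]
    have h1 := kos2_rel (m := k + 1) hrel (Nat.succ_pos k) b hb1
    refine Eq.trans ?_ h1
    refine Finset.sum_congr rfl fun I hI => ?_
    rw [Finset.mem_filter, Finset.mem_powerset] at hI
    rw [← hb2 I hI.1 hI.2]
    rfl
  · rintro ⟨ha, hL⟩
    refine ⟨ha, fun σ hσ hc => ?_⟩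
    obtain ⟨t, ht, rfl⟩ := exists_cham o ⟨hσ, hc⟩
    obtain ⟨τ, hτ, hτ0, hrel⟩ := chamber_rel hg ht
    have hx : ∀ τ ⊆ Finset.univ.image t, τ.card = n →
        LinearIndependent ℝ (fun v : τ => s v) := fun J hJ hJc =>
      genPos_lin hg ht.chb J hJ hJc.le
    obtain ⟨b, hb1, hb2⟩ := kos2 (m := k + 1) hk (x := s) hc hx (t := τ) hτ0 hrel
      (B := ∅) (Finset.empty_subset _) (q := k + 1) (by rw [Finset.card_empty]; omega) le_rfl
      a ha.1 (fun h => absurd h (lt_irrefl _)) (fun _ => by
        have h1 := hL t ht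
        rw [WTop_sum ht hτ (k + 1) (fun I => scal (a I))] at h1
        rw [← h1]
        simp only [Finset.empty_subset, true_and, Finset.sdiff_empty])
    refine ⟨b, hb1, fun I hI hIc => ?_⟩
    have h2 := hb2 I (Finset.empty_subset _) hI hIc
    rw [Finset.sdiff_empty] at h2
    exact h2

theorem LLg_translate {s : K.V → Fin n → ℝ} (hs : Equi K s) {k : ℕ}
    {a : Finset K.V → EE n} (ha : a ∈ Asp (WC (k + 1) s hs) (k + 1)) (γ : K.Γ)
    (t : Fin (n + 1) → K.V) :
    LLg (k + 1) (fun J => scal (a (J.image fun i => γ • t i))) (fun i => s (γ • t i)) =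
      kapG K γ * (K.lin γ).det ^ (k + 1) *
        LLg (k + 1) (fun J => scal (a (J.image t))) (fun i => s (t i)) := by
  have h1 : ∀ J : Finset (Fin (n + 1)), scal (a (J.image fun i => γ • t i)) =
      kapG K γ * scal (a (J.image t)) := by
    intro J
    have h2 : (J.image fun i => γ • t i) = γ • J.image t := by
      ext v
      simp only [Finset.mem_image, Finset.mem_smul_finset]
      constructor
      · rintro ⟨i, hi, rfl⟩
        exact ⟨t i, ⟨i, hi, rfl⟩, rfl⟩
      · rintro ⟨_, ⟨i, hi, rfl⟩, rfl⟩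
        exact ⟨i, hi, rfl⟩
    rw [h2, ha.2.2 γ (J.image t)]
    exact scal_actW γ _
  have h3 : (fun i => s (γ • t i)) = fun i => K.lin γ *ᵥ s (t i) := by
    funext i
    exact hs γ (t i)
  rw [h3]
  have h4 : (fun J : Finset (Fin (n + 1)) => scal (a (J.image fun i => γ • t i))) =
      fun J => kapG K γ * scal (a (J.image t)) := funext h1
  rw [h4]
  exact LLg_mulVec (k + 1) (kapG K γ) (fun J => scal (a (J.image t))) (fun i => s (t i))
    (K.lin γ)

end Pool.Agent.ChG
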