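import Pool.Agent.ChG.OrCyc

/-!
# The double complex

`dl_mem`: for `ρ ∈ K.faces`, `I ⊆ ρ` and `v ∈ nb K ρ` one has `I ⊆ insert v ρ`; equivariance by
`nb_smul`, `sg_smul`.  `dl_dl`: `bd (bd ..)`: the sum over the pairs `(v, u)`, `v ∈ nb ρ`,
`u ∈ nb (insert v ρ)` is antisymmetric (`sg_swap`; the labels of two vertices of a simplex differ).
`dd_dd`: `Coef.D_D`.  `dl_dd`: both are the sum over `v ∈ nb ρ`, `u ∈ I` of
`sg v ρ • D u (I.erase u) (c (insert v ρ) (I.erase u))`.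
`orA_dl`: `orZ_cycle`.  Note `∅ ∉ K.faces` (`nonempty_of_mem`); if `dl o c ρ I ≠ 0` then `ρ ∈ K.faces`.
-/

namespace Pool.Agent.ChG

open Matrix Pool.Agent.ChP Pool.Agent.ChS
open scoped Pointwise

variable {n : ℕ} {K : AffineTriangulation n} {F M : Type} [Field F] [AddCommGroup M] [Module F M]

/-! ### Auxiliary facts -/

private theorem XBas_card_insert {ρ : Finset K.V} {v : K.V} (hv : v ∉ ρ) :
    (insert v ρ).card = ρ.card + 1 := Finset.card_insert_of_notMem hv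

private theorem XBas_smul_subset (γ : K.Γ) (ρ I : Finset K.V) : γ • I ⊆ γ • ρ ↔ I ⊆ ρ :=
  Finset.smul_finset_subset_smul_finset_iff

private theorem XBas_sum_smul {A : Type} [AddCommMonoid A] (γ : K.Γ) (s : Finset K.V)
    (f : K.V → A) : ∑ v ∈ γ • s, f v = ∑ v ∈ s, f (γ • v) := by
  have h : γ • s = s.image fun v => γ • v := rfl
  rw [h, Finset.sum_image]
  intro a _ b _ hab
  exact MulAction.injective γ hab

private theorem XBas_insert_smul (γ : K.Γ) (v : K.V) (s : Finset K.V) :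
    insert (γ • v) (γ • s) = γ • insert v s := (Finset.smul_finset_insert γ v s).symm

private theorem XBas_erase_smul (γ : K.Γ) (v : K.V) (s : Finset K.V) :
    (γ • s).erase (γ • v) = γ • s.erase v := by
  ext x
  rw [Finset.mem_erase, Finset.mem_smul_finset, Finset.mem_smul_finset]
  constructor
  · rintro ⟨hx, y, hy, rfl⟩
    exact ⟨y, Finset.mem_erase.2 ⟨fun h => hx (by rw [h]), hy⟩, rfl⟩
  · rintro ⟨y, hy, rfl⟩
    rw [Finset.mem_erase] at hy
    exact ⟨fun h => hy.1 (MulAction.injective γ h), y, hy.2, rfl⟩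

private theorem XBas_dl_pos (o : Lab K) (c : Finset K.V → Finset K.V → M) {ρ I : Finset K.V}
    (hρ : ρ ∈ K.faces) (hI : I ⊆ ρ) :
    dl o c ρ I = ∑ v ∈ nb K ρ, sg o.lab v ρ • c (insert v ρ) I := by
  unfold dl
  rw [if_pos ⟨hρ, hI⟩]
  rfl

private theorem XBas_dl_neg (o : Lab K) (c : Finset K.V → Finset K.V → M) {ρ I : Finset K.V}
    (h : ¬ (ρ ∈ K.faces ∧ I ⊆ ρ)) : dl o c ρ I = 0 := by
  unfold dl
  rw [if_neg h]

private theorem XBas_dd_pos (C : Coef K F M) (c : Finset K.V → Finset K.V → M)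
    {ρ I : Finset K.V} (hI : I ⊆ ρ) :
    dd C c ρ I = ∑ v ∈ I, C.D v (I.erase v) (c ρ (I.erase v)) := by
  unfold dd
  rw [if_pos hI]
  rfl

private theorem XBas_dd_neg (C : Coef K F M) (c : Finset K.V → Finset K.V → M)
    {ρ I : Finset K.V} (hI : ¬ I ⊆ ρ) : dd C c ρ I = 0 := by
  unfold dd
  rw [if_neg hI]

private theorem XBas_D_mem (C : Coef K F M) {I : Finset K.V} {v : K.V} (hv : v ∈ I) {x : M}
    (hx : x ∈ C.L (I.erase v)) : C.D v (I.erase v) x ∈ C.L I := by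
  have h := C.D_L v (I.erase v) (Finset.notMem_erase v I) x hx
  rwa [Finset.insert_erase hv] at h

theorem dl_mem (o : Lab K) (C : Coef K F M) {t q : ℕ} {c : Finset K.V → Finset K.V → M}
    (hc : c ∈ Xsp C (t + 1) q) : dl o c ∈ Xsp C t q := by
  obtain ⟨h1, h2, h3⟩ := hc
  refine ⟨fun ρ I => ?_, fun ρ I h => ?_, fun γ ρ I => ?_⟩
  · by_cases hh : ρ ∈ K.faces ∧ I ⊆ ρ
    · rw [XBas_dl_pos o c hh.1 hh.2]
      exact Submodule.sum_mem _ fun v _ => zsmul_mem (h1 _ _) _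
    · rw [XBas_dl_neg o c hh]
      exact Submodule.zero_mem _
  · by_cases hh : ρ ∈ K.faces ∧ I ⊆ ρ
    · rw [XBas_dl_pos o c hh.1 hh.2]
      refine Finset.sum_eq_zero fun v hv => ?_
      rw [mem_nb hh.1] at hv
      rw [h2, smul_zero]
      rintro ⟨-, hcard, -, hq⟩
      rw [XBas_card_insert hv.1] at hcard
      exact h ⟨hh.1, by omega, hh.2, hq⟩
    · exact XBas_dl_neg o c hh
  · by_cases hh : ρ ∈ K.faces ∧ I ⊆ ρ
    · rw [XBas_dl_pos o c hh.1 hh.2, XBas_dl_pos o c ((smul_mem_faces γ ρ).2 hh.1)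
        ((XBas_smul_subset γ ρ I).2 hh.2), nb_smul γ hh.1, XBas_sum_smul, map_sum]
      refine Finset.sum_congr rfl fun v _ => ?_
      rw [sg_smul, XBas_insert_smul, h3, map_zsmul]
    · rw [XBas_dl_neg o c hh, map_zero, XBas_dl_neg]
      rwa [smul_mem_faces, XBas_smul_subset]

theorem dd_mem (C : Coef K F M) {t q : ℕ} {c : Finset K.V → Finset K.V → M}
    (hc : c ∈ Xsp C t q) : dd C c ∈ Xsp C t (q + 1) := by
  obtain ⟨h1, h2, h3⟩ := hc
  refine ⟨fun ρ I => ?_, fun ρ I h => ?_, fun γ ρ I => ?_⟩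
  · by_cases hI : I ⊆ ρ
    · rw [XBas_dd_pos C c hI]
      exact Submodule.sum_mem _ fun v hv => XBas_D_mem C hv (h1 _ _)
    · rw [XBas_dd_neg C c hI]
      exact Submodule.zero_mem _
  · by_cases hI : I ⊆ ρ
    · rw [XBas_dd_pos C c hI]
      refine Finset.sum_eq_zero fun v hv => ?_
      rw [h2, map_zero]
      rintro ⟨hρ, hcard, -, hq⟩
      rw [Finset.card_erase_of_mem hv] at hq
      have hpos : 0 < I.card := Finset.card_pos.2 ⟨v, hv⟩
      exact h ⟨hρ, hcard, hI, by omega⟩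
    · exact XBas_dd_neg C c hI
  · by_cases hI : I ⊆ ρ
    · rw [XBas_dd_pos C c hI, XBas_dd_pos C c ((XBas_smul_subset γ ρ I).2 hI), XBas_sum_smul,
        map_sum]
      refine Finset.sum_congr rfl fun v _ => ?_
      rw [XBas_erase_smul, h3, ← C.D_act]
    · rw [XBas_dd_neg C c hI, map_zero, XBas_dd_neg]
      rwa [XBas_smul_subset]

theorem dl_dl (o : Lab K) (c : Finset K.V → Finset K.V → M) : dl o (dl o c) = 0 := by
  classical
  funext ρ I
  rw [Pi.zero_apply, Pi.zero_apply]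
  by_cases hh : ρ ∈ K.faces ∧ I ⊆ ρ
  swap
  · exact XBas_dl_neg o _ hh
  rw [XBas_dl_pos o _ hh.1 hh.2]
  have e : ∀ v ∈ nb K ρ, sg o.lab v ρ • dl o c (insert v ρ) I =
      ∑ u ∈ nb K (insert v ρ),
        (sg o.lab u (insert v ρ) * sg o.lab v ρ) • c (insert u (insert v ρ)) I := by
    intro v hv
    rw [mem_nb hh.1] at hv
    rw [XBas_dl_pos o c hv.2 (hh.2.trans (Finset.subset_insert v ρ)), Finset.smul_sum]
    refine Finset.sum_congr rfl fun u _ => ?_
    rw [smul_smul, mul_comm]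
  rw [Finset.sum_congr rfl e, Finset.sum_sigma']
  have key : ∀ x ∈ (nb K ρ).sigma fun v => nb K (insert v ρ),
      x.1 ∉ ρ ∧ insert x.1 ρ ∈ K.faces ∧ x.2 ∉ ρ ∧ x.2 ≠ x.1 ∧
        insert x.2 (insert x.1 ρ) ∈ K.faces := by
    rintro ⟨v, u⟩ hx
    rw [Finset.mem_sigma] at hx
    obtain ⟨hv, hu⟩ := hx
    dsimp only at hv hu ⊢
    rw [mem_nb hh.1] at hv
    rw [mem_nb hv.2, Finset.mem_insert, not_or] at hu
    exact ⟨hv.1, hv.2, hu.1.2, hu.1.1, hu.2⟩
  refine Finset.sum_involution (fun x _ => ⟨x.2, x.1⟩) ?_ ?_ ?_ ?_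
  · rintro ⟨v, u⟩ hx
    obtain ⟨hv, -, hu, hne, hf⟩ := key _ hx
    dsimp only at hv hu hne hf ⊢
    have hlab : o.lab u ≠ o.lab v := by
      intro h
      refine hne (o.inj _ hf ?_ ?_ h)
      · exact Finset.mem_coe.2 (Finset.mem_insert_self _ _)
      · exact Finset.mem_coe.2 (Finset.mem_insert_of_mem (Finset.mem_insert_self _ _))
    rw [Finset.insert_comm v u ρ, sg_swap o.lab hlab hu hv, neg_smul, neg_add_cancel]
  · rintro ⟨v, u⟩ hx - h
    obtain ⟨-, -, -, hne, -⟩ := key _ hx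
    dsimp only at hne h
    rw [Sigma.mk.injEq] at h
    exact hne h.1
  · rintro ⟨v, u⟩ hx
    obtain ⟨hv, -, hu, hne, hf⟩ := key _ hx
    dsimp only at hv hu hne hf ⊢
    have hfu : insert u ρ ∈ K.faces := by
      refine K.down_closed _ hf _ ?_ (Finset.insert_nonempty _ _)
      exact Finset.insert_subset_insert u (Finset.subset_insert v ρ)
    rw [Finset.mem_sigma]
    dsimp only
    rw [mem_nb hh.1, mem_nb hfu, Finset.mem_insert, not_or, Finset.insert_comm v u ρ]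
    exact ⟨⟨hu, hfu⟩, ⟨hne.symm, hv⟩, hf⟩
  · rintro ⟨v, u⟩ _
    rfl

theorem dd_dd (C : Coef K F M) {t q : ℕ} {c : Finset K.V → Finset K.V → M}
    (hc : c ∈ Xsp C t q) : dd C (dd C c) = 0 := by
  classical
  obtain ⟨h1, h2, -⟩ := hc
  funext ρ I
  rw [Pi.zero_apply, Pi.zero_apply]
  by_cases hI : I ⊆ ρ
  swap
  · exact XBas_dd_neg C _ hI
  rw [XBas_dd_pos C _ hI]
  have e : ∀ v ∈ I, C.D v (I.erase v) (dd C c ρ (I.erase v)) =
      ∑ u ∈ I.erase v, C.D v (I.erase v)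
        (C.D u ((I.erase v).erase u) (c ρ ((I.erase v).erase u))) := by
    intro v _
    rw [XBas_dd_pos C c ((Finset.erase_subset v I).trans hI), map_sum]
  rw [Finset.sum_congr rfl e, Finset.sum_sigma']
  refine Finset.sum_involution (fun x _ => ⟨x.2, x.1⟩) ?_ ?_ ?_ ?_
  · rintro ⟨v, u⟩ hx
    rw [Finset.mem_sigma] at hx
    obtain ⟨hv, hu⟩ := hx
    dsimp only at hv hu ⊢
    rw [Finset.mem_erase] at hu
    rw [Finset.erase_right_comm (s := I) (a := u) (b := v)]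
    by_cases hρ : ρ ∈ K.faces
    · have e1 : I.erase v = insert u ((I.erase v).erase u) :=
        (Finset.insert_erase (Finset.mem_erase.2 hu)).symm
      have e2 : I.erase u = insert v ((I.erase v).erase u) := by
        rw [Finset.erase_right_comm]
        exact (Finset.insert_erase (Finset.mem_erase.2 ⟨hu.1.symm, hv⟩)).symm
      have e3 : insert v (insert u ((I.erase v).erase u)) = I := by
        rw [← e1, Finset.insert_erase hv]
      have h := C.D_D ρ hρ v u ((I.erase v).erase u) hu.1.symm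
        (fun h => (Finset.mem_erase.1 (Finset.mem_erase.1 h).2).1 rfl)
        (Finset.notMem_erase _ _) (by rw [e3]; exact hI) (c ρ ((I.erase v).erase u)) (h1 _ _)
      rw [← e1, ← e2] at h
      exact h
    · rw [h2 ρ ((I.erase v).erase u) (fun h => hρ h.1), map_zero, map_zero, map_zero, map_zero,
        add_zero]
  · rintro ⟨v, u⟩ hx - h
    rw [Finset.mem_sigma] at hx
    dsimp only at hx h
    rw [Finset.mem_erase] at hx
    rw [Sigma.mk.injEq] at h
    exact hx.2.1 h.1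
  · rintro ⟨v, u⟩ hx
    rw [Finset.mem_sigma] at hx ⊢
    dsimp only at hx ⊢
    rw [Finset.mem_erase] at hx ⊢
    exact ⟨hx.2.2, hx.2.1.symm, hx.1⟩
  · rintro ⟨v, u⟩ _
    rfl

theorem dl_dd (o : Lab K) (C : Coef K F M) {t q : ℕ} {c : Finset K.V → Finset K.V → M}
    (hc : c ∈ Xsp C t q) : dl o (dd C c) = dd C (dl o c) := by
  funext ρ I
  by_cases hI : I ⊆ ρ
  swap
  · rw [XBas_dd_neg C _ hI, XBas_dl_neg o _ fun h => hI h.2]
  by_cases hρ : ρ ∈ K.faces
  · rw [XBas_dl_pos o _ hρ hI, XBas_dd_pos C _ hI]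
    have e1 : ∀ v ∈ nb K ρ, sg o.lab v ρ • dd C c (insert v ρ) I =
        ∑ u ∈ I, sg o.lab v ρ • C.D u (I.erase u) (c (insert v ρ) (I.erase u)) := by
      intro v _
      rw [XBas_dd_pos C c (hI.trans (Finset.subset_insert v ρ)), Finset.smul_sum]
    have e2 : ∀ u ∈ I, C.D u (I.erase u) (dl o c ρ (I.erase u)) =
        ∑ v ∈ nb K ρ, sg o.lab v ρ • C.D u (I.erase u) (c (insert v ρ) (I.erase u)) := by
      intro u _
      rw [XBas_dl_pos o c hρ ((Finset.erase_subset u I).trans hI), map_sum]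
      refine Finset.sum_congr rfl fun v _ => ?_
      rw [map_zsmul]
    rw [Finset.sum_congr rfl e1, Finset.sum_congr rfl e2, Finset.sum_comm]
  · rw [XBas_dl_neg o _ fun h => hρ h.1, XBas_dd_pos C _ hI]
    symm
    refine Finset.sum_eq_zero fun u _ => ?_
    rw [XBas_dl_neg o c fun h => hρ h.1, map_zero]

theorem dl_add (o : Lab K) (c c' : Finset K.V → Finset K.V → M) :
    dl o (c + c') = dl o c + dl o c' := by
  funext ρ I
  rw [Pi.add_apply, Pi.add_apply]
  by_cases hh : ρ ∈ K.faces ∧ I ⊆ ρ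
  · rw [XBas_dl_pos o _ hh.1 hh.2, XBas_dl_pos o _ hh.1 hh.2, XBas_dl_pos o _ hh.1 hh.2,
      ← Finset.sum_add_distrib]
    refine Finset.sum_congr rfl fun v _ => ?_
    rw [Pi.add_apply, Pi.add_apply, smul_add]
  · rw [XBas_dl_neg o _ hh, XBas_dl_neg o _ hh, XBas_dl_neg o _ hh, add_zero]

theorem dl_sub (o : Lab K) (c c' : Finset K.V → Finset K.V → M) :
    dl o (c - c') = dl o c - dl o c' := by
  funext ρ I
  rw [Pi.sub_apply, Pi.sub_apply]
  by_cases hh : ρ ∈ K.faces ∧ I ⊆ ρ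
  · rw [XBas_dl_pos o _ hh.1 hh.2, XBas_dl_pos o _ hh.1 hh.2, XBas_dl_pos o _ hh.1 hh.2,
      ← Finset.sum_sub_distrib]
    refine Finset.sum_congr rfl fun v _ => ?_
    rw [Pi.sub_apply, Pi.sub_apply, smul_sub]
  · rw [XBas_dl_neg o _ hh, XBas_dl_neg o _ hh, XBas_dl_neg o _ hh, sub_zero]

theorem dd_add (C : Coef K F M) (c c' : Finset K.V → Finset K.V → M) :
    dd C (c + c') = dd C c + dd C c' := by
  funext ρ I
  rw [Pi.add_apply, Pi.add_apply]
  by_cases hI : I ⊆ ρ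
  · rw [XBas_dd_pos C _ hI, XBas_dd_pos C _ hI, XBas_dd_pos C _ hI, ← Finset.sum_add_distrib]
    refine Finset.sum_congr rfl fun v _ => ?_
    rw [Pi.add_apply, Pi.add_apply, map_add]
  · rw [XBas_dd_neg C _ hI, XBas_dd_neg C _ hI, XBas_dd_neg C _ hI, add_zero]

theorem dd_sub (C : Coef K F M) (c c' : Finset K.V → Finset K.V → M) :
    dd C (c - c') = dd C c - dd C c' := by
  funext ρ I
  rw [Pi.sub_apply, Pi.sub_apply]
  by_cases hI : I ⊆ ρ
  · rw [XBas_dd_pos C _ hI, XBas_dd_pos C _ hI, XBas_dd_pos C _ hI, ← Finset.sum_sub_distrib]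
    refine Finset.sum_congr rfl fun v _ => ?_
    rw [Pi.sub_apply, Pi.sub_apply, map_sub]
  · rw [XBas_dd_neg C _ hI, XBas_dd_neg C _ hI, XBas_dd_neg C _ hI, sub_zero]

theorem dl_smul (o : Lab K) (r : F) (c : Finset K.V → Finset K.V → M) :
    dl o (r • c) = r • dl o c := by
  funext ρ I
  rw [Pi.smul_apply, Pi.smul_apply]
  by_cases hh : ρ ∈ K.faces ∧ I ⊆ ρ
  · rw [XBas_dl_pos o _ hh.1 hh.2, XBas_dl_pos o _ hh.1 hh.2, Finset.smul_sum]
    refine Finset.sum_congr rfl fun v _ => ?_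
    rw [Pi.smul_apply, Pi.smul_apply, smul_comm]
  · rw [XBas_dl_neg o _ hh, XBas_dl_neg o _ hh, smul_zero]

theorem dd_smul (C : Coef K F M) (r : F) (c : Finset K.V → Finset K.V → M) :
    dd C (r • c) = r • dd C c := by
  funext ρ I
  rw [Pi.smul_apply, Pi.smul_apply]
  by_cases hI : I ⊆ ρ
  · rw [XBas_dd_pos C _ hI, XBas_dd_pos C _ hI, Finset.smul_sum]
    refine Finset.sum_congr rfl fun v _ => ?_
    rw [Pi.smul_apply, Pi.smul_apply, map_smul]
  · rw [XBas_dd_neg C _ hI, XBas_dd_neg C _ hI, smul_zero]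

/-- the family on the chambers given by a family on the simplices with `q` vertices -/
noncomputable def orA (o : Lab K) (a : Finset K.V → M) (σ I : Finset K.V) : M :=
  open Classical in
  if σ ∈ K.faces ∧ σ.card = n + 1 ∧ I ⊆ σ then orZ o σ • a I else 0

/-- the differential of the global complex -/
noncomputable def dA (C : Coef K F M) (q : ℕ) (a : Finset K.V → M) (I : Finset K.V) : M :=
  open Classical in
  if I ∈ K.faces ∧ I.card = q + 1 then dcol C a I else 0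

private theorem XBas_orA_pos (o : Lab K) (a : Finset K.V → M) {σ I : Finset K.V}
    (h : σ ∈ K.faces ∧ σ.card = n + 1 ∧ I ⊆ σ) : orA o a σ I = orZ o σ • a I := by
  unfold orA
  rw [if_pos h]

private theorem XBas_orA_neg (o : Lab K) (a : Finset K.V → M) {σ I : Finset K.V}
    (h : ¬ (σ ∈ K.faces ∧ σ.card = n + 1 ∧ I ⊆ σ)) : orA o a σ I = 0 := by
  unfold orA
  rw [if_neg h]

private theorem XBas_dA_pos (C : Coef K F M) {q : ℕ} (a : Finset K.V → M) {I : Finset K.V}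
    (h : I ∈ K.faces ∧ I.card = q + 1) :
    dA C q a I = ∑ v ∈ I, C.D v (I.erase v) (a (I.erase v)) := by
  unfold dA
  rw [if_pos h]
  rfl

private theorem XBas_dA_neg (C : Coef K F M) {q : ℕ} (a : Finset K.V → M) {I : Finset K.V}
    (h : ¬ (I ∈ K.faces ∧ I.card = q + 1)) : dA C q a I = 0 := by
  unfold dA
  rw [if_neg h]

private theorem XBas_asp (C : Coef K F M) {q : ℕ} {a : Finset K.V → M} (ha : a ∈ Asp C q) :
    (∀ I, a I ∈ C.L I) ∧ (∀ I, ¬ (I ∈ K.faces ∧ I.card = q) → a I = 0) ∧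
      ∀ (γ : K.Γ) (I : Finset K.V), a (γ • I) = chZ K γ • C.act γ (a I) := ha

theorem orA_mem (o : Lab K) (C : Coef K F M) {q : ℕ} {a : Finset K.V → M} (ha : a ∈ Asp C q) :
    orA o a ∈ Xsp C (n + 1) q := by
  obtain ⟨h1, h2, h3⟩ := XBas_asp C ha
  refine ⟨fun σ I => ?_, fun σ I h => ?_, fun γ σ I => ?_⟩
  · by_cases hh : σ ∈ K.faces ∧ σ.card = n + 1 ∧ I ⊆ σ
    · rw [XBas_orA_pos o a hh]
      exact zsmul_mem (h1 _) _
    · rw [XBas_orA_neg o a hh]
      exact Submodule.zero_mem _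
  · by_cases hh : σ ∈ K.faces ∧ σ.card = n + 1 ∧ I ⊆ σ
    · rw [XBas_orA_pos o a hh, h2, smul_zero]
      intro hq
      exact h ⟨hh.1, hh.2.1, hh.2.2, hq.2⟩
    · exact XBas_orA_neg o a hh
  · by_cases hh : σ ∈ K.faces ∧ σ.card = n + 1 ∧ I ⊆ σ
    · rw [XBas_orA_pos o a hh, XBas_orA_pos o a
        ⟨(smul_mem_faces γ σ).2 hh.1, by rw [Finset.card_smul_finset]; exact hh.2.1,
          (XBas_smul_subset γ σ I).2 hh.2.2⟩, orZ_smul o γ hh.1 hh.2.1, h3, smul_smul, map_zsmul]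
      have e : chZ K γ * orZ o σ * chZ K γ = orZ o σ := by
        calc chZ K γ * orZ o σ * chZ K γ = (chZ K γ * chZ K γ) * orZ o σ := by ring
          _ = orZ o σ := by rw [chZ_mul_self, one_mul]
      rw [e]
    · rw [XBas_orA_neg o a hh, map_zero, XBas_orA_neg]
      rwa [smul_mem_faces, XBas_smul_subset, Finset.card_smul_finset]

/-- `orA` is injective on the families on the simplices (every simplex is contained in a chamber) -/
theorem orA_inj (o : Lab K) (C : Coef K F M) {q : ℕ} {a : Finset K.V → M} (ha : a ∈ Asp C q)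
    (h : orA o a = 0) : a = 0 := by
  obtain ⟨-, h2, -⟩ := XBas_asp C ha
  funext I
  rw [Pi.zero_apply]
  by_cases hI : I ∈ K.faces ∧ I.card = q
  · obtain ⟨σ, hσ, hsub, hcard⟩ := K.exists_top hI.1
    have h4 : orA o a σ I = 0 := by rw [h]; rfl
    rw [XBas_orA_pos o a ⟨hσ, hcard, hsub⟩] at h4
    have h5 : (orZ o σ * orZ o σ) • a I = 0 := by rw [mul_smul, h4, smul_zero]
    rwa [orZ_mul_self o hσ hcard, one_smul] at h5
  · exact h2 I hI

theorem orA_dl (o : Lab K) (C : Coef K F M) {q : ℕ} {a : Finset K.V → M} (ha : a ∈ Asp C q) :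
    dl o (orA o a) = 0 := by
  funext ρ I
  rw [Pi.zero_apply, Pi.zero_apply]
  by_cases hh : ρ ∈ K.faces ∧ I ⊆ ρ
  swap
  · exact XBas_dl_neg o _ hh
  rw [XBas_dl_pos o _ hh.1 hh.2]
  by_cases hc : ρ.card = n
  · have e : ∀ v ∈ nb K ρ, sg o.lab v ρ • orA o a (insert v ρ) I =
        (sg o.lab v ρ • orZ o (insert v ρ)) • a I := by
      intro v hv
      rw [mem_nb hh.1] at hv
      rw [XBas_orA_pos o a ⟨hv.2, by rw [XBas_card_insert hv.1, hc],
        hh.2.trans (Finset.subset_insert v ρ)⟩, smul_smul, smul_eq_mul]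
    rw [Finset.sum_congr rfl e, ← Finset.sum_smul]
    have h := orZ_cycle o hh.1 hc
    unfold bd at h
    rw [h, zero_smul]
  · refine Finset.sum_eq_zero fun v hv => ?_
    rw [mem_nb hh.1] at hv
    rw [XBas_orA_neg, smul_zero]
    rintro ⟨-, h, -⟩
    rw [XBas_card_insert hv.1] at h
    exact hc (by omega)

theorem dA_mem (C : Coef K F M) {q : ℕ} {a : Finset K.V → M} (ha : a ∈ Asp C q) :
    dA C q a ∈ Asp C (q + 1) := by
  obtain ⟨h1, h2, h3⟩ := XBas_asp C ha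
  refine ⟨fun I => ?_, fun I h => ?_, fun γ I => ?_⟩
  · by_cases hI : I ∈ K.faces ∧ I.card = q + 1
    · rw [XBas_dA_pos C a hI]
      exact Submodule.sum_mem _ fun v hv => XBas_D_mem C hv (h1 _)
    · rw [XBas_dA_neg C a hI]
      exact Submodule.zero_mem _
  · exact XBas_dA_neg C a h
  · change dA C q a (γ • I) = chZ K γ • C.act γ (dA C q a I)
    by_cases hI : I ∈ K.faces ∧ I.card = q + 1
    · rw [XBas_dA_pos C a hI, XBas_dA_pos C a
        ⟨(smul_mem_faces γ I).2 hI.1, by rw [Finset.card_smul_finset]; exact hI.2⟩,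
        XBas_sum_smul, map_sum, Finset.smul_sum]
      refine Finset.sum_congr rfl fun v _ => ?_
      rw [XBas_erase_smul, h3, map_zsmul, ← C.D_act]
    · rw [XBas_dA_neg C a hI, map_zero, smul_zero, XBas_dA_neg]
      rwa [smul_mem_faces, Finset.card_smul_finset]

theorem dd_orA (o : Lab K) (C : Coef K F M) {q : ℕ} {a : Finset K.V → M} (ha : a ∈ Asp C q) :
    dd C (orA o a) = orA o (dA C q a) := by
  obtain ⟨-, h2, -⟩ := XBas_asp C ha
  funext ρ I
  by_cases hI : I ⊆ ρ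
  swap
  · rw [XBas_dd_neg C _ hI, XBas_orA_neg o _ fun h => hI h.2.2]
  rw [XBas_dd_pos C _ hI]
  by_cases hρ : ρ ∈ K.faces ∧ ρ.card = n + 1
  · rw [XBas_orA_pos o _ ⟨hρ.1, hρ.2, hI⟩]
    have e : ∀ v ∈ I, C.D v (I.erase v) (orA o a ρ (I.erase v)) =
        orZ o ρ • C.D v (I.erase v) (a (I.erase v)) := by
      intro v _
      rw [XBas_orA_pos o a ⟨hρ.1, hρ.2, (Finset.erase_subset v I).trans hI⟩, map_zsmul]
    rw [Finset.sum_congr rfl e, ← Finset.smul_sum]
    by_cases hq : I ∈ K.faces ∧ I.card = q + 1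
    · rw [XBas_dA_pos C a hq]
    · rw [XBas_dA_neg C a hq]
      have hz : ∑ v ∈ I, C.D v (I.erase v) (a (I.erase v)) = 0 := by
        refine Finset.sum_eq_zero fun v hv => ?_
        rw [h2, map_zero]
        rintro ⟨-, hcard⟩
        rw [Finset.card_erase_of_mem hv] at hcard
        have hpos : 0 < I.card := Finset.card_pos.2 ⟨v, hv⟩
        exact hq ⟨K.down_closed ρ hρ.1 I hI ⟨v, hv⟩, by omega⟩
      rw [hz]
  · rw [XBas_orA_neg o _ fun h => hρ ⟨h.1, h.2.1⟩]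
    refine Finset.sum_eq_zero fun v _ => ?_
    rw [XBas_orA_neg o _ fun h => hρ ⟨h.1, h.2.1⟩, map_zero]

end Pool.Agent.ChG
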