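import Pool.Agent.ChG.XBas
import Pool.Agent.ChG.RowK

/-!
# Exactness of the rows and columns of the double complex

`K.exists_reps` gives a finite set `R` of representatives: every simplex is `γ • A` for exactly one pair
`(γ, A)` with `A ∈ R` (`AffineTriangulation.Reps`).

`row_ex`: for `A ∈ R` with `A.card = q` apply `rowK` to `I = A`, the abelian group `C.L A` and the family
`ρ ↦ c ρ A` (if `t < q` then `c = 0`); let `e_A` be the result.  For `I = γ • A`, `ρ ∈ K.faces`, `I ⊆ ρ`,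
`ρ.card = t + 1` put `e ρ I = act γ (e_A (γ⁻¹ • ρ))`, and `0` otherwise.  `e` is equivariant, and
`dl o e = c` by equivariance (`nb_smul`, `sg_smul`).
`row_top`: the same with `rowK_top`; `a I = chZ γ • act γ (a_A)`; equivariance of `a` by uniqueness
(`orZ` is `± 1`, every simplex is contained in a chamber) or by construction.
`col_ex`: for `A ∈ R` with `A.card = t` apply `ColEx` to `ρ = A` and `I ↦ c A I`; let `b_A` be the result,
and `e (γ • A) J = act γ (b_A (γ⁻¹ • J))` if `J ⊆ γ • A`, `J.card = q`, and `0` otherwise.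
-/

namespace Pool.Agent.ChG

open Matrix Pool.Agent.ChP Pool.Agent.ChS
open scoped Pointwise

variable {n : ℕ} {K : AffineTriangulation n} {F M : Type} [Field F] [AddCommGroup M] [Module F M]

/-! ### Auxiliary facts -/

/-- an equivariant choice of group elements on the simplices -/
private theorem XEq_section (K : AffineTriangulation n) :
    ∃ g : Finset K.V → K.Γ, ∀ I ∈ K.faces, ∀ γ : K.Γ, g (γ • I) = γ * g I := by
  obtain ⟨R, hR⟩ := K.exists_reps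
  have hp : ∀ τ : Finset K.V, ∃ p : K.Γ × Finset K.V, τ ∈ K.faces →
      (p.2 ∈ R ∧ p.1 • p.2 = τ) ∧ ∀ q : K.Γ × Finset K.V, q.2 ∈ R ∧ q.1 • q.2 = τ → q = p := by
    intro τ
    by_cases hτ : τ ∈ K.faces
    · obtain ⟨p, hp1, hp2⟩ := hR.2 τ hτ
      exact ⟨p, fun _ => ⟨hp1, hp2⟩⟩
    · exact ⟨(1, τ), fun h => absurd h hτ⟩
  choose p hp using hp
  refine ⟨fun I => (p I).1, fun I hI γ => ?_⟩
  have h1 := hp I hI
  have h2 := hp (γ • I) (K.smul_mem γ I hI)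
  have h3 := h2.2 (γ * (p I).1, (p I).2) ⟨h1.1.1, by
    show (γ * (p I).1) • (p I).2 = γ • I
    rw [mul_smul, h1.1.2]⟩
  show (p (γ • I)).1 = γ * (p I).1
  rw [← h3]

private theorem XEq_card_insert {ρ : Finset K.V} {v : K.V} (hv : v ∉ ρ) :
    (insert v ρ).card = ρ.card + 1 := Finset.card_insert_of_notMem hv

private theorem XEq_smul_subset (γ : K.Γ) (ρ I : Finset K.V) : γ • I ⊆ γ • ρ ↔ I ⊆ ρ :=
  Finset.smul_finset_subset_smul_finset_iff

private theorem XEq_sum_smul {A : Type} [AddCommMonoid A] (γ : K.Γ) (s : Finset K.V)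
    (f : K.V → A) : ∑ v ∈ γ • s, f v = ∑ v ∈ s, f (γ • v) := by
  have h : γ • s = s.image fun v => γ • v := rfl
  rw [h, Finset.sum_image]
  intro a _ b _ hab
  exact MulAction.injective γ hab

private theorem XEq_insert_smul (γ : K.Γ) (v : K.V) (s : Finset K.V) :
    insert (γ • v) (γ • s) = γ • insert v s := (Finset.smul_finset_insert γ v s).symm

private theorem XEq_erase_smul (γ : K.Γ) (v : K.V) (s : Finset K.V) :
    (γ • s).erase (γ • v) = γ • s.erase v := by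
  ext x
  rw [Finset.mem_erase, Finset.mem_smul_finset, Finset.mem_smul_finset]
  constructor
  · rintro ⟨hx, y, hy, rfl⟩
    exact ⟨y, Finset.mem_erase.2 ⟨fun h => hx (by rw [h]), hy⟩, rfl⟩
  · rintro ⟨y, hy, rfl⟩
    rw [Finset.mem_erase] at hy
    exact ⟨fun h => hy.1 (MulAction.injective γ h), y, hy.2, rfl⟩

private theorem XEq_dl_pos (o : Lab K) (c : Finset K.V → Finset K.V → M) {ρ I : Finset K.V}
    (hρ : ρ ∈ K.faces) (hI : I ⊆ ρ) :
    dl o c ρ I = bd o (fun ρ' => c ρ' I) ρ := by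
  unfold dl
  rw [if_pos ⟨hρ, hI⟩]

private theorem XEq_dl_neg (o : Lab K) (c : Finset K.V → Finset K.V → M) {ρ I : Finset K.V}
    (h : ¬ (ρ ∈ K.faces ∧ I ⊆ ρ)) : dl o c ρ I = 0 := by
  unfold dl
  rw [if_neg h]

private theorem XEq_dd_pos (C : Coef K F M) (c : Finset K.V → Finset K.V → M)
    {ρ I : Finset K.V} (hI : I ⊆ ρ) :
    dd C c ρ I = dcol C (c ρ) I := by
  unfold dd
  rw [if_pos hI]

private theorem XEq_dd_neg (C : Coef K F M) (c : Finset K.V → Finset K.V → M)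
    {ρ I : Finset K.V} (hI : ¬ I ⊆ ρ) : dd C c ρ I = 0 := by
  unfold dd
  rw [if_neg hI]

private theorem XEq_bd_act (o : Lab K) (C : Coef K F M) (γ : K.Γ) (f : Finset K.V → M)
    {ρ : Finset K.V} (hρ : ρ ∈ K.faces) :
    bd o (fun ρ' => C.act γ (f (γ⁻¹ • ρ'))) (γ • ρ) = C.act γ (bd o f ρ) := by
  unfold bd
  rw [nb_smul γ hρ, XEq_sum_smul, map_sum]
  refine Finset.sum_congr rfl fun v _ => ?_
  rw [sg_smul, XEq_insert_smul, map_zsmul]
  show sg o.lab v ρ • C.act γ (f (γ⁻¹ • γ • insert v ρ)) = _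
  rw [inv_smul_smul]

private theorem XEq_dcol_act (C : Coef K F M) (γ : K.Γ) (f : Finset K.V → M)
    (I : Finset K.V) :
    dcol C (fun J => C.act γ (f (γ⁻¹ • J))) (γ • I) = C.act γ (dcol C f I) := by
  unfold dcol
  rw [XEq_sum_smul, map_sum]
  refine Finset.sum_congr rfl fun v _ => ?_
  rw [XEq_erase_smul, C.D_act]
  show C.D (γ • v) (γ • I.erase v) (C.act γ (f (γ⁻¹ • γ • I.erase v))) = _
  rw [inv_smul_smul]

/-- families which are chosen on the representatives of the first argument -/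
private theorem XEq_equiv (C : Coef K F M) (P : Finset K.V → Prop)
    (Q : Finset K.V → (Finset K.V → M) → Prop)
    (hP : ∀ A, P A → A ∈ K.faces) (hPs : ∀ (γ : K.Γ) A, P A → P (γ • A))
    (hQs : ∀ (γ : K.Γ) A (f : Finset K.V → M), P A → Q A f →
      Q (γ • A) (fun B => C.act γ (f (γ⁻¹ • B))))
    (hex : ∀ A, P A → ∃ f, Q A f) :
    ∃ W : Finset K.V → Finset K.V → M, (∀ A, P A → Q A (W A)) ∧
      ∀ (γ : K.Γ) A B, P A → W (γ • A) (γ • B) = C.act γ (W A B) := by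
  obtain ⟨g, hg⟩ := XEq_section K
  have h1 : ∀ A, ∃ f, P A → Q A f := by
    intro A
    by_cases h : P A
    · obtain ⟨f, hf⟩ := hex A h
      exact ⟨f, fun _ => hf⟩
    · exact ⟨0, fun h' => absurd h' h⟩
  choose E hE using h1
  refine ⟨fun A B => C.act (g A) (E ((g A)⁻¹ • A) ((g A)⁻¹ • B)), fun A hA => ?_,
    fun γ A B hA => ?_⟩
  · have h2 : P ((g A)⁻¹ • A) := hPs _ _ hA
    have h3 := hQs (g A) _ _ h2 (hE _ h2)
    rwa [smul_inv_smul] at h3
  · show C.act (g (γ • A)) (E ((g (γ • A))⁻¹ • γ • A) ((g (γ • A))⁻¹ • γ • B)) =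
      C.act γ (C.act (g A) (E ((g A)⁻¹ • A) ((g A)⁻¹ • B)))
    rw [hg A (hP A hA) γ, _root_.mul_inv_rev, mul_smul, mul_smul, inv_smul_smul, inv_smul_smul, map_mul]
    rfl

theorem row_ex (o : Lab K) (C : Coef K F M) {t q : ℕ} (hq : 0 < q) (ht : t ≤ n)
    {c : Finset K.V → Finset K.V → M} (hc : c ∈ Xsp C t q) (h0 : dl o c = 0) :
    ∃ e ∈ Xsp C (t + 1) q, dl o e = c := by
  classical
  obtain ⟨h1, h2, h3⟩ := hc
  obtain ⟨W, hW, hWs⟩ := XEq_equiv C (fun I => I ∈ K.faces ∧ I.card = q)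
    (fun I f => (∀ ρ, f ρ ∈ C.L I) ∧ ∀ ρ ∈ K.faces, I ⊆ ρ → ρ.card = t → bd o f ρ = c ρ I)
    (fun A hA => hA.1)
    (fun γ A hA => ⟨K.smul_mem γ A hA.1, by rw [Finset.card_smul_finset]; exact hA.2⟩)
    (by
      rintro γ A f hA ⟨hf1, hf2⟩
      refine ⟨fun ρ => C.act_L γ A _ (hf1 _), fun ρ hρ hAρ hρt => ?_⟩
      obtain ⟨ρ', rfl⟩ : ∃ ρ', ρ = γ • ρ' := ⟨γ⁻¹ • ρ, by rw [smul_inv_smul]⟩
      rw [smul_mem_faces] at hρ
      rw [XEq_smul_subset] at hAρ
      rw [Finset.card_smul_finset] at hρt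
      rw [XEq_bd_act o C γ f hρ, hf2 ρ' hρ hAρ hρt, h3])
    (by
      rintro I ⟨hI, hIq⟩
      by_cases hqt : q ≤ t
      · obtain ⟨e, he⟩ := rowK o hI (A := C.L I) ht (by omega) (fun ρ => ⟨c ρ I, h1 ρ I⟩) (by
          intro ρ hρ hIρ _
          have h4 : dl o c ρ I = 0 := by rw [h0]; rfl
          rw [XEq_dl_pos o c hρ hIρ] at h4
          apply Subtype.ext
          rw [← Submodule.subtype_apply]
          unfold bd at h4 ⊢
          rw [map_sum]
          simp only [map_zsmul, Submodule.subtype_apply]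
          exact h4)
        refine ⟨fun ρ => (e ρ : M), fun ρ => (e ρ).2, fun ρ hρ hIρ hρt => ?_⟩
        have h5 := congrArg (C.L I).subtype (he ρ hρ hIρ hρt)
        unfold bd at h5 ⊢
        rw [map_sum] at h5
        simp only [map_zsmul, Submodule.subtype_apply] at h5
        exact h5
      · refine ⟨0, fun ρ => (C.L I).zero_mem, fun ρ hρ hIρ hρt => ?_⟩
        exact absurd (Finset.card_le_card hIρ) (by omega))
  refine ⟨fun ρ I => if ρ ∈ K.faces ∧ ρ.card = t + 1 ∧ I ⊆ ρ ∧ I.card = q then W I ρ else 0,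
    ⟨fun ρ I => ?_, fun ρ I h => if_neg h, fun γ ρ I => ?_⟩, ?_⟩
  · show (if ρ ∈ K.faces ∧ ρ.card = t + 1 ∧ I ⊆ ρ ∧ I.card = q then W I ρ else 0) ∈ C.L I
    split_ifs with h
    · have hI : I ∈ K.faces := K.down_closed ρ h.1 I h.2.2.1 (Finset.card_pos.1 (by omega))
      exact (hW I ⟨hI, h.2.2.2⟩).1 ρ
    · exact (C.L I).zero_mem
  · show (if γ • ρ ∈ K.faces ∧ (γ • ρ).card = t + 1 ∧ γ • I ⊆ γ • ρ ∧ (γ • I).card = q
      then W (γ • I) (γ • ρ) else 0) =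
      C.act γ (if ρ ∈ K.faces ∧ ρ.card = t + 1 ∧ I ⊆ ρ ∧ I.card = q then W I ρ else 0)
    have hiff : (γ • ρ ∈ K.faces ∧ (γ • ρ).card = t + 1 ∧ γ • I ⊆ γ • ρ ∧ (γ • I).card = q) ↔
        (ρ ∈ K.faces ∧ ρ.card = t + 1 ∧ I ⊆ ρ ∧ I.card = q) := by
      rw [smul_mem_faces, XEq_smul_subset, Finset.card_smul_finset, Finset.card_smul_finset]
    by_cases h : ρ ∈ K.faces ∧ ρ.card = t + 1 ∧ I ⊆ ρ ∧ I.card = q
    · rw [if_pos h, if_pos (hiff.2 h)]
      have hI : I ∈ K.faces := K.down_closed ρ h.1 I h.2.2.1 (Finset.card_pos.1 (by omega))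
      exact hWs γ I ρ ⟨hI, h.2.2.2⟩
    · rw [if_neg h, if_neg (fun h' => h (hiff.1 h')), map_zero]
  · funext ρ I
    by_cases hh : ρ ∈ K.faces ∧ I ⊆ ρ
    swap
    · rw [XEq_dl_neg o _ hh, h2]
      exact fun h => hh ⟨h.1, h.2.2.1⟩
    rw [XEq_dl_pos o _ hh.1 hh.2]
    by_cases hk : ρ.card = t ∧ I.card = q
    · have hI : I ∈ K.faces := K.down_closed ρ hh.1 I hh.2 (Finset.card_pos.1 (by omega))
      rw [← (hW I ⟨hI, hk.2⟩).2 ρ hh.1 hh.2 hk.1]
      unfold bd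
      refine Finset.sum_congr rfl fun v hv => ?_
      rw [mem_nb hh.1] at hv
      dsimp only
      rw [if_pos ⟨hv.2, by rw [XEq_card_insert hv.1, hk.1],
        hh.2.trans (Finset.subset_insert v ρ), hk.2⟩]
    · rw [h2 ρ I (fun h => hk ⟨h.2.1, h.2.2.2⟩)]
      unfold bd
      refine Finset.sum_eq_zero fun v hv => ?_
      rw [mem_nb hh.1] at hv
      dsimp only
      rw [if_neg, smul_zero]
      rintro ⟨-, h4, -, h5⟩
      rw [XEq_card_insert hv.1] at h4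
      exact hk ⟨by omega, h5⟩

theorem row_top (o : Lab K) (C : Coef K F M) {q : ℕ} (hq : 0 < q)
    {c : Finset K.V → Finset K.V → M} (hc : c ∈ Xsp C (n + 1) q) (h0 : dl o c = 0) :
    ∃ a ∈ Asp C q, c = orA o a := by
  classical
  obtain ⟨h1, h2, h3⟩ := hc
  have hex : ∀ I : Finset K.V, ∃ x : M, x ∈ C.L I ∧ (¬ (I ∈ K.faces ∧ I.card = q) → x = 0) ∧
      (I ∈ K.faces ∧ I.card = q →
        ∀ σ ∈ K.faces, I ⊆ σ → σ.card = n + 1 → c σ I = orZ o σ • x) := by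
    intro I
    by_cases hI : I ∈ K.faces ∧ I.card = q
    · obtain ⟨a, ha⟩ := rowK_top o hI.1 (A := C.L I) (fun ρ => ⟨c ρ I, h1 ρ I⟩) (by
        intro ρ hρ hIρ _
        have h4 : dl o c ρ I = 0 := by rw [h0]; rfl
        rw [XEq_dl_pos o c hρ hIρ] at h4
        apply Subtype.ext
        rw [← Submodule.subtype_apply]
        unfold bd at h4 ⊢
        rw [map_sum]
        simp only [map_zsmul, Submodule.subtype_apply]
        exact h4)
      refine ⟨(a : M), a.2, fun h => absurd hI h, fun _ σ hσ hIσ hσn => ?_⟩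
      have h5 := congrArg (C.L I).subtype (ha σ hσ hIσ hσn)
      rw [map_zsmul] at h5
      exact h5
    · exact ⟨0, (C.L I).zero_mem, fun _ => rfl, fun h => absurd h hI⟩
  choose a ha1 ha2 ha3 using hex
  refine ⟨a, ⟨ha1, ha2, fun γ I => ?_⟩, ?_⟩
  · show a (γ • I) = chZ K γ • C.act γ (a I)
    by_cases hI : I ∈ K.faces ∧ I.card = q
    · obtain ⟨σ, hσ, hsub, hcard⟩ := K.exists_top hI.1
      have h4 := ha3 I hI σ hσ hsub hcard
      have h5 := ha3 (γ • I) ⟨K.smul_mem γ I hI.1, by rw [Finset.card_smul_finset]; exact hI.2⟩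
        (γ • σ) (K.smul_mem γ σ hσ) ((XEq_smul_subset γ σ I).2 hsub)
        (by rw [Finset.card_smul_finset]; exact hcard)
      rw [h3, h4, orZ_smul o γ hσ hcard, map_zsmul] at h5
      have h6 := congrArg (fun x => (chZ K γ * orZ o σ) • x) h5
      simp only [smul_smul] at h6
      have e1 : chZ K γ * orZ o σ * orZ o σ = chZ K γ := by
        rw [mul_assoc, orZ_mul_self o hσ hcard, mul_one]
      have e2 : chZ K γ * orZ o σ * (chZ K γ * orZ o σ) = 1 := by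
        calc chZ K γ * orZ o σ * (chZ K γ * orZ o σ) =
            (chZ K γ * chZ K γ) * (orZ o σ * orZ o σ) := by ring
          _ = 1 := by rw [chZ_mul_self, orZ_mul_self o hσ hcard, mul_one]
      rw [e1, e2, one_smul] at h6
      exact h6.symm
    · rw [ha2 I hI, ha2, map_zero, smul_zero]
      rwa [smul_mem_faces, Finset.card_smul_finset]
  · funext σ I
    unfold orA
    by_cases hh : σ ∈ K.faces ∧ σ.card = n + 1 ∧ I ⊆ σ
    · rw [if_pos hh]
      by_cases hI : I.card = q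
      · have hI' : I ∈ K.faces :=
          K.down_closed σ hh.1 I hh.2.2 (Finset.card_pos.1 (by omega))
        exact ha3 I ⟨hI', hI⟩ σ hh.1 hh.2.2 hh.2.1
      · rw [ha2 I (fun h => hI h.2), smul_zero, h2]
        exact fun h => hI h.2.2.2
    · rw [if_neg hh, h2]
      exact fun h => hh ⟨h.1, h.2.1, h.2.2.1⟩

private theorem XEq_col (C : Coef K F M) {t q : ℕ}
    {c : Finset K.V → Finset K.V → M} (hc : c ∈ Xsp C t (q + 1))
    (hb : ∀ ρ ∈ K.faces, ρ.card = t → ∃ b : Finset K.V → M, (∀ J, b J ∈ C.L J) ∧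
      ∀ I ⊆ ρ, I.card = q + 1 → dcol C b I = c ρ I) :
    ∃ e ∈ Xsp C t q, dd C e = c := by
  classical
  obtain ⟨h1, h2, h3⟩ := hc
  obtain ⟨W, hW, hWs⟩ := XEq_equiv C (fun ρ => ρ ∈ K.faces ∧ ρ.card = t)
    (fun ρ f => (∀ J, f J ∈ C.L J) ∧ ∀ I ⊆ ρ, I.card = q + 1 → dcol C f I = c ρ I)
    (fun A hA => hA.1)
    (fun γ A hA => ⟨K.smul_mem γ A hA.1, by rw [Finset.card_smul_finset]; exact hA.2⟩)
    (by
      rintro γ A f hA ⟨hf1, hf2⟩
      refine ⟨fun J => ?_, fun I hIA hIq => ?_⟩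
      · have h4 := C.act_L γ (γ⁻¹ • J) _ (hf1 _)
        rwa [smul_inv_smul] at h4
      · obtain ⟨I', rfl⟩ : ∃ I', I = γ • I' := ⟨γ⁻¹ • I, by rw [smul_inv_smul]⟩
        rw [XEq_smul_subset] at hIA
        rw [Finset.card_smul_finset] at hIq
        rw [XEq_dcol_act, hf2 I' hIA hIq, h3])
    (fun ρ hρ => hb ρ hρ.1 hρ.2)
  refine ⟨fun ρ I => if ρ ∈ K.faces ∧ ρ.card = t ∧ I ⊆ ρ ∧ I.card = q then W ρ I else 0,
    ⟨fun ρ I => ?_, fun ρ I h => if_neg h, fun γ ρ I => ?_⟩, ?_⟩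
  · show (if ρ ∈ K.faces ∧ ρ.card = t ∧ I ⊆ ρ ∧ I.card = q then W ρ I else 0) ∈ C.L I
    split_ifs with h
    · exact (hW ρ ⟨h.1, h.2.1⟩).1 I
    · exact (C.L I).zero_mem
  · show (if γ • ρ ∈ K.faces ∧ (γ • ρ).card = t ∧ γ • I ⊆ γ • ρ ∧ (γ • I).card = q
      then W (γ • ρ) (γ • I) else 0) =
      C.act γ (if ρ ∈ K.faces ∧ ρ.card = t ∧ I ⊆ ρ ∧ I.card = q then W ρ I else 0)
    have hiff : (γ • ρ ∈ K.faces ∧ (γ • ρ).card = t ∧ γ • I ⊆ γ • ρ ∧ (γ • I).card = q) ↔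
        (ρ ∈ K.faces ∧ ρ.card = t ∧ I ⊆ ρ ∧ I.card = q) := by
      rw [smul_mem_faces, XEq_smul_subset, Finset.card_smul_finset, Finset.card_smul_finset]
    by_cases h : ρ ∈ K.faces ∧ ρ.card = t ∧ I ⊆ ρ ∧ I.card = q
    · rw [if_pos h, if_pos (hiff.2 h)]
      exact hWs γ ρ I ⟨h.1, h.2.1⟩
    · rw [if_neg h, if_neg (fun h' => h (hiff.1 h')), map_zero]
  · funext ρ I
    by_cases hI : I ⊆ ρ
    swap
    · rw [XEq_dd_neg C _ hI, h2]
      exact fun h => hI h.2.2.1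
    rw [XEq_dd_pos C _ hI]
    by_cases hk : ρ ∈ K.faces ∧ ρ.card = t ∧ I.card = q + 1
    · rw [← (hW ρ ⟨hk.1, hk.2.1⟩).2 I hI hk.2.2]
      unfold dcol
      refine Finset.sum_congr rfl fun v hv => ?_
      dsimp only
      rw [if_pos ⟨hk.1, hk.2.1, (Finset.erase_subset v I).trans hI, by
        rw [Finset.card_erase_of_mem hv]; omega⟩]
    · rw [h2 ρ I (fun h => hk ⟨h.1, h.2.1, h.2.2.2⟩)]
      unfold dcol
      refine Finset.sum_eq_zero fun v hv => ?_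
      dsimp only
      rw [if_neg, map_zero]
      rintro ⟨h4, h5, -, h6⟩
      rw [Finset.card_erase_of_mem hv] at h6
      have hpos : 0 < I.card := Finset.card_pos.2 ⟨v, hv⟩
      exact hk ⟨h4, h5, by omega⟩

theorem col_ex (C : Coef K F M) {t q : ℕ} (hcol : ColEx C t (q + 1))
    {c : Finset K.V → Finset K.V → M} (hc : c ∈ Xsp C t (q + 1)) (h0 : dd C c = 0) :
    ∃ e ∈ Xsp C t q, dd C e = c := by
  refine XEq_col C hc fun ρ hρ hρt => ?_
  refine (hcol ρ hρ hρt (c ρ) (fun I => hc.1 ρ I) fun I hI _ => ?_).2 (Nat.succ_pos q)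
  have h4 : dd C c ρ I = 0 := by rw [h0]; rfl
  rwa [XEq_dd_pos C c hI] at h4

theorem col_ex_zero (C : Coef K F M) {t : ℕ} (hcol : ColEx C t 0)
    {c : Finset K.V → Finset K.V → M} (hc : c ∈ Xsp C t 0) (h0 : dd C c = 0) : c = 0 := by
  funext ρ I
  rw [Pi.zero_apply, Pi.zero_apply]
  by_cases h : ρ ∈ K.faces ∧ ρ.card = t ∧ I ⊆ ρ ∧ I.card = 0
  · obtain ⟨hρ, hρt, -, hI0⟩ := h
    rw [Finset.card_eq_zero] at hI0
    rw [hI0]
    refine (hcol ρ hρ hρt (c ρ) (fun I => hc.1 ρ I) fun J hJ _ => ?_).1 rfl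
    have h4 : dd C c ρ J = 0 := by rw [h0]; rfl
    rwa [XEq_dd_pos C c hJ] at h4
  · exact hc.2.1 ρ I h

/-- a locally exact family is exact on the chambers -/
theorem loc_ex (o : Lab K) (C : Coef K F M) {j : ℕ} {z : Finset K.V → M} (hz : z ∈ ZG C j) :
    ∃ e ∈ Xsp C (n + 1) j, dd C e = orA o z := by
  obtain ⟨hz1, hz2⟩ := hz
  refine XEq_col C (orA_mem o C hz1) fun ρ hρ hρn => ?_
  obtain ⟨b, hb1, hb2⟩ := hz2 ρ hρ hρn
  refine ⟨fun J => orZ o ρ • b J, fun J => zsmul_mem (hb1 J) _, fun I hI hIj => ?_⟩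
  unfold orA
  rw [if_pos ⟨hρ, hρn, hI⟩, ← hb2 I hI hIj]
  unfold dcol
  rw [Finset.smul_sum]
  refine Finset.sum_congr rfl fun v _ => ?_
  rw [map_zsmul]

end Pool.Agent.ChG
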